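import Pool.Agent.MP_4a6971_al.H66.Lor
import Pool.Agent.MP_4a6971_al.H66.Rep
import Mathlib

-- part MP_4a6971_al.H66.Lines
section

/-!
Lines in coordinates adapted to a translation.
-/

namespace Pool.Agent.MP_4a6971_al.H66

open Real

theorem dil_aux (t : ℝ) : (exp (-t / 2) * exp (t / 2) - 0 * 0) ^ 2 = 1 := by
  rw [← exp_add, show -t / 2 + t / 2 = 0 by ring]
  simp

/-- The standard translations. -/
noncomputable def dil (t : ℝ) : Isom := (exists_isom (dil_aux t)).choose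

theorem dil_smul (t : ℝ) (Q : V) : dil t • Q = (Q.1 * exp (-t), Q.2.1, Q.2.2 * exp t) := by
  rw [dil, (exists_isom (dil_aux t)).choose_spec, act_apply]
  have h1 : exp (-t / 2) ^ 2 = exp (-t) := by rw [sq, ← exp_add]; congr 1; ring
  have h2 : exp (t / 2) ^ 2 = exp t := by rw [sq, ← exp_add]; congr 1; ring
  have h3 : exp (-t / 2) * exp (t / 2) = 1 := by rw [← exp_add, show -t / 2 + t / 2 = 0 by ring]; simp
  rw [h1, h2, h3]
  simp

theorem dil_add (t t' : ℝ) : dil (t + t') = dil t * dil t' := isom_ext fun P => by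
  rw [mul_smul, dil_smul, dil_smul, dil_smul, neg_add, exp_add, exp_add]
  ext <;> simp only <;> ring

theorem dil_zero : dil 0 = 1 := isom_ext fun P => by simp [dil_smul]

theorem dil_neg (t : ℝ) : dil (-t) = (dil t)⁻¹ :=
  eq_inv_of_mul_eq_one_left (by rw [← dil_add, neg_add_cancel, dil_zero])

theorem dil_zpow (t : ℝ) (k : ℤ) : dil t ^ k = dil (k * t) := by
  induction k using Int.induction_on with
  | zero => simp [dil_zero]
  | succ n ih => rw [zpow_add_one, ih, ← dil_add]; congr 1; push_cast; ring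
  | pred n ih => rw [zpow_sub_one, ih, ← dil_neg, ← dil_add]; congr 1; push_cast; ring

theorem flp_aux : ((-1 : ℝ) * 1 - 0 * 0) ^ 2 = 1 := by norm_num

/-- The reflection in the standard axis. -/
noncomputable def flp : Isom := (exists_isom flp_aux).choose

theorem flp_smul (Q : V) : flp • Q = (Q.1, -Q.2.1, Q.2.2) := by
  rw [flp, (exists_isom flp_aux).choose_spec, act_apply]
  simp

theorem flp_flp (Q : V) : flp • flp • Q = Q := by simp [flp_smul]

theorem flp_dil (t : ℝ) (Q : V) : flp • dil t • Q = dil t • flp • Q := by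
  simp [flp_smul, dil_smul]

/-- The standard axis. -/
def E0 : V := (0, 1, 0)

theorem Bf_E0 (F : V) : Bf E0 F = F.2.1 := by simp [Bf, E0]

/-- Two lines cross. -/
def Cr (E F : V) : Prop := Bf E F ^ 2 < 1

theorem Cr.symm {E F : V} (h : Cr E F) : Cr F E := by rwa [Cr, Bf_comm]

theorem cr_comm {E F : V} : Cr E F ↔ Cr F E := ⟨Cr.symm, Cr.symm⟩

@[simp] theorem cr_isom (f : Isom) (E F : V) : Cr (f • E) (f • F) ↔ Cr E F := by simp [Cr]

@[simp] theorem cr_neg_left (E F : V) : Cr (-E) F ↔ Cr E F := by simp [Cr]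

@[simp] theorem cr_neg_right (E F : V) : Cr E (-F) ↔ Cr E F := by simp [Cr]

theorem cr_move (f : Isom) (E F : V) : Cr (f • E) F ↔ Cr E (f⁻¹ • F) := by rw [Cr, Bf_move, Cr]

theorem not_cr_self {E : V} (h : Bf E E = 1) : ¬ Cr E E := by simp [Cr, h]

/-- The line with end points `s` and `t`. -/
noncomputable def line (s t : ℝ) : V := (2 / (t - s), -(s + t) / (t - s), 2 * s * t / (t - s))

/-- `F` is the line with end points `s < t`. -/
def Ln (F : V) (s t : ℝ) : Prop := s < t ∧ (F = line s t ∨ F = -line s t)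

/-- The value of a form. -/
def ev (Z : V) (r : ℝ) : ℝ := Z.1 * r ^ 2 + 2 * Z.2.1 * r + Z.2.2

theorem ev_neg (Z : V) (r : ℝ) : ev (-Z) r = -ev Z r := by simp [ev]; ring

theorem ev_line {s t : ℝ} (h : s < t) (r : ℝ) :
    ev (line s t) r = 2 / (t - s) * ((r - s) * (r - t)) := by
  have : t - s ≠ 0 := by linarith
  simp only [ev, line]
  field_simp
  ring

theorem Ln.unit {F : V} {s t : ℝ} (h : Ln F s t) : Bf F F = 1 := by
  have : t - s ≠ 0 := by linarith [h.1]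
  have e : Bf (line s t) (line s t) = 1 := by
    simp only [Bf, line]
    field_simp
    ring
  rcases h.2 with rfl | rfl <;> simpa using e

theorem Ln.cr_iff {F Z : V} {s t : ℝ} (h : Ln F s t) (hZ : Bf Z Z = 1) :
    Cr Z F ↔ ev Z s * ev Z t < 0 := by
  have h0 : 0 < t - s := by linarith [h.1]
  have e : ev Z s * ev Z t = (t - s) ^ 2 * (Bf Z (line s t) ^ 2 - 1) := by
    simp only [Bf, line, ev] at *
    field_simp
    linear_combination (-(t - s) ^ 2) * hZ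
  have e2 : Cr Z F ↔ Cr Z (line s t) := by rcases h.2 with rfl | rfl <;> simp
  rw [e2, e, Cr]
  constructor
  · intro h1
    exact mul_neg_of_pos_of_neg (by positivity) (by linarith)
  · intro h1
    by_contra! h2
    exact absurd h1 (not_lt.2 (mul_nonneg (by positivity) (by linarith)))

theorem Ln.cr {F F' : V} {s t s' t' : ℝ} (h : Ln F s t) (h' : Ln F' s' t') :
    Cr F F' ↔ (s' - s) * (s' - t) * ((t' - s) * (t' - t)) < 0 := by
  have h0 : 0 < t - s := by linarith [h.1]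
  have e : ev F s' * ev F t' = (2 / (t - s)) ^ 2 * ((s' - s) * (s' - t) * ((t' - s) * (t' - t))) := by
    rcases h.2 with rfl | rfl <;> simp only [ev_neg, ev_line h.1] <;> ring
  rw [h'.cr_iff h.unit, e]
  constructor
  · intro h1
    by_contra! h2
    exact absurd h1 (not_lt.2 (mul_nonneg (by positivity) h2))
  · intro h1
    exact mul_neg_of_pos_of_neg (by positivity) h1

theorem exists_Ln {F : V} (hF : Bf F F = 1) (ha : F.1 ≠ 0) : ∃ s t, Ln F s t := by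
  obtain ⟨a, b, c⟩ := F
  simp only [Bf] at hF ha
  have hc : c = (b ^ 2 - 1) / a := by field_simp; linarith
  rcases lt_or_gt_of_ne ha with h | h
  · refine ⟨(-b + 1) / a, (-b - 1) / a, by rw [div_lt_div_right_of_neg h]; linarith, Or.inr ?_⟩
    rw [line, show (-b - 1) / a - (-b + 1) / a = -2 / a by ring, hc]
    ext <;> simp only [Prod.fst_neg, Prod.snd_neg] <;> field_simp <;> ring
  · refine ⟨(-b - 1) / a, (-b + 1) / a, by rw [div_lt_div_iff_of_pos_right h]; linarith, Or.inl ?_⟩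
    rw [line, show (-b + 1) / a - (-b - 1) / a = 2 / a by ring, hc]
    ext <;> simp only <;> field_simp <;> ring

theorem Ln.dil {F : V} {s t : ℝ} (h : Ln F s t) (τ : ℝ) :
    Ln (dil τ • F) (exp τ * s) (exp τ * t) := by
  have h0 : t - s ≠ 0 := by linarith [h.1]
  have h1 := exp_pos τ
  have e : H66.dil τ • line s t = line (exp τ * s) (exp τ * t) := by
    rw [dil_smul, line, line, exp_neg, ← mul_sub]
    ext <;> simp only <;> field_simp
  refine ⟨mul_lt_mul_of_pos_left h.1 h1, h.2.imp ?_ ?_⟩ <;> rintro rfl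
  · exact e
  · rw [smul_neg, e]

theorem Ln.flp {F : V} {s t : ℝ} (h : Ln F s t) : Ln (flp • F) (-t) (-s) := by
  have e : H66.flp • line s t = line (-t) (-s) := by
    rw [flp_smul, line, line, show -s - -t = t - s by ring]
    ext <;> simp only <;> ring
  refine ⟨neg_lt_neg h.1, h.2.imp ?_ ?_⟩ <;> rintro rfl
  · exact e
  · rw [smul_neg, e]

theorem Ln.sq_sub {F : V} {s t : ℝ} (h : Ln F s t) :
    (F.2.1 ^ 2 - 1) * (t - s) ^ 2 = 4 * (s * t) ∧ F.1 * F.2.1 * (t - s) ^ 2 = -2 * (s + t) := by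
  have h0 : t - s ≠ 0 := by linarith [h.1]
  rcases h.2 with rfl | rfl <;> simp only [line, Prod.fst_neg, Prod.snd_neg] <;> constructor <;>
    field_simp <;> ring

/-- A line crossing the standard axis, in logarithmic coordinates. -/
def LX (F : V) (P Q : ℝ) : Prop := Ln F (-exp P) (exp Q)

/-- A line on the positive side of the standard axis, in logarithmic coordinates. -/
def LP (F : V) (P Q : ℝ) : Prop := Ln F (exp P) (exp Q)

theorem Ln.cr0 {F : V} {s t : ℝ} (h : Ln F s t) : Cr E0 F ↔ s < 0 ∧ 0 < t := by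
  have h1 := h.sq_sub.1
  have h2 := h.1
  have h3 : 0 < (t - s) ^ 2 := by have := sub_pos.2 h2; positivity
  rw [Cr, Bf_E0]
  constructor
  · intro h4
    have : s * t < 0 := by nlinarith
    constructor <;> nlinarith
  · rintro ⟨h4, h5⟩
    nlinarith [mul_neg_of_neg_of_pos h4 h5]

theorem exists_LX {F : V} (hF : Bf F F = 1) (h : Cr E0 F) : ∃ P Q, LX F P Q := by
  obtain ⟨s, t, h1⟩ := exists_Ln hF (by
    intro ha
    rw [Cr, Bf_E0] at h
    simp only [Bf, ha] at hF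
    linarith)
  obtain ⟨h2, h3⟩ := h1.cr0.1 h
  exact ⟨log (-s), log t, by rwa [LX, exp_log (by linarith), exp_log h3, neg_neg]⟩

theorem LX.cr0 {F : V} {P Q : ℝ} (h : LX F P Q) : Cr E0 F :=
  (Ln.cr0 h).2 ⟨neg_neg_of_pos (exp_pos P), exp_pos Q⟩

theorem exists_LP {F : V} (hF : Bf F F = 1) (h : 1 < F.2.1 ^ 2) (h' : F.1 * F.2.1 < 0) :
    ∃ P Q, LP F P Q := by
  obtain ⟨s, t, h1⟩ := exists_Ln hF (by
    intro ha
    simp [ha] at h')
  obtain ⟨h2, h3⟩ := h1.sq_sub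
  have h4 := h1.1
  have h5 : 0 < (t - s) ^ 2 := by have := sub_pos.2 h4; positivity
  have h6 : 0 < s * t := by nlinarith
  have h7 : 0 < s + t := by nlinarith
  have h8 : 0 < s := by nlinarith
  exact ⟨log s, log t, by rwa [LP, exp_log h8, exp_log (by linarith)]⟩

theorem LX.dil {F : V} {P Q : ℝ} (h : LX F P Q) (τ : ℝ) : LX (dil τ • F) (P + τ) (Q + τ) := by
  have := Ln.dil h τ
  rwa [mul_neg, ← exp_add, ← exp_add, add_comm τ, add_comm τ] at this

theorem LP.dil {F : V} {P Q : ℝ} (h : LP F P Q) (τ : ℝ) : LP (dil τ • F) (P + τ) (Q + τ) := by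
  have := Ln.dil h τ
  rwa [← exp_add, ← exp_add, add_comm τ, add_comm τ] at this

theorem LX.flp {F : V} {P Q : ℝ} (h : LX F P Q) : LX (flp • F) Q P := by
  have := Ln.flp h
  rwa [neg_neg] at this

theorem LP.lt {F : V} {P Q : ℝ} (h : LP F P Q) : P < Q := exp_lt_exp.1 h.1

theorem exp_sub_mul_neg (a b c d : ℝ) :
    (exp a - exp b) * (exp c - exp d) < 0 ↔ (a - b) * (c - d) < 0 := by
  simp only [mul_neg_iff, sub_pos, sub_neg, exp_lt_exp]

theorem neg_iff_of_pos {a b : ℝ} (h : 0 < a) : a * b < 0 ↔ b < 0 :=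
  ⟨fun h1 => by by_contra! h2; exact absurd h1 (not_lt.2 (mul_nonneg h.le h2)),
    mul_neg_of_pos_of_neg h⟩

theorem LX.cr {F F' : V} {P Q P' Q' : ℝ} (h : LX F P Q) (h' : LX F' P' Q') :
    Cr F F' ↔ (P - P') * (Q - Q') < 0 := by
  rw [Ln.cr h h', ← exp_sub_mul_neg, ← neg_iff_of_pos (b := (exp P - exp P') * (exp Q - exp Q'))
    (a := (exp P' + exp Q) * (exp Q' + exp P)) (by positivity)]
  exact iff_of_eq (congrArg (· < 0) (by ring))

theorem LX.crp {F F' : V} {P Q U U' : ℝ} (h : LX F P Q) (h' : LP F' U U') :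
    Cr F F' ↔ U < Q ∧ Q < U' := by
  have h1 := h'.lt
  have : (U - Q) * (U' - Q) < 0 ↔ U < Q ∧ Q < U' := by
    rw [mul_neg_iff]
    constructor
    · rintro (⟨a, b⟩ | ⟨a, b⟩) <;> constructor <;> linarith
    · rintro ⟨a, b⟩
      exact Or.inr ⟨by linarith, by linarith⟩
  rw [Ln.cr h h', ← this, ← exp_sub_mul_neg,
    ← neg_iff_of_pos (b := (exp U - exp Q) * (exp U' - exp Q))
    (a := (exp U + exp P) * (exp U' + exp P)) (by positivity)]
  exact iff_of_eq (congrArg (· < 0) (by ring))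

theorem LP.wander {F : V} {U U' τ : ℝ} (h : LP F U U') (hτ : 0 < τ)
    (hc : ¬ Cr (H66.dil τ • F) F) : U' ≤ U + τ := by
  by_contra! h1
  have h2 := h.lt
  refine hc ((Ln.cr (h.dil τ) h).2 ?_)
  have a1 : exp U - exp (U + τ) < 0 := sub_neg.2 (exp_lt_exp.2 (by linarith))
  have a2 : exp U - exp (U' + τ) < 0 := sub_neg.2 (exp_lt_exp.2 (by linarith))
  have a3 : 0 < exp U' - exp (U + τ) := sub_pos.2 (exp_lt_exp.2 h1)
  have a4 : exp U' - exp (U' + τ) < 0 := sub_neg.2 (exp_lt_exp.2 (by linarith))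
  exact mul_neg_of_pos_of_neg (mul_pos_of_neg_of_neg a1 a2) (mul_neg_of_pos_of_neg a3 a4)

theorem interleave {s t u u' : ℝ} (hu : u < u') (h : (u - s) * (u - t) * ((u' - s) * (u' - t)) < 0) :
    (u < s ∧ s < u') ∨ (u < t ∧ t < u') := by
  by_contra! hc
  have a : ∀ r, (u < r → u' ≤ r) → 0 ≤ (u - r) * (u' - r) := fun r hr => by
    rcases lt_or_ge u r with h1 | h1
    · exact mul_nonneg_of_nonpos_of_nonpos (by linarith) (by linarith [hr h1])
    · exact mul_nonneg (by linarith) (by linarith)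
  nlinarith [mul_nonneg (a s hc.1) (a t hc.2)]

theorem cr0_of_both {G F F' : V} {U U' T T' : ℝ} (hG : Bf G G = 1) (h : LP F U U')
    (h' : LP (flp • F') T T') (c : Cr G F) (c' : Cr G F') : Cr E0 G := by
  have h2 := Ln.flp h'
  rw [flp_flp] at h2
  have p1 := exp_pos U
  have p2 := exp_pos T
  have p3 : exp U < exp U' := h.1
  have p4 : exp T < exp T' := h'.1
  by_cases ha : G.1 = 0
  · exfalso
    rw [Ln.cr_iff h hG] at c
    rw [h2.cr_iff hG] at c'
    obtain ⟨a, b, d⟩ := G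
    simp only [Bf, ev] at *
    subst ha
    have hb : b = 1 ∨ b = -1 := mul_self_eq_one_iff.1 (by linarith)
    rcases hb with rfl | rfl
    · have : d < 0 := by nlinarith
      nlinarith
    · have : 0 < d := by nlinarith
      nlinarith
  · obtain ⟨s, t, h1⟩ := exists_Ln hG ha
    have h3 := h1.1
    rcases interleave p3 ((h1.cr h).1 c) with a | a <;>
      rcases interleave h2.1 ((h1.cr h2).1 c') with b | b <;>
      exact h1.cr0.2 ⟨by linarith [a.1, a.2, b.1, b.2], by linarith [a.1, a.2, b.1, b.2]⟩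

theorem core_W {τ : ℝ} (hτ : 0 < τ) {F F' G G' : V} {U U' T T' : ℝ} (N : ℤ) (hG : Bf G G = 1)
    (hG' : Bf G' G' = 1) (h : LP F U U') (h' : LP (flp • F') T T') (w : ¬ Cr (dil τ • F) F)
    (w' : ¬ Cr (dil τ • F') F') (c1 : Cr G F) (c2 : Cr G F') (c3 : Cr G' F)
    (c4 : Cr G' (dil (N * τ) • F')) :
    Cr E0 G ∧ Cr E0 G' ∧ ∀ k : ℤ, (k * (k - N) < 0 → Cr (dil (k * τ) • G) G') ∧
      (0 < k * (k - N) → ¬ Cr (dil (k * τ) • G) G') := by
  have h'' : LP (flp • dil (N * τ) • F') (T + N * τ) (T' + N * τ) := by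
    rw [flp_dil]
    exact h'.dil _
  have a1 := cr0_of_both hG h h' c1 c2
  have a2 := cr0_of_both hG' h h'' c3 c4
  refine ⟨a1, a2, fun k => ?_⟩
  obtain ⟨P, Q, l⟩ := exists_LX hG a1
  obtain ⟨P', Q', l'⟩ := exists_LX hG' a2
  obtain ⟨b1, b2⟩ := (l.crp h).1 c1
  obtain ⟨b3, b4⟩ := (l'.crp h).1 c3
  obtain ⟨b5, b6⟩ := (l.flp.crp h').1 (by simpa using c2)
  obtain ⟨b7, b8⟩ := (l'.flp.crp h'').1 (by simpa using c4)
  have b9 := h.wander hτ w
  have b10 := h'.wander hτ (by rwa [← flp_dil, cr_isom])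
  rw [(l.dil _).cr l']
  have q1 : 0 < k → 0 < Q + k * τ - Q' := fun hk => by
    have : (1 : ℝ) ≤ k := by exact_mod_cast hk
    nlinarith
  have q2 : k < 0 → Q + k * τ - Q' < 0 := fun hk => by
    have : (k : ℝ) ≤ -1 := by exact_mod_cast (by omega : k ≤ -1)
    nlinarith
  have q3 : 0 < k - N → 0 < P + k * τ - P' := fun hk => by
    have : (N : ℝ) + 1 ≤ k := by exact_mod_cast (by omega : N + 1 ≤ k)
    nlinarith
  have q4 : k - N < 0 → P + k * τ - P' < 0 := fun hk => by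
    have : (k : ℝ) + 1 ≤ N := by exact_mod_cast (by omega : k + 1 ≤ N)
    nlinarith
  constructor
  · intro hk
    rcases mul_neg_iff.1 hk with ⟨x, y⟩ | ⟨x, y⟩
    · exact mul_neg_of_neg_of_pos (q4 y) (q1 x)
    · exact mul_neg_of_pos_of_neg (q3 y) (q2 x)
  · intro hk
    rcases mul_pos_iff.1 hk with ⟨x, y⟩ | ⟨x, y⟩
    · exact not_lt.2 (mul_pos (q3 y) (q1 x)).le
    · exact not_lt.2 (mul_pos_of_neg_of_neg (q4 y) (q2 x)).le

theorem quad_nested {Z : V} {p1 p2 p3 q1 q2 q3 : ℝ} (h1 : p3 < p2) (h2 : p2 < p1) (h3 : p1 < q1)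
    (h4 : q1 < q2) (h5 : q2 < q3) (a : ev Z p1 * ev Z q1 < 0) (b : ev Z p3 * ev Z q3 < 0) :
    ev Z p2 * ev Z q2 < 0 := by
  have key : ∀ (Y : V) (x y z : ℝ), ev Y x * (z - y) + ev Y z * (y - x) - ev Y y * (z - x) =
      Y.1 * ((z - y) * (y - x) * (z - x)) := fun Y x y z => by simp only [ev]; ring
  have conv : ∀ (Y : V) (x y z : ℝ), x < y → y < z → 0 ≤ Y.1 →
      ev Y y * (z - x) ≤ ev Y x * (z - y) + ev Y z * (y - x) := fun Y x y z a1 a2 a3 => by
    have := key Y x y z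
    have : 0 ≤ Y.1 * ((z - y) * (y - x) * (z - x)) := by
      have := sub_pos.2 a1
      have := sub_pos.2 a2
      have := sub_pos.2 (a1.trans a2)
      positivity
    linarith
  have main : ∀ Y : V, 0 ≤ Y.1 → ev Y p1 * ev Y q1 < 0 → ev Y p3 * ev Y q3 < 0 →
      ev Y p2 * ev Y q2 < 0 := by
    intro Y hY a b
    rcases mul_neg_iff.1 a with ⟨x, y⟩ | ⟨x, y⟩
    · have d1 : 0 < ev Y p2 := by nlinarith [conv Y p2 p1 q1 h2 h3 hY]
      have d2 : 0 < ev Y p3 := by nlinarith [conv Y p3 p1 q1 (h1.trans h2) h3 hY]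
      have d3 : ev Y q3 < 0 := by nlinarith
      have d4 : ev Y q2 < 0 := by nlinarith [conv Y q1 q2 q3 h4 h5 hY]
      exact mul_neg_of_pos_of_neg d1 d4
    · have d1 : 0 < ev Y q2 := by nlinarith [conv Y p1 q1 q2 h3 h4 hY]
      have d2 : 0 < ev Y q3 := by nlinarith [conv Y p1 q1 q3 h3 (h4.trans h5) hY]
      have d3 : ev Y p3 < 0 := by nlinarith
      have d4 : ev Y p2 < 0 := by nlinarith [conv Y p3 p2 p1 h1 h2 hY]
      exact mul_neg_of_neg_of_pos d4 d1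
  rcases le_total 0 Z.1 with h | h
  · exact main Z h a b
  · simpa [ev_neg] using main (-Z) (by simpa using h) (by simpa [ev_neg] using a)
      (by simpa [ev_neg] using b)

theorem LX.nested {A B C Z : V} {P1 Q1 P2 Q2 P3 Q3 : ℝ} (hZ : Bf Z Z = 1) (a : LX A P1 Q1)
    (b : LX B P2 Q2) (c : LX C P3 Q3) (h1 : P1 < P2) (h2 : P2 < P3) (h3 : Q1 < Q2) (h4 : Q2 < Q3)
    (ha : Cr Z A) (hc : Cr Z C) : Cr Z B := by
  rw [Ln.cr_iff a hZ] at ha
  rw [Ln.cr_iff c hZ] at hc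
  rw [Ln.cr_iff b hZ]
  exact quad_nested (neg_lt_neg (exp_lt_exp.2 h2)) (neg_lt_neg (exp_lt_exp.2 h1)) a.1
    (exp_lt_exp.2 h3) (exp_lt_exp.2 h4) ha hc

end Pool.Agent.MP_4a6971_al.H66

end

-- part MP_4a6971_al.H66.Frames
section

/-!
Translations, their axes, and the wandering lemma.
-/

namespace Pool.Agent.MP_4a6971_al.H66

open Real

/-- `E` is the axis of `u`. -/
def IsAx (u : Isom) (E : V) : Prop := Bf E E = 1 ∧ u • E = E

/-- `f` conjugates `u` to a standard translation. -/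
structure Fr (u f : Isom) (t : ℝ) : Prop where
  pos : 0 < t
  eq : ∀ (k : ℤ) (X : V), f • u ^ k • X = dil (k * t) • f • X

/-- `u` is a nontrivial translation. -/
def Hyp (u : Isom) : Prop := ∃ (f : Isom) (t : ℝ), 0 < t ∧ u = f⁻¹ * dil t * f

variable {u v f : Isom} {t : ℝ} {A D E F F' G G' Z : V}

theorem Hyp.fr (h : Hyp u) : ∃ f t, Fr u f t := by
  obtain ⟨f, t, ht, rfl⟩ := h
  refine ⟨f, t, ht, fun k X => ?_⟩
  have : (f⁻¹ * dil t * f) ^ k = f⁻¹ * dil t ^ k * f := by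
    simpa using conj_zpow (a := f⁻¹) (b := dil t) (i := k)
  rw [this, dil_zpow, mul_smul, mul_smul, smul_inv_smul]

theorem Fr.one (h : Fr u f t) (X : V) : f • u • X = dil t • f • X := by simpa using h.eq 1 X

theorem Fr.inv (h : Fr u f t) (X : V) : f • u⁻¹ • X = dil (-t) • f • X := by
  simpa using h.eq (-1) X

theorem Fr.flp (h : Fr u f t) : Fr u (flp * f) t :=
  ⟨h.pos, fun k X => by rw [mul_smul, mul_smul, h.eq, flp_dil]⟩

theorem eq_E0_of_fix {τ : ℝ} (hτ : τ ≠ 0) (hF : Bf F F = 1) (h : dil τ • F = F ∨ dil τ • F = -F) :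
    F = E0 ∨ F = -E0 := by
  obtain ⟨a, b, c⟩ := F
  have h1 : exp τ ≠ 1 := by simpa using hτ
  have h2 : exp (-τ) ≠ 1 := by simpa using hτ
  have h3 := exp_pos τ
  have h4 := exp_pos (-τ)
  have : a = 0 ∧ c = 0 := by
    simp only [dil_smul, Prod.neg_mk, Prod.mk.injEq] at h
    rcases h with ⟨x, -, y⟩ | ⟨x, -, y⟩
    · exact ⟨by_contra fun h => h2 (mul_left_cancel₀ h (x.trans (mul_one a).symm)),
        by_contra fun h => h1 (mul_left_cancel₀ h (y.trans (mul_one c).symm))⟩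
    · exact ⟨(mul_eq_zero.1 (show a * (exp (-τ) + 1) = 0 by linarith)).resolve_right (by linarith),
        (mul_eq_zero.1 (show c * (exp τ + 1) = 0 by linarith)).resolve_right (by linarith)⟩
  obtain ⟨rfl, rfl⟩ := this
  simp only [Bf] at hF
  rcases mul_self_eq_one_iff.1 (show b * b = 1 by linarith) with rfl | rfl <;> simp [E0]

theorem flp_E0 : flp • E0 = -E0 := by simp [flp_smul, E0]

theorem Hyp.fr0 (h : Hyp u) (hE : IsAx u E) : ∃ f t, Fr u f t ∧ f • E = E0 := by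
  obtain ⟨f, t, hf⟩ := h.fr
  rcases eq_E0_of_fix hf.pos.ne' (F := f • E) (by simpa using hE.1)
    (Or.inl (by rw [← hf.one, hE.2])) with a | a
  · exact ⟨f, t, hf, a⟩
  · exact ⟨_, t, hf.flp, by rw [mul_smul, a, smul_neg, flp_E0, neg_neg]⟩

theorem Hyp.exists_ax (h : Hyp u) : ∃ E, IsAx u E := by
  obtain ⟨f, t, hf⟩ := h.fr
  refine ⟨f⁻¹ • E0, by simp [Bf_E0]; rfl, smul_left_cancel f ?_⟩
  rw [hf.one, smul_inv_smul]
  simp [dil_smul, E0]

theorem Hyp.zpow_fix (h : Hyp u) (hE : IsAx u E) (hF : Bf F F = 1) {k : ℤ} (hk : k ≠ 0)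
    (h1 : u ^ k • F = F ∨ u ^ k • F = -F) : F = E ∨ F = -E := by
  obtain ⟨f, t, hf, h0⟩ := h.fr0 hE
  have := eq_E0_of_fix (τ := k * t) (mul_ne_zero (by exact_mod_cast hk) hf.pos.ne') (F := f • F)
    (by simpa using hF) (by
      rw [← hf.eq, ← smul_neg]
      exact h1.imp (congrArg _) (congrArg _))
  rw [← h0, ← smul_neg] at this
  exact this.imp (smul_left_cancel f) (smul_left_cancel f)

theorem Hyp.ax_unique (h : Hyp u) (hE : IsAx u E) (hF : IsAx u F) : F = E ∨ F = -E :=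
  h.zpow_fix hE hF.1 one_ne_zero (Or.inl (by simpa using hF.2))

theorem Hyp.zpow_ne_one (h : Hyp u) {k : ℤ} (hk : k ≠ 0) : u ^ k ≠ 1 := by
  obtain ⟨f, t, hf⟩ := h.fr
  intro h1
  have := congrArg (fun X : V => X.2.2) (hf.eq k (f⁻¹ • o))
  simp only [h1, one_smul, smul_inv_smul, dil_smul, o, one_mul] at this
  exact mul_ne_zero (Int.cast_ne_zero.2 hk) hf.pos.ne' (by simpa using this.symm)

theorem IsAx.zpow (h : IsAx u E) (k : ℤ) : u ^ k • E = E :=
  (MulAction.stabilizer Isom E).zpow_mem h.2 k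

theorem IsAx.inv (h : IsAx u E) : IsAx u⁻¹ E := ⟨h.1, by simpa using h.zpow (-1)⟩

theorem IsAx.neg (h : IsAx u E) : IsAx u (-E) := ⟨by simpa using h.1, by rw [smul_neg, h.2]⟩

theorem IsAx.conj (h : IsAx u E) (w : Isom) : IsAx (w * u * w⁻¹) (w • E) :=
  ⟨by simpa using h.1, by rw [mul_smul, mul_smul, inv_smul_smul, h.2]⟩

theorem swp_aux : ((0 : ℝ) * 0 - 1 * 1) ^ 2 = 1 := by norm_num

theorem Hyp.inv (h : Hyp u) : Hyp u⁻¹ := by
  obtain ⟨f, t, ht, rfl⟩ := h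
  obtain ⟨w, hw⟩ := exists_isom swp_aux
  have e : dil (-t) = w⁻¹ * dil t * w := by
    rw [mul_assoc, eq_inv_mul_iff_mul_eq]
    refine isom_ext fun P => ?_
    simp [mul_smul, hw, act_apply, dil_smul]
  refine ⟨w * f, t, ht, ?_⟩
  rw [mul_inv_rev, mul_inv_rev, ← dil_neg, e]
  group

theorem Hyp.conj (h : Hyp u) (w : Isom) : Hyp (w * u * w⁻¹) := by
  obtain ⟨f, t, ht, rfl⟩ := h
  exact ⟨f * w⁻¹, t, ht, by group⟩

/-- `F` and `F'` are ultraparallel to `E`, on opposite sides. -/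
def Opp (E F F' : V) : Prop :=
  1 < Bf E F ^ 2 ∧ 1 < Bf E F' ^ 2 ∧ 0 < Bf E F * Bf E F' * (Bf F F' - Bf E F * Bf E F')

theorem Opp.frame (hu : Hyp u) (hE : IsAx u E) (hF : Bf F F = 1) (hF' : Bf F' F' = 1)
    (h : Opp E F F') : ∃ f t U U' T T', Fr u f t ∧ (f • E = E0 ∨ f • E = -E0) ∧ LP (f • F) U U' ∧
      LP (flp • f • F') T T' := by
  obtain ⟨f, t, hf, h0⟩ := hu.fr0 hE
  obtain ⟨h1, h2, h3⟩ := h
  rw [← Bf_isom f, h0, Bf_E0] at h1 h2
  rw [← Bf_isom f E, ← Bf_isom f E, ← Bf_isom f F, h0, Bf_E0, Bf_E0] at h3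
  rw [← Bf_isom f] at hF hF'
  have key : ((f • F).1 * (f • F).2.1) * ((f • F').1 * (f • F').2.1) < 0 := by
    generalize f • F = X at *
    generalize f • F' = Y at *
    obtain ⟨a, b, c⟩ := X
    obtain ⟨a', b', c'⟩ := Y
    simp only [Bf] at *
    have e1 : 0 < a * c := by nlinarith
    have e2 : 0 < a' * c' := by nlinarith
    have e3 : b * b' * (a * c' + a' * c) < 0 := by nlinarith
    have a0 : a ≠ 0 := left_ne_zero_of_mul e1.ne'
    have e4 : 0 < a * a' * (a * c' + a' * c) := by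
      have : 0 < a ^ 2 * (a' * c') := by positivity
      nlinarith [mul_nonneg (sq_nonneg a') e1.le]
    have e5 := mul_neg_of_pos_of_neg e4 e3
    by_contra! e6
    nlinarith [mul_nonneg e6 (sq_nonneg (a * c' + a' * c))]
  rcases mul_neg_iff.1 key with ⟨a, b⟩ | ⟨a, b⟩
  · obtain ⟨U, U', l⟩ := exists_LP (F := flp • f • F) (by simpa using hF)
      (by simpa [flp_smul] using h1) (by simpa [flp_smul] using a)
    obtain ⟨T, T', l'⟩ := exists_LP hF' h2 b
    exact ⟨flp * f, t, U, U', T, T', hf.flp, Or.inr (by rw [mul_smul, h0, flp_E0]),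
      by rwa [mul_smul], by rwa [mul_smul, flp_flp]⟩
  · obtain ⟨U, U', l⟩ := exists_LP hF h1 a
    obtain ⟨T, T', l'⟩ := exists_LP (F := flp • f • F') (by simpa using hF')
      (by simpa [flp_smul] using h2) (by simpa [flp_smul] using b)
    exact ⟨f, t, U, U', T, T', hf, Or.inl h0, l, l'⟩

theorem wander (hu : Hyp u) (hE : IsAx u E) (hF : Bf F F = 1) (hF' : Bf F' F' = 1)
    (h : Opp E F F') (N : ℤ) (hG : Bf G G = 1) (hG' : Bf G' G' = 1) (w : ¬ Cr (u • F) F)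
    (w' : ¬ Cr (u • F') F') (c1 : Cr G F) (c2 : Cr G F') (c3 : Cr G' F) (c4 : Cr G' (u ^ N • F')) :
    Cr E G ∧ Cr E G' ∧ ∀ k : ℤ, (k * (k - N) < 0 → Cr (u ^ k • G) G') ∧
      (0 < k * (k - N) → ¬ Cr (u ^ k • G) G') := by
  obtain ⟨f, t, U, U', T, T', hf, h0, l, l'⟩ := h.frame hu hE hF hF'
  have := core_W hf.pos N (G := f • G) (G' := f • G') (by simpa using hG) (by simpa using hG') l l'
    (by rwa [← hf.one, cr_isom]) (by rwa [← hf.one, cr_isom]) (by simpa using c1)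
    (by simpa using c2) (by simpa using c3) (by rwa [← hf.eq, cr_isom])
  have e : ∀ X, Cr E0 (f • X) → Cr E X := fun X hX => by
    rw [← cr_isom f]
    rcases h0 with a | a <;> simpa [a] using hX
  refine ⟨e _ this.1, e _ this.2.1, fun k => ?_⟩
  simpa only [← hf.eq, cr_isom] using this.2.2 k

theorem opp_of_cr (hu : Hyp u) (hA : IsAx u A) (hE : Bf E E = 1) (h : Cr A E) :
    Opp E (u • E) (u⁻¹ • E) := by
  obtain ⟨f, t, hf, h0⟩ := hu.fr0 hA
  rw [← cr_isom f, h0, Cr, Bf_E0] at h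
  rw [Opp, ← Bf_isom f E, ← Bf_isom f E, ← Bf_isom f (u • E), hf.one, hf.inv]
  rw [← Bf_isom f] at hE
  generalize f • E = X at *
  obtain ⟨a, b, c⟩ := X
  simp only [Bf, dil_smul, neg_neg] at *
  have h1 : 1 < exp t := one_lt_exp_iff.2 hf.pos
  have h2 : exp t * exp (-t) = 1 := by rw [← exp_add]; simp
  have h3 := exp_pos (-t)
  generalize exp t = x at *
  generalize exp (-t) = y at *
  have h4 : 2 < x + y := by nlinarith [sq_pos_of_pos (sub_pos.2 h1)]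
  obtain ⟨C, hC⟩ : ∃ C, C = (x + y) / 2 - 1 := ⟨_, rfl⟩
  obtain ⟨S, hS⟩ : ∃ S, S = 1 - b ^ 2 := ⟨_, rfl⟩
  have hC0 : 0 < C := by linarith
  have hS0 : 0 < S := by linarith
  have hS1 : S ≤ 1 := by nlinarith [sq_nonneg b]
  have hac : a * c = -S := by nlinarith
  have e1 : b * b - (a * (c * x) + a * y * c) / 2 = 1 + S * C := by
    rw [hC]; linear_combination (-(x + y) / 2) * hac + hS
  have e2 : b * b - (a * (c * y) + a * x * c) / 2 = 1 + S * C := by
    rw [hC]; linear_combination (-(x + y) / 2) * hac + hS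
  have e3 : b * b - (a * y * (c * y) + a * x * (c * x)) / 2 = 1 + S * (2 * C ^ 2 + 4 * C) := by
    rw [hC]; linear_combination (-(x ^ 2 + y ^ 2) / 2) * hac + hS - S * h2
  rw [e1, e2, e3]
  have p := mul_pos hS0 hC0
  refine ⟨by nlinarith, by nlinarith, mul_pos (by positivity) ?_⟩
  nlinarith [mul_pos p hC0, mul_nonneg (mul_pos p hC0).le (sub_nonneg.2 hS1)]

theorem behrstock (hu : Hyp u) (hA : IsAx u A) (hv : Hyp v) (hE : IsAx v E) (h : Cr A E)
    (hG : Bf G G = 1) (c : Cr G (u • E)) (c' : Cr G (u⁻¹ • E)) (w : ¬ Cr (v • u • E) (u • E))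
    (w' : ¬ Cr (v • u⁻¹ • E) (u⁻¹ • E)) : Cr E G ∧ ∀ k : ℤ, k ≠ 0 → ¬ Cr (v ^ k • A) G := by
  have := wander hv hE (by simpa using hE.1) (by simpa using hE.1) (opp_of_cr hu hA hE.1 h) 0 hA.1
    hG w w' (by rwa [← hA.2, cr_isom]) (by rwa [← hA.inv.2, cr_isom]) c (by simpa using c')
  exact ⟨this.2.1, fun k hk => (this.2.2 k).2 (by simpa using mul_self_pos.2 hk)⟩

/-- At least `m` consecutive translates of `G` cross `G'`. -/
def Tw (u : Isom) (G G' : V) (m : ℕ) : Prop :=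
  ∃ k₀ : ℤ, ∀ k : ℤ, k₀ ≤ k → k < k₀ + m → Cr (u ^ k • G) G'

theorem between_le {a b : ℝ} {k₀ : ℤ} {m : ℕ}
    (h : ∀ k : ℤ, k₀ ≤ k → k < k₀ + (m + 1 : ℕ) → (k - a) * (k - b) < 0) : m < |a - b| := by
  have h1 := h k₀ le_rfl (by omega)
  have h2 := h (k₀ + m) (by omega) (by omega)
  push_cast at h2
  have hm : (0 : ℝ) ≤ m := Nat.cast_nonneg m
  rw [lt_abs]
  rcases mul_neg_iff.1 h1 with ⟨x, y⟩ | ⟨x, y⟩ <;> rcases mul_neg_iff.1 h2 with ⟨z, w⟩ | ⟨z, w⟩
  · right; linarith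
  · linarith
  · linarith
  · left; linarith

theorem exists_between' {a b : ℝ} {m : ℕ} (h : m < |a - b|) :
    ∃ k₀ : ℤ, ∀ k : ℤ, k₀ ≤ k → k < k₀ + m → (k - a) * (k - b) < 0 := by
  wlog hab : a ≤ b generalizing a b
  · obtain ⟨k₀, hk⟩ := this (a := b) (b := a) (by rwa [abs_sub_comm]) (le_of_not_ge hab)
    exact ⟨k₀, fun k x y => by rw [mul_comm]; exact hk k x y⟩
  rw [abs_of_nonpos (by linarith)] at h
  refine ⟨⌊a⌋ + 1, fun k x y => ?_⟩
  have x' : ((⌊a⌋ + 1 : ℤ) : ℝ) ≤ k := Int.cast_le.2 x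
  have y' : (k : ℝ) ≤ ((⌊a⌋ + m : ℤ) : ℝ) := Int.cast_le.2 (by omega)
  push_cast at x' y'
  exact mul_neg_of_pos_of_neg (by linarith [Int.lt_floor_add_one a]) (by linarith [Int.floor_le a])

theorem exists_tw (hu : Hyp u) (hE : IsAx u E) : ∃ tw : V → ℝ, ∀ G G', Bf G G = 1 → Bf G' G' = 1 →
    Cr E G → Cr E G' → ∀ m : ℕ, (Tw u G G' (m + 1) → m < |tw G - tw G'|) ∧
      (m < |tw G - tw G'| → Tw u G G' m) := by
  obtain ⟨f, t, hf, h0⟩ := hu.fr0 hE
  have : ∀ G, ∃ P Q, Bf G G = 1 → Cr E G → LX (f • G) P Q := fun G => by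
    by_cases h : Bf G G = 1 ∧ Cr E G
    · obtain ⟨P, Q, l⟩ := exists_LX (F := f • G) (by simpa using h.1) (by simpa [← h0] using h.2)
      exact ⟨P, Q, fun _ _ => l⟩
    · exact ⟨0, 0, fun a b => (h ⟨a, b⟩).elim⟩
  choose P Q hl using this
  refine ⟨fun G => (P G - Q G) / t, fun G G' a a' c c' m => ?_⟩
  have ht := hf.pos
  have e : ∀ k : ℤ, Cr (u ^ k • G) G' ↔ (k - (P G' - P G) / t) * (k - (Q G' - Q G) / t) < 0 := by
    intro k
    rw [← cr_isom f, hf.eq, ((hl G a c).dil _).cr (hl G' a' c'),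
      ← neg_iff_of_pos (b := (k - (P G' - P G) / t) * (k - (Q G' - Q G) / t)) (a := t * t)
        (by positivity)]
    refine iff_of_eq (congrArg (· < 0) ?_)
    field_simp
    ring
  have e2 : |(P G - Q G) / t - (P G' - Q G') / t| = |(P G' - P G) / t - (Q G' - Q G) / t| := by
    rw [abs_sub_comm]
    congr 1
    ring
  simp only [Tw, e, e2]
  exact ⟨fun ⟨_, h⟩ => between_le h, exists_between'⟩

theorem tw_tri (hu : Hyp u) (hE : IsAx u E) (hG : Bf G G = 1) (hG' : Bf G' G' = 1)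
    (hZ : Bf Z Z = 1) (c : Cr E G) (c' : Cr E G') (cZ : Cr E Z) {m m' : ℕ}
    (h : Tw u G G' (m + m' + 1)) : Tw u G Z m ∨ Tw u Z G' m' := by
  obtain ⟨tw, htw⟩ := exists_tw hu hE
  have h1 := (htw G G' hG hG' c c' _).1 h
  by_contra! hc
  have h2 := not_lt.1 (mt (htw G Z hG hZ c cZ m).2 hc.1)
  have h3 := not_lt.1 (mt (htw Z G' hZ hG' cZ c' m').2 hc.2)
  push_cast at h1
  linarith [abs_sub_le (tw G) (tw Z) (tw G')]

theorem nested_far (hu : Hyp u) (hE : IsAx u E) (hA : Bf A A = 1) (hD : Bf D D = 1) (cA : Cr E A)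
    (cD : Cr E D) : ∃ K : ℕ, ∀ k : ℤ, K < |k| → ∀ Z, Bf Z Z = 1 → Cr Z A → Cr Z (u ^ k • D) →
      Cr Z (u • A) ∨ Cr Z (u⁻¹ • A) := by
  obtain ⟨f, t, hf, h0⟩ := hu.fr0 hE
  have ht := hf.pos
  obtain ⟨P, Q, l⟩ := exists_LX (F := f • A) (by simpa using hA) (by simpa [← h0] using cA)
  obtain ⟨P', Q', l'⟩ := exists_LX (F := f • D) (by simpa using hD) (by simpa [← h0] using cD)
  obtain ⟨K, hK⟩ := exists_nat_gt ((|P - P'| + |Q - Q'| + t) / t)
  rw [div_lt_iff₀ ht] at hK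
  refine ⟨K, fun k hk Z hZ c c' => ?_⟩
  have p := abs_le.1 (le_refl |P - P'|)
  have q := abs_le.1 (le_refl |Q - Q'|)
  have p0 := abs_nonneg (P - P')
  have q0 := abs_nonneg (Q - Q')
  rw [← cr_isom f] at c c'
  rw [← Bf_isom f] at hZ
  rw [hf.eq] at c'
  rw [← cr_isom f, ← cr_isom f Z, hf.one, hf.inv]
  rcases lt_abs.1 hk with a | a
  · have : (K : ℝ) < k := by exact_mod_cast a
    exact Or.inl (LX.nested hZ l (l.dil t) (l'.dil _) (by linarith) (by nlinarith) (by linarith)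
      (by nlinarith) c c')
  · have : (K : ℝ) < -k := by exact_mod_cast a
    exact Or.inr (LX.nested hZ (l'.dil _) (l.dil (-t)) l (by nlinarith) (by linarith) (by nlinarith)
      (by linarith) c' c)

end Pool.Agent.MP_4a6971_al.H66

end

-- part MP_4a6971_al.H66.Ends
section

/-!
End points of axes, normalisations, and connectedness of the sides of a line.
-/

namespace Pool.Agent.MP_4a6971_al.H66

open Real

variable {u v f : Isom} {t : ℝ} {A D E F F' G G' Z : V}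

/-- The attracting end of a translation. -/
structure End (u : Isom) (N : V) : Prop where
  fut : Fut N
  eig : ∃ l : ℝ, 0 < l ∧ u • N = l • N
  grow : ∀ (H P : V) (R : ℝ), H2 P → 0 < Bf H N → ∃ n₀ : ℕ, ∀ n : ℕ, n₀ ≤ n → R < Bf H (u ^ n • P)

theorem End.le {N H P : V} (h : End u N) (hP : H2 P) (h1 : ∀ n : ℕ, Bf H (u ^ n • P) ≤ 0) :
    Bf H N ≤ 0 := by
  by_contra! hc
  obtain ⟨n, hn⟩ := h.grow H P 0 hP hc
  exact absurd (hn n le_rfl) (not_lt.2 (h1 n))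

theorem grow_aux {α β γ : ℝ} (ht : 0 < t) (hα : 0 < α) (R : ℝ) :
    ∃ n₀ : ℕ, ∀ n : ℕ, n₀ ≤ n → R < β + α * exp (n * t) + γ * exp (-(n * t)) := by
  obtain ⟨n₀, h⟩ := exists_nat_gt ((R - β + |γ|) / (α * t))
  rw [div_lt_iff₀ (by positivity)] at h
  refine ⟨n₀, fun n hn => ?_⟩
  have h1 : (n₀ : ℝ) ≤ n := by exact_mod_cast hn
  have h2 := add_one_le_exp (n * t)
  have h3 : exp (-(n * t)) ≤ 1 := exp_le_one_iff.2 (by simp; positivity)
  have h4 := exp_pos (-(n * t))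
  have h5 : -|γ| ≤ γ * exp (-(n * t)) := by nlinarith [neg_abs_le γ, abs_nonneg γ]
  have h6 : α * (n₀ * t) ≤ α * exp (n * t) := by
    gcongr
    nlinarith
  nlinarith

theorem exists_ends (hu : Hyp u) (hE : IsAx u E) : ∃ N N', End u N ∧ End u⁻¹ N' ∧
    ∀ H, 4 * (Bf H N * Bf H N') = Bf H E ^ 2 - Bf H H := by
  obtain ⟨f, t, hf, h0⟩ := hu.fr0 hE
  have ht := hf.pos
  refine ⟨f⁻¹ • (0, 0, 1), f⁻¹ • (1, 0, 0), ⟨Fut.smul (fun Q hQ => ?_) _, ⟨exp t, exp_pos t, ?_⟩, ?_⟩,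
    ⟨Fut.smul (fun Q hQ => ?_) _, ⟨exp t, exp_pos t, ?_⟩, ?_⟩, fun H => ?_⟩
  · have := hQ.2
    simp only [ch, Bf]
    linarith
  · refine smul_left_cancel f ?_
    rw [hf.one, isom_smul, smul_inv_smul]
    simp [dil_smul]
  · intro H P R hP h
    rw [← Bf_move] at h
    have a := (hP.smul f).pos
    obtain ⟨n₀, hn⟩ := grow_aux (β := (f • H).2.1 * (f • P).2.1) (α := -(f • H).1 / 2 * (f • P).2.2)
      (γ := -(f • H).2.2 / 2 * (f • P).1) ht (mul_pos (by simp only [Bf] at h; linarith) a) R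
    refine ⟨n₀, fun n h1 => (hn n h1).trans_eq ?_⟩
    rw [← Bf_isom f, ← zpow_natCast, hf.eq, dil_smul]
    simp only [Bf, Int.cast_natCast]
    ring
  · have := hQ.pos
    simp only [ch, Bf]
    linarith
  · refine smul_left_cancel f ?_
    rw [hf.inv, isom_smul, smul_inv_smul]
    simp [dil_smul]
  · intro H P R hP h
    rw [← Bf_move] at h
    have a := (hP.smul f).2
    obtain ⟨n₀, hn⟩ := grow_aux (β := (f • H).2.1 * (f • P).2.1) (α := -(f • H).2.2 / 2 * (f • P).1)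
      (γ := -(f • H).1 / 2 * (f • P).2.2) ht (mul_pos (by simp only [Bf] at h; linarith) a) R
    refine ⟨n₀, fun n h1 => (hn n h1).trans_eq ?_⟩
    rw [← Bf_isom f, inv_pow, ← zpow_natCast, ← zpow_neg, hf.eq, dil_smul]
    simp only [Bf, Int.cast_natCast, Int.cast_neg, neg_mul, neg_neg]
    ring
  · rw [← Bf_move, ← Bf_move, ← Bf_isom f H E, ← Bf_isom f H H, h0]
    simp only [Bf, E0]
    ring

theorem exists_shift (ht : 0 < t) {x : ℝ} (hx : 0 < x) :
    ∃ k : ℤ, 1 ≤ x * exp (-(k * t)) ∧ x * exp (-(k * t)) ≤ exp t := by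
  refine ⟨⌊log x / t⌋, ?_⟩
  have h1 := Int.floor_le (log x / t)
  have h2 := Int.lt_floor_add_one (log x / t)
  rw [le_div_iff₀ ht] at h1
  rw [div_lt_iff₀ ht] at h2
  have e : x * exp (-(⌊log x / t⌋ * t)) = exp (log x - ⌊log x / t⌋ * t) := by
    rw [sub_eq_add_neg, exp_add, exp_log hx]
  rw [e]
  exact ⟨one_le_exp_iff.2 (by linarith), exp_le_exp.2 (by linarith)⟩

theorem norm_pt (hu : Hyp u) (hE : IsAx u E) (R : ℝ) :
    ∃ R', ∀ P, H2 P → |Bf E P| ≤ R → ∃ k : ℤ, ch o (u ^ k • P) ≤ R' := by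
  obtain ⟨f, t, hf, h0⟩ := hu.fr0 hE
  refine ⟨2 * ch (f⁻¹ • o) o * ((exp t + (1 + R ^ 2)) / 2), fun P hP h => ?_⟩
  rw [← Bf_isom f, h0, Bf_E0] at h
  obtain ⟨k, h1, h2⟩ := exists_shift hf.pos (hP.smul f).2
  refine ⟨k, (ch_tri H2_o (H2_o.smul f⁻¹) (hP.smul _)).trans ?_⟩
  have a := one_le_ch (H2_o.smul f⁻¹) H2_o
  gcongr
  have b := ((hP.smul (u ^ k)).smul f)
  rw [← ch_isom f, smul_inv_smul, ch_o]
  rw [hf.eq] at b ⊢
  have c := b.eq
  have d := b.pos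
  rw [dil_smul] at c d ⊢
  simp only at c d ⊢
  have e := sq_le_sq' (abs_le.1 h).1 (abs_le.1 h).2
  nlinarith

theorem norm_line (hu : Hyp u) (hE : IsAx u E) :
    ∃ R, ∀ G, Bf G G = 1 → Cr E G → ∃ k : ℤ, |Bf (u ^ k • G) o| ≤ R := by
  obtain ⟨f, t, hf, h0⟩ := hu.fr0 hE
  refine ⟨(1 + 2 * ((exp t + 1) / 2)) * ch (f⁻¹ • o) o, fun G hG h => ?_⟩
  rw [← cr_isom f, h0, Cr, Bf_E0] at h
  have hG' := hG
  rw [← Bf_isom f] at hG'
  have ha : (f • G).1 ≠ 0 := by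
    intro ha
    simp only [Bf, ha] at hG'
    nlinarith
  obtain ⟨k, h1, h2⟩ := exists_shift hf.pos (abs_pos.2 ha)
  refine ⟨k, (abs_Bf_le (by simpa using hG) H2_o (H2_o.smul f⁻¹)).trans ?_⟩
  have a := one_le_ch (H2_o.smul f⁻¹) H2_o
  gcongr
  rw [← Bf_move, hf.eq, dil_smul]
  generalize f • G = X at *
  obtain ⟨x, y, z⟩ := X
  simp only [Bf, o] at *
  have e1 : exp (k * t) * exp (-(k * t)) = 1 := by rw [← exp_add]; simp
  have e2 := exp_pos (k * t)
  have e3 := exp_pos (-(k * t))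
  have e4 : |x * exp (-(k * t))| = |x| * exp (-(k * t)) := by rw [abs_mul, abs_of_pos e3]
  have e5 : |x * exp (-(k * t))| * |z * exp (k * t)| ≤ 1 := by
    rw [← abs_mul, show x * exp (-(k * t)) * (z * exp (k * t)) = x * z by linear_combination x * z * e1]
    rw [abs_le]
    constructor <;> nlinarith [sq_nonneg y]
  have e6 : |z * exp (k * t)| ≤ 1 := by nlinarith [abs_nonneg (z * exp (k * t))]
  rw [← e4] at h2
  have e7 := abs_le.1 h2
  have e8 := abs_le.1 e6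
  rw [abs_le]
  constructor <;> linarith [e7.1, e7.2, e8.1, e8.2]

theorem tangent (hu : Hyp u) (hE : IsAx u E) (hF : Bf F F = 1) (h : Bf E F ^ 2 = 1) :
    ∃ R, {k : ℤ | |Bf (u ^ k • F) o| ≤ R}.Infinite := by
  obtain ⟨f, t, hf, h0⟩ := hu.fr0 hE
  have ht := hf.pos
  rw [← Bf_isom f, h0, Bf_E0] at h
  have hF' := hF
  rw [← Bf_isom f] at hF'
  have hac : (f • F).1 * (f • F).2.2 = 0 := by
    simp only [Bf] at hF'
    linarith
  have key : ∀ k : ℤ, |(f • F).1 * exp (-(k * t)) + (f • F).2.2 * exp (k * t)| ≤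
      |(f • F).1| + |(f • F).2.2| → |Bf (u ^ k • F) o| ≤
        (1 + (|(f • F).1| + |(f • F).2.2|)) * ch (f⁻¹ • o) o := fun k hk => by
    refine (abs_Bf_le (by simpa using hF) H2_o (H2_o.smul f⁻¹)).trans ?_
    have a := one_le_ch (H2_o.smul f⁻¹) H2_o
    gcongr
    rw [← Bf_move, hf.eq, dil_smul]
    simp only [Bf, o]
    rw [← abs_two, ← abs_mul, ← abs_neg]
    exact le_of_eq_of_le (congrArg _ (by ring)) hk
  refine ⟨(1 + (|(f • F).1| + |(f • F).2.2|)) * ch (f⁻¹ • o) o, ?_⟩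
  rcases mul_eq_zero.1 hac with a | a
  · refine (Set.Iic_infinite (0 : ℤ)).mono fun k hk => key k ?_
    have : (k : ℝ) ≤ 0 := by exact_mod_cast hk
    have : exp (k * t) ≤ 1 := exp_le_one_iff.2 (by nlinarith)
    rw [a, zero_mul, zero_add, abs_zero, zero_add, abs_mul, abs_of_pos (exp_pos _)]
    nlinarith [abs_nonneg (f • F).2.2]
  · refine (Set.Ici_infinite (0 : ℤ)).mono fun k hk => key k ?_
    have : (0 : ℝ) ≤ k := by exact_mod_cast hk
    have : exp (-(k * t)) ≤ 1 := exp_le_one_iff.2 (by nlinarith)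
    rw [a, zero_mul, add_zero, abs_zero, add_zero, abs_mul, abs_of_pos (exp_pos _)]
    nlinarith [abs_nonneg (f • F).1]

theorem side_preconnected (hu : Hyp u) (hE : IsAx u E) (R : ℝ) :
    IsPreconnected {P | H2 P ∧ R < Bf E P} := by
  obtain ⟨f, t, hf, h0⟩ := hu.fr0 hE
  have h1 : IsPreconnected (Set.Ioi (0 : ℝ) ×ˢ Set.Ioi R) :=
    isPreconnected_Ioi.prod isPreconnected_Ioi
  have h2 : ContinuousOn (fun p : ℝ × ℝ => ((p.1, p.2, (1 + p.2 ^ 2) / p.1) : V))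
      (Set.Ioi (0 : ℝ) ×ˢ Set.Ioi R) :=
    continuousOn_fst.prodMk (continuousOn_snd.prodMk
      (ContinuousOn.div (by fun_prop) continuousOn_fst fun p hp => ne_of_gt hp.1))
  have h3 := (h1.image _ h2).image _ (continuous_isom f⁻¹).continuousOn
  have e : {P | H2 P ∧ R < Bf E P} = (fun P : V => f⁻¹ • P) ''
      ((fun p : ℝ × ℝ => ((p.1, p.2, (1 + p.2 ^ 2) / p.1) : V)) '' (Set.Ioi (0 : ℝ) ×ˢ Set.Ioi R)) := by
    ext P
    constructor
    · rintro ⟨a, b⟩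
      rw [← Bf_isom f, h0, Bf_E0] at b
      have c := a.smul f
      refine ⟨f • P, ⟨((f • P).1, (f • P).2.1), ⟨c.2, b⟩, ?_⟩, inv_smul_smul f P⟩
      have d := c.2.ne'
      ext
      · rfl
      · rfl
      · simp only
        rw [← c.eq]
        field_simp
    · rintro ⟨_, ⟨p, ⟨a, b⟩, rfl⟩, rfl⟩
      have a' : 0 < p.1 := a
      refine ⟨(H2.of_eq (by field_simp) a').smul _, ?_⟩
      rw [← Bf_move, h0, Bf_E0]
      exact b
  rwa [e]

theorem fill_aux (hu : Hyp u) (hE : IsAx u E) : ∃ P, H2 P ∧ ∀ F, Bf F F = 1 → ¬ Cr E F →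
    0 ≤ Bf F P → ∀ k : ℤ, 0 ≤ Bf F (u ^ k • P) := by
  obtain ⟨f, t, hf, h0⟩ := hu.fr0 hE
  refine ⟨f⁻¹ • o, H2_o.smul _, fun F hF c h k => ?_⟩
  rw [← cr_isom f, h0, Cr, Bf_E0] at c
  rw [← Bf_move] at h
  rw [← Bf_isom f] at hF
  rw [← Bf_isom f, hf.eq, smul_inv_smul, dil_smul]
  generalize f • F = X at *
  obtain ⟨x, y, z⟩ := X
  simp only [Bf, o] at *
  have e1 : 0 ≤ x * z := by nlinarith
  have e2 : x ≤ 0 := by nlinarith
  have e3 : z ≤ 0 := by nlinarith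
  nlinarith [exp_pos (k * t), exp_pos (-(k * t))]

theorem exists_inter (hE : Bf E E = 1) (hF : Bf F F = 1) (h : Cr E F) :
    ∃ P, H2 P ∧ Bf E P = 0 ∧ Bf F P = 0 := by
  let X : V := ((E.1 * F.2.1 - F.1 * E.2.1) / 2, (E.1 * F.2.2 - F.1 * E.2.2) / 4,
    (E.2.1 * F.2.2 - F.2.1 * E.2.2) / 2)
  have h1 : Bf X X = (Bf E F ^ 2 - Bf E E * Bf F F) / 4 := by simp only [X, Bf]; ring
  have h2 : Bf E X = 0 := by simp only [X, Bf]; ring
  have h3 : Bf F X = 0 := by simp only [X, Bf]; ring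
  obtain ⟨r, -, hr⟩ := exists_H2_of_neg (X := X) (by rw [h1, hE, hF]; rw [Cr] at h; linarith)
  exact ⟨_, hr, by simp [h2], by simp [h3]⟩

theorem fut_null (q : ℝ) : Fut ((1, -q, q ^ 2) : V) := fun Q hQ => by
  have a := hQ.2
  have e := hQ.eq
  simp only [ch, Bf]
  refine (mul_pos_iff_of_pos_left a).1 ?_
  nlinarith [sq_nonneg (Q.1 * q + Q.2.1)]

theorem LP.neg_at {U U' Q : ℝ} (h : LP F U U') (ha : F.1 < 0) (h1 : U < Q) (h2 : Q < U') :
    Bf F (1, -exp Q, exp Q ^ 2) < 0 := by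
  have h0 : 0 < exp U' - exp U := sub_pos.2 h.1
  have e : Bf F (1, -exp Q, exp Q ^ 2) = -ev F (exp Q) / 2 := by simp only [Bf, ev]; ring
  rcases h.2 with rfl | rfl
  · exact absurd ha (not_lt.2 (by simp only [line]; positivity))
  · rw [e, ev_neg, ev_line h.1, neg_neg]
    exact div_neg_of_neg_of_pos (mul_neg_of_pos_of_neg (by positivity) (mul_neg_of_pos_of_neg
      (sub_pos.2 (exp_lt_exp.2 h1)) (sub_neg.2 (exp_lt_exp.2 h2)))) two_pos

theorem opp_of_pos (hu : Hyp u) (hE : IsAx u E) (hF : Bf F F = 1) (hF' : Bf F' F' = 1)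
    (h1 : 1 < Bf E F ^ 2) (h2 : 1 < Bf E F' ^ 2) (hG : Bf G G = 1) (c : Cr E G) (c1 : Cr G F)
    (c2 : Cr G F') {P : V} (hP : H2 P) (p0 : Bf E P = 0) (p1 : 0 ≤ Bf F P) (p2 : 0 ≤ Bf F' P)
    (hd : ∀ N, Fut N → 0 < Bf F N + Bf F' N) : Opp E F F' := by
  refine ⟨h1, h2, ?_⟩
  obtain ⟨f, t, hf, h0⟩ := hu.fr0 hE
  have main : ∀ f : Isom, (f • E = E0 ∨ f • E = -E0) → (f • F).1 < 0 → (f • F').1 < 0 →
      0 < (f • F).2.1 → 0 < (f • F').2.1 → False := by
    intro f h0 a1 a2 b1 b2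
    have e : ∀ X, Bf E X ^ 2 = (f • X).2.1 ^ 2 := fun X => by
      rw [← Bf_isom f]
      rcases h0 with a | a <;> simp [a, Bf_E0]
    obtain ⟨U, U', l⟩ := exists_LP (F := f • F) (by simpa using hF) (by rwa [← e])
      (mul_neg_of_neg_of_pos a1 b1)
    obtain ⟨T, T', l'⟩ := exists_LP (F := f • F') (by simpa using hF') (by rwa [← e])
      (mul_neg_of_neg_of_pos a2 b2)
    obtain ⟨X, Y, l0⟩ := exists_LX (F := f • G) (by simpa using hG) (by rwa [Cr, Bf_E0, ← e])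
    obtain ⟨x1, x2⟩ := (l0.crp l).1 (by simpa using c1)
    obtain ⟨x3, x4⟩ := (l0.crp l').1 (by simpa using c2)
    have := hd _ ((fut_null (exp Y)).smul f⁻¹)
    rw [← Bf_move, ← Bf_move] at this
    linarith [l.neg_at a1 x1 x2, l'.neg_at a2 x3 x4]
  have m1 := main f (Or.inl h0)
  have m2 := main (flp * f) (Or.inr (by rw [mul_smul, h0, flp_E0]))
  simp only [mul_smul, flp_smul] at m2
  rw [← Bf_isom f, h0, Bf_E0] at h1 h2 p0
  rw [← Bf_isom f E, ← Bf_isom f E, ← Bf_isom f F, h0, Bf_E0, Bf_E0]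
  rw [← Bf_isom f] at hF hF' p1 p2
  have q1 := (hP.smul f).2
  have q2 := (hP.smul f).pos
  generalize f • F = X at *
  generalize f • F' = Y at *
  generalize f • P = R at *
  obtain ⟨a, b, c⟩ := X
  obtain ⟨a', b', c'⟩ := Y
  obtain ⟨x, y, z⟩ := R
  simp only [Bf] at *
  subst p0
  have neg : ∀ a c : ℝ, 0 < a * c → a * z + x * c ≤ 0 → a < 0 ∧ c < 0 := fun a c h h' => by
    rcases mul_pos_iff.1 h with ⟨i, j⟩ | h
    · nlinarith [mul_pos i q2, mul_pos q1 j]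
    · exact h
  obtain ⟨n1, n2⟩ := neg a c (by nlinarith) (by linarith)
  obtain ⟨n3, n4⟩ := neg a' c' (by nlinarith) (by linarith)
  have b0 : b ≠ 0 := by rintro rfl; norm_num at h1
  have b0' : b' ≠ 0 := by rintro rfl; norm_num at h2
  have bb : b * b' < 0 := by
    rcases lt_or_gt_of_ne b0 with i | i <;> rcases lt_or_gt_of_ne b0' with j | j
    · exact (m2 n1 n3 (by linarith) (by linarith)).elim
    · exact mul_neg_of_neg_of_pos i j
    · exact mul_neg_of_pos_of_neg i j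
    · exact (m1 n1 n3 i j).elim
  exact mul_pos_of_neg_of_neg bb
    (by nlinarith [mul_pos_of_neg_of_neg n1 n4, mul_pos_of_neg_of_neg n3 n2])

end Pool.Agent.MP_4a6971_al.H66

end

-- part MP_4a6971_al.H66.Hypb
section

/-!
Nontrivial elements of the surface group are translations; finiteness properties of axes.
-/

namespace Pool.Agent.MP_4a6971_al.H66

open Real Filter Topology

variable {g : ℕ}

theorem hyp_of_eig {f : Isom} {α β γ δ μ ν a b c d : ℝ} (hf : ∀ X, f • X = act α β γ δ X)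
    (h0 : 0 < μ) (h1 : μ < 1) (h2 : μ * ν = 1) (hd : a * d - b * c ≠ 0) (e1 : α * a + β * c = a * μ)
    (e2 : γ * a + δ * c = c * μ) (e3 : α * b + β * d = b * ν) (e4 : γ * b + δ * d = d * ν) :
    Hyp f := by
  obtain ⟨w, hw⟩ := exists_isom (α := a / (a * d - b * c)) (β := b) (γ := c / (a * d - b * c))
    (δ := d) (by field_simp)
  have l : log μ < 0 := log_neg h0 h1
  refine ⟨w, -(2 * log μ), by linarith, ?_⟩
  rw [mul_assoc, eq_inv_mul_iff_mul_eq]
  refine isom_ext fun X => ?_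
  have x1 : exp (2 * log μ) = μ ^ 2 := by
    rw [two_mul, exp_add, exp_log h0, sq]
  have x2 : exp (-(2 * log μ)) = ν ^ 2 := by
    rw [exp_neg, x1, ← inv_pow, eq_inv_of_mul_eq_one_right h2]
  have e1' : α * (a / (a * d - b * c)) + β * (c / (a * d - b * c)) = a / (a * d - b * c) * μ := by
    field_simp
    linear_combination e1
  have e2' : γ * (a / (a * d - b * c)) + δ * (c / (a * d - b * c)) = c / (a * d - b * c) * μ := by
    field_simp
    linear_combination e2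
  rw [mul_smul, mul_smul, hf, hw, hw, act_act, e1', e2', e3, e4, dil_smul, neg_neg, x1, x2]
  generalize a / (a * d - b * c) = a' at *
  generalize c / (a * d - b * c) = c' at *
  simp only [act_apply]
  ext <;> simp only
  · ring
  · linear_combination (X.1 * a' * b + X.2.1 * (a' * d + b * c') + X.2.2 * c' * d) * h2
  · ring

theorem hyp_of_trace_pos {f : Isom} {α β γ δ : ℝ} (hf : ∀ X, f • X = act α β γ δ X)
    (hd : α * δ - β * γ = 1) (ht : 2 < α + δ) : Hyp f := by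
  obtain ⟨Δ, d0, d1⟩ : ∃ Δ : ℝ, 0 < Δ ∧ Δ ^ 2 = (α + δ) ^ 2 - 4 :=
    ⟨√((α + δ) ^ 2 - 4), sqrt_pos.2 (by nlinarith), sq_sqrt (by nlinarith)⟩
  obtain ⟨μ, hμ⟩ : ∃ μ, μ = (α + δ - Δ) / 2 := ⟨_, rfl⟩
  obtain ⟨ν, hν⟩ : ∃ ν, ν = (α + δ + Δ) / 2 := ⟨_, rfl⟩
  have h2 : μ * ν = 1 := by rw [hμ, hν]; linear_combination (-1 / 4) * d1
  have h3 : μ + ν = α + δ := by rw [hμ, hν]; ring
  have h4 : μ < ν := by linarith
  have h5 : 1 < ν := by linarith
  have h0 : 0 < μ := by nlinarith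
  have h1 : μ < 1 := by nlinarith
  by_cases hγ : γ = 0
  · subst hγ
    have : (α - μ) * (α - ν) = 0 := by linear_combination h2 - α * h3 - hd
    rcases mul_eq_zero.1 this with a | a
    · exact hyp_of_eig hf h0 h1 h2 (a := 1) (b := β) (c := 0) (d := ν - μ) (by linarith)
        (by linarith) (by ring) (by linear_combination β * a)
        (by linear_combination (ν - μ) * (-h3 - a))
    · exact hyp_of_eig hf h0 h1 h2 (a := β) (b := 1) (c := μ - ν) (d := 0) (by linarith)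
        (by linear_combination β * a) (by linear_combination (μ - ν) * (-h3 - a)) (by linarith)
        (by ring)
  · exact hyp_of_eig hf h0 h1 h2 (a := μ - δ) (b := ν - δ) (c := γ) (d := γ)
      (by
        rw [show (μ - δ) * γ - (ν - δ) * γ = (μ - ν) * γ by ring]
        exact mul_ne_zero (by linarith) hγ)
      (by linear_combination -hd - μ * h3 + h2) (by ring)
      (by linear_combination -hd - ν * h3 + h2) (by ring)

theorem hyp_or_small {f : Isom} {α β γ δ : ℝ} (hf : ∀ X, f • X = act α β γ δ X)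
    (hd : α * δ - β * γ = 1) : Hyp f ∨ ∀ η : ℝ, 0 < η → ∃ P, H2 P ∧ ch P (f • P) < 1 + η := by
  by_cases h1 : 2 < α + δ
  · exact Or.inl (hyp_of_trace_pos hf hd h1)
  by_cases h2 : α + δ < -2
  · exact Or.inl (hyp_of_trace_pos (α := -α) (β := -β) (γ := -γ) (δ := -δ)
      (fun X => by rw [hf]; simp [act_apply]) (by linarith) (by linarith))
  refine Or.inr fun η hη => ?_
  let q : V := (γ, (δ - α) / 2, -β)
  have key : ∀ P, H2 P → ch P (f • P) = (α + δ) ^ 2 / 2 - 1 + 2 * Bf q P ^ 2 := fun P hP => by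
    have : ch P (act α β γ δ P) =
        ((α + δ) ^ 2 / 2 - (α * δ - β * γ)) * (-Bf P P) + 2 * Bf q P ^ 2 := by
      simp only [ch, Bf, act_apply, q]
      ring
    rw [hf, this, hd, hP.1]
    ring
  have t4 : (α + δ) ^ 2 ≤ 4 := by nlinarith
  have qq : Bf q q = ((α + δ) ^ 2 - 4) / 4 := by
    simp only [Bf, q]
    linear_combination -hd
  by_cases m0 : Bf q o = 0
  · exact ⟨o, H2_o, by rw [key o H2_o, m0]; linarith⟩
  rcases t4.lt_or_eq with a | a
  · obtain ⟨t, -, ht⟩ := exists_H2_of_neg (X := q) (by linarith)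
    refine ⟨_, ht, ?_⟩
    have : f • q = q := by
      rw [hf, act_apply]
      ext <;> simp only [q]
      · linear_combination γ * hd
      · linear_combination (δ - α) / 2 * hd
      · linear_combination -β * hd
    rw [isom_smul, this, ch, ht.1]
    linarith
  · obtain ⟨ε, e0, e1⟩ : ∃ ε : ℝ, 0 < ε ∧ ε * Bf q o ^ 2 < η :=
      ⟨η / (2 * Bf q o ^ 2), by positivity, by field_simp; linarith⟩
    have q0 : Bf q q = 0 := by rw [qq, a]; ring
    have x1 : Bf (ε • o - (1 / Bf q o) • q) (ε • o - (1 / Bf q o) • q) = -(ε ^ 2 + 2 * ε) := by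
      simp only [Bf_sub_left, Bf_sub_right, Bf_smul_left, Bf_smul_right, Bf_comm o q, q0, H2_o.1]
      field_simp
      ring
    obtain ⟨t, -, ht⟩ := exists_H2_of_neg (X := ε • o - (1 / Bf q o) • q) (by rw [x1]; nlinarith)
    refine ⟨_, ht, ?_⟩
    have x2 := ht.1
    rw [Bf_smul_left, Bf_smul_right, x1] at x2
    rw [key _ ht, a]
    simp only [Bf_sub_right, Bf_smul_right, q0]
    have x3 : t ^ 2 * ε * 2 ≤ 1 := by nlinarith [sq_nonneg (t * ε)]
    nlinarith [mul_nonneg (sub_nonneg.2 x3) (by positivity : 0 ≤ ε * Bf q o ^ 2)]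

namespace Poly

variable (Y : Poly g)

theorem isCompact_Ch : IsCompact {P | Y.Ch P} := by
  obtain ⟨R, hR⟩ := Y.bdd
  have hc : ∀ E : V, Continuous fun P : V => Bf E P := fun E => by unfold Bf; fun_prop
  have e : {P | Y.Ch P} = {P | Bf P P = -1} ∩ ({P | 0 ≤ P.1} ∩ ⋂ i, {P | 0 ≤ Bf (Y.e i) P}) := by
    ext P
    simp only [Ch, H2, Set.mem_ofPred_eq, Set.mem_inter_iff, Set.mem_iInter, and_assoc]
    refine and_congr_right fun h => and_congr_left' ⟨le_of_lt, fun h1 => h1.lt_of_ne fun h2 => ?_⟩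
    simp only [Bf, ← h2] at h
    nlinarith [sq_nonneg P.2.1]
  refine (isCompact_Icc (a := ((0, -(2 * R), 0) : V)) (b := (2 * R, 2 * R, 2 * R))).of_isClosed_subset
    ?_ fun P hP => ?_
  · rw [e]
    exact (isClosed_eq (by unfold Bf; fun_prop) continuous_const).inter
      ((isClosed_le continuous_const continuous_fst).inter
        (isClosed_iInter fun i => isClosed_le continuous_const (hc _)))
  · have a := hR P hP.1 hP.2
    rw [ch_o] at a
    have b := hP.1.eq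
    have c := hP.1.2
    have d := hP.1.pos
    have f : |P.2.1| ≤ 2 * R := abs_le.2 (abs_le_of_sq_le_sq' (by nlinarith) (by linarith))
    exact ⟨⟨c.le, (abs_le.1 f).1, d.le⟩, ⟨by linarith, (abs_le.1 f).2, by simp only; linarith⟩⟩

theorem systole : ∃ η : ℝ, 0 < η ∧ ∀ x ∈ (cls g).ker, x ≠ 1 → ∀ P, H2 P →
    1 + η ≤ ch P (Y.ρ x • P) := by
  obtain ⟨R, hR⟩ := Y.bdd
  have hF := (Y.proper_o (2 * R * (2 * 2 * R))).inter_of_left {x | x ∈ (cls g).ker ∧ x ≠ 1}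
  have h1 : ∀ᶠ η in 𝓝[>] (0 : ℝ), ∀ x ∈ {w | ch o (Y.ρ w • o) ≤ 2 * R * (2 * 2 * R)} ∩
      {x | x ∈ (cls g).ker ∧ x ≠ 1}, ∀ P, Y.Ch P → 1 + η ≤ ch P (Y.ρ x • P) := by
    rw [eventually_all_finite hF]
    rintro x ⟨-, a, b⟩
    have hc : Continuous fun P : V => ch P (Y.ρ x • P) :=
      (continuous_Bf.comp (continuous_id.prodMk (continuous_isom _))).neg
    obtain ⟨Q, q1, q2⟩ := Y.isCompact_Ch.exists_isMinOn ⟨o, Y.Ch_o⟩ hc.continuousOn
    have q3 : 0 < ch Q (Y.ρ x • Q) - 1 := by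
      by_contra! h
      exact b (Y.free a q1.1 (eq_of_ch_le q1.1 (q1.1.smul _) (by linarith)).symm)
    filter_upwards [Ioc_mem_nhdsGT q3] with η hη P hP
    have : ch Q (Y.ρ x • Q) ≤ ch P (Y.ρ x • P) := q2 hP
    linarith [hη.2]
  obtain ⟨η, h2, h3⟩ := (h1.and (Ioc_mem_nhdsGT one_pos)).exists
  refine ⟨η, h3.1, fun x a b P hP => ?_⟩
  obtain ⟨w, hw⟩ := Y.cover hP
  have e : ch P (Y.ρ x • P) = ch (Y.ρ w • P) (Y.ρ (w * x * w⁻¹) • Y.ρ w • P) := by
    simp [mul_smul]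
  rw [e]
  by_contra! hc
  refine absurd (h2 _ ⟨?_, (MonoidHom.normal_ker _).conj_mem x a w, by simpa using b⟩ _ hw)
    (not_le.2 hc)
  have r := hR _ hw.1 hw.2
  have r1 := one_le_ch H2_o hw.1
  generalize Y.ρ w • P = Q at *
  generalize w * x * w⁻¹ = y at *
  refine (ch_tri H2_o hw.1 (H2_o.smul _)).trans ?_
  have := one_le_ch hw.1 (H2_o.smul (Y.ρ y))
  rw [ch_comm Q o]
  gcongr
  · linarith
  refine (ch_tri hw.1 (hw.1.smul (Y.ρ y)) (H2_o.smul _)).trans ?_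
  rw [ch_isom, ch_comm, ch_comm Q o]
  have := one_le_ch hw.1 (hw.1.smul (Y.ρ y))
  gcongr
  linarith [h3.2]

theorem hyp {x : W g} (hx : x ∈ (cls g).ker) (h1 : x ≠ 1) : Hyp (Y.ρ x) := by
  obtain ⟨α, β, γ, δ, a, b⟩ := Y.exists_lift x
  rw [sg_gam ⟨x, hx⟩] at a
  refine (hyp_or_small b (by simpa using a)).resolve_right fun h => ?_
  obtain ⟨η, h2, h3⟩ := Y.systole
  obtain ⟨P, p1, p2⟩ := h η h2
  linarith [h3 x hx h1 P p1]

theorem near_axis {x : W g} (hx : Hyp (Y.ρ x)) {E : V} (hE : IsAx (Y.ρ x) E) (R : ℝ) :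
    ∃ Φ : Set (W g), Φ.Finite ∧ ∀ w, |Bf E (Y.ρ w • o)| ≤ R → ∃ k : ℤ, x ^ k * w ∈ Φ := by
  obtain ⟨R', h⟩ := norm_pt hx hE R
  refine ⟨_, Y.proper_o R', fun w hw => ?_⟩
  obtain ⟨k, hk⟩ := h _ (H2_o.smul _) hw
  exact ⟨k, by rwa [Set.mem_ofPred_eq, map_mul, map_zpow, mul_smul]⟩

theorem loc_fin {x : W g} (hx : Hyp (Y.ρ x)) {E : V} (hE : IsAx (Y.ρ x) E) (R : ℝ) :
    {F | (∃ w, F = Y.ρ w • E) ∧ |Bf F o| ≤ R}.Finite := by
  obtain ⟨Φ, h1, h2⟩ := Y.near_axis hx hE R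
  refine (h1.image fun φ => (Y.ρ φ)⁻¹ • E).subset ?_
  rintro _ ⟨⟨w, rfl⟩, h⟩
  rw [Bf_move, ← map_inv] at h
  obtain ⟨k, hk⟩ := h2 _ h
  refine ⟨_, hk, ?_⟩
  simp only [map_mul, map_zpow, map_inv, mul_inv_rev, inv_inv, mul_smul]
  rw [← zpow_neg, hE.zpow]

theorem not_tangent {x y : W g} (hx : Hyp (Y.ρ x)) (hy : Hyp (Y.ρ y)) {E F : V}
    (hE : IsAx (Y.ρ x) E) (hF : IsAx (Y.ρ y) F) (h : Bf E F ^ 2 = 1) : F = E ∨ F = -E := by
  obtain ⟨R, hR⟩ := tangent hx hE hF.1 h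
  obtain ⟨k, -, l, -, h1, h2⟩ := hR.exists_ne_map_eq_of_mapsTo (f := fun k : ℤ => Y.ρ x ^ k • F)
    (t := {G | (∃ w, G = Y.ρ w • F) ∧ |Bf G o| ≤ R})
    (fun k hk => ⟨⟨x ^ k, by rw [map_zpow]⟩, hk⟩) (Y.loc_fin hy hF R)
  refine hx.zpow_fix hE hF.1 (sub_ne_zero.2 h1) (Or.inl ?_)
  rw [sub_eq_neg_add, zpow_add, mul_smul, h2, ← mul_smul, ← zpow_add, neg_add_cancel, zpow_zero,
    one_smul]

theorem cross_fin {x y : W g} (hx : Hyp (Y.ρ x)) (hy : Hyp (Y.ρ y)) {E F : V}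
    (hE : IsAx (Y.ρ x) E) (hF : IsAx (Y.ρ y) F) : ∃ T : Set V, T.Finite ∧
      ∀ w, Cr E (Y.ρ w • F) → ∃ k : ℤ, Y.ρ x ^ k • Y.ρ w • F ∈ T := by
  obtain ⟨R, hR⟩ := norm_line hx hE
  refine ⟨_, Y.loc_fin hy hF R, fun w hw => ?_⟩
  obtain ⟨k, hk⟩ := hR _ (by simpa using hF.1) hw
  exact ⟨k, ⟨x ^ k * w, by rw [map_mul, map_zpow, mul_smul]⟩, hk⟩

theorem exists_rep (w : W g) : ∃ v, (v = 1 ∨ v = s 0 ∨ v = s 1 ∨ v = s 0 * s 1) ∧
    w * v ∈ (cls g).ker := by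
  have : ∀ κ : Multiplicative (ZMod 2 × ZMod 2), κ * 1 = 1 ∨
      κ * Multiplicative.ofAdd (1 + 0, 0) = 1 ∨ κ * Multiplicative.ofAdd (1 + 1, 1) = 1 ∨
      κ * (Multiplicative.ofAdd (1 + 0, 0) * Multiplicative.ofAdd (1 + 1, 1)) = 1 := by decide
  rcases this (cls g w) with h | h | h | h
  · exact ⟨1, by simp, by simpa using h⟩
  · exact ⟨s 0, by simp, by rw [MonoidHom.mem_ker, map_mul, cls_s, map_zero, h]⟩
  · exact ⟨s 1, by simp, by rw [MonoidHom.mem_ker, map_mul, cls_s, map_one, h]⟩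
  · exact ⟨s 0 * s 1, by simp, by
      rw [MonoidHom.mem_ker, map_mul, map_mul, cls_s, cls_s, map_zero, map_one, h]⟩

theorem cocompact : ∃ R, ∀ P, H2 P → ∃ x : Gam g, ch P (Y.ρ x • o) < R := by
  obtain ⟨R, hR⟩ := Y.bdd
  obtain ⟨M, hM⟩ := ((Set.toFinite ({1, s 0, s 1, s 0 * s 1} : Set (W g))).image
    fun v => ch o (Y.ρ v • o)).bddAbove
  refine ⟨2 * R * M + 1, fun P hP => ?_⟩
  obtain ⟨w, hw⟩ := Y.cover hP
  obtain ⟨v, h1, h2⟩ := exists_rep w⁻¹
  refine ⟨⟨_, h2⟩, ?_⟩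
  have a := hR _ hw.1 hw.2
  have b : ch o (Y.ρ v • o) ≤ M := hM ⟨v, by simpa using h1, rfl⟩
  have c := ch_tri hw.1 H2_o (H2_o.smul (Y.ρ v))
  have d := one_le_ch H2_o hw.1
  have e := one_le_ch H2_o (H2_o.smul (Y.ρ v))
  have f : 2 * ch o (Y.ρ w • P) * ch o (Y.ρ v • o) ≤ 2 * R * M := by gcongr; linarith
  simp only [map_mul, map_inv, mul_smul]
  rw [← ch_isom (Y.ρ w), smul_inv_smul]
  linarith

end Poly

end Pool.Agent.MP_4a6971_al.H66

end

-- part MP_4a6971_al.H66.Link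
section

/-!
Linking of axes is preserved by all automorphisms of the surface group.
-/

namespace Pool.Agent.MP_4a6971_al.H66

variable {g : ℕ}

namespace Poly

variable (Y : Poly g)

/-- The representation of the surface group. -/
noncomputable def σ : Gam g →* Isom := Y.ρ.comp (cls g).ker.subtype

theorem σ_apply (x : Gam g) : Y.σ x = Y.ρ x := rfl

theorem hyp' {x : Gam g} (h : x ≠ 1) : Hyp (Y.σ x) := Y.hyp x.2 fun h1 => h (Subtype.ext h1)

/-- The axes of two nontrivial elements cross. -/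
def Lk (x y : Gam g) : Prop :=
  x ≠ 1 ∧ y ≠ 1 ∧ ∃ E F, IsAx (Y.σ x) E ∧ IsAx (Y.σ y) F ∧ Cr E F

variable {Y}

theorem Lk.cr {x y : Gam g} (h : Y.Lk x y) {E F : V} (hE : IsAx (Y.σ x) E) (hF : IsAx (Y.σ y) F) :
    Cr E F := by
  obtain ⟨a, b, E', F', c, d, e⟩ := h
  rcases (Y.hyp' a).ax_unique c hE with rfl | rfl <;>
    rcases (Y.hyp' b).ax_unique d hF with rfl | rfl <;> simpa using e

theorem Lk.symm {x y : Gam g} (h : Y.Lk x y) : Y.Lk y x := by
  obtain ⟨a, b, E, F, c, d, e⟩ := h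
  exact ⟨b, a, F, E, d, c, e.symm⟩

theorem Lk.inv {x y : Gam g} (h : Y.Lk x y) : Y.Lk x⁻¹ y := by
  obtain ⟨a, b, E, F, c, d, e⟩ := h
  exact ⟨inv_ne_one.2 a, b, E, F, by rw [map_inv]; exact c.inv, d, e⟩

theorem transfer (φ : MulAut (Gam g)) {x : Gam g} (hx : x ≠ 1) {E E' : V} (hE : IsAx (Y.σ x) E)
    (hE' : IsAx (Y.σ (φ x)) E') (R : ℝ) :
    ∃ R', 0 ≤ R' ∧ ∀ y, |Bf E (Y.σ y • o)| ≤ R → |Bf E' (Y.σ (φ y) • o)| ≤ R' := by
  obtain ⟨Φ, h1, h2⟩ := Y.near_axis (Y.hyp' hx) hE R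
  obtain ⟨M, hM⟩ := ((h1.preimage (f := fun y : Gam g => (y : W g))
    Subtype.val_injective.injOn).image fun y => |Bf E' (Y.σ (φ y) • o)|).bddAbove
  refine ⟨max M 0, le_max_right _ _, fun y hy => le_max_of_le_left ?_⟩
  obtain ⟨k, hk⟩ := h2 _ hy
  have := hM ⟨x ^ k * y, hk, rfl⟩
  simp only [map_mul, map_zpow, mul_smul] at this
  rwa [← hE'.zpow k, Bf_isom] at this

theorem not_lk_aux (φ : MulAut (Gam g)) {x y : Gam g} (hx : x ≠ 1) {E E' N N' M M' : V}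
    (hE : IsAx (Y.σ x) E) (hE' : IsAx (Y.σ (φ x)) E') (n : End (Y.σ y) N) (n' : End (Y.σ y)⁻¹ N')
    (m : End (Y.σ (φ y)) M) (m' : End (Y.σ (φ y))⁻¹ M') (a : 0 < Bf E N) (a' : 0 < Bf E N')
    (b : 0 < Bf E' M) (b' : Bf E' M' < 0) : False := by
  obtain ⟨R0, h0⟩ := Y.cocompact
  have r0 : 1 < R0 := by
    obtain ⟨z, hz⟩ := h0 o H2_o
    exact (one_le_ch H2_o (H2_o.smul _)).trans_lt hz
  obtain ⟨R1, h1⟩ := (((Y.proper_o (2 * R0 * R0)).preimage (f := fun y : Gam g => (y : W g))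
    Subtype.val_injective.injOn).image fun y => ch o (Y.σ (φ y) • o)).bddAbove
  obtain ⟨R, r1, h2⟩ := transfer φ⁻¹ (x := φ x) (by simpa using hx) hE' (by simpa using hE) R1
  have big : ∀ P z, H2 P → (1 + 2 * R) * R0 < Bf E P → ch P (Y.σ z • o) < R0 →
      R1 < |Bf E' (Y.σ (φ z) • o)| := by
    intro P z p1 p2 p3
    by_contra! hc
    have c1 := h2 _ hc
    rw [MulAut.inv_apply_self] at c1
    have c2 := abs_Bf_le hE.1 p1 (H2_o.smul (Y.σ z))
    rw [ch_comm] at c2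
    have c3 := one_le_ch p1 (H2_o.smul (Y.σ z))
    have c4 : (1 + 2 * |Bf E (Y.σ z • o)|) * ch P (Y.σ z • o) ≤ (1 + 2 * R) * R0 := by gcongr
    linarith [le_abs_self (Bf E P)]
  have op : ∀ p : Gam g → Prop, IsOpen (⋃ z, ⋃ _ : p z, {P | ch P (Y.σ z • o) < R0}) := fun p =>
    isOpen_iUnion fun z => isOpen_iUnion fun _ => isOpen_lt (by unfold ch Bf; fun_prop)
      continuous_const
  have self : ∀ z, ch (Y.σ z • o) (Y.σ z • o) < R0 := fun z => by
    rw [ch_isom, ch, H2_o.1]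
    linarith
  refine Exists.elim (side_preconnected (Y.hyp' hx) hE ((1 + 2 * R) * R0) _ _
    (op fun z => 0 < Bf E' (Y.σ (φ z) • o)) (op fun z => Bf E' (Y.σ (φ z) • o) < 0) ?_ ?_ ?_) ?_
  rotate_right
  · rintro P ⟨⟨p1, p2⟩, p3, p4⟩
    simp only [Set.mem_iUnion, Set.mem_ofPred_eq] at p3 p4
    obtain ⟨z, z1, z2⟩ := p3
    obtain ⟨w, w1, w2⟩ := p4
    have c1 := abs_Bf_le_of_sign hE'.1 (H2_o.smul _) (H2_o.smul _)
      (mul_neg_of_neg_of_pos w1 z1).le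
    have c2 : ch o (Y.σ (φ (z⁻¹ * w)) • o) ≤ R1 := by
      refine h1 ⟨z⁻¹ * w, ?_, rfl⟩
      change ch o (Y.σ (z⁻¹ * w) • o) ≤ _
      rw [map_mul, map_inv, mul_smul, ← ch_isom (Y.σ z), smul_inv_smul]
      refine (ch_tri (H2_o.smul _) p1 (H2_o.smul _)).trans ?_
      have := one_le_ch p1 (H2_o.smul (Y.σ z))
      have := one_le_ch p1 (H2_o.smul (Y.σ w))
      gcongr
    rw [map_mul, map_inv, map_mul, map_inv, mul_smul, ← ch_isom (Y.σ (φ z)), smul_inv_smul] at c2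
    linarith [big P w p1 p2 w2]
  · rintro P ⟨p1, p2⟩
    obtain ⟨z, hz⟩ := h0 P p1
    have := big P z p1 p2 hz
    have r2 : 1 ≤ R1 := (one_le_ch H2_o (H2_o.smul _)).trans (h1 ⟨1, by
      simp only [Set.mem_preimage, Set.mem_ofPred_eq, OneMemClass.coe_one, map_one, one_smul, ch,
        H2_o.1]
      nlinarith, rfl⟩)
    simp only [Set.mem_union, Set.mem_iUnion, Set.mem_ofPred_eq]
    rcases lt_abs.1 this with c | c
    · exact Or.inl ⟨z, by linarith, hz⟩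
    · exact Or.inr ⟨z, by linarith, hz⟩
  · obtain ⟨k, hk⟩ := n.grow E o ((1 + 2 * R) * R0) H2_o a
    obtain ⟨l, hl⟩ := m.grow E' o 0 H2_o b
    refine ⟨Y.σ (y ^ (k + l)) • o, ⟨H2_o.smul _, by rw [map_pow]; exact hk _ (by omega)⟩, ?_⟩
    simp only [Set.mem_iUnion, Set.mem_ofPred_eq]
    exact ⟨y ^ (k + l), by rw [map_pow, map_pow]; exact hl _ (by omega), self _⟩
  · obtain ⟨k, hk⟩ := n'.grow E o ((1 + 2 * R) * R0) H2_o a'
    obtain ⟨l, hl⟩ := m'.grow (-E') o 0 H2_o (by simpa using b')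
    refine ⟨Y.σ (y⁻¹ ^ (k + l)) • o,
      ⟨H2_o.smul _, by rw [map_pow, map_inv]; exact hk _ (by omega)⟩, ?_⟩
    simp only [Set.mem_iUnion, Set.mem_ofPred_eq]
    refine ⟨y⁻¹ ^ (k + l), ?_, self _⟩
    rw [map_pow, map_pow, map_inv, map_inv]
    simpa using hl (k + l) (by omega)

theorem not_lk_map (φ : MulAut (Gam g)) {x y : Gam g} (hx : x ≠ 1) (hy : y ≠ 1) (h : ¬ Y.Lk x y) :
    ¬ Y.Lk (φ x) (φ y) := by
  rintro ⟨a, b, E', F', hE', hF', c⟩
  obtain ⟨E, hE⟩ := (Y.hyp' hx).exists_ax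
  obtain ⟨F, hF⟩ := (Y.hyp' hy).exists_ax
  have h1 : 1 ≤ Bf E F ^ 2 := not_lt.1 fun h1 => h ⟨hx, hy, E, F, hE, hF, h1⟩
  obtain ⟨N, N', n, n', hn⟩ := exists_ends (Y.hyp' hy) hF
  obtain ⟨M, M', m, m', hm⟩ := exists_ends (Y.hyp' b) hF'
  wlog b1 : 0 < Bf E' M ∧ Bf E' M' < 0 generalizing E'
  · have e := hm E'
    rw [hE'.1] at e
    rw [Cr] at c
    rcases mul_neg_iff.1 (show Bf E' M * Bf E' M' < 0 by linarith) with d | d
    · exact b1 d
    · exact this (-E') hE'.neg (by simpa [Cr] using c) (by simpa using d)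
  rcases h1.eq_or_lt with h2 | h2
  · have h3 : IsAx (Y.σ y) E := by
      rcases Y.not_tangent (Y.hyp' hy) (Y.hyp' hx) hF hE (by rw [Bf_comm, h2]) with rfl | rfl
      · exact hF
      · exact hF.neg
    obtain ⟨R, -, hR⟩ := transfer φ hx hE hE' |Bf E o|
    obtain ⟨l, hl⟩ := m.grow E' o R H2_o b1.1
    have := hR (y ^ l) (by
      rw [map_pow, ← zpow_natCast]
      nth_rewrite 1 [← h3.zpow l]
      rw [Bf_isom])
    rw [map_pow, map_pow] at this
    linarith [hl l le_rfl, le_abs_self (Bf E' (Y.σ (φ y) ^ l • o))]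
  · have e := hn E
    rw [hE.1] at e
    rcases mul_pos_iff.1 (show 0 < Bf E N * Bf E N' by linarith) with d | d
    · exact not_lk_aux φ hx hE hE' n n' m m' d.1 d.2 b1.1 b1.2
    · exact not_lk_aux φ hx hE.neg hE' n n' m m' (by simpa using d.1) (by simpa using d.2) b1.1 b1.2

theorem Lk.map {x y : Gam g} (h : Y.Lk x y) (φ : MulAut (Gam g)) : Y.Lk (φ x) (φ y) := by
  by_contra hc
  exact not_lk_map φ⁻¹ (by simpa using h.1) (by simpa using h.2.1) hc (by simpa using h)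

theorem lk_map_iff {x y : Gam g} (φ : MulAut (Gam g)) : Y.Lk (φ x) (φ y) ↔ Y.Lk x y :=
  ⟨fun h => by simpa using h.map φ⁻¹, fun h => h.map φ⟩

end Poly

end Pool.Agent.MP_4a6971_al.H66

end

-- part MP_4a6971_al.H66.Walls
section

/-!
Walls of the tessellation and the translations along them.
-/

namespace Pool.Agent.MP_4a6971_al.H66

variable {g : ℕ}

/-- The translation along the `i`-th wall as an element of the surface group. -/
def tc (i : I g) : Gam g := ⟨tr i, tr_mem i⟩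

/-- Conjugation by an element of the reflection group. -/
def cj (w : W g) : MulAut (Gam g) := MulAut.conjNormal w

theorem cj_coe (w : W g) (x : Gam g) : (cj w x : W g) = w * x * w⁻¹ := MulAut.conjNormal_apply w x

theorem cj_mul (w v : W g) (x : Gam g) : cj (w * v) x = cj w (cj v x) :=
  Subtype.ext (by simp [cj_coe, mul_assoc])

theorem cj_inv_cj (w : W g) (x : Gam g) : cj w⁻¹ (cj w x) = x :=
  Subtype.ext (by simp [cj_coe, mul_assoc])

theorem cj_gam (y x : Gam g) : cj (y : W g) x = y * x * y⁻¹ := Subtype.ext (cj_coe _ _)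

/-- The unoriented conjugacy class. -/
def cl (x : Gam g) : Set (Gam g) := {y | ∃ z, y = z * x * z⁻¹ ∨ y = z * x⁻¹ * z⁻¹}

theorem mem_cl_self (x : Gam g) : x ∈ cl x := ⟨1, Or.inl (by simp)⟩

theorem conj_mem_cl {x y : Gam g} (h : y ∈ cl x) (z : Gam g) : z * y * z⁻¹ ∈ cl x := by
  obtain ⟨u, rfl | rfl⟩ := h
  · exact ⟨z * u, Or.inl (by group)⟩
  · exact ⟨z * u, Or.inr (by group)⟩

theorem inv_mem_cl {x y : Gam g} (h : y ∈ cl x) : y⁻¹ ∈ cl x := by
  obtain ⟨u, rfl | rfl⟩ := h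
  · exact ⟨u, Or.inr (by group)⟩
  · exact ⟨u, Or.inl (by group)⟩

theorem cl_subset {x y : Gam g} (h : y ∈ cl x) : cl y ⊆ cl x := by
  rintro _ ⟨u, rfl | rfl⟩
  · exact conj_mem_cl h u
  · exact conj_mem_cl (inv_mem_cl h) u

theorem mem_cl_symm {x y : Gam g} (h : y ∈ cl x) : x ∈ cl y := by
  obtain ⟨u, rfl | rfl⟩ := h
  · exact ⟨u⁻¹, Or.inl (by group)⟩
  · exact ⟨u⁻¹, Or.inr (by group)⟩

theorem cl_eq {x y : Gam g} (h : y ∈ cl x) : cl y = cl x :=
  (cl_subset h).antisymm (cl_subset (mem_cl_symm h))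

theorem map_mem_cl (φ : MulAut (Gam g)) {x y : Gam g} (h : y ∈ cl x) : φ y ∈ cl (φ x) := by
  obtain ⟨u, rfl | rfl⟩ := h
  · exact ⟨φ u, Or.inl (by simp)⟩
  · exact ⟨φ u, Or.inr (by simp)⟩

theorem image_cl (φ : MulAut (Gam g)) (x : Gam g) : φ '' cl x = cl (φ x) := by
  refine Set.Subset.antisymm ?_ fun y hy => ⟨φ⁻¹ y, by simpa using map_mem_cl φ⁻¹ hy, by simp⟩
  rintro _ ⟨y, hy, rfl⟩
  exact map_mem_cl φ hy

theorem cj_s (i : I g) : cj (s i) (tc i) = tc i :=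
  Subtype.ext (by simp [cj_coe, tc, s_tr, mul_assoc])

theorem cj_s' (i : I g) : cj (s (i + 1)) (tc i) = (tc i)⁻¹ :=
  Subtype.ext (by simp [cj_coe, tc, s_tr', mul_assoc])

theorem cj_tc_mem (w : W g) (i : I g) : cj w (tc i) ∈ cl (tc i) := by
  have : ∀ (κ : Multiplicative (ZMod 2 × ZMod 2)) (a : ZMod 2), κ = 1 ∨
      κ * Multiplicative.ofAdd (1 + a, a) = 1 ∨ κ * Multiplicative.ofAdd (1 + (a + 1), a + 1) = 1 ∨
      κ * (Multiplicative.ofAdd (1 + a, a) * Multiplicative.ofAdd (1 + (a + 1), a + 1)) = 1 := by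
    decide
  have key : ∀ v, w * v ∈ (cls g).ker → cj v⁻¹ (tc i) ∈ cl (tc i) → cj w (tc i) ∈ cl (tc i) := by
    intro v h1 h2
    have := conj_mem_cl h2 ⟨_, h1⟩
    rwa [← cj_gam, ← cj_mul, mul_inv_cancel_right] at this
  rcases this (cls g w) (par i) with h | h | h | h
  · exact key 1 (by simpa using h) (by simpa [cj] using mem_cl_self _)
  · exact key (s i) (by rw [MonoidHom.mem_ker, map_mul, cls_s, h])
      (by rw [s_inv, cj_s]; exact mem_cl_self _)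
  · exact key (s (i + 1)) (by rw [MonoidHom.mem_ker, map_mul, cls_s, par_succ, h])
      (by rw [s_inv, cj_s']; exact inv_mem_cl (mem_cl_self _))
  · exact key (s i * s (i + 1)) (by rw [MonoidHom.mem_ker, map_mul, map_mul, cls_s, cls_s, par_succ, h])
      (by rw [mul_inv_rev, s_inv, s_inv, cj_mul, cj_s, cj_s']; exact inv_mem_cl (mem_cl_self _))

theorem cj_mem_cl (w : W g) {i : I g} {x : Gam g} (h : x ∈ cl (tc i)) : cj w x ∈ cl (tc i) :=
  cl_subset (cj_tc_mem w i) (map_mem_cl _ h)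

theorem closure_tc : Subgroup.closure (Set.range (tc : I g → Gam g)) = ⊤ := by
  let L := Subgroup.closure (Set.range (tr : I g → W g))
  have h0 : ∀ i, tr i ∈ L := fun i => Subgroup.subset_closure ⟨i, rfl⟩
  have h1 : ∀ (m : ℕ) (i : I g), s i * s (i + 2 * (m : I g)) ∈ L := by
    intro m i
    induction m with
    | zero => simp
    | succ m ih =>
      have := L.mul_mem ih (h0 (i + 2 * m + 1))
      rw [tr, add_sub_cancel_right, mul_assoc, s_s] at this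
      rwa [show i + 2 * ((m + 1 : ℕ) : I g) = i + 2 * m + 1 + 1 by push_cast; ring]
  have h2 : ∀ i j : I g, par i = par j → s i * s j ∈ L := by
    intro i j h
    have : par (j - i) = 0 := by rw [map_sub, h, sub_self]
    rw [← ZMod.natCast_zmod_val (j - i), map_natCast, ZMod.natCast_eq_zero_iff] at this
    obtain ⟨m, hm⟩ := this
    have e : j = i + 2 * (m : I g) := by
      have := ZMod.natCast_zmod_val (j - i)
      rw [hm] at this
      push_cast at this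
      linear_combination -this
    exact e ▸ h1 m i
  have h3 : ∀ k i, s k * tr i * s k ∈ L := by
    intro k i
    have : ∀ a b : ZMod 2, a = b ∨ a = b + 1 := by decide
    rcases this (par k) (par i) with h | h
    · have := L.mul_mem (L.mul_mem (h2 k i h) (h0 i)) (h2 i k h.symm)
      rwa [mul_assoc (s k), s_tr, mul_assoc, mul_assoc, s_s, ← mul_assoc] at this
    · rw [← par_succ] at h
      have := L.mul_mem (L.mul_mem (h2 k _ h) (L.inv_mem (h0 i))) (h2 _ k h.symm)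
      have e : s (i + 1) * (tr i)⁻¹ = tr i * s (i + 1) := by simp [tr, mul_assoc]
      rwa [mul_assoc (s k), e, mul_assoc, mul_assoc, s_s, ← mul_assoc] at this
  have h4 : ∀ k, ∀ x ∈ L, s k * x * s k ∈ L := by
    intro k x hx
    induction hx using Subgroup.closure_induction with
    | mem x hx =>
      obtain ⟨i, rfl⟩ := hx
      exact h3 k i
    | one => simp
    | mul x y _ _ a b => simpa [mul_assoc] using L.mul_mem a b
    | inv x _ a => simpa [mul_assoc] using L.inv_mem a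
  have c : s (0 : I g) * s 1 = s 1 * s 0 := by simpa using s_comm (0 : I g)
  have h5 : ∀ w : W g, w ∈ L ∨ w * s 0 ∈ L ∨ w * s 1 ∈ L ∨ w * (s 0 * s 1) ∈ L := by
    intro w
    induction w using W_ind_left with
    | one => exact Or.inl L.one_mem
    | step k w ih =>
      have : ∀ a : ZMod 2, a = 0 ∨ a = 1 := by decide
      have key : ∀ u v : W g, w * u ∈ L → s k * u⁻¹ * v ∈ L → s k * w * v ∈ L := fun u v a b => by
        simpa [mul_assoc] using L.mul_mem (h4 k _ a) b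
      rcases this (par k) with h | h
      · have a := h2 k 0 (by rw [h, map_zero])
        rcases ih with b | b | b | b
        · exact Or.inr (Or.inl (key 1 _ (by simpa using b) (by simpa using a)))
        · exact Or.inl (by simpa using key _ 1 b (by simpa using a))
        · exact Or.inr (Or.inr (Or.inr (key _ _ b (by simpa [c, mul_assoc] using a))))
        · exact Or.inr (Or.inr (Or.inl (key _ _ b (by simpa [← c, mul_assoc] using a))))
      · have a := h2 k 1 (by rw [h, map_one])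
        rcases ih with b | b | b | b
        · exact Or.inr (Or.inr (Or.inl (key 1 _ (by simpa using b) (by simpa using a))))
        · exact Or.inr (Or.inr (Or.inr (key _ _ b (by simpa [mul_assoc] using a))))
        · exact Or.inl (by simpa using key _ 1 b (by simpa using a))
        · exact Or.inr (Or.inl (key _ _ b (by simpa [mul_assoc] using a)))
  have h6 : L ≤ (cls g).ker := (Subgroup.closure_le _).2 (by rintro _ ⟨i, rfl⟩; exact tr_mem i)
  have h7 : ∀ x : Gam g, (x : W g) ∈ L := by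
    intro x
    have hx : cls g x = 1 := x.2
    rcases h5 x with h | h | h | h
    · exact h
    all_goals
      exfalso
      have := h6 h
      simp only [MonoidHom.mem_ker, map_mul, hx, cls_s, map_zero, map_one] at this
      revert this
      decide
  rw [eq_top_iff]
  intro x _
  have := h7 x
  have e : L = (Subgroup.closure (Set.range (tc : I g → Gam g))).map (cls g).ker.subtype := by
    rw [MonoidHom.map_closure, ← Set.range_comp]
    rfl
  rw [e] at this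
  obtain ⟨y, hy, h⟩ := this
  exact (Subtype.ext h : y = x) ▸ hy

namespace Poly

variable (Y : Poly g)

include Y in
theorem two_ne : (2 : I g) ≠ 0 := by
  have := Y.hg
  exact_mod_cast natCast_ne_zero (g := g) (m := 2) (by omega) (by omega)

include Y in
theorem three_ne : (3 : I g) ≠ 0 := by
  have := Y.hg
  exact_mod_cast natCast_ne_zero (g := g) (m := 3) (by omega) (by omega)

include Y in
theorem four_ne : (4 : I g) ≠ 0 := by
  have := Y.hg
  exact_mod_cast natCast_ne_zero (g := g) (m := 4) (by omega) (by omega)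

theorem one_ne : (1 : I g) ≠ 0 := fun h => succ_ne (0 : I g) (by simpa using h)

include Y in
theorem tc_ne (i : I g) : tc i ≠ 1 := by
  intro h
  have h1 : s (i - 1) * s (i + 1) = 1 := congrArg Subtype.val h
  have h2 : (1 : W g) * s (i - 1) * 1⁻¹ = s (i + 1) := by
    simpa using eq_inv_of_mul_eq_one_left h1
  exact Y.two_ne (by linear_combination -eq_of_conj_s h2)

theorem ax_tc (i : I g) : IsAx (Y.σ (tc i)) (Y.e i) := ⟨Y.unit i, Y.ρ_tr i⟩

variable {Y} in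
theorem _root_.Pool.Agent.MP_4a6971_al.H66.IsAx.cj {x : Gam g} {E : V} (h : IsAx (Y.σ x) E)
    (w : W g) : IsAx (Y.σ (cj w x)) (Y.ρ w • E) := by
  have := h.conj (Y.ρ w)
  rwa [σ_apply, cj_coe, map_mul, map_mul, map_inv]

theorem ax_of_mem {i : I g} {x : Gam g} (h : x ∈ cl (tc i)) :
    x ≠ 1 ∧ ∃ w : W g, IsAx (Y.σ x) (Y.ρ w • Y.e i) := by
  obtain ⟨z, rfl | rfl⟩ := h
  · exact ⟨by simpa using Y.tc_ne i, z, by rw [← cj_gam]; exact (Y.ax_tc i).cj z⟩
  · refine ⟨by simpa using Y.tc_ne i, z, ?_⟩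
    rw [← cj_gam]
    have h1 : IsAx (Y.σ (tc i)⁻¹) (Y.e i) := by
      rw [map_inv]
      exact (Y.ax_tc i).inv
    exact h1.cj z

theorem wall_through {w : W g} {i : I g} {P : V} (hP : Y.Ch P) (h : Bf (Y.ρ w • Y.e i) P = 0) :
    Y.ρ w • Y.e i = Y.e i ∨ Y.ρ w • Y.e i = -Y.e i := by
  have e : ∀ X, Y.ρ (w * s i * w⁻¹) • X = X - (2 * Bf (Y.ρ w • Y.e i) X) • Y.ρ w • Y.e i := by
    intro X
    rw [map_mul, map_mul, map_inv, mul_smul, mul_smul, ρ_s, smul_sub, smul_inv_smul, isom_smul,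
      Bf_move]
  obtain ⟨k, hk⟩ := Y.stab hP
  have h1 : w * s i * w⁻¹ = s i := by
    have a : sg g (w * s i * w⁻¹) = -1 := by simp
    rcases hk _ (by rw [e, h]; simp) with b | b | b | b
    · rw [b] at a
      exact absurd a (by simp)
    · rw [b, eq_of_conj_s b]
    · rw [b, eq_of_conj_s b]
    · rw [b] at a
      exact absurd a (by simp)
  have h2 := e (Y.e i)
  rw [h1, ρ_s_e] at h2
  have h3 : Y.e i = Bf (Y.ρ w • Y.e i) (Y.e i) • Y.ρ w • Y.e i := by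
    have : (2 : ℝ) • Y.e i = (2 : ℝ) • Bf (Y.ρ w • Y.e i) (Y.e i) • Y.ρ w • Y.e i := by
      rw [← mul_smul, ← sub_eq_zero, two_smul, add_sub_assoc, ← h2, add_neg_cancel]
    exact smul_right_injective _ two_ne_zero this
  have h4 := congrArg (fun X => Bf X (Y.e i)) h3
  simp only [Bf_smul_left, Y.unit] at h4
  rcases mul_self_eq_one_iff.1 h4.symm with a | a <;> rw [a] at h3
  · exact Or.inl (by simpa using h3.symm)
  · exact Or.inr (by rw [neg_smul, one_smul] at h3; exact (neg_eq_iff_eq_neg.2 h3).symm)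

theorem cross_walls {w v : W g} {i j : I g} (h : Cr (Y.ρ w • Y.e i) (Y.ρ v • Y.e j)) :
    j = i + 1 ∨ i = j + 1 := by
  obtain ⟨P, p1, p2, p3⟩ := exists_inter (by simpa using Y.unit i) (by simpa using Y.unit j) h
  obtain ⟨u, hu⟩ := Y.cover p1
  rw [← Bf_isom (Y.ρ u), ← mul_smul, ← map_mul] at p2 p3
  rw [← cr_isom (Y.ρ u), ← mul_smul, ← mul_smul, ← map_mul, ← map_mul] at h
  have a := Y.wall_through hu p2
  have b := Y.wall_through hu p3
  have c : Cr (Y.e i) (Y.e j) := by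
    rcases a with a | a <;> rcases b with b | b <;> rw [a, b] at h <;> simpa using h
  by_contra! hc
  by_cases hij : j = i
  · exact not_cr_self (Y.unit i) (hij ▸ c)
  · have := Y.far i j hij hc.1 hc.2
    rw [Cr] at c
    nlinarith

theorem not_cr_walls {w v : W g} {i j : I g} (h : par i = par j) :
    ¬ Cr (Y.ρ w • Y.e i) (Y.ρ v • Y.e j) := fun hc => by
  have : ∀ a : ZMod 2, a ≠ a + 1 := by decide
  rcases Y.cross_walls hc with rfl | rfl <;> rw [par_succ] at h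
  · exact this _ h
  · exact this _ h.symm

theorem not_lk_of_mem {i : I g} {x y : Gam g} (hx : x ∈ cl (tc i)) (hy : y ∈ cl (tc i)) :
    ¬ Y.Lk x y := fun h => by
  obtain ⟨-, w, a⟩ := Y.ax_of_mem hx
  obtain ⟨-, v, b⟩ := Y.ax_of_mem hy
  exact Y.not_cr_walls rfl (h.cr a b)

theorem eq_zpow {i : I g} {x : Gam g} (h : Y.σ x • Y.e i = Y.e i ∨ Y.σ x • Y.e i = -Y.e i) :
    ∃ k : ℤ, x = tc i ^ k := by
  obtain ⟨k, hk⟩ := Y.wall_stab x h
  have hx : cls g x = 1 := x.2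
  have ht : cls g (tr i ^ k) = 1 := (cls g).ker.zpow_mem (tr_mem i) k
  rcases hk with a | a | a | a
  · exact ⟨k, Subtype.ext a⟩
  all_goals
    exfalso
    rw [a] at hx
    simp only [map_mul, ht, cls_s, par_succ] at hx
    revert hx
    generalize par i = z
    revert z
    decide

include Y in
theorem primitive (φ : MulAut (Gam g)) {i j : I g} {k : ℤ} (h : φ (tc j) = tc i ^ k) :
    k = 1 ∨ k = -1 := by
  have h1 : tc j = φ⁻¹ (tc i) ^ k := by rw [← map_zpow, ← h, MulAut.inv_apply_self]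
  have h2 : IsAx (Y.σ (tc j)) (Y.σ (φ⁻¹ (tc i)) • Y.e j) := by
    have := (Y.ax_tc j).conj (Y.σ (φ⁻¹ (tc i)))
    rwa [← map_inv, ← map_mul, ← map_mul, h1, show φ⁻¹ (tc i) * φ⁻¹ (tc i) ^ k * (φ⁻¹ (tc i))⁻¹ =
      φ⁻¹ (tc i) ^ k by group, ← h1] at this
  obtain ⟨m, hm⟩ := Y.eq_zpow ((Y.hyp' (Y.tc_ne j)).ax_unique (Y.ax_tc j) h2)
  rw [hm, ← zpow_mul] at h1
  have h3 : m * k - 1 = 0 := by
    by_contra hc
    refine (Y.hyp' (Y.tc_ne j)).zpow_ne_one hc ?_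
    rw [← map_zpow, zpow_sub, ← h1]
    simp
  exact Int.eq_one_or_neg_one_of_mul_eq_one' (by linarith : k * m = 1) |>.imp And.left And.left

theorem eq_of_ax (φ : MulAut (Gam g)) {i j : I g} {x : Gam g} (hx : x ∈ cl (φ (tc j)))
    (h : IsAx (Y.σ x) (Y.e i)) : x = tc i ∨ x = (tc i)⁻¹ := by
  obtain ⟨k, hk⟩ := Y.eq_zpow (Or.inl h.2)
  obtain ⟨z, a | a⟩ := hx
  · rcases Y.primitive (MulAut.conj z * φ) (i := i) (j := j) (k := k) (by rw [← hk, a]; rfl)
      with rfl | rfl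
    · exact Or.inl (by simpa using hk)
    · exact Or.inr (by simpa using hk)
  · rcases Y.primitive (MulAut.conj z * φ) (i := i) (j := j) (k := -k)
      (by rw [zpow_neg, ← hk, a]; simp [mul_assoc]) with b | b
    · exact Or.inr (by rw [hk, show k = -1 by omega]; simp)
    · exact Or.inl (by rw [hk, show k = 1 by omega]; simp)

theorem ax_fin (i : I g) (D : V) : {d | d ∈ cl (tc i) ∧ IsAx (Y.σ d) D}.Finite := by
  rcases Set.eq_empty_or_nonempty {d | d ∈ cl (tc i) ∧ IsAx (Y.σ d) D} with h | ⟨d, h1, h2⟩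
  · rw [h]
    exact Set.finite_empty
  obtain ⟨a, w, b⟩ := Y.ax_of_mem h1
  refine (Set.toFinite {cj w (tc i), cj w (tc i)⁻¹}).subset ?_
  rintro x ⟨h3, h4⟩
  have h5 : IsAx (Y.σ x) (Y.ρ w • Y.e i) := by
    rcases (Y.hyp' a).ax_unique h2 b with c | c <;> rw [c]
    · exact h4
    · exact h4.neg
  have h6 := h5.cj w⁻¹
  rw [map_inv, inv_smul_smul] at h6
  rcases Y.eq_of_ax 1 (cj_mem_cl w⁻¹ h3) h6 with c | c <;> rw [← c]
  · exact Or.inl (by simpa using (cj_inv_cj w⁻¹ x).symm)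
  · exact Or.inr (by simpa using (cj_inv_cj w⁻¹ x).symm)

theorem fill {x : Gam g} (hx : x ≠ 1) : ∃ i, ∃ y ∈ cl (tc i), Y.Lk x y := by
  obtain ⟨E, hE⟩ := (Y.hyp' hx).exists_ax
  by_contra! hc
  have h1 : ∀ w i, ¬ Cr E (Y.ρ w • Y.e i) := fun w i h => hc i _ (cj_tc_mem w i)
    ⟨hx, by simpa using Y.tc_ne i, _, _, hE, (Y.ax_tc i).cj w, h⟩
  obtain ⟨P, p1, p2⟩ := fill_aux (Y.hyp' hx) hE
  obtain ⟨w, hw⟩ := Y.cover p1
  obtain ⟨R, hR⟩ := Y.bdd
  obtain ⟨N, -, n, -, -⟩ := exists_ends (Y.hyp' hx) hE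
  obtain ⟨k, hk⟩ := n.grow (-((Y.ρ w)⁻¹ • o)) P R p1 (by
    rw [Bf_neg_left, Bf_comm]
    exact n.fut _ (H2_o.smul _))
  have a := hk k le_rfl
  have b := hR (Y.ρ w • Y.σ x ^ k • P) ((p1.smul _).smul _) fun i => by
    rw [Bf_comm, Bf_move, Bf_comm, ← zpow_natCast]
    refine p2 _ (by simpa using Y.unit i) (by rw [← map_inv]; exact h1 _ i) ?_ _
    rw [Bf_move, inv_inv]
    exact hw.2 i
  rw [Bf_neg_left, Bf_move, inv_inv] at a
  exact absurd b (not_le.2 a)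

theorem pingpong {a a' : W g} {i j : I g} (n1 : j ≠ i) (n2 : j ≠ i + 1) (n3 : i ≠ j + 1)
    (ha : Y.ρ a • Y.e i = -Y.e i) (ha' : Y.ρ a' • Y.e j = -Y.e j) {z : Gam g}
    (hz : (z : W g) = a * a') : z ≠ 1 ∧ ∃ Z Q Q', IsAx (Y.σ z) Z ∧ Fut Q ∧ Fut Q' ∧
      Bf (Y.e j) Q < 0 ∧ Bf (Y.e i) Q' < 0 ∧
      ∀ H, 4 * (Bf H (Y.ρ a • Q) * Bf H ((Y.ρ a')⁻¹ • Q')) = Bf H Z ^ 2 - Bf H H := by
  have fl : ∀ {b : Isom} {E : V}, b • E = -E → ∀ X, Bf E (b • X) = -Bf E X ∧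
      Bf E (b⁻¹ • X) = -Bf E X := fun {b E} h X =>
    ⟨by rw [← neg_inj, ← Bf_neg_left, ← h, Bf_isom, neg_neg], by rw [← Bf_move, h, Bf_neg_left]⟩
  have p := fun {P : V} (hP : Fut P) => Y.add_pos n1 n2 n3 hP
  have e : ∀ X : V, Y.σ z • X = Y.ρ a • Y.ρ a' • X := fun X => by
    rw [σ_apply, hz, map_mul, mul_smul]
  have e' : ∀ X : V, (Y.σ z)⁻¹ • X = (Y.ρ a')⁻¹ • (Y.ρ a)⁻¹ • X := fun X => by
    rw [σ_apply, hz, map_mul, mul_inv_rev, mul_smul]
  have s1 : ∀ P, Fut P → Bf (Y.e i) P ≤ 0 → Bf (Y.e j) (Y.ρ a' • P) < 0 ∧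
      Bf (Y.e i) (Y.σ z • P) < 0 := fun P hP h => by
    have b1 := p hP
    have b2 := p (hP.smul (Y.ρ a'))
    rw [e, (fl ha _).1]
    rw [(fl ha' _).1] at b2 ⊢
    constructor <;> linarith
  have s2 : ∀ P, Fut P → Bf (Y.e j) P ≤ 0 → Bf (Y.e i) ((Y.ρ a)⁻¹ • P) < 0 ∧
      Bf (Y.e j) ((Y.σ z)⁻¹ • P) < 0 := fun P hP h => by
    have b1 := p hP
    have b2 := p (hP.smul (Y.ρ a)⁻¹)
    rw [e', (fl ha' _).2]
    rw [(fl ha _).2] at b2 ⊢
    constructor <;> linarith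
  have o1 : ∀ k, Bf (Y.e k) (Y.ρ (s k) • o) < 0 := fun k => by
    rw [(fl (Y.ρ_s_e k) _).1, Y.cen]
    linarith [Y.h_pos]
  have hz1 : z ≠ 1 := by
    rintro rfl
    have b1 := (s1 _ (H2_o.smul (Y.ρ (s i))).fut (o1 i).le).1
    have b2 := (s2 _ ((H2_o.smul (Y.ρ (s i))).smul (Y.ρ a')).fut b1.le).2
    have b3 : a = a'⁻¹ := eq_inv_of_mul_eq_one_left hz.symm
    have b4 := (fl ha' o).1
    have b5 := (fl ha (Y.ρ a' • o)).1
    rw [b3, map_inv, inv_smul_smul, Y.cen] at b5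
    rw [Y.cen] at b4
    linarith [p (H2_o.smul (Y.ρ a')).fut, Y.h_pos]
  obtain ⟨Z, hZ⟩ := (Y.hyp' hz1).exists_ax
  obtain ⟨N, N', n, n', hn⟩ := exists_ends (Y.hyp' hz1) hZ
  have c1 : Bf (Y.e i) N ≤ 0 := n.le (H2_o.smul (Y.ρ (s i))) fun k => by
    induction k with
    | zero => simpa using (o1 i).le
    | succ k ih =>
      rw [pow_succ', mul_smul]
      exact (s1 _ ((H2_o.smul _).smul _).fut ih).2.le
  have c2 : Bf (Y.e j) N' ≤ 0 := n'.le (H2_o.smul (Y.ρ (s j))) fun k => by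
    induction k with
    | zero => simpa using (o1 j).le
    | succ k ih =>
      rw [pow_succ', mul_smul]
      exact (s2 _ ((H2_o.smul _).smul _).fut ih).2.le
  obtain ⟨l, l0, hl⟩ := n.eig
  obtain ⟨l', l0', hl'⟩ := n'.eig
  have fs : ∀ {t : ℝ} {P : V}, 0 < t → Fut P → Fut (t • P) := fun {t P} ht hP Q hQ => by
    have := mul_pos ht (hP Q hQ)
    simp only [ch, Bf_smul_left] at this ⊢
    linarith
  refine ⟨hz1, Z, l⁻¹ • Y.ρ a' • N, l'⁻¹ • (Y.ρ a)⁻¹ • N', hZ, fs (inv_pos.2 l0) (n.fut.smul _),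
    fs (inv_pos.2 l0') (n'.fut.smul _), ?_, ?_, fun H => ?_⟩
  · rw [Bf_smul_right]
    exact mul_neg_of_pos_of_neg (inv_pos.2 l0) (s1 _ n.fut c1).1
  · rw [Bf_smul_right]
    exact mul_neg_of_pos_of_neg (inv_pos.2 l0') (s2 _ n'.fut c2).1
  · rw [isom_smul, isom_smul, ← e, ← e', hl, hl', inv_smul_smul₀ l0.ne', inv_smul_smul₀ l0'.ne', hn]

end Poly

end Pool.Agent.MP_4a6971_al.H66

end

-- part MP_4a6971_al.H66.Twist
section

/-!
Multitwists along the walls of one colour, as automorphisms of the surface group.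
-/

namespace Pool.Agent.MP_4a6971_al.H66

variable {g : ℕ}

/-- The amount of twisting along the `i`-th wall. -/
def amt (p : ZMod 2) (N : ℤ) (i : I g) : ℤ := if par i = p then N else 0

/-- The twisted reflection. -/
def tA (p : ZMod 2) (N : ℤ) (ε : ℤˣ) (i : I g) : W g := tr i ^ ((ε : ℤ) * amt p N i) * s i

theorem amt_succ (p : ZMod 2) (N : ℤ) (i : I g) : amt p N i = 0 ∨ amt p N (i + 1) = 0 := by
  have : ∀ a b : ZMod 2, a = b → a + 1 ≠ b := by decide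
  by_cases h : par i = p
  · exact Or.inr (by rw [amt, par_succ, if_neg (this _ _ h)])
  · exact Or.inl (by rw [amt, if_neg h])

theorem s_zpow (i : I g) (k : ℤ) : s i * tr i ^ k = tr i ^ k * s i :=
  (Commute.zpow_right (s_tr i) k).eq

theorem s_zpow_of {u t : W g} (h : u * t = t⁻¹ * u) (k : ℤ) : u * t ^ k = t ^ (-k) * u := by
  have : u * t * u⁻¹ = t⁻¹ := by rw [h, mul_inv_cancel_right]
  rw [zpow_neg, ← inv_zpow, ← this, conj_zpow, inv_mul_cancel_right]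

theorem s_tr'' (i : I g) : s i * tr (i + 1) = (tr (i + 1))⁻¹ * s i := by
  simp [tr, mul_assoc]

/-- The action on signed elements defining the twisting cocycle. -/
def twAct (p : ZMod 2) (N : ℤ) : W g →* Function.End (ℤˣ × W g) :=
  liftW (fun i q => (-q.1, tA p N q.1 i * q.2))
    (fun i => by
      funext q
      change (- -q.1, tA p N (-q.1) i * (tA p N q.1 i * q.2)) = q
      simp only [tA, neg_neg, Units.val_neg, neg_mul, mul_assoc]
      rw [← mul_assoc (s i), s_zpow, mul_assoc, s_s, ← mul_assoc, ← zpow_add]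
      simp)
    fun i => by
      funext q
      change (- -q.1, tA p N (-q.1) i * (tA p N q.1 (i + 1) * q.2)) =
        (- -q.1, tA p N (-q.1) (i + 1) * (tA p N q.1 i * q.2))
      congr 1
      rw [← mul_assoc, ← mul_assoc]
      congr 1
      simp only [tA, Units.val_neg, neg_mul]
      rcases amt_succ p N i with h | h <;> rw [h] <;>
        simp only [mul_zero, neg_zero, zpow_zero, one_mul]
      · rw [← mul_assoc, s_zpow_of (s_tr'' i), mul_assoc, mul_assoc, s_comm]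
      · rw [← mul_assoc, s_zpow_of (s_tr' i), mul_assoc, mul_assoc, s_comm]

/-- The twisting cocycle. -/
def th (p : ZMod 2) (N : ℤ) (ε : ℤˣ) (w : W g) : W g := (twAct p N w (ε, 1)).2

variable {p : ZMod 2} {N M : ℤ}

theorem twAct_apply (w : W g) (ε : ℤˣ) (x : W g) :
    twAct p N w (ε, x) = (sg g w * ε, th p N ε w * x) := by
  induction w using W_ind_left generalizing x with
  | one =>
    rw [th, map_one, map_one, one_mul]
    exact congrArg (Prod.mk ε) (one_mul x).symm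
  | step i w ih =>
    have e : ∀ x, twAct p N (s i * w) (ε, x) =
        (sg g (s i * w) * ε, tA p N (sg g w * ε) i * th p N ε w * x) := fun x => by
      rw [map_mul, twAct, liftW_s, ← twAct]
      change (-(twAct p N w (ε, x)).1, tA p N (twAct p N w (ε, x)).1 i * (twAct p N w (ε, x)).2) = _
      rw [ih]
      simp [mul_assoc]
    rw [e x, show th p N ε (s i * w) = (twAct p N (s i * w) (ε, 1)).2 from rfl, e 1, mul_one]

theorem th_mul (ε : ℤˣ) (w v : W g) :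
    th p N ε (w * v) = th p N (sg g v * ε) w * th p N ε v := by
  rw [th, map_mul]
  change (twAct p N w (twAct p N v (ε, 1))).2 = _
  rw [twAct_apply, twAct_apply, mul_one]

theorem th_one (ε : ℤˣ) : th p N ε (1 : W g) = 1 := by rw [th, map_one]; rfl

theorem th_s (ε : ℤˣ) (i : I g) : th p N ε (s i) = tA p N ε i := by
  rw [th, twAct, liftW_s]
  exact mul_one _

theorem cls_th (ε : ℤˣ) (w : W g) : cls g (th p N ε w) = cls g w := by
  induction w using W_ind_left with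
  | one => rw [th_one]
  | step i w ih =>
    rw [th_mul, th_s, map_mul, map_mul, ih, tA, map_mul,
      map_zpow, show cls g (tr i) = 1 from tr_mem i, one_zpow, one_mul]

theorem sg_th (ε : ℤˣ) (w : W g) : sg g (th p N ε w) = sg g w := by rw [sg_eq, sg_eq, cls_th]

/-- The multitwist as an endomorphism. -/
def twHom (p : ZMod 2) (N : ℤ) (ε : ℤˣ) : Gam g →* Gam g :=
  MonoidHom.mk' (fun x => ⟨th p N ε x, (cls_th ε _).trans x.2⟩) fun x y =>
    Subtype.ext (by simp [th_mul, sg_gam])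

theorem th_tr (ε : ℤˣ) (i : I g) : th p N ε (tr i) = tA p N (-ε) (i - 1) * tA p N ε (i + 1) := by
  rw [tr, th_mul, th_s, th_s]
  simp

theorem th_tr_of (ε : ℤˣ) {i : I g} (h : par i = p) : th p N ε (tr i) = tr i := by
  have : ∀ a : ZMod 2, a + 1 ≠ a ∧ a - 1 ≠ a := by decide
  rw [th_tr, tA, tA, amt, amt, map_sub, map_add, map_one, h, if_neg (this p).1, if_neg (this p).2]
  simp [tr]

theorem th_th (ε : ℤˣ) (w : W g) : th p M ε (th p N ε w) = th p (M + N) ε w := by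
  induction w using W_ind_left with
  | one => simp [th_one]
  | step i w ih =>
    rw [th_mul, th_mul, th_mul, ih, sg_th, th_s, th_s]
    congr 1
    generalize sg g w * ε = δ
    rw [tA, th_mul, th_s, tA, tA, ← mul_assoc]
    congr 1
    by_cases h : par i = p
    · have := congrArg Subtype.val ((twHom p M (sg g (s i) * δ)).map_zpow (tc i) (δ * amt p N i))
      change th p M _ (tr i ^ _) = th p M _ (tr i) ^ _ at this
      rw [this, th_tr_of _ h, ← zpow_add]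
      simp only [amt, if_pos h]
      congr 1
      ring
    · simp [amt, if_neg h, th_one]

theorem th_zero (ε : ℤˣ) (w : W g) : th p 0 ε w = w := by
  induction w using W_ind_left with
  | one => exact th_one _
  | step i w ih => rw [th_mul, ih, th_s, tA, amt]; simp

/-- The multitwist. -/
def tw (p : ZMod 2) (N : ℤ) (ε : ℤˣ) : MulAut (Gam g) :=
  MonoidHom.toMulEquiv (twHom p N ε) (twHom p (-N) ε)
    (MonoidHom.ext fun x => Subtype.ext (by
      change th p (-N) ε (th p N ε (x : W g)) = (x : W g)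
      rw [th_th, neg_add_cancel, th_zero]))
    (MonoidHom.ext fun x => Subtype.ext (by
      change th p N ε (th p (-N) ε (x : W g)) = (x : W g)
      rw [th_th, add_neg_cancel, th_zero]))

theorem tw_coe (ε : ℤˣ) (x : Gam g) : (tw p N ε x : W g) = th p N ε x := rfl

theorem tw_add (ε : ℤˣ) : (tw p (M + N) ε : MulAut (Gam g)) = tw p M ε * tw p N ε :=
  MulEquiv.ext fun x => Subtype.ext (th_th ε (x : W g)).symm

theorem tw_tc (ε : ℤˣ) {i : I g} (h : par i = p) : tw p N ε (tc i) = tc i :=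
  Subtype.ext (th_tr_of ε h)

theorem cj_tw_mem (u : W g) (j : I g) :
    cj u (tw p N (sg g u) (tc j)) ∈ cl (tw p N 1 (tc j)) := by
  have h1 : th p N (sg g u) u * th p N 1 u⁻¹ = 1 := by
    have := th_mul (p := p) (N := N) 1 u u⁻¹
    rw [mul_inv_cancel, th_one, map_inv, Int.units_inv_eq_self, mul_one] at this
    exact this.symm
  have h2 : u * (th p N (sg g u) u)⁻¹ ∈ (cls g).ker := by simp [MonoidHom.mem_ker, cls_th]
  have h3 := conj_mem_cl (map_mem_cl (tw p N 1) (cj_tc_mem u j)) ⟨_, h2⟩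
  refine Eq.mpr (congrArg (· ∈ cl (tw p N 1 (tc j))) (Subtype.ext ?_)) h3
  simp only [cj_coe, tw_coe, Subgroup.coe_mul, Subgroup.coe_inv, th_mul, map_inv,
    Int.units_inv_eq_self, mul_one, sg_gam, one_mul, eq_inv_of_mul_eq_one_right h1]
  group

end Pool.Agent.MP_4a6971_al.H66

end

-- part MP_4a6971_al.H66.Dist
section

/-!
Curves, crossing and annular distances.
-/

namespace Pool.Agent.MP_4a6971_al.H66

variable {g : ℕ}

/-- Curves: the images of the classes of wall translations under automorphisms. -/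
def Crv (g : ℕ) : Type := {S : Set (Gam g) // ∃ (φ : MulAut (Gam g)) (i : I g), S = cl (φ (tc i))}

namespace Crv

theorem eq_cl (a : Crv g) {x : Gam g} (h : x ∈ a.1) : a.1 = cl x := by
  obtain ⟨φ, i, e⟩ := a.2
  rw [e] at h ⊢
  exact (cl_eq h).symm

theorem conj_mem (a : Crv g) {x : Gam g} (h : x ∈ a.1) (z : Gam g) : z * x * z⁻¹ ∈ a.1 := by
  rw [a.eq_cl h]
  exact conj_mem_cl (mem_cl_self x) z

instance : MulAction (MulAut (Gam g)) (Crv g) where
  smul φ a := ⟨φ '' a.1, by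
    obtain ⟨ψ, i, e⟩ := a.2
    exact ⟨φ * ψ, i, by rw [e, image_cl]; rfl⟩⟩
  one_smul a := Subtype.ext (Set.image_id _)
  mul_smul φ ψ a := Subtype.ext (Set.image_comp φ ψ a.1)

theorem smul_coe (φ : MulAut (Gam g)) (a : Crv g) : (φ • a).1 = φ '' a.1 := rfl

theorem conj_smul (z : Gam g) (a : Crv g) : MulAut.conj z • a = a := by
  obtain ⟨ψ, i, e⟩ := a.2
  refine Subtype.ext ?_
  rw [smul_coe, e, image_cl]
  exact cl_eq (conj_mem_cl (mem_cl_self _) z)

noncomputable instance : MulAction (Out (Gam g)) (Crv g) :=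
  MulAction.compHom (Crv g) (QuotientGroup.lift _ (MulAction.toPermHom (MulAut (Gam g)) (Crv g)) (by
    rintro _ ⟨z, rfl⟩
    exact Equiv.ext (conj_smul z)))

theorem mk_smul (φ : MulAut (Gam g)) (a : Crv g) : (QuotientGroup.mk φ : Out (Gam g)) • a = φ • a :=
  rfl

end Crv

/-- The base curves. -/
def bc (i : I g) : Crv g := ⟨cl (tc i), 1, i, rfl⟩

namespace Poly

variable (Y : Poly g)

include Y in
theorem ne_of_mem {a : Crv g} {x : Gam g} (h : x ∈ a.1) : x ≠ 1 := by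
  obtain ⟨φ, i, e⟩ := a.2
  rw [e, ← image_cl] at h
  obtain ⟨y, hy, rfl⟩ := h
  simpa using (Y.ax_of_mem hy).1

theorem simple {a : Crv g} {x y : Gam g} (h : x ∈ a.1) (h' : y ∈ a.1) : ¬ Y.Lk x y := by
  obtain ⟨φ, i, e⟩ := a.2
  rw [e, ← image_cl] at h h'
  obtain ⟨x, hx, rfl⟩ := h
  obtain ⟨y, hy, rfl⟩ := h'
  rw [lk_map_iff]
  exact Y.not_lk_of_mem hx hy

/-- At least `m` consecutive translates of the axis of `y` cross the axis of `z`. -/
def TwG (x y z : Gam g) (m : ℕ) : Prop :=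
  ∃ k₀ : ℤ, ∀ k : ℤ, k₀ ≤ k → k < k₀ + m → Y.Lk (x ^ k * y * (x ^ k)⁻¹) z

variable {Y}

theorem ax_conj {y : Gam g} {F : V} (h : IsAx (Y.σ y) F) (x : Gam g) :
    IsAx (Y.σ (x * y * x⁻¹)) (Y.σ x • F) := by
  rw [map_mul, map_mul, map_inv]
  exact h.conj _

theorem lk_conj_iff {x y z : Gam g} (hy : y ≠ 1) (hz : z ≠ 1) {F G : V} (hF : IsAx (Y.σ y) F)
    (hG : IsAx (Y.σ z) G) : Y.Lk (x * y * x⁻¹) z ↔ Cr (Y.σ x • F) G :=
  ⟨fun h => h.cr (ax_conj hF x) hG, fun h => ⟨by simpa using hy, hz, _, _, ax_conj hF x, hG, h⟩⟩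

theorem twG_iff {x y z : Gam g} (hy : y ≠ 1) (hz : z ≠ 1) {F G : V} (hF : IsAx (Y.σ y) F)
    (hG : IsAx (Y.σ z) G) (m : ℕ) : Y.TwG x y z m ↔ Tw (Y.σ x) F G m := by
  simp only [TwG, Tw, lk_conj_iff hy hz hF hG, map_zpow]

theorem TwG.map {x y z : Gam g} {m : ℕ} (h : Y.TwG x y z m) (φ : MulAut (Gam g)) :
    Y.TwG (φ x) (φ y) (φ z) m := by
  obtain ⟨k₀, h⟩ := h
  exact ⟨k₀, fun k a b => by simpa using (h k a b).map φ⟩

theorem TwG.mono {x y z : Gam g} {m m' : ℕ} (h : Y.TwG x y z m) (hm : m' ≤ m) :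
    Y.TwG x y z m' := by
  obtain ⟨k₀, h⟩ := h
  exact ⟨k₀, fun k a b => h k a (by omega)⟩

theorem TwG.inv {x y z : Gam g} {m : ℕ} (h : Y.TwG x y z m) : Y.TwG x⁻¹ y z m := by
  obtain ⟨k₀, h⟩ := h
  exact ⟨-(k₀ + m) + 1, fun k a b => by
    rw [inv_zpow']
    exact h (-k) (by omega) (by omega)⟩

theorem TwG.symm {x y z : Gam g} {m : ℕ} (h : Y.TwG x y z m) : Y.TwG x z y m := by
  obtain ⟨k₀, h⟩ := h.inv
  refine ⟨k₀, fun k a b => ?_⟩
  have := ((h k a b).map (MulAut.conj (x ^ k))).symm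
  rwa [MulAut.conj_apply, MulAut.conj_apply,
    show x ^ k * (x⁻¹ ^ k * y * (x⁻¹ ^ k)⁻¹) * (x ^ k)⁻¹ = y by group] at this

theorem twG_tri {x y z w : Gam g} (h1 : Y.Lk x y) (h2 : Y.Lk x z) (h3 : Y.Lk x w) {m m' : ℕ}
    (h : Y.TwG x y z (m + m' + 1)) : Y.TwG x y w m ∨ Y.TwG x w z m' := by
  obtain ⟨E, hE⟩ := (Y.hyp' h1.1).exists_ax
  obtain ⟨F, hF⟩ := (Y.hyp' h1.2.1).exists_ax
  obtain ⟨G, hG⟩ := (Y.hyp' h2.2.1).exists_ax
  obtain ⟨H, hH⟩ := (Y.hyp' h3.2.1).exists_ax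
  rw [twG_iff h1.2.1 h2.2.1 hF hG] at h
  rw [twG_iff h1.2.1 h3.2.1 hF hH, twG_iff h3.2.1 h2.2.1 hH hG]
  exact tw_tri (Y.hyp' h1.1) hE hF.1 hG.1 hH.1 (h1.cr hE hF) (h2.cr hE hG) (h3.cr hE hH) h

theorem not_twG_self {b : Crv g} {x y z : Gam g} (hy : y ∈ b.1) (hz : z ∈ b.1) :
    ¬ Y.TwG x y z 1 := fun ⟨k, h⟩ => Y.simple (b.conj_mem hy _) hz (h k le_rfl (by omega))

theorem behrG {b : Crv g} {x y z : Gam g} (hy : y ∈ b.1) (h : Y.Lk x y)
    (h1 : Y.Lk (x * y * x⁻¹) z) (h2 : Y.Lk (x⁻¹ * y * x⁻¹⁻¹) z) :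
    Y.Lk y z ∧ ∀ k : ℤ, k ≠ 0 → ¬ Y.Lk (y ^ k * x * (y ^ k)⁻¹) z := by
  obtain ⟨A, hA⟩ := (Y.hyp' h.1).exists_ax
  obtain ⟨E, hE⟩ := (Y.hyp' h.2.1).exists_ax
  obtain ⟨G, hG⟩ := (Y.hyp' h1.2.1).exists_ax
  have w : ∀ u : Gam g, ¬ Cr (Y.σ y • Y.σ u • E) (Y.σ u • E) := fun u hc =>
    Y.simple (b.conj_mem (b.conj_mem hy u) y) (b.conj_mem hy u)
      ((lk_conj_iff (by simpa using h.2.1) (by simpa using h.2.1) (ax_conj hE u) (ax_conj hE u)).2 hc)
  rw [lk_conj_iff h.2.1 h1.2.1 hE hG] at h2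
  have := behrstock (Y.hyp' h.1) hA (Y.hyp' h.2.1) hE (h.cr hA hE) hG.1
    ((lk_conj_iff h.2.1 h1.2.1 hE hG).1 h1).symm (by rw [← map_inv]; exact h2.symm) (w x)
    (by rw [← map_inv]; exact w x⁻¹)
  refine ⟨⟨h.2.1, h1.2.1, _, _, hE, hG, this.1⟩, fun k hk => ?_⟩
  rw [lk_conj_iff h.1 h1.2.1 hA hG, map_zpow]
  exact this.2 k hk

variable (Y)

/-- Two curves cross. -/
def XX (a b : Crv g) : Prop := ∃ x ∈ a.1, ∃ y ∈ b.1, Y.Lk x y

/-- The possible amounts of relative twisting. -/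
def DS (a b d : Crv g) : Set ℕ :=
  {m | ∃ x ∈ a.1, ∃ y ∈ b.1, ∃ z ∈ d.1, Y.Lk x y ∧ Y.Lk x z ∧ Y.TwG x y z m}

/-- The annular distance. -/
noncomputable def DD (a b d : Crv g) : ℕ := sSup (Y.DS a b d)

variable {Y}

theorem XX.lift {a b : Crv g} (h : Y.XX a b) {x : Gam g} (hx : x ∈ a.1) : ∃ y ∈ b.1, Y.Lk x y := by
  obtain ⟨x', h1, y, h2, h3⟩ := h
  rw [a.eq_cl h1] at hx
  obtain ⟨u, rfl | rfl⟩ := hx
  · exact ⟨_, b.conj_mem h2 u, h3.map (MulAut.conj u)⟩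
  · exact ⟨_, b.conj_mem h2 u, h3.inv.map (MulAut.conj u)⟩

theorem DS_lift {a b d : Crv g} {m : ℕ} (h : m ∈ Y.DS a b d) {x : Gam g} (hx : x ∈ a.1) :
    ∃ y ∈ b.1, ∃ z ∈ d.1, Y.Lk x y ∧ Y.Lk x z ∧ Y.TwG x y z m := by
  obtain ⟨x', h1, y, h2, z, h3, h4, h5, h6⟩ := h
  rw [a.eq_cl h1] at hx
  obtain ⟨u, rfl | rfl⟩ := hx
  · exact ⟨_, b.conj_mem h2 u, _, d.conj_mem h3 u, h4.map (MulAut.conj u), h5.map (MulAut.conj u),
      h6.map (MulAut.conj u)⟩
  · exact ⟨_, b.conj_mem h2 u, _, d.conj_mem h3 u, h4.inv.map (MulAut.conj u),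
      h5.inv.map (MulAut.conj u), h6.inv.map (MulAut.conj u)⟩

theorem DS_symm {a b d : Crv g} {m : ℕ} (h : m ∈ Y.DS a b d) : m ∈ Y.DS a d b := by
  obtain ⟨x, h1, y, h2, z, h3, h4, h5, h6⟩ := h
  exact ⟨x, h1, z, h3, y, h2, h5, h4, h6.symm⟩

theorem DS_smul {a b d : Crv g} {m : ℕ} (φ : MulAut (Gam g)) (h : m ∈ Y.DS a b d) :
    m ∈ Y.DS (φ • a) (φ • b) (φ • d) := by
  obtain ⟨x, h1, y, h2, z, h3, h4, h5, h6⟩ := h
  exact ⟨_, ⟨x, h1, rfl⟩, _, ⟨y, h2, rfl⟩, _, ⟨z, h3, rfl⟩, h4.map φ, h5.map φ, h6.map φ⟩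

theorem DS_bdd (b d : Crv g) : ∃ K, ∀ a, ∀ m ∈ Y.DS a b d, m ≤ K := by
  classical
  obtain ⟨y₀, hy₀⟩ : ∃ y, y ∈ b.1 := by
    obtain ⟨φ, i, e⟩ := b.2
    exact ⟨_, e ▸ mem_cl_self _⟩
  obtain ⟨z₀, hz₀⟩ : ∃ z, z ∈ d.1 := by
    obtain ⟨φ, i, e⟩ := d.2
    exact ⟨_, e ▸ mem_cl_self _⟩
  have ny := Y.ne_of_mem hy₀
  have nz := Y.ne_of_mem hz₀
  obtain ⟨F, hF⟩ := (Y.hyp' ny).exists_ax
  obtain ⟨E, hE⟩ := (Y.hyp' nz).exists_ax
  obtain ⟨T, t1, t2⟩ := Y.cross_fin (Y.hyp' nz) (Y.hyp' ny) hE hF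
  refine ⟨t1.toFinset.card + 2, fun a m hm => ?_⟩
  by_contra! hc
  obtain ⟨x, y, hy, h1, h2, h3⟩ : ∃ x y, y ∈ b.1 ∧ Y.Lk x y ∧ Y.Lk x z₀ ∧ Y.TwG x y z₀ m := by
    obtain ⟨x, -, y, a2, z, a3, a4, a5, a6⟩ := hm
    have := mem_cl_symm (d.eq_cl hz₀ ▸ a3)
    obtain ⟨u, rfl | rfl⟩ := this
    · exact ⟨_, _, b.conj_mem a2 u, a4.map (MulAut.conj u), a5.map (MulAut.conj u),
        a6.map (MulAut.conj u)⟩
    · refine ⟨_, _, b.conj_mem a2 u, a4.map (MulAut.conj u), a5.symm.inv.symm.map (MulAut.conj u),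
        TwG.map ?_ (MulAut.conj u)⟩
      obtain ⟨k, hk⟩ := a6
      exact ⟨k, fun l p q => (hk l p q).symm.inv.symm⟩
  obtain ⟨u, hu⟩ : ∃ u : Gam g, IsAx (Y.σ y) (Y.σ u • F) := by
    rw [b.eq_cl hy₀] at hy
    obtain ⟨u, rfl | rfl⟩ := hy
    · exact ⟨u, ax_conj hF u⟩
    · exact ⟨u, ax_conj (by rw [map_inv]; exact hF.inv) u⟩
  obtain ⟨A, hA⟩ := (Y.hyp' h1.1).exists_ax
  obtain ⟨k₀, hk⟩ := h3
  have c : ∀ k : ℤ, k₀ ≤ k → k < k₀ + m → Cr (Y.σ (x ^ k) • Y.σ u • F) E := fun k p q =>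
    (lk_conj_iff h1.2.1 nz hu hE).1 (hk k p q)
  have : ∀ k : ℤ, ∃ l : ℤ, k₀ ≤ k → k < k₀ + m →
      Y.σ z₀ ^ l • Y.σ (x ^ k) • Y.σ u • F ∈ T := fun k => by
    by_cases p : k₀ ≤ k ∧ k < k₀ + m
    · obtain ⟨l, hl⟩ := t2 (x ^ k * u : Gam g) (by
        rw [← σ_apply, map_mul, mul_smul]
        exact (c k p.1 p.2).symm)
      exact ⟨l, fun _ _ => by rwa [← σ_apply, map_mul, mul_smul] at hl⟩
    · exact ⟨0, fun p1 p2 => (p ⟨p1, p2⟩).elim⟩
  choose l hl using this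
  obtain ⟨k, a1, k', a2, a3, a4⟩ := Finset.exists_ne_map_eq_of_card_lt_of_maps_to
    (s := Finset.Icc (k₀ + 1) (k₀ + m - 2)) (t := t1.toFinset)
    (f := fun k => Y.σ z₀ ^ l k • Y.σ (x ^ k) • Y.σ u • F) (by simp; omega) (fun k hk => by
      rw [Finset.mem_coe, Finset.mem_Icc] at hk
      exact t1.mem_toFinset.2 (hl k (by omega) (by omega)))
  rw [Finset.mem_Icc] at a1 a2
  have e : Y.σ (z₀ ^ (l k - l k')) • Y.σ (x ^ k) • Y.σ u • F = Y.σ (x ^ k') • Y.σ u • F := by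
    rw [map_zpow, sub_eq_neg_add, zpow_add, mul_smul, a4, ← mul_smul, ← zpow_add, neg_add_cancel,
      zpow_zero, one_smul]
  have cA : Cr A (Y.σ u • F) := h1.cr hA hu
  have n0 : l k - l k' ≠ 0 := by
    intro h0
    rw [h0, zpow_zero, map_one, one_smul, map_zpow, map_zpow] at e
    have := (Y.hyp' h1.1).zpow_fix hA hu.1 (sub_ne_zero.2 a3) (Or.inl (by
      rw [sub_eq_neg_add, zpow_add, mul_smul, e, ← mul_smul, ← zpow_add, neg_add_cancel, zpow_zero,
        one_smul]))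
    rcases this with p | p <;> rw [p] at cA
    · exact not_cr_self hA.1 cA
    · exact not_cr_self hA.1 (by simpa using cA)
  have b1 := behrG (z := x ^ k' * y * (x ^ k')⁻¹) hz₀ h2
    (by
      have := ((hk (k' - 1) (by omega) (by omega)).map (MulAut.conj x)).symm
      rwa [MulAut.conj_apply, MulAut.conj_apply, show x * (x ^ (k' - 1) * y * (x ^ (k' - 1))⁻¹) * x⁻¹ =
        x ^ k' * y * (x ^ k')⁻¹ by group] at this)
    (by
      have := ((hk (k' + 1) (by omega) (by omega)).map (MulAut.conj x⁻¹)).symm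
      rwa [MulAut.conj_apply, MulAut.conj_apply,
        show x⁻¹ * (x ^ (k' + 1) * y * (x ^ (k' + 1))⁻¹) * x⁻¹⁻¹ =
        x ^ k' * y * (x ^ k')⁻¹ by group] at this)
  refine b1.2 _ n0 ((lk_conj_iff h1.1 (by simpa using h1.2.1) hA (ax_conj hu _)).2 ?_)
  rw [← e, cr_isom, map_zpow, ← hA.zpow k, cr_isom]
  exact cA

theorem le_DD {a b d : Crv g} {m : ℕ} (h : m ∈ Y.DS a b d) : m ≤ Y.DD a b d :=
  le_csSup ((DS_bdd b d).imp fun _ hK => hK a) h

theorem DD_le {a b d : Crv g} {K : ℕ} (h : ∀ m ∈ Y.DS a b d, m ≤ K) : Y.DD a b d ≤ K :=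
  csSup_le' h

theorem DD_mem {a b d : Crv g} (h : 0 < Y.DD a b d) : Y.DD a b d ∈ Y.DS a b d :=
  Nat.sSup_mem (Set.nonempty_iff_ne_empty.2 fun h1 => by simp [DD, h1] at h)
    ((DS_bdd b d).imp fun _ hK => hK a)

theorem DD_le_five {a b d : Crv g} {x y z : Gam g} (hx : x ∈ a.1) (hy : y ∈ b.1) (hz : z ∈ d.1)
    (h1 : Y.Lk x y) (h2 : Y.Lk x z) (h : ∀ k : ℤ, k ≠ 0 → ¬ Y.Lk (x ^ k * y * (x ^ k)⁻¹) z) :
    Y.DD a b d ≤ 5 := DD_le fun m hm => by
  obtain ⟨y', a1, z', a2, a3, a4, a5⟩ := DS_lift hm hx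
  by_contra! hc
  rcases twG_tri a3 a4 h1 (m := 1) (m' := 4) (a5.mono (by omega)) with p | p
  · exact not_twG_self a1 hy p
  rcases twG_tri h1 a4 h2 (m := 2) (m' := 1) p with ⟨k, q⟩ | q
  · by_cases k0 : k = 0
    · exact h (k + 1) (by omega) (q _ (by omega) (by omega))
    · exact h k k0 (q _ le_rfl (by omega))
  · exact not_twG_self hz a2 q

theorem DD_tri {a b d e : Crv g} (h : Y.XX a e) : Y.DD a b d ≤ Y.DD a b e + Y.DD a e d + 5 :=
  DD_le fun m ⟨x, h1, y, h2, z, h3, h4, h5, h6⟩ => by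
    obtain ⟨w, h7, h8⟩ := h.lift h1
    by_contra! hc
    rcases twG_tri h4 h5 h8 (m := Y.DD a b e + 1) (m' := Y.DD a e d + 1) (h6.mono (by omega))
      with p | p
    · exact absurd (le_DD ⟨x, h1, y, h2, w, h7, h4, h8, p⟩) (by omega)
    · exact absurd (le_DD ⟨x, h1, w, h7, z, h3, h8, h5, p⟩) (by omega)

theorem DD_behr {a b d : Crv g} (h : 5 < Y.DD a b d) : Y.XX b d ∧ Y.DD b a d ≤ 5 := by
  obtain ⟨x, h1, y, h2, z, h3, h4, h5, k, h6⟩ := DD_mem (by omega : 0 < Y.DD a b d)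
  have h7 : Y.Lk x (x ^ (k + 1) * y * (x ^ (k + 1))⁻¹) := by
    have := h4.map (MulAut.conj (x ^ (k + 1)))
    rwa [MulAut.conj_apply, show x ^ (k + 1) * x * (x ^ (k + 1))⁻¹ = x by group] at this
  have := behrG (z := z) (b.conj_mem h2 _) h7
    (by
      rw [show x * (x ^ (k + 1) * y * (x ^ (k + 1))⁻¹) * x⁻¹ =
        x ^ (k + 2) * y * (x ^ (k + 2))⁻¹ by group]
      exact h6 _ (by omega) (by omega))
    (by
      rw [show x⁻¹ * (x ^ (k + 1) * y * (x ^ (k + 1))⁻¹) * x⁻¹⁻¹ = x ^ k * y * (x ^ k)⁻¹ by group]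
      exact h6 _ (by omega) (by omega))
  exact ⟨⟨_, b.conj_mem h2 _, z, h3, this.1⟩,
    DD_le_five (b.conj_mem h2 _) h1 h3 h7.symm this.1 this.2⟩

end Poly

end Pool.Agent.MP_4a6971_al.H66

end

-- part MP_4a6971_al.H66.CurveDefs
section

/-!
Abstract curve systems: crossing, annular distances, twists.
-/

namespace Pool.Agent.MP_4a6971_al.H66

/-- Curves `C` with an action of `G`, a cyclic chain `c` of base curves, the crossing relation `X`,
the annular distances `D a b c` of `b` and `c` seen from `a`, and multitwists `T p N`. -/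
structure CurveSys (G C : Type*) [Group G] [MulAction G C] where
  n : ℕ
  hn : 0 < n
  c : ℤ → C
  per : ∀ i, c (i + 2 * n) = c i
  X : C → C → Prop
  D : C → C → C → ℕ
  θ : ℕ
  X_symm : ∀ a b, X a b → X b a
  X_smul : ∀ (g : G) a b, X a b → X (g • a) (g • b)
  D_smul : ∀ (g : G) a b d, D (g • a) (g • b) (g • d) = D a b d
  D_symm : ∀ a b d, D a b d = D a d b
  D_cross : ∀ a b d, 0 < D a b d → X a b
  D_tri : ∀ a b d e, X a e → D a b d ≤ D a b e + D a e d + θ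
  D_bdd : ∀ b d, ∃ K, ∀ a, D a b d ≤ K
  D_self : ∀ a b, D a b b ≤ θ
  behr : ∀ a b d, θ < D a b d → X b d ∧ D b a d ≤ θ
  fill : ∀ a, ∃ i, X a (c i)
  adj : ∀ i, X (c i) (c (i + 1))
  T : ℤ → ℕ → G
  T_fix : ∀ p N i, Even (i - p) → T p N • c i = c i
  T_far : ∀ p N i, Even (i - p) → N ≤ D (c i) (c (i + 1)) (T p N • c (i + 1))
  T_near : ∀ p N a, (∀ i, Even (i - p) → a ≠ c i ∧ ¬ X a (c i)) → ∀ j, X a (c j) →
    X a (T p N • c j) ∧ D a (c j) (T p N • c j) ≤ θ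
  stab : {g : G | ∀ i, g • c i = c i}.Finite

/-- Restriction of a curve system to a subgroup containing the multitwists. -/
noncomputable def CurveSys.comap {G H C : Type*} [Group G] [Group H] [MulAction G C]
    (Y : CurveSys G C) (j : H →* G) (hj : Function.Injective j) (hT : ∀ p N, Y.T p N ∈ j.range) :
    @CurveSys H C _ (MulAction.compHom C j) :=
  letI := MulAction.compHom C j
  { n := Y.n, hn := Y.hn, c := Y.c, per := Y.per, X := Y.X, D := Y.D, θ := Y.θ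
    X_symm := Y.X_symm
    X_smul := fun g => Y.X_smul (j g)
    D_smul := fun g => Y.D_smul (j g)
    D_symm := Y.D_symm, D_cross := Y.D_cross, D_tri := Y.D_tri, D_bdd := Y.D_bdd
    D_self := Y.D_self, behr := Y.behr, fill := Y.fill, adj := Y.adj
    T := fun p N => (hT p N).choose
    T_fix := fun p N i hi => by
      change j (hT p N).choose • Y.c i = Y.c i
      rw [(hT p N).choose_spec]
      exact Y.T_fix p N i hi
    T_far := fun p N i hi => by
      change N ≤ Y.D _ _ (j (hT p N).choose • Y.c (i + 1))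
      rw [(hT p N).choose_spec]
      exact Y.T_far p N i hi
    T_near := fun p N a ha i hi => by
      change Y.X a (j (hT p N).choose • Y.c i) ∧ Y.D _ _ (j (hT p N).choose • Y.c i) ≤ _
      rw [(hT p N).choose_spec]
      exact Y.T_near p N a ha i hi
    stab := (Y.stab.preimage hj.injOn).subset fun _ h => h }

end Pool.Agent.MP_4a6971_al.H66

end
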