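import Pool.Agent.MP_4a6971_al.Mg.H66_CurveDefs

/-!
The curve system of the surface group.
-/

namespace Pool.Agent.MP_4a6971_al.H66

variable {g : ℕ}

namespace Poly

variable (Y : Poly g)

theorem pingpong_cr {a a' : W g} {i j : I g} (n1 : j ≠ i) (n2 : j ≠ i + 1) (n3 : i ≠ j + 1)
    (ha : Y.ρ a • Y.e i = -Y.e i) (ha' : Y.ρ a' • Y.e j = -Y.e j) {z : Gam g}
    (hz : (z : W g) = a * a') : z ≠ 1 ∧ ∃ Z, IsAx (Y.σ z) Z ∧ Cr Z (Y.e i) ∧ Cr Z (Y.e j) ∧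
      Cr Z (Y.ρ a • Y.e j) := by
  obtain ⟨h1, Z, Q, Q', hZ, q, q', b, b', h⟩ := Y.pingpong n1 n2 n3 ha ha' hz
  have p := fun {P : V} (hP : Fut P) => Y.add_pos n1 n2 n3 hP
  have cr : ∀ H, Bf H H = 1 → Bf H (Y.ρ a • Q) * Bf H ((Y.ρ a')⁻¹ • Q') < 0 → Cr Z H :=
    fun H h1 h2 => by
      have := h H
      rw [Cr, Bf_comm]
      linarith
  have f1 : ∀ X, Bf (Y.e i) (Y.ρ a • X) = -Bf (Y.e i) X := fun X => by
    rw [← neg_inj, ← Bf_neg_left, ← ha, Bf_isom, neg_neg]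
  have f2 : ∀ X, Bf (Y.e i) ((Y.ρ a)⁻¹ • X) = -Bf (Y.e i) X := fun X => by
    rw [← Bf_move, ha, Bf_neg_left]
  have f3 : ∀ X, Bf (Y.e j) ((Y.ρ a')⁻¹ • X) = -Bf (Y.e j) X := fun X => by
    rw [← Bf_move, ha', Bf_neg_left]
  have c1 := p q
  have c2 := p q'
  have c3 := p (q.smul (Y.ρ a))
  have c4 := p (q'.smul (Y.ρ a')⁻¹)
  have c5 := p ((q'.smul (Y.ρ a')⁻¹).smul (Y.ρ a)⁻¹)
  rw [f1] at c3
  rw [f3] at c4
  rw [f2] at c5
  refine ⟨h1, Z, hZ, cr _ (Y.unit i) ?_, cr _ (Y.unit j) ?_, cr _ (by simpa using Y.unit j) ?_⟩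
  · rw [f1]
    exact mul_neg_of_neg_of_pos (by linarith) (by linarith)
  · rw [f3]
    exact mul_neg_of_pos_of_neg (by linarith) (by linarith)
  · rw [Bf_isom, Bf_move]
    exact mul_neg_of_neg_of_pos b (by linarith)

theorem ρ_tA (p : ZMod 2) (N : ℤ) (ε : ℤˣ) (i : I g) : Y.ρ (tA p N ε i) • Y.e i = -Y.e i := by
  rw [tA, map_mul, mul_smul, ρ_s_e, smul_neg, map_zpow]
  exact congrArg _ ((Y.ax_tc i).zpow _)

theorem tw_cr (p : ZMod 2) (N : ℤ) (ε : ℤˣ) (j : I g) : tw p N ε (tc j) ≠ 1 ∧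
    ∃ Z, IsAx (Y.σ (tw p N ε (tc j))) Z ∧ Cr Z (Y.e (j - 1)) ∧ Cr Z (Y.e (j + 1)) ∧
      Cr Z (Y.ρ (tA p N (-ε) (j - 1)) • Y.e (j + 1)) :=
  Y.pingpong_cr (fun h => Y.two_ne (by linear_combination h))
    (fun h => one_ne (g := g) (by linear_combination h))
    (fun h => Y.three_ne (by linear_combination -h)) (Y.ρ_tA _ _ _ _) (Y.ρ_tA _ _ _ _) (th_tr ε j)

theorem cr_adj (i : I g) : Cr (Y.e i) (Y.e (i + 1)) := by simp [Cr, Y.adj]

theorem lk_adj (i : I g) : Y.Lk (tc i) (tc (i + 1)) :=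
  ⟨Y.tc_ne _, Y.tc_ne _, _, _, Y.ax_tc _, Y.ax_tc _, Y.cr_adj i⟩

theorem twist_far {p : ZMod 2} {i : I g} (hi : par i = p) (N : ℕ) :
    N ≤ Y.DD (bc i) (bc (i + 1)) ((tw p (N + 1) 1 : MulAut (Gam g)) • bc (i + 1)) := by
  obtain ⟨h1, Z, hZ, c1, c2, c3⟩ := Y.tw_cr p (N + 1) 1 (i + 1)
  rw [add_sub_cancel_right] at c1 c3
  have f := Y.far i (i + 1 + 1) (fun h => Y.two_ne (by linear_combination h))
    (fun h => one_ne (g := g) (by linear_combination h))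
    (fun h => Y.three_ne (by linear_combination -h))
  have op : Opp (Y.e i) (Y.e (i + 1 + 1)) (Y.ρ (s i) • Y.e (i + 1 + 1)) := by
    simp only [Opp, ρ_s, Bf_sub_right, Bf_smul_right, Y.unit, Bf_comm (Y.e (i + 1 + 1)) (Y.e i)]
    generalize Bf (Y.e i) (Y.e (i + 1 + 1)) = β at *
    have : 1 < β ^ 2 := by nlinarith
    exact ⟨this, by nlinarith, by nlinarith⟩
  have w := wander (Y.hyp' (Y.tc_ne i)) (Y.ax_tc i) (Y.unit _) (by simpa using Y.unit _) op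
    (-(N + 1)) (Y.unit (i + 1)) hZ.1
    (by simpa [σ_apply, tc] using Y.not_cr_walls (w := tr i) (v := 1) (i := i + 1 + 1) rfl)
    (by simpa [mul_smul, σ_apply, tc] using Y.not_cr_walls (w := tr i * s i) (v := s i) (i := i + 1 + 1) rfl)
    (Y.cr_adj _) (by rw [← Y.ρ_s_of (Y.adj i), cr_isom]; exact Y.cr_adj _) c2
    (by
      rw [tA, amt, if_pos hi, map_mul, mul_smul, map_zpow] at c3
      simpa [σ_apply, tc] using c3)
  refine le_DD ⟨_, mem_cl_self _, _, mem_cl_self _, _, ⟨_, mem_cl_self _, rfl⟩, Y.lk_adj i,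
    ⟨Y.tc_ne i, h1, _, _, Y.ax_tc i, hZ, c1.symm⟩, ?_⟩
  rw [twG_iff (Y.tc_ne _) h1 (Y.ax_tc _) hZ]
  exact ⟨-N, fun k a b => (w.2.2 k).1 (mul_neg_of_neg_of_pos (by omega) (by omega))⟩

theorem twist_near (p : ZMod 2) (N : ℤ) {a : Crv g}
    (ha : ∀ i, par i = p → a ≠ bc i ∧ ¬ Y.XX a (bc i)) {j : I g} (hj : Y.XX a (bc j)) :
    Y.XX a ((tw p N 1 : MulAut (Gam g)) • bc j) ∧
      Y.DD a (bc j) ((tw p N 1 : MulAut (Gam g)) • bc j) ≤ 5 := by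
  have pj : par (j + 1) = p ∧ par (j - 1) = p := by
    have : ∀ x y : ZMod 2, x ≠ y → x + 1 = y ∧ x - 1 = y := by decide
    rw [map_add, map_sub, map_one]
    exact this _ _ fun h => (ha j h).2 hj
  obtain ⟨y, hy, x, hx, hl⟩ := hj
  obtain ⟨E, hE⟩ := (Y.hyp' hl.1).exists_ax
  obtain ⟨-, w, hw⟩ := Y.ax_of_mem hx
  obtain ⟨P, p1, p2, p3⟩ := exists_inter hE.1 hw.1 (hl.cr hE hw)
  obtain ⟨u, hu⟩ := Y.cover p1
  have c0 : Cr (Y.ρ u • E) (Y.e j) := by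
    have h1 := hl.cr hE hw
    rw [← cr_isom (Y.ρ u), ← mul_smul, ← map_mul] at h1
    rw [← Bf_isom (Y.ρ u), ← mul_smul, ← map_mul] at p3
    rcases Y.wall_through hu p3 with h | h <;> rw [h] at h1 <;> simpa using h1
  have hE' := hE.cj u
  have ny : cj u y ≠ 1 := by simpa using hl.1
  have far : ∀ i, par i = p → 1 < Bf (Y.ρ u • E) (Y.e i) ^ 2 := by
    intro i hi
    have h1 : ¬ Cr (Y.ρ u • E) (Y.e i) := fun h => (ha i hi).2 ⟨y, hy, _, cj_tc_mem u⁻¹ i, by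
      simpa [cj_inv_cj] using Lk.map ⟨ny, Y.tc_ne i, _, _, hE', Y.ax_tc i, h⟩ (cj u⁻¹)⟩
    refine (not_lt.1 h1).lt_of_ne fun h2 => (ha i hi).1 (Subtype.ext ?_)
    have h3 : IsAx (Y.σ (cj u y)) (Y.e i) := by
      rcases Y.not_tangent (Y.hyp' ny) (Y.hyp' (Y.tc_ne i)) hE' (Y.ax_tc i) h2.symm with h | h <;>
        rw [h]
      · exact hE'
      · exact hE'.neg
    obtain ⟨φ, k, e⟩ := a.2
    have h4 : cj u y ∈ cl (tc i) := by
      rcases Y.eq_of_ax (cj u * φ) (map_mem_cl (cj u) (e ▸ hy)) h3 with h | h <;> rw [h]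
      · exact mem_cl_self _
      · exact inv_mem_cl (mem_cl_self _)
    have h5 := cj_mem_cl u⁻¹ h4
    rw [cj_inv_cj] at h5
    rw [a.eq_cl hy]
    exact cl_eq h5
  have op := opp_of_pos (Y.hyp' ny) hE' (Y.unit _) (Y.unit _) (far _ pj.1) (far _ pj.2) (Y.unit j)
    c0 (Y.cr_adj j) (by simp [Cr, Y.adj']) hu.1 (by rw [Bf_isom, p2]) (hu.2 _) (hu.2 _)
    fun N hN => by
      have := Y.add_pos (i := j - 1) (j := j + 1) (fun h => Y.two_ne (by linear_combination h))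
        (fun h => one_ne (g := g) (by linear_combination h))
        (fun h => Y.three_ne (by linear_combination -h)) hN
      linarith
  obtain ⟨h1, Z, hZ, c1, c2, -⟩ := Y.tw_cr p N (sg g u⁻¹) j
  have wd := wander (Y.hyp' ny) hE' (Y.unit _) (Y.unit _) op 0 (Y.unit j) hZ.1
    (by simpa [σ_apply] using Y.not_cr_walls (w := cj u y) (v := 1) (i := j + 1) rfl)
    (by simpa [σ_apply] using Y.not_cr_walls (w := cj u y) (v := 1) (i := j - 1) rfl)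
    (Y.cr_adj j) (by simp [Cr, Y.adj']) c2 (by simpa using c1)
  have m1 : cj u⁻¹ (tw p N (sg g u⁻¹) (tc j)) ∈ ((tw p N 1 : MulAut (Gam g)) • bc j).1 := by
    rw [Crv.smul_coe, bc, image_cl]
    exact cj_tw_mem _ _
  have l1 : Y.Lk y (cj u⁻¹ (tw p N (sg g u⁻¹) (tc j))) := by
    simpa [cj_inv_cj] using Lk.map ⟨ny, h1, _, _, hE', hZ, wd.2.1⟩ (cj u⁻¹)
  have l2 : Y.Lk y (cj u⁻¹ (tc j)) := by
    simpa [cj_inv_cj] using Lk.map ⟨ny, Y.tc_ne j, _, _, hE', Y.ax_tc j, c0⟩ (cj u⁻¹)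
  refine ⟨⟨y, hy, _, m1, l1⟩, DD_le_five hy (cj_tc_mem u⁻¹ j) m1 l2 l1 fun k hk hc => ?_⟩
  have := hc.map (cj u)
  have e : ∀ x, cj u (cj u⁻¹ x) = x := fun x => by simpa using cj_inv_cj u⁻¹ x
  rw [map_mul, map_mul, map_inv, map_zpow, e, e, lk_conj_iff (Y.tc_ne j) h1 (Y.ax_tc j) hZ,
    map_zpow] at this
  exact (wd.2.2 k).2 (by simpa using mul_self_pos.2 hk) this

theorem witness (i : I g) : ∃ z : Gam g, Y.Lk z (tc (i - 1)) ∧ Y.Lk z (tc (i + 1)) ∧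
    ¬ Y.Lk z (tc i * tc (i - 1) * (tc i)⁻¹) ∧ ¬ Y.Lk z ((tc i)⁻¹ * tc (i - 1) * (tc i)⁻¹⁻¹) := by
  have n1 : i + 1 ≠ i - 1 := fun h => Y.two_ne (by linear_combination h)
  have n2 : i + 1 ≠ i - 1 + 1 := fun h => one_ne (g := g) (by linear_combination h)
  have n3 : i - 1 ≠ i + 1 + 1 := fun h => Y.three_ne (by linear_combination -h)
  have hz : s (i - 1) * s (i - 1 - 1) * (s (i + 1) * s (i + 1 + 1)) ∈ (cls g).ker := by
    simp only [MonoidHom.mem_ker, map_mul, cls_s, map_add, map_sub, map_one]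
    generalize par i = x
    revert x
    decide
  have ha : Y.ρ (s (i - 1) * s (i - 1 - 1)) • Y.e (i - 1) = -Y.e (i - 1) := by
    rw [map_mul, mul_smul, Y.ρ_s_of (i := i - 1 - 1) (by rw [Bf_comm, Y.adj']), ρ_s_e]
  have ha' : Y.ρ (s (i + 1) * s (i + 1 + 1)) • Y.e (i + 1) = -Y.e (i + 1) := by
    rw [map_mul, mul_smul, Y.ρ_s_of (i := i + 1 + 1) (by rw [Bf_comm, Y.adj]), ρ_s_e]
  obtain ⟨-, Z', hZ', c1, c2, -⟩ := Y.pingpong_cr n1 n2 n3 ha ha' (z := ⟨_, hz⟩) rfl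
  obtain ⟨h1, Z, Q, Q', hZ, q, q', b, b', h⟩ := Y.pingpong n1 n2 n3 ha ha' (z := ⟨_, hz⟩) rfl
  have fl : ∀ k X, Bf (Y.e k) (Y.ρ (s k) • X) = -Bf (Y.e k) X := fun k X => by
    simp only [ρ_s, Bf_sub_right, Bf_smul_right, Y.unit]
    ring
  have p := fun {P : V} (hP : Fut P) => Y.add_pos n1 n2 n3 hP
  have p' := fun {P : V} (hP : Fut P) => Y.add_pos (i := i - 1 - 1) (j := i + 1)
    (fun h => Y.three_ne (by linear_combination h)) (fun h => Y.two_ne (by linear_combination h))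
    (fun h => Y.four_ne (by linear_combination -h)) hP
  have p'' := fun {P : V} (hP : Fut P) => Y.add_pos (i := i - 1) (j := i + 1 + 1)
    (fun h => Y.three_ne (by linear_combination h)) (fun h => Y.two_ne (by linear_combination h))
    (fun h => Y.four_ne (by linear_combination -h)) hP
  have si : ∀ k, (Y.ρ (s k))⁻¹ = Y.ρ (s k) := fun k => by rw [← map_inv, s_inv]
  have st : Y.σ (tc i) = Y.ρ (s (i - 1)) * Y.ρ (s (i + 1)) := Y.ρ.map_mul _ _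
  have ss : ∀ k (X : V), Y.ρ (s k) • Y.ρ (s k) • X = X := fun k X => by
    rw [← mul_smul, ← map_mul, s_mul_s, map_one, one_smul]
  have nc : ∀ H, Bf H H = 1 → 0 < Bf H (Y.ρ (s (i - 1) * s (i - 1 - 1)) • Q) →
      0 < Bf H ((Y.ρ (s (i + 1) * s (i + 1 + 1)))⁻¹ • Q') → ¬ Cr H Z := fun H x y z => by
    have := h H
    rw [Cr]
    nlinarith [mul_pos y z]
  have cm : ∀ X : V, Y.ρ (s (i + 1 + 1)) • Y.ρ (s (i + 1)) • X =
      Y.ρ (s (i + 1)) • Y.ρ (s (i + 1 + 1)) • X := fun X => by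
    rw [← mul_smul, ← map_mul, ← s_comm, map_mul, mul_smul]
  simp only [map_mul, mul_inv_rev, si, mul_smul, cm] at nc
  have a1 := p' q
  have a2 := p' (q.smul (Y.ρ (s (i - 1 - 1))))
  have a3 := p ((q.smul (Y.ρ (s (i - 1 - 1)))).smul (Y.ρ (s (i + 1))))
  have a4 := p (q.smul (Y.ρ (s (i - 1 - 1))))
  have a5 := p ((q.smul (Y.ρ (s (i - 1 - 1)))).smul (Y.ρ (s (i - 1))))
  have a6 := p (((q.smul (Y.ρ (s (i - 1 - 1)))).smul (Y.ρ (s (i - 1)))).smul (Y.ρ (s (i + 1))))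
  have a7 : Bf (Y.e (i - 1)) (Y.ρ (s (i - 1 - 1)) • Q) = Bf (Y.e (i - 1)) Q := by
    rw [← Bf_isom (Y.ρ (s (i - 1 - 1))), ss, Y.ρ_s_of (by rw [Bf_comm, Y.adj'])]
  have a8 := p q
  have d1 := p'' q'
  have d2 := p'' (q'.smul (Y.ρ (s (i + 1 + 1))))
  have d3 : Bf (Y.e (i + 1)) (Y.ρ (s (i + 1 + 1)) • Q') = Bf (Y.e (i + 1)) Q' := by
    rw [← Bf_isom (Y.ρ (s (i + 1 + 1))), ss, Y.ρ_s_of (by rw [Bf_comm, Y.adj])]
  have d4 := p q'
  have d5 := p ((q'.smul (Y.ρ (s (i + 1 + 1)))).smul (Y.ρ (s (i + 1))))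
  have d6 := p (((q'.smul (Y.ρ (s (i + 1 + 1)))).smul (Y.ρ (s (i + 1)))).smul (Y.ρ (s (i - 1))))
  have d7 := p ((((q'.smul (Y.ρ (s (i + 1 + 1)))).smul (Y.ρ (s (i + 1)))).smul
    (Y.ρ (s (i - 1)))).smul (Y.ρ (s (i + 1))))
  simp only [fl] at a2 a3 a5 a6 d2 d5 d6 d7
  refine ⟨⟨_, hz⟩, ⟨h1, Y.tc_ne _, _, _, hZ', Y.ax_tc _, c1⟩,
    ⟨h1, Y.tc_ne _, _, _, hZ', Y.ax_tc _, c2⟩, fun hc => ?_, fun hc => ?_⟩
  · have := (lk_conj_iff (Y.tc_ne _) h1 (Y.ax_tc _) hZ).1 hc.symm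
    refine nc _ (by simpa using Y.unit _) ?_ ?_ this
    · rw [st, mul_smul, Bf_isom, Bf_move, si]
      linarith
    · rw [st, mul_smul, Bf_move, Bf_move, si, si]
      linarith
  · have := (lk_conj_iff (Y.tc_ne _) h1 (Y.ax_tc _) hZ).1 hc.symm
    have e : Y.σ (tc i)⁻¹ • Y.e (i - 1) = -(Y.ρ (s (i + 1)) • Y.e (i - 1)) := by
      rw [map_inv, st, mul_inv_rev, si, si, mul_smul, ρ_s_e, smul_neg]
    rw [e, cr_neg_left] at this
    refine nc _ (by simpa using Y.unit _) ?_ ?_ this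
    · rw [Bf_move, si]
      linarith
    · rw [Bf_isom]
      linarith

theorem cross_fin' {x y : Gam g} (hx : x ≠ 1) (hy : y ≠ 1) {E F : V}
    (hE : IsAx (Y.σ x) E) (hF : IsAx (Y.σ y) F) : ∃ T : Set V, T.Finite ∧
      ∀ w, Cr E (Y.ρ w • F) → ∃ k : ℤ, Y.σ x ^ k • Y.ρ w • F ∈ T :=
  Y.cross_fin (Y.hyp' hx) (Y.hyp' hy) hE hF

theorem next_fin (i : I g) (a b : Gam g) (h : Y.Lk b a) :
    {d | d ∈ cl (tc i) ∧ Y.Lk b d ∧ ∃ z, Y.Lk z a ∧ Y.Lk z d ∧ ¬ Y.Lk z (b * a * b⁻¹) ∧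
      ¬ Y.Lk z (b⁻¹ * a * b⁻¹⁻¹)}.Finite := by
  obtain ⟨E, hE⟩ := (Y.hyp' h.1).exists_ax
  obtain ⟨A, hA⟩ := (Y.hyp' h.2.1).exists_ax
  obtain ⟨T, t1, t2⟩ := Y.cross_fin' h.1 (Y.tc_ne i) hE (Y.ax_tc i)
  have : ∀ D : V, ∃ K : ℕ, Bf D D = 1 → Cr E D → ∀ k : ℤ, K < |k| → ∀ Z, Bf Z Z = 1 → Cr Z A →
      Cr Z (Y.σ b ^ k • D) → Cr Z (Y.σ b • A) ∨ Cr Z ((Y.σ b)⁻¹ • A) := fun D => by
    by_cases c : Bf D D = 1 ∧ Cr E D
    · exact (nested_far (Y.hyp' h.1) hE hA.1 c.1 (h.cr hE hA) c.2).imp fun _ hK _ _ => hK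
    · exact ⟨0, fun c1 c2 => (c ⟨c1, c2⟩).elim⟩
  choose K hK using this
  refine (t1.biUnion fun D _ => (Set.finite_Icc (-(K D : ℤ)) (K D)).biUnion fun k _ =>
    Y.ax_fin i (Y.σ b ^ k • D)).subset ?_
  rintro d ⟨h1, h2, z, h3, h4, h5, h6⟩
  obtain ⟨-, w, hw⟩ := Y.ax_of_mem h1
  obtain ⟨Z, hZ⟩ := (Y.hyp' h3.1).exists_ax
  obtain ⟨k, hk⟩ := t2 w (h2.cr hE hw)
  have e : Y.σ b ^ (-k) • Y.σ b ^ k • Y.ρ w • Y.e i = Y.ρ w • Y.e i := by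
    rw [zpow_neg, inv_smul_smul]
  refine Set.mem_biUnion hk (Set.mem_biUnion (x := -k) (abs_le.1 (not_lt.1 fun hc => ?_))
    ⟨h1, e.symm ▸ hw⟩)
  rcases hK _ (by simpa using Y.unit i) (by rw [← hE.zpow k, cr_isom]; exact h2.cr hE hw) _ hc Z
    hZ.1 (h3.cr hZ hA) (e.symm ▸ h4.cr hZ hw) with c | c
  · exact h5 ((lk_conj_iff h.2.1 h3.1 hA hZ).2 c.symm).symm
  · exact h6 ((lk_conj_iff h.2.1 h3.1 hA hZ).2 (by rw [map_inv]; exact c.symm)).symm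

include Y in
theorem stab_fin : {u : Out (Gam g) | ∀ i : I g, u • bc i = bc i}.Finite := by
  obtain ⟨T, t1, t2⟩ := Y.cross_fin' (Y.tc_ne 0) (Y.tc_ne (0 + 1)) (Y.ax_tc 0) (Y.ax_tc (0 + 1))
  let Φ : Set (MulAut (Gam g)) := {φ | (∀ i, φ (tc i) ∈ cl (tc i)) ∧
    φ (tc 0) ∈ ({tc 0, (tc 0)⁻¹} : Set (Gam g)) ∧ ∃ D ∈ T, IsAx (Y.σ (φ (tc (0 + 1)))) D}
  have h1 : ∀ m : ℕ, ((fun φ : MulAut (Gam g) => φ (tc (m : I g))) '' Φ).Finite ∧
      ((fun φ : MulAut (Gam g) => φ (tc ((m : I g) + 1))) '' Φ).Finite := by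
    intro m
    induction m with
    | zero =>
      rw [Nat.cast_zero]
      refine ⟨(Set.toFinite {tc 0, (tc 0)⁻¹}).subset ?_,
        (t1.biUnion fun D _ => Y.ax_fin (0 + 1) D).subset ?_⟩
      · rintro _ ⟨φ, hφ, rfl⟩
        exact hφ.2.1
      · rintro _ ⟨φ, ⟨a, -, D, b, c⟩, rfl⟩
        exact Set.mem_biUnion b ⟨a _, c⟩
    | succ m ih =>
      rw [Nat.cast_succ]
      refine ⟨ih.2, (ih.1.biUnion fun a _ => ih.2.biUnion fun b _ => Set.Finite.subset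
        (Set.finite_iUnion fun h : PLift (Y.Lk b a) => Y.next_fin (m + 1 + 1) a b h.down)
        (Set.Subset.refl _)).subset ?_⟩
      rintro _ ⟨φ, hφ, rfl⟩
      obtain ⟨z, z1, z2, z3, z4⟩ := Y.witness ((m : I g) + 1)
      rw [add_sub_cancel_right] at z1 z3 z4
      refine Set.mem_biUnion ⟨φ, hφ, rfl⟩ (Set.mem_biUnion ⟨φ, hφ, rfl⟩ (Set.mem_iUnion.2
        ⟨⟨(Y.lk_adj _).symm.map φ⟩, hφ.1 _, (Y.lk_adj _).map φ, φ z, z1.map φ, z2.map φ, ?_, ?_⟩))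
      · rwa [← lk_map_iff φ, map_mul, map_mul, map_inv] at z3
      · rwa [← lk_map_iff φ, map_mul, map_mul, map_inv, map_inv, map_inv] at z4
  have h2 : Φ.Finite := by
    refine Set.Finite.of_finite_image (f := fun (φ : MulAut (Gam g)) (i : I g) => φ (tc i))
      ((Set.Finite.pi' fun i : I g => (h1 i.val).1).subset ?_) fun φ _ ψ _ h => ?_
    · rintro _ ⟨φ, hφ, rfl⟩ i
      exact ⟨φ, hφ, by simp⟩
    · refine MulEquiv.toMonoidHom_injective (MonoidHom.eq_of_eqOn_dense closure_tc ?_)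
      rintro _ ⟨i, rfl⟩
      exact congrFun h i
  refine (h2.image QuotientGroup.mk).subset fun u hu => ?_
  obtain ⟨φ, rfl⟩ := QuotientGroup.mk_surjective u
  have h3 : ∀ i, φ (tc i) ∈ cl (tc i) := fun i => by
    have : (φ • bc i).1 = (bc i).1 := congrArg Subtype.val (hu i)
    exact (show (φ • bc i).1 = cl (tc i) from this) ▸ ⟨_, mem_cl_self _, rfl⟩
  obtain ⟨z, hz⟩ := mem_cl_symm (h3 0)
  have h4 : z * φ (tc 0) * z⁻¹ = tc 0 ∨ z * φ (tc 0) * z⁻¹ = (tc 0)⁻¹ :=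
    hz.imp Eq.symm fun h => eq_inv_of_mul_eq_one_left (by nth_rewrite 2 [h]; group)
  obtain ⟨-, w, hw⟩ := Y.ax_of_mem (conj_mem_cl (h3 (0 + 1)) z)
  have h5 : Y.Lk (tc 0) (z * φ (tc (0 + 1)) * z⁻¹) := by
    have := ((Y.lk_adj 0).map φ).map (MulAut.conj z)
    rw [MulAut.conj_apply, MulAut.conj_apply] at this
    rcases h4 with h | h <;> rw [h] at this
    · exact this
    · simpa using this.inv
  obtain ⟨k, hk⟩ := t2 w (h5.cr (Y.ax_tc 0) hw)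
  refine ⟨MulAut.conj (tc 0 ^ k * z) * φ, ⟨fun i => conj_mem_cl (h3 i) _, ?_, _, hk, ?_⟩, ?_⟩
  · rw [MulAut.mul_apply, MulAut.conj_apply, show tc 0 ^ k * z * φ (tc 0) * (tc 0 ^ k * z)⁻¹ =
      tc 0 ^ k * (z * φ (tc 0) * z⁻¹) * (tc 0 ^ k)⁻¹ by group]
    rcases h4 with h | h <;> rw [h]
    · exact Or.inl (by group)
    · exact Or.inr (by rw [Set.mem_singleton_iff]; group)
  · have := ax_conj hw (tc 0 ^ k)
    rw [map_zpow] at this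
    rwa [MulAut.mul_apply, MulAut.conj_apply, show tc 0 ^ k * z * φ (tc (0 + 1)) * (tc 0 ^ k * z)⁻¹ =
      tc 0 ^ k * (z * φ (tc (0 + 1)) * z⁻¹) * (tc 0 ^ k)⁻¹ by group]
  · have : (QuotientGroup.mk (MulAut.conj (tc 0 ^ k * z)) : Out (Gam g)) = 1 :=
      (QuotientGroup.eq_one_iff _).2 ⟨_, rfl⟩
    rw [QuotientGroup.mk_mul, this, one_mul]

end Poly

theorem par_iff (i p : ℤ) : par (i : I g) = (p : ZMod 2) ↔ Even (i - p) := by
  rw [map_intCast, ← sub_eq_zero, ← Int.cast_sub, ZMod.intCast_zmod_eq_zero_iff_dvd,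
    even_iff_two_dvd]
  rfl

theorem exists_curveSys {g : ℕ} (hg : 2 ≤ g) :
    ∃ (C : Type) (_ : MulAction (Out (Gam g)) C) (Y : CurveSys (Out (Gam g)) C),
      ∀ p N, ∃ u, Y.T p N = u * u := by
  obtain ⟨Y⟩ := exists_poly hg
  have sm : ∀ (φ : MulAut (Gam g)) (a b d : Crv g), Y.DD a b d ≤ Y.DD (φ • a) (φ • b) (φ • d) :=
    fun φ a b d => Poly.DD_le fun m hm => Poly.le_DD (Poly.DS_smul φ hm)
  refine ⟨Crv g, inferInstance,
    { n := g + 1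
      hn := by omega
      c := fun i => bc (i : I g)
      per := fun i => ?_
      X := Y.XX
      D := Y.DD
      θ := 5
      X_symm := fun a b ⟨x, h1, y, h2, h3⟩ => ⟨y, h2, x, h1, h3.symm⟩
      X_smul := fun u a b ⟨x, h1, y, h2, h3⟩ => ?_
      D_smul := fun u a b d => ?_
      D_symm := fun a b d => le_antisymm (Poly.DD_le fun m hm => Poly.le_DD (Poly.DS_symm hm))
        (Poly.DD_le fun m hm => Poly.le_DD (Poly.DS_symm hm))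
      D_cross := fun a b d h => ?_
      D_tri := fun a b d e h => Poly.DD_tri h
      D_bdd := fun b d => (Poly.DS_bdd b d).imp fun K hK a => Poly.DD_le (hK a)
      D_self := fun a b => Poly.DD_le fun m ⟨x, _, y, h2, z, h3, _, _, h6⟩ => ?_
      behr := fun a b d h => Poly.DD_behr h
      fill := fun a => ?_
      adj := fun i => ⟨_, mem_cl_self _, _, mem_cl_self _, by push_cast; exact Y.lk_adj _⟩
      T := fun p N => QuotientGroup.mk (tw (p : ZMod 2) ((2 * N + 1 : ℕ) + 1) 1)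
      T_fix := fun p N i hi => Subtype.ext ?_
      T_far := fun p N i hi => ?_
      T_near := fun p N a ha j hj => Y.twist_near _ _ (fun i hi => ?_) hj
      stab := Y.stab_fin.subset fun u hu i => ?_ }, fun p N =>
    ⟨QuotientGroup.mk (tw (p : ZMod 2) (N + 1) 1), ?_⟩⟩
  · have : ((2 * g + 2 : ℕ) : I g) = 0 := ZMod.natCast_self _
    congr 1
    push_cast at this ⊢
    linear_combination this
  · obtain ⟨φ, rfl⟩ := QuotientGroup.mk_surjective u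
    exact ⟨_, ⟨x, h1, rfl⟩, _, ⟨y, h2, rfl⟩, h3.map φ⟩
  · obtain ⟨φ, rfl⟩ := QuotientGroup.mk_surjective u
    refine le_antisymm ?_ (sm φ a b d)
    simpa [Crv.mk_smul] using sm φ⁻¹ (φ • a) (φ • b) (φ • d)
  · obtain ⟨x, h1, y, h2, -, -, h3, -⟩ := Poly.DD_mem h
    exact ⟨x, h1, y, h2, h3⟩
  · by_contra! hc
    exact Poly.not_twG_self h2 h3 (h6.mono (by omega))
  · obtain ⟨φ, i, e⟩ := a.2
    have h1 : φ (tc i) ∈ a.1 := e ▸ mem_cl_self _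
    obtain ⟨j, y, h2, h3⟩ := Y.fill (Y.ne_of_mem h1)
    exact ⟨j.val, _, h1, y, by simpa [bc] using h2, h3⟩
  · rw [Crv.mk_smul, Crv.smul_coe, bc, image_cl, tw_tc _ ((par_iff i p).2 hi)]
  · have := Y.twist_far ((par_iff i p).2 hi) (2 * N + 1)
    rw [Crv.mk_smul, Int.cast_add i, Int.cast_one]
    omega
  · simpa using ha i.val ((par_iff _ p).1 (by rwa [Int.cast_natCast, ZMod.natCast_zmod_val]))
  · simpa using hu i.val
  · beta_reduce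
    rw [← QuotientGroup.mk_mul, ← tw_add]
    push_cast
    ring_nf

end Pool.Agent.MP_4a6971_al.H66
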