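import Pool.Agent.MP_4a6971_al.Mg.Hyp
import Pool.Agent.MP_4a6971_al.Defs2

-- part MP_4a6971_al.Main
section

/-!
The density theorem for groups acting on hyperbolic spaces, and the symplectic group.
-/

namespace Pool.Agent.MP_4a6971_al

variable {G Q : Type*} [Group G] [Group Q]

theorem sys_of_wpd {X : Type*} [MetricSpace X] [MulAction G X] [IsIsometricSMul G X] [Infinite Q]
    (π : G →* Q) (hπ : Function.Surjective π) (hX : IsHyperbolic X) {a : G} (ha : π a = 1)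
    (h1 : IsLoxodromic X a) (h2 : IsWPD X a) : Nonempty (Sys π) := by
  obtain ⟨o, c, hc, C, h1⟩ := h1
  obtain ⟨δ, hδ⟩ := hX
  have e : ∀ x y : G, dist o ((x⁻¹ * y) • o) = dist (x • o) (y • o) := fun x y => by
    rw [← dist_smul x, smul_smul, mul_inv_cancel_left]
  let L : Len G :=
    { τ := fun g => dist o (g • o)
      δ := 2 * δ
      hδ := by
        have := hδ o o o o
        simp only [min_self] at this
        linarith
      one := by simp
      nonneg := fun _ => dist_nonneg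
      tri := fun x y => by
        have := dist_triangle o (x • o) ((x * y) • o)
        rwa [← e x (x * y), inv_mul_cancel_left] at this
      symm := fun x => by simpa [dist_comm] using e x 1
      four := fun x y z => by
        have := hδ o (x • o) (y • o) (z • o)
        simp only [gromovProduct, sub_le_iff_le_add, min_le_iff] at this
        simp only [e, dist_comm o]
        rcases this with h | h
        · left
          linarith
        · right
          linarith }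
  obtain ⟨p, hp⟩ := L.good_of_lox hc h1 fun ε => by
    obtain ⟨n, -, hn⟩ := h2 o (max ε 1) (lt_max_of_lt_right one_pos)
    refine ⟨n, hn.subset ?_⟩
    rintro g ⟨b1, b2⟩
    refine ⟨le_max_of_le_left b1, le_max_of_le_left ?_⟩
    rw [smul_smul, ← e, ← mul_assoc]
    exact b2
  exact hp.sys π hπ ha

theorem exists_many [Infinite Q] (π : G →* Q) (hπ : Function.Surjective π) {J : Q}
    (hJ : (Subgroup.centralizer {J} : Set Q).Finite) (f : ℕ) :
    ∃ T : Finset G, T.card = f ∧ Set.InjOn π T ∧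
      ∀ j ∈ T, (Subgroup.centralizer {π j} : Set Q).Finite := by
  classical
  have h1 : {z : Q | ∃ q, q * J * q⁻¹ = z}.Infinite := by
    intro hf
    obtain ⟨j, rfl⟩ := hπ J
    obtain ⟨c, hc⟩ := exists_conj_finset π {j} (by simpa using hJ)
    choose T _ hT using hc
    exact Set.infinite_univ ((hf.biUnion fun z _ => (T z).finite_toSet).subset fun q _ =>
      Set.mem_biUnion (x := q * π j * q⁻¹) ⟨q, rfl⟩ (hT _ q j (by simp) rfl))
  obtain ⟨T, hT1, hT2⟩ := h1.exists_subset_card_eq f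
  choose s hs using hπ
  refine ⟨T.image s, by rw [Finset.card_image_of_injective _ (Function.RightInverse.injective
    (f := s) (g := π) fun x => hs x), hT2], ?_, ?_⟩
  · intro x hx y hy h
    obtain ⟨x, -, rfl⟩ := Finset.mem_image.1 hx
    obtain ⟨y, -, rfl⟩ := Finset.mem_image.1 hy
    rw [hs, hs] at h
    rw [h]
  · intro j hj
    obtain ⟨z, hz, rfl⟩ := Finset.mem_image.1 hj
    obtain ⟨q, rfl⟩ := hT1 hz
    rw [hs]
    refine (hJ.image fun w => q * w * q⁻¹).subset fun w hw => ⟨q⁻¹ * w * q, ?_, by group⟩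
    rw [SetLike.mem_coe, Subgroup.mem_centralizer_singleton_iff] at hw ⊢
    calc q⁻¹ * w * q * J = q⁻¹ * (w * (q * J * q⁻¹)) * q := by group
      _ = _ := by rw [hw]; group

open Filter Topology in
theorem density_zero_of_wpd {X : Type*} [MetricSpace X] [MulAction G X] [IsIsometricSMul G X]
    [Infinite Q] (π : G →* Q) (hπ : Function.Surjective π) {J : Q}
    (hJ : (Subgroup.centralizer {J} : Set Q).Finite) (hX : IsHyperbolic X) {a : G} (ha : π a = 1)
    (h1 : IsLoxodromic X a) (h2 : IsWPD X a) {S : Finset G}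
    (hS : Subgroup.closure (S : Set G) = ⊤) :
    Tendsto (fun r : ℕ => ((wordBall (S : Set G) r ∩ π.ker).ncard : ℝ) /
      (wordBall (S : Set G) r).ncard) atTop (𝓝 0) := by
  obtain ⟨Y⟩ := sys_of_wpd π hπ hX ha h1 h2
  have : Infinite G := Infinite.of_surjective π hπ
  exact Y.density_zero hS (exists_many π hπ hJ)

theorem infinite_symplectic {l : Type*} [DecidableEq l] [Fintype l] (i₀ : l) :
    Infinite (Matrix.symplecticGroup l ℤ) := by
  rw [← not_finite_iff_infinite]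
  intro h
  obtain ⟨T⟩ := table_symplectic i₀ (Nat.card (Matrix.symplecticGroup l ℤ) + 1)
  have : Function.Injective T.t := fun i j hij => by
    have h1 := T.play i 1 (T.base i)
    have h2 := T.play j 1 (T.base j)
    rw [hij] at h1
    exact congrArg Prod.fst (T.disj _ _ _ h1 h2)
  have := Nat.card_le_card_of_injective _ this
  simp at this

theorem finite_centralizer_symplectic (l : Type*) [DecidableEq l] [Fintype l] :
    (Subgroup.centralizer {SymplecticGroup.symJ l ℤ} : Set (Matrix.symplecticGroup l ℤ)).Finite := by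
  have h1 : (Set.pi Set.univ fun _ : l ⊕ l => Set.pi Set.univ fun _ : l ⊕ l =>
      Set.Icc (-1 : ℤ) 1).Finite :=
    Set.Finite.pi fun _ => Set.Finite.pi fun _ => Set.finite_Icc _ _
  refine (h1.preimage (f := fun q : Matrix.symplecticGroup l ℤ => (q.1 : l ⊕ l → l ⊕ l → ℤ))
    (Subtype.val_injective.injOn)).subset fun q hq i _ j _ => ?_
  rw [SetLike.mem_coe, Subgroup.mem_centralizer_singleton_iff] at hq
  have h2 : q.1 * Matrix.J l ℤ = Matrix.J l ℤ * q.1 := congrArg Subtype.val hq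
  have h3 := SymplecticGroup.mem_iff.1 q.2
  have h4 : q.1 * q.1.transpose = 1 := by
    have h5 : Matrix.J l ℤ * (Matrix.J l ℤ * (q.1 * q.1.transpose)) = Matrix.J l ℤ * Matrix.J l ℤ := by
      rw [← mul_assoc _ q.1, ← h2, h3]
    rw [← mul_assoc, Matrix.J_squared] at h5
    simpa using h5
  have h6 := congrFun (congrFun h4 i) i
  rw [Matrix.mul_apply, Matrix.one_apply_eq] at h6
  have h7 := Finset.single_le_sum (f := fun k => q.1 i k * q.1.transpose k i)
    (fun k _ => mul_self_nonneg (q.1 i k)) (Finset.mem_univ j)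
  rw [h6, Matrix.transpose_apply] at h7
  constructor <;> nlinarith

end Pool.Agent.MP_4a6971_al

end

-- part MP_4a6971_al.H66.Ker
section

/-!
Density zero of the kernel, without assuming that the good element lies in the kernel.
-/

namespace Pool.Agent.MP_4a6971_al.H66

open Filter Topology

variable {G Q : Type*} [Group G] [Group Q]

theorem good_pow {L : Len G} {a : G} {p : ℝ} (h : L.Good a p) {k : ℕ} (hk : 0 < k) :
    L.Good (a ^ k) p := by
  refine ⟨fun i j => ?_, fun R => ?_, fun ε => ?_⟩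
  · simpa only [← pow_mul, mul_add] using h.chain (k * i) (k * j)
  · obtain ⟨n₀, hn⟩ := h.big R
    exact ⟨n₀, fun n h' => by
      rw [← pow_mul]
      exact hn _ (h'.trans (Nat.le_mul_of_pos_left _ hk))⟩
  · obtain ⟨n₀, hn⟩ := h.wpd ε
    exact ⟨n₀, fun n h' => by
      rw [← pow_mul]
      exact hn _ (h'.trans (Nat.le_mul_of_pos_left _ hk))⟩

theorem nontransverse {L : Len G} {a : G} {p : ℝ} (h : L.Good a p) :
    ∃ F : Set G, F.Finite ∧ ∀ b, (∀ D, ∃ n : ℕ,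
      L.τ ((a ^ n)⁻¹ * b * a ^ n) + D < L.τ (a ^ n) + L.τ (b * a ^ n)) →
      ∃ j₀ : ℕ, ∀ j, j₀ ≤ j → ∃ i : ℕ, (a ^ i)⁻¹ * (b * a ^ j) ∈ F := by
  obtain ⟨k, hk⟩ := h.wpd (L.τ a + p + L.δ + (p + L.δ) + L.δ)
  refine ⟨_, hk k le_rfl, fun b hcon => ?_⟩
  have hδ := L.hδ
  have ha0 := L.nonneg a
  have hp0 : 0 ≤ p := by simpa [L.one] using h.chain 0 0
  obtain ⟨j₀, hj⟩ := h.big (L.τ b + p + L.δ + 1)
  refine ⟨j₀, fun j hj₀ => ?_⟩
  obtain ⟨i, hi1, hi2⟩ := h.ivt (L.nonneg (b * a ^ j))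
  obtain ⟨n, hn⟩ := hcon (2 * ((i + j + k : ℕ) * L.τ a) + p + L.δ)
  have hM : ∀ s : ℕ, s ≤ i + j + k → L.τ (a ^ s) ≤ (i + j + k : ℕ) * L.τ a := fun s hs =>
    (L.pow_le a s).trans (by gcongr)
  have hn' : i + j + k ≤ n := by
    by_contra! hlt
    have := L.tri' (a ^ n) (b * a ^ n)
    rw [← mul_assoc] at this
    linarith [hM n hlt.le]
  have c1 : ∀ s t : ℕ, j ≤ s → L.τ (b * a ^ s) + L.τ (a ^ t) ≤ L.τ (b * a ^ (s + t)) + (p + L.δ) := by
    intro s t hs
    have := L.extend (E := p) (x := (a ^ s)⁻¹) (y := a ^ t) (x' := (b * a ^ s)⁻¹)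
      (by rw [inv_inv, L.symm, ← pow_add]; exact h.chain s t)
      (by
        have := L.tri' b⁻¹ (a ^ s)
        rw [inv_inv, L.symm] at this
        rw [show (a ^ s)⁻¹⁻¹ * (b * a ^ s)⁻¹ = b⁻¹ by group, L.symm, L.symm, L.symm]
        linarith [hj s (hj₀.trans hs)])
    rw [L.symm, inv_inv, mul_assoc, ← pow_add] at this
    linarith
  have c2 : ∀ s : ℕ, j ≤ s → s ≤ n →
      L.τ (b * a ^ s) + L.τ ((b * a ^ s)⁻¹ * (b * a ^ n)) ≤ L.τ (b * a ^ n) + (p + L.δ) := by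
    intro s hs hs'
    obtain ⟨t, rfl⟩ := Nat.exists_eq_add_of_le hs'
    rw [show (b * a ^ s)⁻¹ * (b * a ^ (s + t)) = a ^ t by group]
    exact c1 s t hs
  have c3 : ∀ s : ℕ, s ≤ i + j + k →
      L.τ (a ^ s) + L.τ ((a ^ s)⁻¹ * (b * a ^ n)) ≤ L.τ (b * a ^ n) + (p + L.δ) := by
    intro s hs
    obtain ⟨t, rfl⟩ := Nat.exists_eq_add_of_le (hs.trans hn')
    have := L.extend (E := p) (x := a ^ t) (y := (a ^ s)⁻¹) (x' := (a ^ s)⁻¹ * (b * a ^ (s + t)))
      (by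
        rw [show (a ^ t)⁻¹ * (a ^ s)⁻¹ = (a ^ (s + t))⁻¹ by group, L.symm, L.symm]
        linarith [h.chain s t])
      (by
        have d1 := L.tri' (a ^ s) (b * a ^ (s + t))
        have d2 := L.tri (a ^ s) (a ^ t)
        rw [← pow_add] at d2
        rw [show (a ^ t)⁻¹ * ((a ^ s)⁻¹ * (b * a ^ (s + t))) = (a ^ (s + t))⁻¹ * b * a ^ (s + t) by
          group]
        linarith [hM s hs])
    rw [show ((a ^ s)⁻¹ * (b * a ^ (s + t)))⁻¹ * (a ^ s)⁻¹ = (b * a ^ (s + t))⁻¹ by group,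
      L.symm, L.symm] at this
    linarith
  refine ⟨i, ?_, ?_⟩
  · exact L.close (c3 i (by omega)) (c2 j le_rfl (by omega)) (by linarith) (by linarith)
  · rw [show (a ^ k)⁻¹ * ((a ^ i)⁻¹ * (b * a ^ j)) * a ^ k = (a ^ (i + k))⁻¹ * (b * a ^ (j + k)) by
      group]
    have d1 := c1 j k le_rfl
    have d2 := h.chain i k
    have d3 := L.tri (a ^ i) (a ^ k)
    have d4 := L.tri (b * a ^ j) (a ^ k)
    rw [← pow_add] at d3
    rw [mul_assoc, ← pow_add] at d4
    exact L.close (c3 (i + k) (by omega)) (c2 (j + k) (by omega) (by omega)) (by linarith)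
      (by linarith)

theorem finite_bad {L : Len G} {a : G} {p : ℝ} (h : L.Good a p) (π : G →* Q)
    (ha : Function.Injective fun n : ℕ => π (a ^ n)) :
    ∃ E : Set G, E.Finite ∧ ∀ b, π b = 1 → b ∉ E → ∃ D, ∀ n : ℕ,
      L.τ (a ^ n) + L.τ (b * a ^ n) ≤ L.τ ((a ^ n)⁻¹ * b * a ^ n) + D := by
  classical
  obtain ⟨F, hF, hF'⟩ := nontransverse h
  refine ⟨{b | π b = 1 ∧ ∀ D, ∃ n : ℕ,
    L.τ ((a ^ n)⁻¹ * b * a ^ n) + D < L.τ (a ^ n) + L.τ (b * a ^ n)}, ?_, fun b h1 h2 => ?_⟩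
  · by_contra hinf
    obtain ⟨T, hT1, hT2⟩ := Set.Infinite.exists_subset_card_eq hinf (hF.toFinset.card + 1)
    choose! j₀ hj₀ using hF'
    choose! i hi using hj₀
    obtain ⟨x, hx, y, hy, hxy, e⟩ := Finset.exists_ne_map_eq_of_card_lt_of_maps_to
      (s := T) (t := hF.toFinset) (by omega)
      (f := fun b => (a ^ i b (T.sup j₀))⁻¹ * (b * a ^ (T.sup j₀))) fun b hb =>
        hF.mem_toFinset.2 (hi b (hT1 hb).2 _ (Finset.le_sup hb))
    have e1 := congrArg π e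
    simp only [map_mul, map_inv, (hT1 hx).1, (hT1 hy).1, one_mul, mul_left_inj, inv_inj] at e1
    have e2 := ha e1
    rw [e2, mul_right_inj, mul_left_inj] at e
    exact hxy e
  · by_contra! hcon
    exact h2 ⟨h1, hcon⟩

theorem extend_both (L : Len G) {E E' : ℝ} {x y x' y' : G}
    (h : L.τ x + L.τ y ≤ L.τ (x⁻¹ * y) + E) (hx : L.τ x + L.τ (x⁻¹ * x') ≤ L.τ x' + E')
    (hy : L.τ y + L.τ (y⁻¹ * y') ≤ L.τ y' + E') (lx : E + E' + 2 * L.δ < 2 * L.τ x)
    (ly : E + E' + 2 * L.δ < 2 * L.τ y) : L.τ x' + L.τ y' ≤ L.τ (x'⁻¹ * y') + (E + 2 * L.δ) := by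
  have hδ := L.hδ
  have h1 := L.extend (x' := x') h (by linarith)
  have h2 := L.extend (E := E + L.δ) (x := y) (y := x') (x' := y') (by linarith [L.comm y x'])
    (by linarith)
  linarith [L.comm y' x']

theorem fix_subset (L : Len G) {E ε : ℝ} {z φ : G} (hE : 0 ≤ E)
    (h : L.τ z + L.τ (z⁻¹ * φ) ≤ L.τ φ + E) : L.fix ε φ ⊆ L.fix (ε + (E + 2 * ε) + L.δ) z := by
  rintro g ⟨h1, h2⟩
  have h0 := (L.nonneg g).trans h1
  refine ⟨by linarith [L.hδ], ?_⟩
  have a2 := L.tri g z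
  have a4 := L.tri (z⁻¹ * φ) (φ⁻¹ * g * φ)⁻¹
  have a5 := L.tri' g (g * z)
  rw [inv_mul_cancel_left] at a5
  rw [L.symm] at a4
  rw [mul_assoc]
  refine L.close (x := φ) (by linarith) ?_ ?_ (by linarith)
  · rw [show (g * z)⁻¹ * φ = z⁻¹ * φ * (φ⁻¹ * g * φ)⁻¹ by group]
    linarith
  · have := L.tri' (g⁻¹) z
    rw [inv_inv, L.symm] at this
    linarith

theorem sys_of_infinite {L : Len G} {a : G} {p : ℝ} (h : L.Good a p) (π : G →* Q)
    (ha : Function.Injective fun n : ℕ => π (a ^ n)) (hN : (π.ker : Set G).Infinite) :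
    Nonempty (Sys π) := by
  have hδ := L.hδ
  obtain ⟨E₁, hE₁, t₁⟩ := finite_bad h π ha
  obtain ⟨E₂, hE₂, t₂⟩ := finite_bad h.inv π fun m n e => ha (by simpa using e)
  obtain ⟨c, hc1, hc2⟩ := hN.exists_notMem_finite hE₂
  obtain ⟨Dc, hDc⟩ := t₂ c hc1 hc2
  obtain ⟨b₁, k₁, hb₁⟩ := hN.exists_notMem_finite (hE₁.union hE₁.inv)
  obtain ⟨b₂, k₂, hb₂⟩ := hN.exists_notMem_finite
    ((hE₁.union hE₁.inv).union ((hE₁.union hE₁.inv).image (b₁ * ·)))
  have k₁' : π b₁ = 1 := k₁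
  have k₂' : π b₂ = 1 := k₂
  have hc1' : π c = 1 := hc1
  have q₁ : b₁ ∉ E₁ := fun e => hb₁ (Or.inl e)
  have q₂ : b₁⁻¹ ∉ E₁ := fun e => hb₁ (Or.inr e)
  have q₃ : b₂ ∉ E₁ := fun e => hb₂ (Or.inl (Or.inl e))
  have q₄ : b₂⁻¹ ∉ E₁ := fun e => hb₂ (Or.inl (Or.inr e))
  have q₅ : b₁⁻¹ * b₂ ∉ E₁ := fun e => hb₂ (Or.inr ⟨_, Or.inl e, by simp⟩)
  have q₆ : b₂⁻¹ * b₁ ∉ E₁ := fun e => hb₂ (Or.inr ⟨b₁⁻¹ * b₂, Or.inr (by simpa using e), by simp⟩)
  let b : Fin 3 → G := ![1, b₁, b₂]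
  have hk : ∀ i, π (b i) = 1 := fun i => by fin_cases i <;> simp [b, k₁', k₂']
  have hb : ∀ i j, i ≠ j → (b i)⁻¹ * b j ∉ E₁ := by
    intro i j hij
    fin_cases i <;> fin_cases j
    all_goals first
      | exact (hij rfl).elim
      | simpa [b] using q₁
      | simpa [b] using q₂
      | simpa [b] using q₃
      | simpa [b] using q₄
      | simpa [b] using q₅
      | simpa [b] using q₆
  obtain ⟨B, hB⟩ : ∃ B, ∀ i, L.τ (b i) ≤ B := ⟨∑ i, L.τ (b i), fun i =>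
    Finset.single_le_sum (f := fun i => L.τ (b i)) (fun _ _ => L.nonneg _) (Finset.mem_univ i)⟩
  have hB0 : 0 ≤ B := (L.nonneg _).trans (hB 0)
  obtain ⟨D, hD0, hD⟩ : ∃ D, 0 ≤ D ∧ ∀ i j, i ≠ j → ∀ n : ℕ, L.τ (b i * a ^ n) + L.τ (b j * a ^ n) ≤
      L.τ ((b i * a ^ n)⁻¹ * (b j * a ^ n)) + D := by
    have : ∀ ij : Fin 3 × Fin 3, ∃ D, ij.1 ≠ ij.2 → ∀ n : ℕ,
        L.τ (b ij.1 * a ^ n) + L.τ (b ij.2 * a ^ n) ≤
        L.τ ((b ij.1 * a ^ n)⁻¹ * (b ij.2 * a ^ n)) + D := by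
      rintro ⟨i, j⟩
      by_cases hij : i = j
      · exact ⟨0, fun h => (h hij).elim⟩
      obtain ⟨D, hD⟩ := t₁ _ (by simp [hk]) (hb i j hij)
      refine ⟨D + 2 * L.τ (b i), fun _ n => ?_⟩
      have a2 := L.tri (b i) (a ^ n)
      have a4 := L.tri' (b i) (b j * a ^ n)
      rw [← mul_assoc] at a4
      dsimp only
      rw [show (b i * a ^ n)⁻¹ * (b j * a ^ n) = (a ^ n)⁻¹ * ((b i)⁻¹ * b j) * a ^ n by group]
      linarith [hD n]
    choose D hD using this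
    refine ⟨∑ ij, |D ij|, Finset.sum_nonneg fun _ _ => abs_nonneg _, fun i j hij n => ?_⟩
    have := Finset.single_le_sum (f := fun ij => |D ij|) (fun _ _ => abs_nonneg _)
      (Finset.mem_univ (i, j))
    linarith [hD (i, j) hij n, le_abs_self (D (i, j))]
  obtain ⟨E, hE⟩ : ∃ E, E = |Dc| + 2 * L.τ c + 4 * B := ⟨_, rfl⟩
  have hc0 := L.nonneg c
  have hE0 : 0 ≤ E := by rw [hE]; positivity
  obtain ⟨ε, hε⟩ : ∃ ε, ε = 1 + 18 * (2 * (D + 2 * L.δ) + 3 * L.δ) + L.δ := ⟨_, rfl⟩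
  obtain ⟨n₁, hn₁⟩ := h.big (D + E + 4 * L.δ + B + 1)
  obtain ⟨n₂, hn₂⟩ := h.wpd (ε + (E + 2 * ε) + L.δ + 2 * B)
  obtain ⟨m, hm₁, hm₂⟩ : ∃ m, n₁ ≤ m ∧ n₂ ≤ m := ⟨n₁ + n₂, by omega, by omega⟩
  have hm := hn₁ m hm₁
  have long : 2 * L.τ (a ^ m) ≤ L.τ (a ^ m * c * (a ^ m)⁻¹) + |Dc| + L.τ c := by
    have a1 := hDc m
    have a2 := L.tri' c⁻¹ (a ^ m)⁻¹
    rw [inv_pow, inv_inv, L.symm] at a1
    rw [inv_inv, L.symm, L.symm] at a2
    linarith [le_abs_self Dc]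
  have near : ∀ i, ∀ d, d = c ∨ d = c⁻¹ → L.τ (b i * a ^ m) + L.τ ((b i * a ^ m)⁻¹ *
      (b i * (a ^ m * d * (a ^ m)⁻¹) * (b i)⁻¹)) ≤ L.τ (b i * (a ^ m * d * (a ^ m)⁻¹) * (b i)⁻¹) + E := by
    intro i d hd
    have a0 : L.τ d = L.τ c ∧ L.τ (a ^ m * d * (a ^ m)⁻¹) = L.τ (a ^ m * c * (a ^ m)⁻¹) := by
      rcases hd with rfl | rfl
      · exact ⟨rfl, rfl⟩
      · exact ⟨L.symm _, by rw [← L.symm]; congr 1; group⟩
    have a1 := L.tri (b i) (a ^ m)
    have a2 := L.tri (d * (a ^ m)⁻¹) (b i)⁻¹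
    have a3 := L.tri d (a ^ m)⁻¹
    have a4 := L.tri ((b i)⁻¹ * (b i * (a ^ m * d * (a ^ m)⁻¹) * (b i)⁻¹)) (b i)
    have a5 := L.tri (b i)⁻¹ (b i * (a ^ m * d * (a ^ m)⁻¹) * (b i)⁻¹)
    rw [show (b i)⁻¹ * (b i * (a ^ m * d * (a ^ m)⁻¹) * (b i)⁻¹) * b i = a ^ m * d * (a ^ m)⁻¹ by
      group] at a4
    rw [L.symm] at a2 a3 a5
    rw [show (b i * a ^ m)⁻¹ * (b i * (a ^ m * d * (a ^ m)⁻¹) * (b i)⁻¹) = d * (a ^ m)⁻¹ * (b i)⁻¹ by
      group]
    linarith [hB i, a0.1, a0.2]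
  have low : ∀ i, L.τ (a ^ m) ≤ L.τ (b i * a ^ m) + B := fun i => by
    have := L.tri' (b i)⁻¹ (a ^ m)
    rw [inv_inv, L.symm] at this
    linarith [hB i]
  refine L.sys_of_family π (fun i => b i * (a ^ m * c * (a ^ m)⁻¹) * (b i)⁻¹)
    (fun i => by simp [hc1']) (D := D + 2 * L.δ) (by linarith) (fun i j hij => ?_)
    (fun i j hij => ?_) (fun i => ?_) fun i => ?_
  · exact extend_both L (hD i j hij m) (near i c (Or.inl rfl)) (near j c (Or.inl rfl))
      (by linarith [low i]) (by linarith [low j])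
  · have := extend_both L (hD i j hij m) (near i c⁻¹ (Or.inr rfl)) (near j c⁻¹ (Or.inr rfl))
      (by linarith [low i]) (by linarith [low j])
    have e : ∀ i, b i * (a ^ m * c⁻¹ * (a ^ m)⁻¹) * (b i)⁻¹ =
        (b i * (a ^ m * c * (a ^ m)⁻¹) * (b i)⁻¹)⁻¹ := fun i => by group
    rwa [e, e, L.symm, L.symm, inv_inv] at this
  · have := near i c (Or.inl rfl)
    linarith [low i, L.nonneg ((b i * a ^ m)⁻¹ * (b i * (a ^ m * c * (a ^ m)⁻¹) * (b i)⁻¹))]
  · rw [← hε]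
    refine (((hn₂ m hm₂).image fun g => b i * g * (b i)⁻¹).subset ?_).subset
      (fix_subset L hE0 (near i c (Or.inl rfl)))
    rintro g ⟨a1, a2⟩
    refine ⟨(b i)⁻¹ * g * b i, ⟨?_, ?_⟩, by group⟩
    · linarith [L.tri ((b i)⁻¹ * g) (b i), L.tri (b i)⁻¹ g, L.symm (b i), hB i]
    · rw [show (a ^ m)⁻¹ * ((b i)⁻¹ * g * b i) * a ^ m = (b i * a ^ m)⁻¹ * g * (b i * a ^ m) by group]
      linarith

theorem density_of_finite [Infinite G] {N : Set G} (hN : N.Finite) {S : Finset G}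
    (hS : Subgroup.closure (S : Set G) = ⊤) :
    Tendsto (fun r : ℕ => ((wordBall (S : Set G) r ∩ N).ncard : ℝ) /
      (wordBall (S : Set G) r).ncard) atTop (𝓝 0) := by
  have h1 : Tendsto (fun r : ℕ => (wordBall (S : Set G) r).ncard) atTop atTop := by
    rw [tendsto_atTop_atTop]
    intro M
    obtain ⟨T, hT⟩ := Infinite.exists_subset_card_eq G M
    obtain ⟨C, hC⟩ := exists_subset_ball S T
    refine ⟨C, fun r hr => ?_⟩
    rw [← hT, ← Set.ncard_coe_finset]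
    exact Set.ncard_le_ncard (fun x hx => (len_le_iff hS).1 ((hC x hx).trans hr))
      (wordBall_finite S.finite_toSet r)
  refine squeeze_zero (fun r => by positivity) (fun r => ?_)
    ((tendsto_const_nhds (x := (N.ncard : ℝ))).div_atTop (tendsto_natCast_atTop_atTop.comp h1))
  exact div_le_div_of_nonneg_right (Nat.cast_le.2 (Set.ncard_le_ncard Set.inter_subset_right hN))
    (Nat.cast_nonneg _)

theorem density_of_good {L : Len G} {a : G} {p : ℝ} (h : L.Good a p) [Infinite Q] (π : G →* Q)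
    (hπ : Function.Surjective π) {J : Q} (hJ : (Subgroup.centralizer {J} : Set Q).Finite)
    {S : Finset G} (hS : Subgroup.closure (S : Set G) = ⊤) :
    Tendsto (fun r : ℕ => ((wordBall (S : Set G) r ∩ π.ker).ncard : ℝ) /
      (wordBall (S : Set G) r).ncard) atTop (𝓝 0) := by
  have : Infinite G := Infinite.of_surjective π hπ
  by_cases hN : (π.ker : Set G).Finite
  · exact density_of_finite hN hS
  suffices Nonempty (Sys π) from this.elim fun Y => Y.density_zero hS (exists_many π hπ hJ)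
  by_cases ha : Function.Injective fun n : ℕ => π (a ^ n)
  · exact sys_of_infinite h π ha hN
  · obtain ⟨k, hk, e⟩ : ∃ k, 0 < k ∧ π (a ^ k) = 1 := by
      simp only [map_pow] at ha ⊢
      exact isOfFinOrder_iff_pow_eq_one.1 (by
        by_contra hc
        exact ha (injective_pow_iff_not_isOfFinOrder.2 hc))
    exact (good_pow h hk).sys π hπ e

end Pool.Agent.MP_4a6971_al.H66

end
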