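import Pool.Agent.MP_4a6971_al.H66.IsoA
import Pool.Agent.MP_4a6971_al.H66.Cox
import Pool.Agent.MP_4a6971_al.Mg.H66_Ker
import Pool.Agent.MP_4a6971_al.Mg.H66_CurveDefs
import Pool.Agent.MP_4a6971_al.Mg.H66_Geo

-- part MP_4a6971_al.H66.Iso
section

/-!
The surface group is the subgroup of index four of the polygon reflection group.
-/

namespace Pool.Agent.MP_4a6971_al.H66

namespace Iso

variable {g : ℕ} {H : Type} [Group H]

/-- The products `a₀ b₀ ⋯ aₖ₋₁ bₖ₋₁`. -/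
def ppi (a b : ℕ → H) : ℕ → H
  | 0 => 1
  | k + 1 => ppi a b k * (a k * b k)

/-- The products of the first `k` commutators. -/
def kap (a b : ℕ → H) : ℕ → H
  | 0 => 1
  | k + 1 => kap a b k * (a k * b k * (a k)⁻¹ * (b k)⁻¹)

theorem kap_eq_prod (a b : ℕ → H) (n : ℕ) :
    (List.ofFn fun k : Fin n => a k * b k * (a k)⁻¹ * (b k)⁻¹).prod = kap a b n := by
  induction n with
  | zero => simp [kap]
  | succ n ih =>
    rw [List.ofFn_succ', List.prod_concat, kap, ← ih]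
    simp

theorem map_ppi {H' : Type} [Group H'] (f : H →* H') {a b : ℕ → H} {a' b' : ℕ → H'} (n : ℕ)
    (ha : ∀ k < n, f (a k) = a' k) (hb : ∀ k < n, f (b k) = b' k) :
    ∀ k ≤ n, f (ppi a b k) = ppi a' b' k := by
  intro k hk
  induction k with
  | zero => simp [ppi]
  | succ k ih => simp [ppi, ih (by omega), ha k (by omega), hb k (by omega)]

theorem map_kap {H' : Type} [Group H'] (f : H →* H') {a b : ℕ → H} {a' b' : ℕ → H'} (n : ℕ)
    (ha : ∀ k < n, f (a k) = a' k) (hb : ∀ k < n, f (b k) = b' k) :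
    ∀ k ≤ n, f (kap a b k) = kap a' b' k := by
  intro k hk
  induction k with
  | zero => simp [kap]
  | succ k ih => simp [kap, ih (by omega), ha k (by omega), hb k (by omega)]

/-- The first surface generators in terms of the Schreier generators. -/
def genA (P : ℕ → H) (T : H) (k : ℕ) : H :=
  (P (2 * k + 1))⁻¹ * P (2 * k + 2) * T⁻¹ * P (2 * k + 3)

/-- The second surface generators in terms of the Schreier generators. -/
def genB (P : ℕ → H) (T : H) (k : ℕ) : H :=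
  (P (2 * k + 3))⁻¹ * T * (P (2 * k + 2))⁻¹ * P (2 * k + 3)

theorem ppi_gen (P : ℕ → H) (T : H) (h1 : P 1 = 1) (k : ℕ) :
    ppi (genA P T) (genB P T) k = P (2 * k + 1) := by
  induction k with
  | zero => simp [ppi, h1]
  | succ k ih =>
    rw [ppi, ih, genA, genB, show 2 * (k + 1) + 1 = 2 * k + 3 by ring]
    group

theorem kap_gen (P Q : ℕ → H) (T : H) (h1 : P 1 = 1) (h1' : Q 1 = 1)
    (h : ∀ m, (P m)⁻¹ * P (m + 1) = (Q (m + 1))⁻¹ * Q m) (k : ℕ) :
    kap (genA P T) (genB P T) k = T * Q (2 * k + 1) * T⁻¹ * P (2 * k + 1) := by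
  induction k with
  | zero => simp [kap, h1, h1']
  | succ k ih =>
    have e1 : Q (2 * k + 1) = Q (2 * k + 2) * ((P (2 * k + 1))⁻¹ * P (2 * k + 2)) := by
      rw [h (2 * k + 1)]; group
    have e2 : Q (2 * k + 2) = Q (2 * k + 3) * ((P (2 * k + 2))⁻¹ * P (2 * k + 3)) := by
      rw [h (2 * k + 2)]; group
    rw [kap, ih, genA, genB, show 2 * (k + 1) + 1 = 2 * k + 3 by ring, e1, e2]
    group

/-- The first Schreier generators in terms of the surface generators. -/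
def Pn (a b : ℕ → H) (T : H) : ℕ → H
  | 0 => 1
  | m + 1 => if m % 2 = 0 then ppi a b (m / 2)
      else ppi a b (m / 2) * a (m / 2) * (ppi a b (m / 2 + 1))⁻¹ * T

/-- The second Schreier generators in terms of the surface generators. -/
def Qn (a b : ℕ → H) (T : H) : ℕ → H
  | 0 => 1
  | m + 1 => if m % 2 = 0 then T⁻¹ * kap a b (m / 2) * (ppi a b (m / 2))⁻¹ * T
      else T⁻¹ * kap a b (m / 2) * a (m / 2) * b (m / 2) * (a (m / 2))⁻¹

theorem Pn_odd (a b : ℕ → H) (T : H) (k : ℕ) : Pn a b T (2 * k + 1) = ppi a b k := by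
  rw [Pn, if_pos (by omega), show 2 * k / 2 = k by omega]

theorem Pn_even (a b : ℕ → H) (T : H) (k : ℕ) :
    Pn a b T (2 * k + 2) = ppi a b k * a k * (ppi a b (k + 1))⁻¹ * T := by
  rw [Pn, if_neg (by omega), show (2 * k + 1) / 2 = k by omega]

theorem Qn_odd (a b : ℕ → H) (T : H) (k : ℕ) :
    Qn a b T (2 * k + 1) = T⁻¹ * kap a b k * (ppi a b k)⁻¹ * T := by
  rw [Qn, if_pos (by omega), show 2 * k / 2 = k by omega]

theorem Qn_even (a b : ℕ → H) (T : H) (k : ℕ) :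
    Qn a b T (2 * k + 2) = T⁻¹ * kap a b k * a k * b k * (a k)⁻¹ := by
  rw [Qn, if_neg (by omega), show (2 * k + 1) / 2 = k by omega]

theorem nat_cases (m : ℕ) : m = 0 ∨ (∃ k, m = 2 * k + 1) ∨ ∃ k, m = 2 * k + 2 := by
  rcases Nat.even_or_odd' m with ⟨k, rfl | rfl⟩
  · cases k with
    | zero => simp
    | succ k => exact Or.inr (Or.inr ⟨k, by ring⟩)
  · exact Or.inr (Or.inl ⟨k, rfl⟩)

theorem Pn_one (a b : ℕ → H) (T : H) : Pn a b T 1 = 1 := Pn_odd a b T 0

theorem Qn_one (a b : ℕ → H) (T : H) : Qn a b T 1 = 1 := by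
  rw [show 1 = 2 * 0 + 1 from rfl, Qn_odd]
  simp [kap, ppi]

theorem rel_n (a b : ℕ → H) (T : H) (m : ℕ) :
    (Pn a b T m)⁻¹ * Pn a b T (m + 1) = (Qn a b T (m + 1))⁻¹ * Qn a b T m := by
  rcases nat_cases m with rfl | ⟨k, rfl⟩ | ⟨k, rfl⟩
  · rw [zero_add, Pn_one, Qn_one]
    simp [Pn, Qn]
  · rw [Pn_odd, Qn_odd, show 2 * k + 1 + 1 = 2 * k + 2 from rfl, Pn_even, Qn_even, ppi]
    group
  · rw [Pn_even, Qn_even, show 2 * k + 2 + 1 = 2 * (k + 1) + 1 from rfl, Pn_odd, Qn_odd, ppi, kap]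
    simp [mul_assoc]

theorem genA_Pn (a b : ℕ → H) (T : H) (k : ℕ) : genA (Pn a b T) T k = a k := by
  rw [genA, Pn_odd, Pn_even, show 2 * k + 3 = 2 * (k + 1) + 1 from rfl, Pn_odd]
  group

theorem genB_Pn (a b : ℕ → H) (T : H) (k : ℕ) : genB (Pn a b T) T k = b k := by
  rw [genB, Pn_even, show 2 * k + 3 = 2 * (k + 1) + 1 from rfl, Pn_odd, ppi]
  group

/-- The first generators of the surface group, indexed by natural numbers. -/
def sa (g : ℕ) (k : ℕ) : SurfaceGroup g :=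
  if h : k < g then PresentedGroup.of (Sum.inl ⟨k, h⟩) else 1

/-- The second generators of the surface group, indexed by natural numbers. -/
def sb (g : ℕ) (k : ℕ) : SurfaceGroup g :=
  if h : k < g then PresentedGroup.of (Sum.inr ⟨k, h⟩) else 1

theorem lift_surfaceRel (a b : ℕ → H) :
    FreeGroup.lift (Sum.elim (fun k : Fin g => a k) (fun k : Fin g => b k)) (surfaceRel g) =
      kap a b g := by
  rw [surfaceRel, map_list_prod, List.map_ofFn, ← kap_eq_prod]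
  congr 2
  funext k
  simp

theorem kap_surface : kap (sa g) (sb g) g = 1 := by
  rw [← lift_surfaceRel]
  have e : FreeGroup.lift (Sum.elim (fun k : Fin g => sa g k) (fun k : Fin g => sb g k)) =
      PresentedGroup.mk ({surfaceRel g} : Set (FreeGroup (Fin g ⊕ Fin g))) := by
    ext i
    rcases i with k | k
    · simp [sa, PresentedGroup.of]
    · simp [sb, PresentedGroup.of]
  rw [e]
  exact PresentedGroup.one_of_mem rfl

/-- The first Schreier generators in the surface group. -/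
def PS (i : I g) : SurfaceGroup g := Pn (sa g) (sb g) (ppi (sa g) (sb g) g) i.val

/-- The second Schreier generators in the surface group. -/
def QS (i : I g) : SurfaceGroup g := Qn (sa g) (sb g) (ppi (sa g) (sb g) g) i.val

theorem val_cast {m : ℕ} (hm : m < 2 * g + 2) : (m : I g).val = m := ZMod.val_cast_of_lt hm

theorem cast_val (i : I g) : ((i.val : ℕ) : I g) = i := ZMod.natCast_zmod_val i

theorem cast_top : ((2 * g + 1 + 1 : ℕ) : I g) = 0 := ZMod.natCast_self (2 * g + 2)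

theorem rel_S : Rel (PS : I g → SurfaceGroup g) QS := by
  intro i
  have hi : i.val < 2 * g + 2 := ZMod.val_lt i
  have e : i + 1 = ((i.val + 1 : ℕ) : I g) := by rw [Nat.cast_add, Nat.cast_one, cast_val]
  unfold PS QS
  by_cases h : i.val + 1 < 2 * g + 2
  · rw [e, val_cast h]
    exact rel_n _ _ _ _
  · have h' : i.val = 2 * g + 1 := by omega
    rw [e, h', cast_top, ZMod.val_zero, Pn_odd, Qn_odd, kap_surface]
    simp [Pn, Qn]

theorem val_one' : (1 : I g).val = 1 := by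
  have := val_cast (g := g) (m := 1) (by omega)
  rwa [Nat.cast_one] at this

/-- The Schreier generators in the reflection group, indexed by natural numbers. -/
def PN (g : ℕ) (m : ℕ) : Gam g := PW (m : I g)

/-- The Schreier generators in the reflection group, indexed by natural numbers. -/
def QN (g : ℕ) (m : ℕ) : Gam g := QW (m : I g)

theorem PN_one : PN g 1 = 1 := by rw [PN, Nat.cast_one, PW_one]

theorem QN_one : QN g 1 = 1 := by rw [QN, Nat.cast_one, QW_one]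

theorem rel_N (m : ℕ) : (PN g m)⁻¹ * PN g (m + 1) = (QN g (m + 1))⁻¹ * QN g m := by
  unfold PN QN
  rw [Nat.cast_add, Nat.cast_one]
  exact rel_W _

theorem QN_top : QN g (2 * g + 1) = (PN g (2 * g + 1))⁻¹ := by
  have := rel_N (g := g) (2 * g + 1)
  rw [PN, PN, QN, QN, cast_top, PW_zero, QW_zero, inv_one, one_mul, mul_one] at this
  exact this.symm

/-- The homomorphism from the surface group to the reflection subgroup. -/
def J (g : ℕ) : SurfaceGroup g →* Gam g :=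
  PresentedGroup.toGroup
    (f := Sum.elim (fun k : Fin g => genA (PN g) (PN g (2 * g + 1)) k)
      (fun k : Fin g => genB (PN g) (PN g (2 * g + 1)) k)) (by
    rintro r rfl
    rw [lift_surfaceRel, kap_gen (PN g) (QN g) _ PN_one QN_one rel_N, QN_top]
    group)

theorem J_sa (k : ℕ) (hk : k < g) : J g (sa g k) = genA (PN g) (PN g (2 * g + 1)) k := by
  rw [sa, dif_pos hk, J, PresentedGroup.toGroup.of]
  rfl

theorem J_sb (k : ℕ) (hk : k < g) : J g (sb g k) = genB (PN g) (PN g (2 * g + 1)) k := by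
  rw [sb, dif_pos hk, J, PresentedGroup.toGroup.of]
  rfl

theorem J_ppi (k : ℕ) (hk : k ≤ g) : J g (ppi (sa g) (sb g) k) = PN g (2 * k + 1) := by
  rw [map_ppi (J g) g J_sa J_sb k hk, ppi_gen _ _ PN_one]

theorem J_Pn (m : ℕ) (hm : m < 2 * g + 2) :
    J g (Pn (sa g) (sb g) (ppi (sa g) (sb g) g) m) = PN g m := by
  rcases nat_cases m with rfl | ⟨k, rfl⟩ | ⟨k, rfl⟩
  · rw [Pn, map_one, PN, Nat.cast_zero, PW_zero]
  · rw [Pn_odd, J_ppi k (by omega)]
  · rw [Pn_even, map_mul, map_mul, map_mul, map_inv, J_ppi k (by omega), J_ppi (k + 1) (by omega),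
      J_ppi g le_rfl, J_sa k (by omega), genA, show 2 * (k + 1) + 1 = 2 * k + 3 from rfl]
    group

theorem J_Qn (m : ℕ) (hm : m < 2 * g + 2) :
    J g (Qn (sa g) (sb g) (ppi (sa g) (sb g) g) m) = QN g m := by
  induction m with
  | zero => rw [Qn, map_one, QN, Nat.cast_zero, QW_zero]
  | succ m ih =>
    have e1 := congrArg (J g) (rel_n (sa g) (sb g) (ppi (sa g) (sb g) g) m)
    rw [map_mul, map_mul, map_inv, map_inv, J_Pn m (by omega), J_Pn (m + 1) hm, ih (by omega),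
      rel_N] at e1
    exact (inv_injective (mul_right_cancel e1)).symm

theorem J_PS (i : I g) : J g (PS i) = PW i := by
  rw [PS, J_Pn _ (ZMod.val_lt i), PN, cast_val]

theorem J_QS (i : I g) : J g (QS i) = QW i := by
  rw [QS, J_Qn _ (ZMod.val_lt i), QN, cast_val]

theorem psi_PN (m : ℕ) (hm : m < 2 * g + 2) :
    psiHom rel_S (PN g m) = Pn (sa g) (sb g) (ppi (sa g) (sb g) g) m := by
  rw [PN, psiHom_PW, PS, val_cast hm]
  · rw [PS, ZMod.val_zero, Pn]
  · rw [QS, ZMod.val_zero, Qn]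
  · rw [PS, val_one', Pn_one]
  · rw [QS, val_one', Qn_one]

theorem psi_J : (psiHom rel_S).comp (J g) = MonoidHom.id _ := by
  ext i
  rcases i with k | k
  · have e : (PresentedGroup.of (Sum.inl k) : SurfaceGroup g) = sa g k := by simp [sa]
    have hk := k.2
    rw [MonoidHom.comp_apply, MonoidHom.id_apply, e, J_sa _ hk, genA, map_mul, map_mul, map_mul,
      map_inv, map_inv, psi_PN _ (by omega), psi_PN _ (by omega), psi_PN _ (by omega),
      psi_PN _ (by omega), Pn_odd _ _ _ g]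
    exact genA_Pn _ _ _ _
  · have e : (PresentedGroup.of (Sum.inr k) : SurfaceGroup g) = sb g k := by simp [sb]
    have hk := k.2
    rw [MonoidHom.comp_apply, MonoidHom.id_apply, e, J_sb _ hk, genB, map_mul, map_mul, map_mul,
      map_inv, map_inv, psi_PN _ (by omega), psi_PN _ (by omega), psi_PN _ (by omega),
      Pn_odd _ _ _ g]
    exact genB_Pn _ _ _ _

end Iso

theorem surface_iso (g : ℕ) : Nonempty (SurfaceGroup g ≃* Gam g) :=
  ⟨MonoidHom.toMulEquiv (Iso.J g) (Iso.psiHom Iso.rel_S) Iso.psi_J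
    (MonoidHom.ext fun w => Iso.comp_psiHom Iso.rel_S (Iso.J g) Iso.J_PS Iso.J_QS w)⟩

end Pool.Agent.MP_4a6971_al.H66

end

-- part MP_4a6971_al.H66.Sympl
section

/-!
The action on homology.
-/

namespace Pool.Agent.MP_4a6971_al.H66

open Matrix

variable {g : ℕ}

/-- The generators of the surface group. -/
def gen (i : Fin g ⊕ Fin g) : SurfaceGroup g := PresentedGroup.of i

/-- The product of the commutators of the handles. -/
def relProd {H : Type*} [Group H] (f : Fin g ⊕ Fin g → H) : H :=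
  (List.ofFn fun k : Fin g => f (Sum.inl k) * f (Sum.inr k) * (f (Sum.inl k))⁻¹ *
    (f (Sum.inr k))⁻¹).prod

theorem map_relProd {H K : Type*} [Group H] [Group K] (h : H →* K) (f : Fin g ⊕ Fin g → H) :
    h (relProd f) = relProd fun i => h (f i) := by
  rw [relProd, relProd, map_list_prod, List.map_ofFn]
  congr 2
  funext k
  simp

theorem lift_surfaceRel {H : Type*} [Group H] (f : Fin g ⊕ Fin g → H) :
    FreeGroup.lift f (surfaceRel g) = relProd f := by
  have : surfaceRel g = relProd FreeGroup.of := rfl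
  rw [this, map_relProd]
  simp

theorem relProd_gen : relProd (gen : Fin g ⊕ Fin g → SurfaceGroup g) = 1 := by
  have h : PresentedGroup.mk ({surfaceRel g} : Set (FreeGroup (Fin g ⊕ Fin g))) (surfaceRel g) = 1 :=
    PresentedGroup.one_of_mem rfl
  have e : surfaceRel g = relProd FreeGroup.of := rfl
  rw [e, map_relProd] at h
  exact h

/-- Homomorphisms out of the surface group. -/
def liftS {H : Type*} [Group H] (f : Fin g ⊕ Fin g → H) (h : relProd f = 1) :
    SurfaceGroup g →* H :=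
  PresentedGroup.toGroup (f := f) (by
    rintro r rfl
    rw [lift_surfaceRel, h])

@[simp] theorem liftS_gen {H : Type*} [Group H] (f : Fin g ⊕ Fin g → H) (h : relProd f = 1)
    (i : Fin g ⊕ Fin g) : liftS f h (gen i) = f i :=
  PresentedGroup.toGroup.of _

theorem surf_ind {p : SurfaceGroup g → Prop} (x : SurfaceGroup g) (of : ∀ i, p (gen i)) (one : p 1)
    (mul : ∀ x y, p x → p y → p (x * y)) (inv : ∀ x, p x → p x⁻¹) : p x := by
  have hx : x ∈ Subgroup.closure (Set.range (PresentedGroup.of : Fin g ⊕ Fin g → SurfaceGroup g)) := by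
    rw [PresentedGroup.closure_range_of]
    trivial
  induction hx using Subgroup.closure_induction with
  | mem x hx =>
    obtain ⟨i, rfl⟩ := hx
    exact of i
  | one => exact one
  | mul x y _ _ a b => exact mul x y a b
  | inv x _ a => exact inv x a

/-- The homology class, written additively. -/
def hv (x : SurfaceGroup g) : Fin g ⊕ Fin g → ℤ := (homologyHom g x).toAdd

@[simp] theorem hv_gen (i : Fin g ⊕ Fin g) : hv (gen i) = Pi.single i 1 := by
  have : homologyHom g (gen i) = Multiplicative.ofAdd (Pi.single i 1) := PresentedGroup.toGroup.of _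
  rw [hv, this]
  rfl

@[simp] theorem hv_one : hv (1 : SurfaceGroup g) = 0 := by simp [hv]

@[simp] theorem hv_mul (x y : SurfaceGroup g) : hv (x * y) = hv x + hv y := by simp [hv]

@[simp] theorem hv_inv (x : SurfaceGroup g) : hv x⁻¹ = -hv x := by simp [hv]

@[simp] theorem hv_pow (x : SurfaceGroup g) (n : ℕ) : hv (x ^ n) = n • hv x := by simp [hv]

/-- The matrix of the action on homology. -/
def mat (φ : MulAut (SurfaceGroup g)) : Matrix (Fin g ⊕ Fin g) (Fin g ⊕ Fin g) ℤ :=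
  Matrix.of fun i j => hv (φ (gen j)) i

theorem hv_apply (φ : MulAut (SurfaceGroup g)) (x : SurfaceGroup g) :
    hv (φ x) = mat φ *ᵥ hv x := by
  induction x using surf_ind with
  | of i =>
    rw [hv_gen, mulVec_single_one]
    rfl
  | one => simp
  | mul x y a b => rw [map_mul, hv_mul, hv_mul, a, b, mulVec_add]
  | inv x a => rw [map_inv, hv_inv, hv_inv, a, mulVec_neg]

theorem mat_one : mat (1 : MulAut (SurfaceGroup g)) = 1 := by
  ext i j
  simp [mat, Matrix.one_apply, Pi.single_apply]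

theorem mat_mul (φ ψ : MulAut (SurfaceGroup g)) : mat (φ * ψ) = mat φ * mat ψ := by
  ext i j
  have : mat (φ * ψ) i j = hv (φ (ψ (gen j))) i := rfl
  rw [this, hv_apply, Matrix.mul_apply]
  rfl

theorem mat_eq_one_iff (φ : MulAut (SurfaceGroup g)) :
    mat φ = 1 ↔ ∀ x, homologyHom g (φ x) = homologyHom g x := by
  constructor
  · intro h x
    have := hv_apply φ x
    rw [h, one_mulVec] at this
    exact Multiplicative.toAdd.injective this
  · intro h
    rw [← mat_one]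
    ext i j
    simp only [mat, Matrix.of_apply, hv, h, MulAut.one_apply]

theorem interForm_eq (x y : SurfaceGroup g) :
    interForm x y = -(hv x ⬝ᵥ Matrix.J (Fin g) ℤ *ᵥ hv y) := by
  have e : ∀ v : Fin g ⊕ Fin g → ℤ, Matrix.J (Fin g) ℤ *ᵥ v =
      Sum.elim (fun k => -v (Sum.inr k)) fun k => v (Sum.inl k) := fun v => by
    rw [Matrix.J, fromBlocks_mulVec]
    funext i
    rcases i with k | k <;> simp [neg_mulVec]
  rw [e, dotProduct, Fintype.sum_sum_type, ← Finset.sum_add_distrib, ← Finset.sum_neg_distrib,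
    interForm]
  refine Finset.sum_congr rfl fun k _ => ?_
  simp only [hv, Sum.elim_inl, Sum.elim_inr]
  ring

theorem dot_mulVec_mulVec {n : Type*} [Fintype n] (A B : Matrix n n ℤ) (v w : n → ℤ) :
    (A *ᵥ v) ⬝ᵥ B *ᵥ (A *ᵥ w) = v ⬝ᵥ (Aᵀ * B * A) *ᵥ w := by
  rw [← mulVec_mulVec, ← mulVec_mulVec, dotProduct_mulVec v, vecMul_transpose]

theorem single_dot {n : Type*} [Fintype n] [DecidableEq n] (B : Matrix n n ℤ) (i j : n) :
    (Pi.single i 1 : n → ℤ) ⬝ᵥ B *ᵥ (Pi.single j 1) = B i j := by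
  simp

theorem mem_autPlus_iff (φ : MulAut (SurfaceGroup g)) :
    φ ∈ AutPlus g ↔ mat φ ∈ symplecticGroup (Fin g) ℤ := by
  rw [SymplecticGroup.mem_iff']
  constructor
  · intro h
    ext i j
    have := h (gen i) (gen j)
    rw [interForm_eq, interForm_eq, hv_apply, hv_apply, dot_mulVec_mulVec, hv_gen, hv_gen,
      single_dot, single_dot] at this
    exact neg_injective this
  · intro h x y
    rw [interForm_eq, interForm_eq, hv_apply, hv_apply, dot_mulVec_mulVec, h]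

/-- The central extension of `ℤ^n` defined by a bilinear form. -/
@[ext] structure Heis {n : Type} (B : Matrix n n ℤ) where
  /-- The abelian part. -/
  v : n → ℤ
  /-- The central part. -/
  z : ℤ

namespace Heis

variable {n : Type} [Fintype n] {B : Matrix n n ℤ}

instance : Mul (Heis B) := ⟨fun a b => ⟨a.v + b.v, a.z + b.z + a.v ⬝ᵥ B *ᵥ b.v⟩⟩

instance : One (Heis B) := ⟨⟨0, 0⟩⟩

instance : Inv (Heis B) := ⟨fun a => ⟨-a.v, -a.z + a.v ⬝ᵥ B *ᵥ a.v⟩⟩

@[simp] theorem mul_v (a b : Heis B) : (a * b).v = a.v + b.v := rfl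

@[simp] theorem mul_z (a b : Heis B) : (a * b).z = a.z + b.z + a.v ⬝ᵥ B *ᵥ b.v := rfl

omit [Fintype n] in
@[simp] theorem one_v : (1 : Heis B).v = 0 := rfl

omit [Fintype n] in
@[simp] theorem one_z : (1 : Heis B).z = 0 := rfl

@[simp] theorem inv_v (a : Heis B) : a⁻¹.v = -a.v := rfl

@[simp] theorem inv_z (a : Heis B) : a⁻¹.z = -a.z + a.v ⬝ᵥ B *ᵥ a.v := rfl

instance : Group (Heis B) :=
  Group.ofLeftAxioms
    (fun a b c => by
      refine Heis.ext (add_assoc _ _ _) ?_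
      simp only [mul_z, mul_v, mulVec_add, add_dotProduct, dotProduct_add]
      ring)
    (fun a => by
      refine Heis.ext (zero_add _) ?_
      simp)
    (fun a => by
      refine Heis.ext (neg_add_cancel _) ?_
      simp)

/-- The centre. -/
def cen (B : Matrix n n ℤ) : Multiplicative ℤ →* Heis B where
  toFun c := ⟨0, c.toAdd⟩
  map_one' := rfl
  map_mul' a b := Heis.ext (by simp) (by simp)

theorem comm (a b : Heis B) : a * b * a⁻¹ * b⁻¹ =
    cen B (Multiplicative.ofAdd (a.v ⬝ᵥ B *ᵥ b.v - b.v ⬝ᵥ B *ᵥ a.v)) := by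
  refine Heis.ext ?_ ?_
  · show a.v + b.v + -a.v + -b.v = 0
    abel
  · show _ = a.v ⬝ᵥ B *ᵥ b.v - b.v ⬝ᵥ B *ᵥ a.v
    simp only [mul_z, mul_v, inv_v, inv_z, mulVec_neg, add_dotProduct, dotProduct_neg,
      neg_dotProduct]
    ring

end Heis

theorem relProd_heis {B : Matrix (Fin g ⊕ Fin g) (Fin g ⊕ Fin g) ℤ} (f : Fin g ⊕ Fin g → Heis B) :
    relProd f = Heis.cen B (Multiplicative.ofAdd (∑ k : Fin g,
      ((f (Sum.inl k)).v ⬝ᵥ B *ᵥ (f (Sum.inr k)).v - (f (Sum.inr k)).v ⬝ᵥ B *ᵥ (f (Sum.inl k)).v))) := by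
  rw [ofAdd_sum, ← List.prod_ofFn, map_list_prod, List.map_ofFn, relProd]
  congr 2
  funext k
  exact Heis.comm _ _

theorem trace_J_mul (B : Matrix (Fin g ⊕ Fin g) (Fin g ⊕ Fin g) ℤ) :
    (Matrix.J (Fin g) ℤ * B).trace =
      ∑ k : Fin g, (B (Sum.inl k) (Sum.inr k) - B (Sum.inr k) (Sum.inl k)) := by
  rw [Matrix.trace, Fintype.sum_sum_type, ← Finset.sum_add_distrib]
  refine Finset.sum_congr rfl fun k _ => ?_
  simp [Matrix.J, Matrix.mul_apply, Fintype.sum_sum_type, Matrix.one_apply]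
  ring

theorem trace_zero (φ : MulAut (SurfaceGroup g)) (B : Matrix (Fin g ⊕ Fin g) (Fin g ⊕ Fin g) ℤ)
    (hB : (Matrix.J (Fin g) ℤ * B).trace = 0) :
    (mat φ * Matrix.J (Fin g) ℤ * (mat φ)ᵀ * B).trace = 0 := by
  have h0 : relProd (fun i => (⟨Pi.single i 1, 0⟩ : Heis B)) = 1 := by
    rw [relProd_heis]
    simp only [single_dot]
    rw [← trace_J_mul, hB]
    exact map_one _
  have h1 : ∀ x, (liftS _ h0 x).v = hv x := fun x => by
    induction x using surf_ind with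
    | of i => rw [liftS_gen, hv_gen]
    | one => rw [map_one, hv_one, Heis.one_v]
    | mul x y a b => rw [map_mul, hv_mul, Heis.mul_v, a, b]
    | inv x a => rw [map_inv, hv_inv, Heis.inv_v, a]
  have h2 := map_relProd ((liftS _ h0).comp φ.toMonoidHom) gen
  rw [relProd_gen, map_one, relProd_heis] at h2
  have h3 := congrArg Heis.z h2
  have h4 : ∀ i, (((liftS _ h0).comp φ.toMonoidHom) (gen i)).v = mat φ *ᵥ Pi.single i 1 := fun i => by
    rw [← hv_gen, ← hv_apply]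
    exact h1 _
  simp only [h4, dot_mulVec_mulVec, single_dot] at h3
  rw [← trace_J_mul] at h3
  have h5 : (0 : ℤ) = (Matrix.J (Fin g) ℤ * ((mat φ)ᵀ * B * mat φ)).trace := h3
  rw [← Matrix.mul_assoc, Matrix.trace_mul_comm] at h5
  rw [h5]
  simp only [Matrix.mul_assoc]

theorem exists_mult (φ : MulAut (SurfaceGroup g)) (k₀ : Fin g) :
    ∃ c : ℤ, mat φ * Matrix.J (Fin g) ℤ * (mat φ)ᵀ = c • Matrix.J (Fin g) ℤ := by
  let E : Matrix (Fin g ⊕ Fin g) (Fin g ⊕ Fin g) ℤ := Matrix.single (Sum.inl k₀) (Sum.inr k₀) 1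
  have hE : (Matrix.J (Fin g) ℤ * E).trace = 1 := by
    rw [Matrix.trace_mul_single]
    simp [Matrix.J]
  refine ⟨(mat φ * Matrix.J (Fin g) ℤ * (mat φ)ᵀ * E).trace,
    Matrix.ext_iff_trace_mul_right.2 fun B => ?_⟩
  have := trace_zero φ (B - (Matrix.J (Fin g) ℤ * B).trace • E) (by
    rw [Matrix.mul_sub, Matrix.mul_smul, Matrix.trace_sub, Matrix.trace_smul, hE]
    simp)
  rw [Matrix.mul_sub, Matrix.mul_smul, Matrix.trace_sub, Matrix.trace_smul] at this
  rw [Matrix.smul_mul, Matrix.trace_smul]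
  simp only [smul_eq_mul] at this ⊢
  linarith

theorem sq_mem_autPlus {g : ℕ} (φ : MulAut (SurfaceGroup g)) : φ * φ ∈ AutPlus g := by
  rw [mem_autPlus_iff, SymplecticGroup.mem_iff]
  rcases Nat.eq_zero_or_pos g with rfl | hg
  · exact Subsingleton.elim _ _
  obtain ⟨c, hc⟩ := exists_mult φ ⟨0, hg⟩
  obtain ⟨c', hc'⟩ := exists_mult φ⁻¹ ⟨0, hg⟩
  have key : ∀ (ψ : MulAut (SurfaceGroup g)) (d : ℤ),
      mat ψ * Matrix.J (Fin g) ℤ * (mat ψ)ᵀ = d • Matrix.J (Fin g) ℤ →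
      mat (φ * ψ) * Matrix.J (Fin g) ℤ * (mat (φ * ψ))ᵀ = (d * c) • Matrix.J (Fin g) ℤ := by
    intro ψ d hd
    calc _ = mat φ * (mat ψ * Matrix.J (Fin g) ℤ * (mat ψ)ᵀ) * (mat φ)ᵀ := by
          rw [mat_mul, transpose_mul]
          simp only [Matrix.mul_assoc]
      _ = _ := by rw [hd, Matrix.mul_smul, Matrix.smul_mul, hc, smul_smul]
  have h1 := key _ _ hc'
  rw [mul_inv_cancel, mat_one, transpose_one, Matrix.one_mul, Matrix.mul_one] at h1
  have h2 : c' * c = 1 := by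
    have := congrFun (congrFun h1 (Sum.inr ⟨0, hg⟩)) (Sum.inl ⟨0, hg⟩)
    simpa [Matrix.J] using this.symm
  have h3 : c * c = 1 := by
    rcases Int.eq_one_or_neg_one_of_mul_eq_one' h2 with h | h <;> simp [h.2]
  rw [key _ _ hc, h3, one_smul]

/-- Automorphisms fixing the commutator of each handle. -/
def mkAut (f f' : Fin g ⊕ Fin g → SurfaceGroup g) (h : relProd f = 1) (h' : relProd f' = 1)
    (a : ∀ i, liftS f' h' (f i) = gen i) (b : ∀ i, liftS f h (f' i) = gen i) :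
    MulAut (SurfaceGroup g) :=
  MonoidHom.toMulEquiv (liftS f h) (liftS f' h')
    (PresentedGroup.ext fun i => (congrArg (liftS f' h') (liftS_gen f h i)).trans (a i))
    (PresentedGroup.ext fun i => (congrArg (liftS f h) (liftS_gen f' h' i)).trans (b i))

theorem mkAut_gen (f f' : Fin g ⊕ Fin g → SurfaceGroup g) (h : relProd f = 1) (h' : relProd f' = 1)
    (a : ∀ i, liftS f' h' (f i) = gen i) (b : ∀ i, liftS f h (f' i) = gen i) (i : Fin g ⊕ Fin g) :
    mkAut f f' h h' a b (gen i) = f i := liftS_gen f h i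

theorem relProd_eq_one (f : Fin g ⊕ Fin g → SurfaceGroup g)
    (h : ∀ k, f (Sum.inl k) * f (Sum.inr k) * (f (Sum.inl k))⁻¹ * (f (Sum.inr k))⁻¹ =
      gen (Sum.inl k) * gen (Sum.inr k) * (gen (Sum.inl k))⁻¹ * (gen (Sum.inr k))⁻¹) :
    relProd f = 1 := by
  rw [← relProd_gen, relProd, relProd]
  simp only [h]

theorem exists_rot : ∃ φ : MulAut (SurfaceGroup g), mat φ = Matrix.J (Fin g) ℤ := by
  let f : Fin g ⊕ Fin g → SurfaceGroup g := Sum.elim
    (fun k => gen (Sum.inl k) * gen (Sum.inr k) * (gen (Sum.inl k))⁻¹) fun k => (gen (Sum.inl k))⁻¹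
  let f' : Fin g ⊕ Fin g → SurfaceGroup g := Sum.elim
    (fun k => (gen (Sum.inr k))⁻¹) fun k => gen (Sum.inr k) * gen (Sum.inl k) * (gen (Sum.inr k))⁻¹
  have h : relProd f = 1 := relProd_eq_one f fun k => by
    simp only [f, Sum.elim_inl, Sum.elim_inr]
    group
  have h' : relProd f' = 1 := relProd_eq_one f' fun k => by
    simp only [f', Sum.elim_inl, Sum.elim_inr]
    group
  refine ⟨mkAut f f' h h' ?_ ?_, ?_⟩
  · rintro (k | k) <;> simp [f, f', mul_assoc]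
  · rintro (k | k) <;> simp [f, f', mul_assoc]
  · ext i j
    rw [mat, Matrix.of_apply, mkAut_gen]
    rcases i with i | i <;> rcases j with j | j <;>
      simp [f, Matrix.J, Pi.single_apply, Matrix.one_apply]

theorem exists_twist (n : ℕ) : ∃ φ : MulAut (SurfaceGroup g),
    ∀ k, mat (φ * φ) (Sum.inl k) (Sum.inr k) = 2 * n := by
  let f : Fin g ⊕ Fin g → SurfaceGroup g := Sum.elim
    (fun k => gen (Sum.inl k)) fun k => gen (Sum.inr k) * gen (Sum.inl k) ^ n
  let f' : Fin g ⊕ Fin g → SurfaceGroup g := Sum.elim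
    (fun k => gen (Sum.inl k)) fun k => gen (Sum.inr k) * (gen (Sum.inl k) ^ n)⁻¹
  have h : relProd f = 1 := relProd_eq_one f fun k => by
    simp only [f, Sum.elim_inl, Sum.elim_inr]
    group
  have h' : relProd f' = 1 := relProd_eq_one f' fun k => by
    simp only [f', Sum.elim_inl, Sum.elim_inr]
    group
  refine ⟨mkAut f f' h h' ?_ ?_, fun k => ?_⟩
  · rintro (k | k) <;> simp [f, f']
  · rintro (k | k) <;> simp [f, f']
  · rw [mat, Matrix.of_apply, MulAut.mul_apply, mkAut_gen]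
    simp only [f, Sum.elim_inr, map_mul, map_pow, mkAut_gen, Sum.elim_inl]
    simp
    ring

/-- The symplectic representation. -/
def toSp (g : ℕ) : AutPlus g →* symplecticGroup (Fin g) ℤ where
  toFun φ := ⟨mat φ.1, (mem_autPlus_iff _).1 φ.2⟩
  map_one' := Subtype.ext mat_one
  map_mul' _ _ := Subtype.ext (mat_mul _ _)

/-- The symplectic representation of the mapping class group. -/
def modSp (g : ℕ) : ModGroup g →* symplecticGroup (Fin g) ℤ :=
  QuotientGroup.lift _ (toSp g) (by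
    rintro φ ⟨x, hx⟩
    refine Subtype.ext ((mat_eq_one_iff _).2 fun y => ?_)
    have : (φ : MulAut (SurfaceGroup g)) y = x * y * x⁻¹ := by
      have h := congrArg (fun ψ : MulAut (SurfaceGroup g) => ψ y) hx
      exact h.symm
    rw [this]
    simp)

theorem modSp_mk (φ : AutPlus g) :
    (modSp g (QuotientGroup.mk φ) : Matrix (Fin g ⊕ Fin g) (Fin g ⊕ Fin g) ℤ) = mat φ.1 := rfl

theorem exists_quot {g : ℕ} (hg : 1 ≤ g) :
    ∃ (Q : Subgroup (Matrix.symplecticGroup (Fin g) ℤ)) (π : ModGroup g →* Q) (J : Q),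
      Infinite Q ∧ Function.Surjective π ∧ (Subgroup.centralizer {J} : Set Q).Finite ∧
      (π.ker : Set (ModGroup g)) = Torelli g := by
  obtain ⟨ρ, hρ⟩ := exists_rot (g := g)
  have hρ' : ρ ∈ AutPlus g := by
    rw [mem_autPlus_iff, hρ]
    exact SymplecticGroup.J_mem _ _
  refine ⟨(modSp g).range, (modSp g).rangeRestrict,
    ⟨SymplecticGroup.symJ (Fin g) ℤ, QuotientGroup.mk ⟨ρ, hρ'⟩, Subtype.ext hρ⟩, ?_,
    MonoidHom.rangeRestrict_surjective _, ?_, ?_⟩
  · choose T hT using exists_twist (g := g)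
    refine Infinite.of_injective (fun n : ℕ => (modSp g).rangeRestrict
      (QuotientGroup.mk ⟨T n * T n, sq_mem_autPlus _⟩)) fun m n h => ?_
    have h1 : mat (T m * T m) = mat (T n * T n) :=
      congrArg (fun q : (modSp g).range => q.1.1) h
    have h2 := hT m ⟨0, hg⟩
    rw [h1, hT] at h2
    omega
  · refine ((finite_centralizer_symplectic (Fin g)).preimage
      (f := fun q : (modSp g).range => q.1) Subtype.val_injective.injOn).subset fun q hq => ?_
    rw [SetLike.mem_coe, Subgroup.mem_centralizer_singleton_iff] at hq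
    rw [Set.mem_preimage, SetLike.mem_coe, Subgroup.mem_centralizer_singleton_iff]
    exact congrArg Subtype.val hq
  · rw [MonoidHom.ker_rangeRestrict]
    ext m
    constructor
    · intro hm
      obtain ⟨φ, rfl⟩ := QuotientGroup.mk_surjective m
      exact ⟨φ, rfl, (mat_eq_one_iff _).1 (congrArg Subtype.val hm)⟩
    · rintro ⟨φ, rfl, h⟩
      exact Subtype.ext ((mat_eq_one_iff _).2 h)

theorem exists_embed {g : ℕ} {Γ : Type} [Group Γ] (e : SurfaceGroup g ≃* Γ) :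
    ∃ j : ModGroup g →* Out Γ, Function.Injective j ∧ ∀ u : Out Γ, u * u ∈ j.range := by
  let ρ : AutPlus g →* Out Γ := (QuotientGroup.mk' _).comp
    ((MulAut.congr e).toMonoidHom.comp (AutPlus g).subtype)
  have hρ : ∀ φ : AutPlus g, ρ φ = QuotientGroup.mk (MulAut.congr e φ.1) := fun _ => rfl
  have key : ∀ φ : AutPlus g, φ ∈ (MulAut.conj : SurfaceGroup g →* MulAut (SurfaceGroup g)).range.subgroupOf
      (AutPlus g) ↔ ρ φ = 1 := fun φ => by
    rw [hρ, QuotientGroup.eq_one_iff, Subgroup.mem_subgroupOf]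
    constructor
    · rintro ⟨x, hx⟩
      refine ⟨e x, ?_⟩
      rw [← hx]
      ext y
      simp [MulAut.congr]
    · rintro ⟨y, hy⟩
      refine ⟨e.symm y, ?_⟩
      ext x
      have := congrArg (fun ψ : MulAut Γ => e.symm (ψ (e x))) hy
      simpa [MulAut.congr] using this
  refine ⟨QuotientGroup.lift _ ρ fun φ h => (key φ).1 h, ?_, fun u => ?_⟩
  · rw [injective_iff_map_eq_one]
    intro m hm
    obtain ⟨φ, rfl⟩ := QuotientGroup.mk_surjective m
    exact (QuotientGroup.eq_one_iff _).2 ((key φ).2 hm)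
  · obtain ⟨ψ, rfl⟩ := QuotientGroup.mk_surjective u
    refine ⟨QuotientGroup.mk ⟨(MulAut.congr e).symm ψ * (MulAut.congr e).symm ψ,
      sq_mem_autPlus _⟩, ?_⟩
    refine (hρ _).trans ?_
    rw [← QuotientGroup.mk_mul, map_mul, MulEquiv.apply_symm_apply]

end Pool.Agent.MP_4a6971_al.H66

end

-- part MP_4a6971_al.H66.CurvesA
section

/-!
Sequences of markings in a curve system: propagation along levels.
-/

namespace Pool.Agent.MP_4a6971_al.H66

namespace CurveSys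

variable {G C : Type*} [Group G] [MulAction G C] (Y : CurveSys G C)

lemma per_mul (i q : ℤ) : Y.c (i + q * (2 * Y.n)) = Y.c i := by
  have h : Function.Periodic Y.c (2 * (Y.n : ℤ)) := Y.per
  simpa using h.int_mul q i

lemma fill' (a : C) (x : G) : ∃ i, Y.X a (x • Y.c i) := by
  obtain ⟨i, hi⟩ := Y.fill (x⁻¹ • a)
  exact ⟨i, by simpa using Y.X_smul x _ _ hi⟩

lemma adj' (x : G) {i k : ℤ} (h : k = i + 1 ∨ k = i - 1) : Y.X (x • Y.c i) (x • Y.c k) := by
  rcases h with rfl | rfl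
  · exact Y.X_smul x _ _ (Y.adj i)
  · have := Y.adj (i - 1)
    rw [sub_add_cancel] at this
    exact Y.X_smul x _ _ (Y.X_symm _ _ this)

lemma exists_red (i : ℤ) : ∃ k ∈ Set.Ico (0 : ℤ) (2 * Y.n), Y.c i = Y.c k := by
  have hn : (0 : ℤ) < 2 * Y.n := by have := Y.hn; omega
  refine ⟨i % (2 * Y.n), ⟨Int.emod_nonneg _ hn.ne', Int.emod_lt_of_pos _ hn⟩, ?_⟩
  rw [← Y.per_mul (i % (2 * Y.n)) (i / (2 * Y.n)), Int.emod_add_ediv_mul]

lemma range_fin : (Set.range Y.c).Finite := by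
  refine ((Set.finite_Ico (0 : ℤ) (2 * Y.n)).image Y.c).subset ?_
  rintro _ ⟨i, rfl⟩
  obtain ⟨k, hk, h⟩ := Y.exists_red i
  exact ⟨k, hk, h.symm⟩

lemma exists_bound (S : Finset G) : ∃ M, Y.θ ≤ M ∧ ∀ t, (t = 1 ∨ t ∈ S ∨ t⁻¹ ∈ S) →
    ∀ a x i j, Y.D a (x • Y.c i) ((x * t) • Y.c j) ≤ M := by
  choose K hK using Y.D_bdd
  have hT : {t : G | t = 1 ∨ t ∈ S ∨ t⁻¹ ∈ S}.Finite := by
    refine (((Set.finite_singleton (1 : G)).union S.finite_toSet).union S.finite_toSet.inv).subset ?_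
    rintro t (rfl | h | h)
    · simp
    · exact Or.inl (Or.inr h)
    · exact Or.inr h
  obtain ⟨M, hM⟩ := (((hT.prod (Y.range_fin.prod Y.range_fin))).image
    fun q : G × C × C => K q.2.1 (q.1 • q.2.2)).bddAbove
  refine ⟨max M Y.θ, le_max_right _ _, fun t ht a x i j => ?_⟩
  have h1 : Y.D a (x • Y.c i) ((x * t) • Y.c j) = Y.D (x⁻¹ • a) (Y.c i) (t • Y.c j) := by
    rw [← Y.D_smul x (x⁻¹ • a), smul_inv_smul, mul_smul]
  rw [h1]
  exact (hK _ _ _).trans ((hM ⟨(t, Y.c i, Y.c j), ⟨ht, ⟨i, rfl⟩, ⟨j, rfl⟩⟩, rfl⟩).trans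
    (le_max_left _ _))

lemma finite_into {𝒜 : Set C} (h : 𝒜.Finite) : {g : G | ∀ i, g • Y.c i ∈ 𝒜}.Finite := by
  let φ : G → (Set.Ico (0 : ℤ) (2 * Y.n) → C) := fun g k => g • Y.c k
  refine Set.Finite.of_finite_fibers φ ((Set.Finite.pi' fun _ => h).subset ?_) ?_
  · rintro _ ⟨g, hg, rfl⟩ k
    exact hg k
  · rintro _ ⟨g, -, rfl⟩
    refine (Y.stab.image fun u => g * u).subset ?_
    rintro g' ⟨-, hg'⟩
    refine ⟨g⁻¹ * g', fun i => ?_, by simp⟩
    obtain ⟨k, hk, h⟩ := Y.exists_red i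
    have h2 : g' • Y.c k = g • Y.c k := congrFun hg' ⟨k, hk⟩
    rw [h, mul_smul, h2, inv_smul_smul]

/-- The marking of `x`. -/
def mark (x : G) : Set C := Set.range fun i => x • Y.c i

/-- Families of bounded diameter. -/
def Diam (M : ℕ) (Ξ : Set C) : Prop := ∀ a, ∀ ξ ∈ Ξ, ∀ η ∈ Ξ, Y.D a ξ η ≤ M

/-- Seen from `a`, the curve `b` is near the marking `z`. -/
def Pm (M : ℕ) (a b : C) (z : G) : Prop := ∀ i, Y.D a b (z • Y.c i) ≤ 3 * M

/-- The constants. -/
structure Cst (M N : ℕ) : Prop where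
  hθ : Y.θ ≤ M
  hM : ∀ (a : C) (x : G) i j, Y.D a (x • Y.c i) (x • Y.c j) ≤ M
  hN : 21 * M + (2 * Y.n + 4) * (5 * M) < N

/-- A sequence of markings, consecutive ones differing by a big multitwist. -/
structure Sq (M N : ℕ) where
  ν : ℤ → G
  p : ℤ
  fix : ∀ j i, Even (i - j - p) → ν j • Y.c i = ν (j + 1) • Y.c i
  far : ∀ j i, Even (i - j - p) →
    ∃ a b, N ≤ Y.D (ν j • Y.c i) (ν j • Y.c a) (ν (j + 1) • Y.c b)
  near : ∀ j β, (∀ i, Even (i - j - p) → β ≠ ν j • Y.c i) →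
    ∀ a b, Y.D β (ν j • Y.c a) (ν (j + 1) • Y.c b) ≤ 4 * M

variable {Y} {M N : ℕ}

lemma Cst.diam_mark (H : Y.Cst M N) (x : G) : Y.Diam M (Y.mark x) := by
  rintro a _ ⟨i, rfl⟩ _ ⟨j, rfl⟩
  exact H.hM a x i j

lemma Cst.diam_single (H : Y.Cst M N) (b : C) : Y.Diam M {b} := by
  rintro a _ rfl _ rfl
  exact (Y.D_self _ _).trans H.hθ

lemma Cst.behr (H : Y.Cst M N) (a b : C) (z : G) : Y.Pm M a b z ∨ Y.Pm M b a z := by
  by_cases h : Y.Pm M a b z
  · exact Or.inl h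
  · right
    obtain ⟨i, hi⟩ := not_forall.1 h
    have hθ := H.hθ
    obtain ⟨h1, h2⟩ := Y.behr a b (z • Y.c i) (by omega)
    intro k
    have h3 := Y.D_tri b a (z • Y.c k) _ h1
    have h4 := H.hM b z i k
    omega

namespace Sq

variable (R : Y.Sq M N)

/-- The family `Ξ` is near the marking `ν j`, seen from `a`. -/
def Lst (j : ℤ) (a : C) (Ξ : Set C) : Prop :=
  (∃ ξ ∈ Ξ, Y.X a ξ) ∧ ∀ ξ ∈ Ξ, ∀ k, Y.D a ξ (R.ν j • Y.c k) ≤ 5 * M

/-- The family `Ξ` is to the left of level `j`. -/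
def Left (j : ℤ) (Ξ : Set C) : Prop :=
  ∀ i, Even (i - j - R.p) → R.Lst j (R.ν j • Y.c i) Ξ

/-- Curves of level `j`. -/
def Lev (j : ℤ) (a : C) : Prop := ∃ i, Even (i - j - R.p) ∧ a = R.ν j • Y.c i

variable {R} {Ξ : Set C}

lemma lev_or (j i : ℤ) : R.Lev j (R.ν (j + 1) • Y.c i) ∨ R.Lev (j + 1) (R.ν (j + 1) • Y.c i) := by
  by_cases h : Even (i - j - R.p)
  · exact Or.inl ⟨i, h, (R.fix j i h).symm⟩
  · refine Or.inr ⟨i, ?_, rfl⟩
    rw [Int.even_iff] at h ⊢
    omega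

lemma step (H : Y.Cst M N) (hΞ : Y.Diam M Ξ) {j i k : ℤ} (hi : Even (i - j - R.p))
    (hk : k = i + 1 ∨ k = i - 1) {ξ : C} (hξ : ξ ∈ Ξ)
    (h : Y.θ < Y.D (R.ν j • Y.c i) (R.ν (j + 1) • Y.c k) ξ) :
    R.Lst (j + 1) (R.ν (j + 1) • Y.c k) Ξ := by
  obtain ⟨h1, h2⟩ := Y.behr _ _ _ h
  refine ⟨⟨ξ, hξ, h1⟩, fun η hη l => ?_⟩
  rw [R.fix j i hi] at h2
  have h3 := Y.D_tri _ η (R.ν (j + 1) • Y.c l) _ h1
  have h4 := hΞ (R.ν (j + 1) • Y.c k) η hη ξ hξ
  have h5 := Y.D_tri _ ξ (R.ν (j + 1) • Y.c l) _ (Y.X_symm _ _ (Y.adj' (R.ν (j + 1)) hk))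
  have h6 := H.hM (R.ν (j + 1) • Y.c k) (R.ν (j + 1)) i l
  rw [Y.D_symm] at h2
  have := H.hθ
  omega

lemma step_near (H : Y.Cst M N) (hΞ : Y.Diam M Ξ) {j i k : ℤ} (hi : Even (i - j - R.p))
    (hk : k = i + 1 ∨ k = i - 1) {ξ : C} (hξ : ξ ∈ Ξ) (hX : Y.X (R.ν j • Y.c i) ξ)
    (h : ∀ l, Y.D (R.ν j • Y.c i) ξ (R.ν j • Y.c l) ≤ 13 * M) :
    R.Lst (j + 1) (R.ν (j + 1) • Y.c k) Ξ := by
  refine step H hΞ hi hk hξ ?_
  obtain ⟨a, b, hab⟩ := R.far j i hi
  have h1 := Y.D_tri _ (R.ν j • Y.c a) (R.ν (j + 1) • Y.c b) _ hX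
  have h2 := h a
  rw [Y.D_symm] at h2
  have h3 : Y.X (R.ν j • Y.c i) (R.ν (j + 1) • Y.c k) := by
    rw [R.fix j i hi]
    exact Y.adj' _ hk
  have h4 := Y.D_tri _ ξ (R.ν (j + 1) • Y.c b) _ h3
  have h5 := H.hM (R.ν j • Y.c i) (R.ν (j + 1)) k b
  rw [Y.D_symm _ _ ξ]
  have := H.hθ
  have := H.hN
  omega

lemma Lst.succ (H : Y.Cst M N) (hΞ : Y.Diam M Ξ) {j i k : ℤ} (hi : Even (i - j - R.p))
    (hk : k = i + 1 ∨ k = i - 1) (h : R.Lst j (R.ν j • Y.c i) Ξ) :
    R.Lst (j + 1) (R.ν (j + 1) • Y.c k) Ξ := by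
  obtain ⟨⟨ξ, hξ, hX⟩, h2⟩ := h
  exact step_near H hΞ hi hk hξ hX fun l => (h2 ξ hξ l).trans (by omega)

lemma Lst.iter (H : Y.Cst M N) (hΞ : Y.Diam M Ξ) {j i : ℤ} (hi : Even (i - j - R.p))
    (h : R.Lst j (R.ν j • Y.c i) Ξ) (r : ℕ) : ∀ a : ℤ, 0 ≤ a → a ≤ r →
      R.Lst (j + r) (R.ν (j + r) • Y.c (i + 2 * a - r)) Ξ := by
  induction r with
  | zero =>
    intro a h0 h1
    obtain rfl : a = 0 := by omega
    simpa using h
  | succ r ih =>
    intro a h0 h1
    push_cast at h1 ⊢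
    rw [← add_assoc]
    by_cases ha : a ≤ r
    · refine (ih a h0 ha).succ H hΞ ?_ (Or.inr (by ring))
      rw [Int.even_iff] at hi ⊢
      omega
    · refine (ih (a - 1) (by omega) (by omega)).succ H hΞ ?_ (Or.inl (by ring))
      rw [Int.even_iff] at hi ⊢
      omega

lemma Lst.left (H : Y.Cst M N) (hΞ : Y.Diam M Ξ) {j i : ℤ} (hi : Even (i - j - R.p))
    (h : R.Lst j (R.ν j • Y.c i) Ξ) {l : ℤ} (hl : j + Y.n ≤ l + 1) : R.Left l Ξ := by
  have hn : (0 : ℤ) < Y.n := by have := Y.hn; omega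
  obtain ⟨r, rfl⟩ : ∃ r : ℕ, l = j + r := ⟨(l - j).toNat, by omega⟩
  intro k hk
  obtain ⟨b, hb⟩ : ∃ b, k = i + 2 * b - r := ⟨(k - i + r) / 2, by
    rw [Int.even_iff] at hi hk
    omega⟩
  have h1 := Int.emod_nonneg b hn.ne'
  have h2 := Int.emod_lt_of_pos b hn
  have h3 := h.iter H hΞ hi r (b % Y.n) h1 (by omega)
  have h4 : k = i + 2 * (b % Y.n) - r + b / Y.n * (2 * Y.n) := by
    have := Int.emod_add_ediv_mul b Y.n
    linear_combination hb - 2 * this
  rw [h4, Y.per_mul]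
  exact h3

lemma Left.succ (H : Y.Cst M N) (hΞ : Y.Diam M Ξ) {j : ℤ} (h : R.Left j Ξ) :
    R.Left (j + 1) Ξ := by
  intro k hk
  have hi : Even (k - 1 - j - R.p) := by
    rw [Int.even_iff] at hk ⊢
    omega
  exact (h _ hi).succ H hΞ hi (Or.inl (by ring))

lemma Left.mono (H : Y.Cst M N) (hΞ : Y.Diam M Ξ) {j l : ℤ} (h : R.Left j Ξ) (hl : j ≤ l) :
    R.Left l Ξ := by
  induction l, hl using Int.leInduction with
  | base => exact h
  | succ l _ ih => exact ih.succ H hΞ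

/-- A family near `ν j` at one curve of level `j` is to the left of all later levels. -/
lemma Lev.left (H : Y.Cst M N) (hΞ : Y.Diam M Ξ) {j : ℤ} {a : C} (ha : R.Lev j a) {ξ : C}
    (hξ : ξ ∈ Ξ) (hX : Y.X a ξ) (h : ∀ l, Y.D a ξ (R.ν j • Y.c l) ≤ 13 * M) {l : ℤ}
    (hl : j + Y.n ≤ l) : R.Left l Ξ := by
  obtain ⟨i, hi, rfl⟩ := ha
  refine (step_near H hΞ hi (Or.inl rfl) hξ hX h).left H hΞ ?_ (by omega)
  rw [Int.even_iff] at hi ⊢
  omega

lemma Lev.near (H : Y.Cst M N) {j : ℤ} {a b : C} (ha : R.Lev j a) {w : G}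
    (hw : R.Left j (Y.mark w)) (hP : Y.Pm M a b w) (l : ℤ) :
    Y.D a b (R.ν j • Y.c l) ≤ 9 * M := by
  obtain ⟨i, hi, rfl⟩ := ha
  obtain ⟨⟨_, ⟨k, rfl⟩, hX⟩, h2⟩ := hw i hi
  have h3 := h2 _ ⟨k, rfl⟩ l
  have h4 := Y.D_tri _ b (R.ν j • Y.c l) _ hX
  have h5 := hP k
  have := H.hθ
  simp only at h3 h4
  omega

lemma Lev.transfer (H : Y.Cst M N) {j : ℤ} {a b : C} (ha : R.Lev j a) {w z : G}
    (hw : R.Left j (Y.mark w)) (hX : Y.X a b) (hP : Y.Pm M a b w) (hz : Y.Pm M a b z) {l : ℤ}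
    (hl : j + Y.n ≤ l) : R.Left l (Y.mark z) := by
  obtain ⟨k, hk⟩ := Y.fill' a z
  refine ha.left H (H.diam_mark z) ⟨k, rfl⟩ hk (fun l => ?_) hl
  have h1 := ha.near H hw hP l
  have h2 := Y.D_tri _ (z • Y.c k) (R.ν j • Y.c l) _ hX
  have h3 := hz k
  rw [Y.D_symm] at h3
  have := H.hθ
  simp only
  omega

lemma Lev.cross (H : Y.Cst M N) {j : ℤ} {a b : C} (ha : R.Lev j a) {w : G}
    (hw : R.Left j (Y.mark w)) (hX : Y.X a b) (hP : Y.Pm M a b w) {l : ℤ}
    (hl : j + Y.n ≤ l) {d : C} (hd : R.Lev l d) : Y.X d b := by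
  obtain ⟨i, hi, rfl⟩ := hd
  obtain ⟨⟨_, rfl, h⟩, -⟩ := ha.left H (H.diam_single b) rfl hX
    (fun l => (ha.near H hw hP l).trans (by omega)) hl i hi
  exact h

lemma chain (H : Y.Cst M N) {β : C} {j : ℤ} (r : ℕ)
    (hβ : ∀ l i, j ≤ l → l < j + r → β ≠ R.ν l • Y.c i) (a b : ℤ) :
    Y.D β (R.ν j • Y.c a) (R.ν (j + r) • Y.c b) ≤ M + r * (5 * M) := by
  induction r generalizing b with
  | zero => simpa using H.hM β (R.ν j) a b
  | succ r ih =>
    obtain ⟨k, hk⟩ := Y.fill' β (R.ν (j + r))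
    have h1 := ih (fun l i h1 h2 => hβ l i h1 (by push_cast; omega)) k
    have h2 := R.near (j + r) β (fun i _ => hβ _ i (by omega) (by push_cast; omega)) k b
    have h3 := Y.D_tri _ (R.ν j • Y.c a) (R.ν (j + r + 1) • Y.c b) _ hk
    have := H.hθ
    push_cast
    rw [← add_assoc, add_mul]
    omega

end Sq

end CurveSys

end Pool.Agent.MP_4a6971_al.H66

end

-- part MP_4a6971_al.H66.CurvesB
section

/-!
Two sequences of markings in generic position are nested.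
-/

namespace Pool.Agent.MP_4a6971_al.H66

namespace CurveSys

variable {G C : Type*} [Group G] [MulAction G C] {Y : CurveSys G C} {M N : ℕ}

/-- The curve `a` sees the markings `x` and `y` far apart. -/
def Big (Y : CurveSys G C) (M N : ℕ) (x y : G) (a : C) : Prop :=
  ∃ i k, Y.X a (x • Y.c i) ∧ Y.X a (y • Y.c k) ∧ N ≤ Y.D a (x • Y.c i) (y • Y.c k) + 12 * M

/-- The curve `a` comes before the curve `b` on the way from `x` to `y`. -/
def Bef (Y : CurveSys G C) (M : ℕ) (x y : G) (a b : C) : Prop :=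
  Y.X a b ∧ Y.Pm M b a x ∧ Y.Pm M a b y

lemma Big.symm {x y : G} {a : C} (h : Y.Big M N x y a) : Y.Big M N y x a := by
  obtain ⟨i, k, h1, h2, h3⟩ := h
  exact ⟨k, i, h2, h1, by rwa [Y.D_symm]⟩

lemma Bef.symm {x y : G} {a b : C} (h : Y.Bef M x y a b) : Y.Bef M y x b a :=
  ⟨Y.X_symm _ _ h.1, h.2.2, h.2.1⟩

lemma Big.not_both (H : Y.Cst M N) {x y : G} {a b : C} (h : Y.Big M N x y a) (hX : Y.X a b)
    (h1 : Y.Pm M a b x) (h2 : Y.Pm M a b y) : False := by
  obtain ⟨i, k, -, -, h3⟩ := h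
  have h4 := Y.D_tri _ (x • Y.c i) (y • Y.c k) _ hX
  have h5 := h1 i
  have h6 := h2 k
  rw [Y.D_symm] at h5
  have := H.hθ
  have := H.hN
  omega

lemma Big.total (H : Y.Cst M N) {x y : G} {a b : C} (ha : Y.Big M N x y a)
    (hb : Y.Big M N x y b) (hX : Y.X a b) : Y.Bef M x y a b ∨ Y.Bef M x y b a := by
  have hX' := Y.X_symm _ _ hX
  rcases H.behr a b x with h1 | h1
  · exact Or.inr ⟨hX', h1, (H.behr a b y).resolve_left (ha.not_both H hX h1)⟩
  · exact Or.inl ⟨hX, h1, (H.behr a b y).resolve_right (hb.not_both H hX' h1)⟩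

namespace Sq

/-- `P'` is the reversal of `P` (of length `2n+3`). -/
def IsRev (P P' : Y.Sq M N) : Prop :=
  (∀ j, P'.ν j = P.ν (2 * Y.n + 4 - j)) ∧ Odd (P'.p - P.p)

/-- The curves met by the sequence. -/
def crv (P : Y.Sq M N) : Set C :=
  {a | ∃ j i : ℤ, 0 ≤ j ∧ j ≤ 2 * Y.n + 4 ∧ a = P.ν j • Y.c i}

variable {P P' Q Q' : Y.Sq M N}

lemma IsRev.symm (h : P.IsRev P') : P'.IsRev P := by
  refine ⟨fun j => by rw [h.1, sub_sub_cancel], ?_⟩
  have := h.2
  rw [Int.odd_iff] at this ⊢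
  omega

lemma IsRev.crv_sub (h : P.IsRev P') : P'.crv ⊆ P.crv := by
  rintro _ ⟨j, i, h1, h2, rfl⟩
  exact ⟨2 * Y.n + 4 - j, i, by omega, by omega, by rw [h.1]⟩

lemma IsRev.crv_eq (h : P.IsRev P') : P'.crv = P.crv := h.crv_sub.antisymm h.symm.crv_sub

lemma IsRev.lev (h : P.IsRev P') {j : ℤ} {a : C} (ha : P.Lev j a) :
    P'.Lev (2 * Y.n + 3 - j) a := by
  obtain ⟨i, hi, rfl⟩ := ha
  refine ⟨i, ?_, ?_⟩
  · have := h.2
    rw [Int.odd_iff] at this
    rw [Int.even_iff] at hi ⊢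
    omega
  · rw [h.1, P.fix j i hi]
    congr 2
    ring

lemma Lev.mem {j : ℤ} {a : C} (ha : P.Lev j a) (h0 : 0 ≤ j) (h1 : j ≤ 2 * Y.n + 4) :
    a ∈ P.crv := by
  obtain ⟨i, -, rfl⟩ := ha
  exact ⟨j, i, h0, h1, rfl⟩

lemma IsRev.big (H : Y.Cst M N) (h : P.IsRev P') {j : ℤ} {a : C} (ha : P.Lev j a) {x y : G}
    (hx : P.Left j (Y.mark x)) (hy : P'.Left (2 * Y.n + 3 - j) (Y.mark y)) : Y.Big M N x y a := by
  obtain ⟨i', hi', he⟩ := h.lev ha
  obtain ⟨i, hi, rfl⟩ := ha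
  obtain ⟨⟨_, ⟨k, rfl⟩, h1⟩, h2⟩ := hx i hi
  obtain ⟨⟨_, ⟨l, rfl⟩, h3⟩, h4⟩ := hy i' hi'
  rw [← he] at h3 h4
  refine ⟨k, l, h1, h3, ?_⟩
  obtain ⟨a, b, hab⟩ := P.far j i hi
  have h5 := h2 _ ⟨k, rfl⟩ a
  have h6 := h4 _ ⟨l, rfl⟩ b
  rw [h.1, show 2 * (Y.n : ℤ) + 4 - (2 * Y.n + 3 - j) = j + 1 by ring] at h6
  have h7 := Y.D_tri _ (P.ν j • Y.c a) (P.ν (j + 1) • Y.c b) _ h1
  have h8 := Y.D_tri _ (x • Y.c k) (P.ν (j + 1) • Y.c b) _ h3
  rw [Y.D_symm] at h5
  have := H.hθ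
  simp only at h5 h6 h7 h8
  omega

lemma IsRev.big0 (H : Y.Cst M N) (h : P.IsRev P') {j : ℤ} {a : C} (ha : P.Lev j a) {x y : G}
    (hx : P.Left 0 (Y.mark x)) (hy : P'.Left 0 (Y.mark y)) (h0 : 0 ≤ j) (h1 : j ≤ 2 * Y.n + 3) :
    Y.Big M N x y a :=
  h.big H ha (hx.mono H (H.diam_mark x) h0) (hy.mono H (H.diam_mark y) (by omega))

lemma crv_bound (H : Y.Cst M N) {β a b : C} (hβ : β ∉ P.crv) (ha : a ∈ P.crv) (hb : b ∈ P.crv) :
    Y.D β a b ≤ M + (2 * Y.n + 4) * (5 * M) := by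
  obtain ⟨j, i, h1, h2, rfl⟩ := ha
  obtain ⟨l, k, h3, h4, rfl⟩ := hb
  wlog hjl : j ≤ l generalizing j l i k
  · rw [Y.D_symm]
    exact this l k h3 h4 j i h1 h2 (by omega)
  obtain ⟨r, rfl⟩ : ∃ r : ℕ, l = j + r := ⟨(l - j).toNat, by omega⟩
  refine (chain H r (fun l i h5 h6 he => hβ ⟨l, i, by omega, by omega, he⟩) i k).trans ?_
  gcongr
  omega

lemma same_side (H : Y.Cst M N) {x y : G} {β a b : C} (hB : Y.Big M N x y β) (hβ : β ∉ P.crv)
    (ha : a ∈ P.crv) (hb : b ∈ P.crv) (h1 : Y.Bef M x y a β) (h2 : Y.Bef M x y β b) : False := by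
  obtain ⟨i, k, -, -, h3⟩ := hB
  have h4 := crv_bound H hβ ha hb
  have h5 := Y.D_tri _ (x • Y.c i) (y • Y.c k) _ (Y.X_symm _ _ h1.1)
  have h6 := Y.D_tri _ a (y • Y.c k) _ h2.1
  have h7 := h1.2.1 i
  have h8 := h2.2.2 k
  rw [Y.D_symm] at h7
  have := H.hθ
  have := H.hN
  omega

lemma exists_lev (P : Y.Sq M N) (b : C) : ∃ j a, 0 ≤ j ∧ j ≤ 1 ∧ P.Lev j a ∧ Y.X a b := by
  obtain ⟨i, hi⟩ := Y.fill' b (P.ν (0 + 1))
  rcases lev_or (R := P) 0 i with h | h
  · exact ⟨0, _, le_rfl, zero_le_one, h, Y.X_symm _ _ hi⟩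
  · exact ⟨0 + 1, _, by omega, by omega, h, Y.X_symm _ _ hi⟩

lemma exists_out {𝒜 : Set C} {j : ℤ} (h : ∃ i, P.ν (j + 1) • Y.c i ∉ 𝒜) :
    ∃ l a, j ≤ l ∧ l ≤ j + 1 ∧ P.Lev l a ∧ a ∉ 𝒜 := by
  obtain ⟨i, hi⟩ := h
  rcases lev_or (R := P) j i with h | h
  · exact ⟨j, _, le_rfl, by omega, h, hi⟩
  · exact ⟨j + 1, _, by omega, le_rfl, h, hi⟩

lemma alt (H : Y.Cst M N) {x y : G} (hx : P.Left 0 (Y.mark x)) (hy : Q'.Left 0 (Y.mark y))
    {j l : ℤ} {a b : C} (hj0 : 0 ≤ j) (hj1 : j ≤ 1) (hl0 : 0 ≤ l) (hl1 : l ≤ 1) (ha : P.Lev j a)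
    (hb : Q'.Lev l b) (h : Y.Bef M x y b a) (z : G) :
    Q'.Left (1 + Y.n) (Y.mark z) ∨ P.Left (1 + Y.n) (Y.mark z) := by
  rcases H.behr b a z with h1 | h1
  · exact Or.inl (hb.transfer H (hy.mono H (H.diam_mark y) hl0) h.1 h.2.2 h1 (by omega))
  · exact Or.inr (ha.transfer H (hx.mono H (H.diam_mark x) hj0) (Y.X_symm _ _ h.1) h.2.1 h1
      (by omega))

/-- If `β` comes before one curve of `P`, it crosses and comes before all late curves of `P`. -/
lemma bef_all (H : Y.Cst M N) (hP : P.IsRev P') {x y : G} (hx : P.Left 0 (Y.mark x))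
    (hy : P'.Left 0 (Y.mark y)) {β a : C} (hB : Y.Big M N x y β) (hβ : β ∉ P.crv)
    (ha : a ∈ P.crv) (h : Y.Bef M x y β a) {l : ℤ} {d : C} (hd : P.Lev l d) (h0 : 1 + Y.n ≤ l)
    (h1 : l ≤ 2 * Y.n + 3) : Y.Bef M x y β d := by
  have key : ∀ (j : ℤ) e, 0 ≤ j → j ≤ 2 * Y.n + 3 → P.Lev j e → Y.X e β → Y.Bef M x y β e :=
    fun j e h2 h3 he hX => ((hP.big0 H he hx hy h2 h3).total H hB hX).resolve_left fun h4 =>
      same_side H hB hβ (he.mem h2 (by omega)) ha h4 h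
  obtain ⟨j, e, hj0, hj1, he, hX⟩ := P.exists_lev β
  exact key l d (by omega) h1 hd (he.cross H (hx.mono H (H.diam_mark x) hj0) hX
    (key j e hj0 (by omega) he hX).2.1 (by omega) hd)

theorem nest (H : Y.Cst M N) (hP : P.IsRev P') (hQ : Q.IsRev Q') {x y : G}
    (hx : P.Left 0 (Y.mark x)) (hy : P'.Left 0 (Y.mark y)) (hx' : Q.Left 0 (Y.mark x))
    (hy' : Q'.Left 0 (Y.mark y))
    (g1 : ∀ j : ℤ, 0 ≤ j → j ≤ 2 * Y.n + 4 → ∃ i, Q.ν j • Y.c i ∉ P.crv)
    (g2 : ∀ j : ℤ, 0 ≤ j → j ≤ 2 * Y.n + 4 → ∃ i, P.ν j • Y.c i ∉ Q.crv) :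
    (∀ z, P'.Left (1 + Y.n) (Y.mark z) ∨ Q.Left (1 + Y.n) (Y.mark z)) ∨
      (∀ z, Q'.Left (1 + Y.n) (Y.mark z) ∨ P.Left (1 + Y.n) (Y.mark z)) := by
  obtain ⟨l1, β1, h10, h11, hβ1, hn1⟩ := exists_out (g1 (0 + 1) (by omega) (by omega))
  obtain ⟨l2, β2, h20, h21, hβ2, hn2⟩ := exists_out (P := Q') (j := 0) (𝒜 := P.crv) (by
    rw [hQ.1]
    exact g1 _ (by omega) (by omega))
  obtain ⟨j1, α1, h30, h31, hα1, hX1⟩ := P.exists_lev β2
  obtain ⟨j2, α2, h40, h41, hα2, hX2⟩ := P'.exists_lev β1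
  have hB1 := hQ.big0 H hβ1 hx' hy' h10 (by omega)
  have hB2 := hQ.symm.big0 H hβ2 hy' hx' h20 (by omega)
  rcases (hP.big0 H hα1 hx hy h30 (by omega)).total H hB2.symm hX1 with h1 | h1
  swap
  · exact Or.inr (alt H hx hy' h30 h31 h20 (by omega) hα1 hβ2 h1)
  rcases (hP.symm.big0 H hα2 hy hx h40 (by omega)).symm.total H hB1 hX2 with h2 | h2
  · exact Or.inl (alt H hx' hy h10 (by omega) h40 h41 hβ1 hα2 h2)
  exfalso
  obtain ⟨l, α, hl0, hl1, hα, hn⟩ := exists_out (g2 (1 + Y.n + 1) (by omega) (by omega))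
  have h3 := bef_all H hP hx hy hB1 hn1 (hP.crv_sub (hα2.mem h40 (by omega))) h2 hα hl0 (by omega)
  have h4 := bef_all H hP.symm hy hx hB2 (hP.crv_eq ▸ hn2)
    (hP.symm.crv_sub (hα1.mem h30 (by omega))) h1.symm (hP.lev hα) (by omega) (by omega)
  exact same_side H (hP.big0 H hα hx hy (by omega) (by omega)) hn (hβ1.mem h10 (by omega))
    (hQ.crv_sub (hβ2.mem h20 (by omega))) h3 h4.symm

/-- Left translation of a sequence. -/
def trans (h : G) (P : Y.Sq M N) : Y.Sq M N where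
  ν j := h * P.ν j
  p := P.p
  fix j i hi := by rw [mul_smul, mul_smul, P.fix j i hi]
  far j i hi := by
    obtain ⟨a, b, hab⟩ := P.far j i hi
    exact ⟨a, b, by simpa only [mul_smul, Y.D_smul] using hab⟩
  near j β hβ a b := by
    have := P.near j (h⁻¹ • β) (fun i hi he => hβ i hi (by rw [mul_smul, ← he, smul_inv_smul])) a b
    rwa [← Y.D_smul h, smul_inv_smul, ← mul_smul, ← mul_smul] at this

/-- Reversal of a sequence. -/
def rev (P : Y.Sq M N) : Y.Sq M N where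
  ν j := P.ν (2 * Y.n + 4 - j)
  p := P.p + 1
  fix j i hi := by
    have := P.fix (2 * Y.n + 4 - (j + 1)) i (by rw [Int.even_iff] at hi ⊢; omega)
    rw [this]
    congr 2
    ring
  far j i hi := by
    have h1 : Even (i - (2 * Y.n + 4 - (j + 1)) - P.p) := by
      rw [Int.even_iff] at hi ⊢
      omega
    obtain ⟨a, b, hab⟩ := P.far _ i h1
    rw [P.fix _ i h1, Y.D_symm, show 2 * (Y.n : ℤ) + 4 - (j + 1) + 1 = 2 * Y.n + 4 - j by ring]
      at hab
    exact ⟨b, a, hab⟩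
  near j β hβ a b := by
    have h2 : 2 * (Y.n : ℤ) + 4 - (j + 1) + 1 = 2 * Y.n + 4 - j := by ring
    have := P.near (2 * Y.n + 4 - (j + 1)) β (fun i hi => by
      rw [P.fix _ i hi, h2]
      exact hβ i (by rw [Int.even_iff] at hi ⊢; omega)) b a
    rwa [h2, Y.D_symm] at this

lemma isRev_rev (P : Y.Sq M N) : P.IsRev P.rev := ⟨fun _ => rfl, by simp [rev]⟩

lemma IsRev.trans (h : P.IsRev P') (g : G) : (P.trans g).IsRev (P'.trans g) :=
  ⟨fun j => congrArg (g * ·) (h.1 j), h.2⟩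

lemma Left.trans {j : ℤ} {x : G} (g : G) (h : P.Left j (Y.mark x)) :
    (P.trans g).Left j (Y.mark (g * x)) := by
  intro i hi
  obtain ⟨⟨_, ⟨k, rfl⟩, h1⟩, h2⟩ := h i hi
  refine ⟨⟨_, ⟨k, rfl⟩, by simpa only [Sq.trans, mul_smul] using Y.X_smul g _ _ h1⟩, ?_⟩
  rintro _ ⟨l, rfl⟩ m
  simpa only [Sq.trans, mul_smul, Y.D_smul] using h2 _ ⟨l, rfl⟩ m

lemma Left.congr {j l : ℤ} {Ξ : Set C} (h : P.Left j Ξ) (h1 : Q.ν l = P.ν j)
    (h2 : Even (l + Q.p - j - P.p)) : Q.Left l Ξ := by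
  intro i hi
  have := h i (by rw [Int.even_iff] at hi h2 ⊢; omega)
  unfold Lst at this ⊢
  rwa [h1]

lemma left_trans_iff {j : ℤ} {x g : G} :
    (P.trans g).Left j (Y.mark x) ↔ P.Left j (Y.mark (g⁻¹ * x)) := by
  refine ⟨fun h => (h.trans g⁻¹).congr (by simp [Sq.trans]) (by simp [Sq.trans]), fun h => ?_⟩
  simpa using h.trans g

lemma mem_crv_trans {g : G} {a : C} (h : a ∈ (P.trans g).crv) : g⁻¹ • a ∈ P.crv := by
  obtain ⟨j, i, h1, h2, rfl⟩ := h
  exact ⟨j, i, h1, h2, by simp [Sq.trans, mul_smul]⟩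

lemma crv_finite (P : Y.Sq M N) : P.crv.Finite := by
  refine (((Set.finite_Icc (0 : ℤ) (2 * Y.n + 4)).prod Y.range_fin).image
    fun q => P.ν q.1 • q.2).subset ?_
  rintro _ ⟨j, i, h1, h2, rfl⟩
  exact ⟨(j, Y.c i), ⟨⟨h1, h2⟩, i, rfl⟩, rfl⟩

lemma left_self (H : Y.Cst M N) (P : Y.Sq M N) (j : ℤ) : P.Left j (Y.mark (P.ν j)) := by
  refine fun i _ => ⟨⟨_, ⟨i + 1, rfl⟩, Y.adj' _ (Or.inl rfl)⟩, ?_⟩
  rintro _ ⟨l, rfl⟩ k
  exact (H.hM _ _ l k).trans (by omega)

/-- A marking that is not to the right of a level is to the left of all late levels. -/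
lemma IsRev.left_of_not (H : Y.Cst M N) (h : P.IsRev P') {j l : ℤ} {z : G}
    (hz : ¬ P'.Left (2 * Y.n + 3 - j) (Y.mark z)) (hl : j + Y.n ≤ l) : P.Left l (Y.mark z) := by
  have he : P'.ν (2 * Y.n + 3 - j) = P.ν (j + 1) := by
    rw [h.1]
    congr 1
    ring
  simp only [Left, Lst, he, not_forall, not_and] at hz
  obtain ⟨i, hi, hz⟩ := hz
  have hi' : Even (i - j - P.p) := by
    have := h.2
    rw [Int.odd_iff] at this
    rw [Int.even_iff] at hi ⊢
    omega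
  obtain ⟨k, hk⟩ := Y.fill' (P.ν (j + 1) • Y.c i) z
  obtain ⟨ξ, hξ, m, hm⟩ := hz ⟨_, ⟨k, rfl⟩, hk⟩
  have h1 := Y.D_tri _ ξ (P.ν (j + 1) • Y.c m) _ (Y.adj' (P.ν (j + 1)) (Or.inl (rfl : i + 1 = _)))
  have h2 := H.hM (P.ν (j + 1) • Y.c i) (P.ν (j + 1)) (i + 1) m
  have h3 := H.hθ
  refine (step H (H.diam_mark z) hi' (Or.inl rfl) hξ ?_).left H (H.diam_mark z) ?_ (by omega)
  · rw [P.fix j i hi', Y.D_symm]
    omega
  · rw [Int.even_iff] at hi' ⊢
    omega

end Sq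

end CurveSys

end Pool.Agent.MP_4a6971_al.H66

end

-- part MP_4a6971_al.H66.Gate
section

/-!
Gates give a hyperbolic length function with a loxodromic WPD element.
-/

namespace Pool.Agent.MP_4a6971_al.H66

variable {G : Type*} [Group G]

/-- A gate: `A false`, `A true` are the two strong sides, `B false`, `B true` the two weak sides. -/
structure Gate (G : Type*) [Group G] (S : Set G) where
  A : Bool → Set G
  B : Bool → Set G
  sub : ∀ e, A e ⊆ B e
  disj : ∀ x, x ∈ B false → x ∈ B true → False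
  nojump : ∀ x t, (t ∈ S ∨ t⁻¹ ∈ S) → x ∈ B false → x * t ∈ B true → False
  F : Set G
  finF : F.Finite
  nest : ∀ (h : G) (e : Bool), h ∉ F → ∀ x y, x ∈ A false → y ∈ A true → h⁻¹ * x ∈ A e →
    h⁻¹ * y ∈ A (!e) →
    (∀ z, z ∈ B true ∨ h⁻¹ * z ∈ B e) ∨ (∀ z, h⁻¹ * z ∈ B (!e) ∨ z ∈ B false)
  f : G
  step : ∀ z, z ∈ A true ∨ f⁻¹ * z ∈ A false
  ne_false : (A false).Nonempty
  ne_true : (A true).Nonempty

/-- Chains of length `n` for the relation `R` all of whose members satisfy `p`. -/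
def Ch {X : Type*} (R : X → X → Prop) (p : X → Prop) (n : ℕ) : Prop :=
  ∃ l : List X, l.Pairwise R ∧ (∀ P ∈ l, p P) ∧ l.length = n

theorem Ch.zero {X : Type*} (R : X → X → Prop) (p : X → Prop) : Ch R p 0 :=
  ⟨[], List.Pairwise.nil, by simp, rfl⟩

theorem Ch.map {X : Type*} {R R' : X → X → Prop} {p q : X → Prop} {n : ℕ} (h : Ch R p n)
    (φ : X → X) (h1 : ∀ P Q, R P Q → R' (φ P) (φ Q)) (h2 : ∀ P, p P → q (φ P)) : Ch R' q n := by
  obtain ⟨l, a1, a2, a3⟩ := h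
  refine ⟨l.map φ, List.pairwise_map.2 (a1.imp (h1 _ _)), ?_, by simpa using a3⟩
  intro P hP
  obtain ⟨Q, hQ, rfl⟩ := List.mem_map.1 hP
  exact h2 Q (a2 Q hQ)

theorem Ch.rev {X : Type*} {R : X → X → Prop} {p q : X → Prop} {n : ℕ} (h : Ch R p n)
    (φ : X → X) (h1 : ∀ P Q, R P Q → R (φ Q) (φ P)) (h2 : ∀ P, p P → q (φ P)) : Ch R q n := by
  obtain ⟨l, a1, a2, a3⟩ := h.map (R' := fun P Q => R Q P) φ h1 h2
  exact ⟨l.reverse, List.pairwise_reverse.2 a1, by simpa using a2, by simpa using a3⟩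

theorem Ch.split {X : Type*} {R : X → X → Prop} {p : X → Prop} {n : ℕ} (h : Ch R p n)
    (u v : X → Prop) (h1 : ∀ P Q, R P Q → u P ∨ v Q) :
    ∃ a b, Ch R (fun P => p P ∧ u P) a ∧ Ch R (fun P => p P ∧ v P) b ∧ n ≤ a + b + 1 := by
  classical
  obtain ⟨l, a1, a2, rfl⟩ := h
  refine ⟨_, _, ⟨l.filter (fun P => decide (u P)), a1.sublist List.filter_sublist, ?_, rfl⟩,
    ⟨l.filter (fun P => decide (v P)), a1.sublist List.filter_sublist, ?_, rfl⟩, ?_⟩
  · intro P hP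
    obtain ⟨b1, b2⟩ := List.mem_filter.1 hP
    exact ⟨a2 P b1, by simpa using b2⟩
  · intro P hP
    obtain ⟨b1, b2⟩ := List.mem_filter.1 hP
    exact ⟨a2 P b1, by simpa using b2⟩
  · clear a2
    induction l with
    | nil => simp
    | cons P l ih =>
      obtain ⟨b1, b2⟩ := List.pairwise_cons.1 a1
      have b3 := ih b2
      by_cases hu : u P
      · simp only [List.filter_cons, hu, decide_true, if_true, List.length_cons]
        split_ifs
        · simp only [List.length_cons]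
          omega
        · omega
      · have b4 : l.filter (fun P => decide (v P)) = l := List.filter_eq_self.2 (fun Q hQ => by
          simpa using (h1 P Q (b1 Q hQ)).resolve_left hu)
        simp only [List.filter_cons, b4, List.length_cons]
        split_ifs
        all_goals try simp only [List.length_cons]
        all_goals omega

theorem Ch.part {X : Type*} {R : X → X → Prop} {p : X → Prop} {n : ℕ} (h : Ch R p n)
    (u : X → Prop) :
    ∃ a b, Ch R (fun P => p P ∧ u P) a ∧ Ch R (fun P => p P ∧ ¬ u P) b ∧ n = a + b := by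
  classical
  obtain ⟨l, a1, a2, rfl⟩ := h
  refine ⟨_, _, ⟨l.filter (fun P => decide (u P)), a1.sublist List.filter_sublist, ?_, rfl⟩,
    ⟨l.filter (fun P => !decide (u P)), a1.sublist List.filter_sublist, ?_, rfl⟩,
    List.length_eq_length_filter_add _⟩
  · intro P hP
    obtain ⟨b1, b2⟩ := List.mem_filter.1 hP
    exact ⟨a2 P b1, by simpa using b2⟩
  · intro P hP
    obtain ⟨b1, b2⟩ := List.mem_filter.1 hP
    exact ⟨a2 P b1, by simpa using b2⟩

namespace Gate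

variable {S : Set G} (Y : Gate G S)

/-- Strong lower side. -/
def lo (P : G × Bool) (x : G) : Prop := P.1⁻¹ * x ∈ Y.A P.2
/-- Strong upper side. -/
def hi (P : G × Bool) (x : G) : Prop := P.1⁻¹ * x ∈ Y.A (!P.2)
/-- Weak lower side. -/
def loB (P : G × Bool) (x : G) : Prop := P.1⁻¹ * x ∈ Y.B P.2
/-- Weak upper side. -/
def hiB (P : G × Bool) (x : G) : Prop := P.1⁻¹ * x ∈ Y.B (!P.2)
/-- Strong order. -/
def lt (P Q : G × Bool) : Prop := ∀ z, Y.hi P z ∨ Y.lo Q z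
/-- Weak order. -/
def ltw (P Q : G × Bool) : Prop := ∀ z, Y.hiB P z ∨ Y.loB Q z

variable {Y}

theorem lo.w {P : G × Bool} {x : G} (h : Y.lo P x) : Y.loB P x := Y.sub _ h
theorem hi.w {P : G × Bool} {x : G} (h : Y.hi P x) : Y.hiB P x := Y.sub _ h
theorem lt.w {P Q : G × Bool} (h : Y.lt P Q) : Y.ltw P Q := fun z => (h z).imp hi.w lo.w

theorem dj {P : G × Bool} {x : G} (h1 : Y.loB P x) (h2 : Y.hiB P x) : False := by
  obtain ⟨h, e⟩ := P
  cases e
  · exact Y.disj _ h1 h2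
  · exact Y.disj _ h2 h1

theorem lt.trans {P Q T : G × Bool} (h1 : Y.lt P Q) (h2 : Y.lt Q T) : Y.lt P T := fun z =>
  (h1 z).imp_right fun a => (h2 z).resolve_left fun b => dj a.w b.w

theorem ltw.trans {P Q T : G × Bool} (h1 : Y.ltw P Q) (h2 : Y.ltw Q T) : Y.ltw P T := fun z =>
  (h1 z).imp_right fun a => (h2 z).resolve_left fun b => dj a b

theorem nest' {P Q : G × Bool} (hF : P.1⁻¹ * Q.1 ∉ Y.F) {x y : G} (h1 : Y.lo P x) (h2 : Y.lo Q x)
    (h3 : Y.hi P y) (h4 : Y.hi Q y) : Y.ltw P Q ∨ Y.ltw Q P := by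
  obtain ⟨h, e⟩ := P
  obtain ⟨h', e'⟩ := Q
  have key : ∀ z, (h⁻¹ * h')⁻¹ * (h⁻¹ * z) = h'⁻¹ * z := fun z => by group
  cases e
  · rcases Y.nest _ e' hF _ _ h1 h3 (by rw [key]; exact h2) (by rw [key]; exact h4) with a | a
    · left
      intro z
      have := a (h⁻¹ * z)
      rwa [key] at this
    · right
      intro z
      have := a (h⁻¹ * z)
      rwa [key] at this
  · rcases Y.nest _ (!e') hF _ _ h3 h1 (by rw [key]; exact h4)
      (by rw [key, Bool.not_not]; exact h2) with a | a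
    · right
      intro z
      have := a (h⁻¹ * z)
      rw [key] at this
      exact this.symm
    · left
      intro z
      have := a (h⁻¹ * z)
      rw [key, Bool.not_not] at this
      exact this.symm

theorem revw {x y : G} {n : ℕ} (h : Ch Y.ltw (fun P => Y.loB P x ∧ Y.hiB P y) n) :
    Ch Y.ltw (fun P => Y.loB P y ∧ Y.hiB P x) n :=
  h.rev (fun P => (P.1, !P.2))
    (fun P Q a z => by simpa only [hiB, loB, Bool.not_not] using (a z).symm)
    (fun P a => by simpa only [hiB, loB, Bool.not_not] using a.symm)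

theorem rev {p q : G × Bool → Prop} {n : ℕ} (h : Ch Y.lt p n) (h2 : ∀ P, p P → q (P.1, !P.2)) :
    Ch Y.lt q n :=
  h.rev (fun P => (P.1, !P.2))
    (fun P Q a z => by simpa only [hi, lo, Bool.not_not] using (a z).symm) h2

theorem bddw (hS : Subgroup.closure S = ⊤) (x y : G) :
    ∃ K, ∀ n, Ch Y.ltw (fun P => Y.loB P x ∧ Y.hiB P y) n → n ≤ K := by
  have key : ∀ w ∈ Subgroup.closure S,
      ∃ K, ∀ x n, Ch Y.ltw (fun P => Y.loB P x ∧ Y.hiB P (x * w)) n → n ≤ K := by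
    intro w hw
    induction hw using Subgroup.closure_induction with
    | mem t ht =>
      refine ⟨0, fun x n ⟨l, _, a2, a3⟩ => ?_⟩
      cases l with
      | nil => exact a3.ge
      | cons P l =>
        exfalso
        obtain ⟨b1, b2⟩ := a2 P (by simp)
        obtain ⟨h, e⟩ := P
        cases e
        · exact Y.nojump (h⁻¹ * x) t (Or.inl ht) b1 (by rw [mul_assoc]; exact b2)
        · exact Y.nojump (h⁻¹ * (x * t)) t⁻¹ (Or.inr (by rwa [inv_inv])) b2
            (by rw [show h⁻¹ * (x * t) * t⁻¹ = h⁻¹ * x by group]; exact b1)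
    | one =>
      refine ⟨0, fun x n ⟨l, _, a2, a3⟩ => ?_⟩
      cases l with
      | nil => exact a3.ge
      | cons P l =>
        obtain ⟨b1, b2⟩ := a2 P (by simp)
        rw [mul_one] at b2
        exact (dj b1 b2).elim
    | mul a b _ _ ha hb =>
      obtain ⟨K₁, h1⟩ := ha
      obtain ⟨K₂, h2⟩ := hb
      refine ⟨K₁ + K₂ + 1, fun x n h => ?_⟩
      obtain ⟨i, j, c1, c2, c3⟩ := h.split (fun P => Y.hiB P (x * a)) (fun P => Y.loB P (x * a))
        (fun P Q h => h _)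
      have := h1 x i (c1.map id (fun _ _ h => h) (fun P h => ⟨h.1.1, h.2⟩))
      have := h2 (x * a) j (c2.map id (fun _ _ h => h) (fun P h => ⟨h.2, by
        rw [mul_assoc]; exact h.1.2⟩))
      omega
    | inv a _ ha =>
      obtain ⟨K, h1⟩ := ha
      refine ⟨K, fun x n h => h1 (x * a⁻¹) n ?_⟩
      rw [inv_mul_cancel_right]
      exact revw h
  obtain ⟨K, h⟩ := key (x⁻¹ * y) (by rw [hS]; trivial)
  exact ⟨K, fun n hn => h x n (by rwa [mul_inv_cancel_left])⟩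

theorem irr (hS : Subgroup.closure S = ⊤) {P : G × Bool} {x y : G} (h1 : Y.lo P x)
    (h2 : Y.hi P y) : ¬ Y.ltw P P := by
  intro h
  obtain ⟨K, hK⟩ := bddw (Y := Y) hS x y
  have := hK (K + 1) ⟨List.replicate (K + 1) P, List.pairwise_replicate.2 (Or.inr h),
    fun Q hQ => by rw [List.eq_of_mem_replicate hQ]; exact ⟨h1.w, h2.w⟩, by simp⟩
  omega

theorem exc_fin (Y : Gate G S) : ∃ k : ℕ, ∀ Q : G × Bool, ∃ T : Finset (G × Bool), T.card ≤ k ∧
    ∀ P : G × Bool, P.1⁻¹ * Q.1 ∈ Y.F → P ∈ T := by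
  classical
  refine ⟨(Y.finF.toFinset ×ˢ (Finset.univ : Finset Bool)).card, fun Q =>
    ⟨(Y.finF.toFinset ×ˢ (Finset.univ : Finset Bool)).image (fun h => (Q.1 * h.1⁻¹, h.2)),
      Finset.card_image_le, fun P hP => Finset.mem_image.2 ⟨(P.1⁻¹ * Q.1, P.2), by simpa using hP,
        by simp⟩⟩⟩

theorem exc (hS : Subgroup.closure S = ⊤) : ∃ k : ℕ, ∀ (Q : G × Bool) (x y : G) (n : ℕ),
    Ch Y.lt (fun P => (Y.lo P x ∧ Y.hi P y) ∧ P.1⁻¹ * Q.1 ∈ Y.F) n → n ≤ k := by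
  classical
  obtain ⟨k, hk⟩ := Y.exc_fin
  refine ⟨k, fun Q x y n ⟨l, a1, a2, a3⟩ => ?_⟩
  obtain ⟨T, b1, b2⟩ := hk Q
  have hn : l.Nodup := a1.imp_of_mem (fun {P P'} hP _ h he => by
    subst he
    exact irr hS (a2 P hP).1.1 (a2 P hP).1.2 h.w)
  rw [← a3, ← List.toFinset_card_of_nodup hn]
  exact (Finset.card_le_card (fun P hP => b2 P (a2 P (List.mem_toFinset.1 hP)).2)).trans b1

theorem fin_sep (hS : Subgroup.closure S = ⊤) (x y : G) :
    {P | Y.lo P x ∧ Y.hi P y}.Finite := by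
  have key : ∀ (K : ℕ) (T : Set (G × Bool)), (∀ P ∈ T, Y.lo P x ∧ Y.hi P y) →
      (∀ n, Ch Y.ltw (· ∈ T) n → n ≤ K) → T.Finite := by
    intro K
    induction K with
    | zero =>
      intro T _ h
      rcases T.eq_empty_or_nonempty with rfl | ⟨P, hP⟩
      · exact Set.finite_empty
      · have := h 1 ⟨[P], by simp, by simpa using hP, rfl⟩
        omega
    | succ K ih =>
      intro T h1 h
      have h2 : {P | P ∈ T ∧ ∀ Q ∈ T, ¬ Y.ltw P Q}.Finite := by
        rcases {P | P ∈ T ∧ ∀ Q ∈ T, ¬ Y.ltw P Q}.eq_empty_or_nonempty with h3 | ⟨Q, hQ⟩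
        · rw [h3]
          exact Set.finite_empty
        · obtain ⟨k, hk⟩ := Y.exc_fin
          obtain ⟨U, -, hU⟩ := hk Q
          refine U.finite_toSet.subset (fun P hP => hU P ?_)
          by_contra hc
          rcases nest' hc (h1 P hP.1).1 (h1 Q hQ.1).1 (h1 P hP.1).2 (h1 Q hQ.1).2 with a | a
          · exact hP.2 Q hQ.1 a
          · exact hQ.2 P hP.1 a
      have h3 : {P | P ∈ T ∧ ∃ Q ∈ T, Y.ltw P Q}.Finite := by
        refine ih _ (fun P hP => h1 P hP.1) (fun n ⟨l, a1, a2, a3⟩ => ?_)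
        rcases l.eq_nil_or_concat' with rfl | ⟨l', P, rfl⟩
        · simp at a3
          omega
        · obtain ⟨-, Q, hQ, b1⟩ := a2 P (by simp)
          have := h (n + 1) ⟨l' ++ [P] ++ [Q], List.pairwise_append.2 ⟨a1, by simp, ?_⟩, ?_,
            by simp [← a3]⟩
          · omega
          · intro P' hP' Q' hQ'
            rw [List.mem_singleton.1 hQ']
            rcases List.mem_append.1 hP' with b2 | b2
            · exact ((List.pairwise_append.1 a1).2.2 P' b2 P (by simp)).trans b1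
            · rw [List.mem_singleton.1 b2]
              exact b1
          · intro P' hP'
            rcases List.mem_append.1 hP' with b2 | b2
            · exact (a2 P' b2).1
            · rw [List.mem_singleton.1 b2]
              exact hQ
      refine (h2.union h3).subset (fun P hP => ?_)
      by_cases hc : ∃ Q ∈ T, Y.ltw P Q
      · exact Or.inr ⟨hP, hc⟩
      · push Not at hc
        exact Or.inl ⟨hP, hc⟩
  obtain ⟨K, hK⟩ := bddw (Y := Y) hS x y
  exact key K _ (fun _ h => h) (fun n hn => hK n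
    (hn.map id (fun _ _ h => h) (fun P h => ⟨h.1.w, h.2.w⟩)))

variable (Y) in
/-- Maximal length of a chain separating `x` from `y` and `z`. -/
noncomputable def m (x y z : G) : ℕ :=
  sSup {n | Ch Y.lt (fun P => Y.lo P x ∧ Y.hi P y ∧ Y.hi P z) n}

section

variable (hS : Subgroup.closure S = ⊤)
include hS

theorem m_bdd (x y z : G) :
    BddAbove {n | Ch Y.lt (fun P => Y.lo P x ∧ Y.hi P y ∧ Y.hi P z) n} := by
  obtain ⟨K, hK⟩ := bddw (Y := Y) hS x y
  exact ⟨K, fun n hn => hK n (Ch.map hn id (fun _ _ h => h.w) (fun P h => ⟨h.1.w, h.2.1.w⟩))⟩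

theorem m_spec (x y z : G) :
    Ch Y.lt (fun P => Y.lo P x ∧ Y.hi P y ∧ Y.hi P z) (Y.m x y z) :=
  Nat.sSup_mem ⟨0, Ch.zero _ _⟩ (m_bdd hS x y z)

theorem le_m {x y z : G} {n : ℕ} {p : G × Bool → Prop} (h : Ch Y.lt p n)
    (hp : ∀ P, p P → Y.lo P x ∧ Y.hi P y ∧ Y.hi P z) : n ≤ Y.m x y z :=
  le_csSup (m_bdd hS x y z) (h.map id (fun _ _ h => h) hp)

theorem m_comm (x y z : G) : Y.m x y z = Y.m x z y :=
  le_antisymm (le_m hS (m_spec hS x y z) (fun _ h => ⟨h.1, h.2.2, h.2.1⟩))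
    (le_m hS (m_spec hS x z y) (fun _ h => ⟨h.1, h.2.2, h.2.1⟩))

theorem d_symm (x y : G) : Y.m x y y = Y.m y x x := by
  have key : ∀ x y : G, Y.m x y y ≤ Y.m y x x := fun x y =>
    le_m hS (rev (q := fun P => Y.lo P y ∧ Y.hi P x) (m_spec hS x y y)
      (fun P h => ⟨h.2.1, by simpa only [hi, lo, Bool.not_not] using h.1⟩))
      (fun _ h => ⟨h.1, h.2, h.2⟩)
  exact le_antisymm (key x y) (key y x)

theorem d_mul (g x y : G) : Y.m (g * x) (g * y) (g * y) = Y.m x y y := by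
  have key : ∀ g x y : G, Y.m x y y ≤ Y.m (g * x) (g * y) (g * y) := by
    intro g x y
    have e : ∀ a b : G, (g * a)⁻¹ * (g * b) = a⁻¹ * b := fun a b => by group
    refine le_m hS ((m_spec hS x y y).map (R' := Y.lt) (fun P => (g * P.1, P.2))
      (q := fun P => Y.lo P (g * x) ∧ Y.hi P (g * y)) (fun P Q h z => ?_) (fun P h => ?_))
      (fun _ h => ⟨h.1, h.2, h.2⟩)
    · have := h (g⁻¹ * z)
      simp only [hi, lo] at this ⊢
      rwa [← e P.1, ← e Q.1, mul_inv_cancel_left] at this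
    · simp only [hi, lo, e] at h ⊢
      exact ⟨h.1, h.2.1⟩
  refine le_antisymm ?_ (key g x y)
  simpa using key g⁻¹ (g * x) (g * y)

theorem d_self (x : G) : Y.m x x x = 0 := by
  obtain ⟨l, -, a2, a3⟩ := m_spec (Y := Y) hS x x x
  cases l with
  | nil => exact a3.symm
  | cons P l => exact (dj (a2 P (by simp)).1.w (a2 P (by simp)).2.1.w).elim

theorem d_tri (x y z : G) : Y.m x z z ≤ Y.m x y y + Y.m y z z + 1 := by
  obtain ⟨a, b, c1, c2, c3⟩ := (m_spec (Y := Y) hS x z z).split (fun P => Y.hi P y)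
    (fun P => Y.lo P y) (fun P Q h => h _)
  have := le_m hS c1 (x := x) (y := y) (z := y) (fun _ h => ⟨h.1.1, h.2, h.2⟩)
  have := le_m hS c2 (x := y) (y := z) (z := z) (fun _ h => ⟨h.2, h.1.2⟩)
  omega

theorem d_le (x y z : G) : Y.m x y y ≤ Y.m x y z + Y.m y x z + 1 := by
  obtain ⟨a, b, c1, c2, c3⟩ := (m_spec (Y := Y) hS x y y).split (fun P => Y.hi P z)
    (fun P => Y.lo P z) (fun P Q h => h _)
  have := le_m hS c1 (x := x) (y := y) (z := z) (fun _ h => ⟨h.1.1, h.1.2.1, h.2⟩)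
  have := le_m hS (rev (q := fun P => Y.lo P y ∧ Y.hi P x ∧ Y.hi P z) c2
    (fun P h => ⟨h.1.2.1, by simpa only [hi, lo, Bool.not_not] using h.1.1,
      by simpa only [hi, lo, Bool.not_not] using h.2⟩)) (fun _ h => h)
  omega

variable {k : ℕ} (hk : ∀ (Q : G × Bool) (x y : G) (n : ℕ),
    Ch Y.lt (fun P => (Y.lo P x ∧ Y.hi P y) ∧ P.1⁻¹ * Q.1 ∈ Y.F) n → n ≤ k)
include hk

theorem le_d (x y z : G) : Y.m x y z + Y.m y x z ≤ Y.m x y y + k + 3 := by
  have h1 := m_spec (Y := Y) hS x y z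
  obtain ⟨l, a1, a2, a3⟩ := rev (q := fun P => Y.lo P x ∧ Y.lo P z ∧ Y.hi P y)
    (m_spec (Y := Y) hS y x z)
    (fun P h => ⟨h.2.1, h.2.2, by simpa only [hi, lo, Bool.not_not] using h.1⟩)
  cases l with
  | nil =>
    have := le_m hS h1 (x := x) (y := y) (z := y) (fun _ h => ⟨h.1, h.2.1, h.2.1⟩)
    simp at a3
    omega
  | cons Q l =>
    obtain ⟨a, b, c1, ⟨l', c2, c3, c4⟩, c5⟩ := h1.part (fun P => P.1⁻¹ * Q.1 ∈ Y.F)
    have d1 := hk Q x y a (c1.map id (fun _ _ h => h) (fun P h => ⟨⟨h.1.1, h.1.2.1⟩, h.2⟩))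
    obtain ⟨d2, d3⟩ := List.pairwise_cons.1 a1
    have dQ := a2 Q (by simp)
    simp only [List.length_cons] at a3
    rcases l'.eq_nil_or_concat' with rfl | ⟨l'', P, rfl⟩
    · have := le_m hS (x := x) (y := y) (z := y) (p := fun P => Y.lo P x ∧ Y.hi P y)
        ⟨l, d3, fun P hP => ⟨(a2 P (by simp [hP])).1, (a2 P (by simp [hP])).2.2⟩, rfl⟩
        (fun _ h => ⟨h.1, h.2, h.2⟩)
      simp at c4
      omega
    · obtain ⟨⟨e1, e2, e3⟩, e4⟩ := c3 P (by simp)
      have e5 : Y.ltw P Q := (nest' e4 e1 dQ.1 e2 dQ.2.2).resolve_right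
        (fun h => (h z).elim (dj dQ.2.1.w) (fun h => dj h e3.w))
      obtain ⟨e6, -, e7⟩ := List.pairwise_append.1 c2
      have := le_m hS (x := x) (y := y) (z := y) (p := fun P => Y.lo P x ∧ Y.hi P y)
        ⟨l'' ++ l, List.pairwise_append.2 ⟨e6, d3, fun P' hP' Q' hQ' z' =>
          (e7 P' hP' P (by simp) z').imp_right (fun h => (d2 Q' hQ' z').resolve_left (fun h' =>
            (e5 z').elim (dj h.w) (fun h'' => dj h'' h'.w)))⟩, fun P' hP' => by
          rcases List.mem_append.1 hP' with h | h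
          · exact ⟨(c3 P' (by simp [h])).1.1, (c3 P' (by simp [h])).1.2.1⟩
          · exact ⟨(a2 P' (by simp [h])).1, (a2 P' (by simp [h])).2.2⟩, rfl⟩
        (fun _ h => ⟨h.1, h.2, h.2⟩)
      simp only [List.length_append, List.length_singleton] at this c4
      omega

theorem m_four (w x y z : G) :
    Y.m w x y ≤ Y.m w x z + k + 1 ∨ Y.m w y z ≤ Y.m w x z + k + 1 := by
  obtain ⟨a, b, c1, c2, c3⟩ := (m_spec (Y := Y) hS w x y).split (fun P => Y.hi P z)
    (fun P => Y.lo P z) (fun P Q h => h _)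
  obtain ⟨a', b', c1', ⟨l, -, c4, c5⟩, c3'⟩ := (m_spec (Y := Y) hS w y z).split
    (fun P => Y.hi P x) (fun P => Y.lo P x) (fun P Q h => h _)
  have h1 := le_m hS c1 (x := w) (y := x) (z := z) (fun _ h => ⟨h.1.1, h.1.2.1, h.2⟩)
  have h2 := le_m hS c1' (x := w) (y := x) (z := z) (fun _ h => ⟨h.1.1, h.2, h.1.2.2⟩)
  cases l with
  | nil =>
    simp at c5
    omega
  | cons Q l =>
    obtain ⟨⟨e1, e2, e3⟩, e4⟩ := c4 Q (by simp)
    have := hk Q w y b (c2.map id (fun _ _ h => h) (fun P h => ⟨⟨h.1.1, h.1.2.2⟩, by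
      by_contra hc
      rcases nest' hc h.1.1 e1 h.1.2.2 e2 with a | a
      · exact (a z).elim (dj h.2.w) (fun a => dj a e3.w)
      · exact (a x).elim (dj e4.w) (fun a => dj a h.1.2.1.w)⟩))
    omega

end

theorem lt_pow {i j : ℕ} (h : i < j) : Y.lt (Y.f ^ i, false) (Y.f ^ j, false) := by
  have key : ∀ i : ℕ, Y.lt (Y.f ^ i, false) (Y.f ^ (i + 1), false) := fun i z => by
    have := Y.step ((Y.f ^ i)⁻¹ * z)
    rwa [show Y.f⁻¹ * ((Y.f ^ i)⁻¹ * z) = (Y.f ^ (i + 1))⁻¹ * z by group] at this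
  induction j, h using Nat.le_induction with
  | base => exact key i
  | succ j _ ih => exact ih.trans (key j)

theorem ch_pow (a n : ℕ) {p : G × Bool → Prop} (h : ∀ i < n, p (Y.f ^ (a + i), false)) :
    Ch Y.lt p n := by
  refine ⟨(List.range n).map (fun i => (Y.f ^ (a + i), false)), List.pairwise_map.2
    (List.pairwise_lt_range.imp (fun h => lt_pow (by omega))), fun P hP => ?_, by simp⟩
  obtain ⟨i, hi, rfl⟩ := List.mem_map.1 hP
  exact h i (List.mem_range.1 hi)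

end Gate

open Gate in
theorem Gate.good {S : Set G} (hS : Subgroup.closure S = ⊤) (Y : Gate G S) :
    ∃ (L : Len G) (p : ℝ), L.Good Y.f p := by
  classical
  obtain ⟨k, hk⟩ := exc (Y := Y) hS
  let τ : G → ℕ := fun g => if g = 1 then 0 else Y.m 1 g g + 1
  have t1 : ∀ g, Y.m 1 g g ≤ τ g := by
    intro g
    simp only [τ]
    split_ifs with h
    · rw [h, d_self hS]
    · omega
  have t2 : ∀ g, τ g ≤ Y.m 1 g g + 1 := by
    intro g
    simp only [τ]
    split_ifs <;> omega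
  have dm : ∀ x y : G, Y.m 1 (x⁻¹ * y) (x⁻¹ * y) = Y.m x y y := fun x y => by
    rw [← d_mul hS x]
    simp
  let L : Len G :=
    { τ := fun g => τ g
      δ := (10 * k + 30 : ℕ)
      hδ := Nat.cast_nonneg _
      one := by simp [τ]
      nonneg := fun _ => Nat.cast_nonneg _
      tri := by
        intro x y
        norm_cast
        by_cases hx : x = 1
        · simp [hx, τ]
        by_cases hy : y = 1
        · simp [hy, τ]
        have h1 := t2 (x * y)
        have h2 := d_tri (Y := Y) hS 1 x (x * y)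
        have h3 := dm x (x * y)
        rw [inv_mul_cancel_left] at h3
        simp only [τ, if_neg hx, if_neg hy] at h1 ⊢
        omega
      symm := by
        intro x
        have h1 := dm x 1
        rw [mul_one, d_symm hS x] at h1
        simp only [τ, inv_eq_one, h1]
      four := by
        intro x y z
        norm_cast
        have a1 := t2 (x⁻¹ * z)
        have a2 := t2 y
        have a3 := t1 (x⁻¹ * y)
        have a4 := t1 z
        have a5 := t1 (y⁻¹ * z)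
        have a6 := t1 x
        rw [dm] at a1 a3 a5
        have b1 := d_le (Y := Y) hS x z 1
        have b2 := d_le (Y := Y) hS 1 y x
        have b2' := d_le (Y := Y) hS 1 y z
        have b3 := le_d hS hk x y 1
        have b4 := le_d hS hk 1 z x
        have b5 := le_d hS hk y z 1
        have b6 := le_d hS hk 1 x z
        have b7 := d_le (Y := Y) hS 1 x y
        have b8 := d_le (Y := Y) hS 1 z y
        have c1 := m_comm (Y := Y) hS x z 1
        have c2 := m_comm (Y := Y) hS z x 1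
        have c3 := m_comm (Y := Y) hS 1 y x
        have c4 := m_comm (Y := Y) hS y x 1
        have c5 := m_comm (Y := Y) hS x y 1
        have c6 := m_comm (Y := Y) hS 1 z x
        have c7 := m_comm (Y := Y) hS y z 1
        have c8 := m_comm (Y := Y) hS z y 1
        have c9 := m_comm (Y := Y) hS 1 z y
        rcases m_four hS hk 1 x y z with h | h
        · left
          omega
        · right
          omega }
  obtain ⟨x₀, hx₀⟩ := Y.ne_false
  obtain ⟨y₀, hy₀⟩ := Y.ne_true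
  have lo0 : ∀ i : ℕ, Y.lo (Y.f ^ i, false) x₀ := by
    have h0 : Y.lo (Y.f ^ 0, false) x₀ := by simpa [lo] using hx₀
    intro i
    rcases Nat.eq_zero_or_pos i with rfl | h
    · exact h0
    · exact (lt_pow h x₀).resolve_left (fun a => dj h0.w a.w)
  have hi0 : ∀ i n : ℕ, i ≤ n → Y.hi (Y.f ^ i, false) (Y.f ^ n * y₀) := by
    intro i n h
    have h0 : Y.hi (Y.f ^ n, false) (Y.f ^ n * y₀) := by simpa [hi] using hy₀
    rcases h.eq_or_lt with rfl | h
    · exact h0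
    · exact (lt_pow h _).resolve_right (fun a => dj a.w h0.w)
  have dy : ∀ n : ℕ, Y.m (Y.f ^ n) (Y.f ^ n * y₀) (Y.f ^ n * y₀) = Y.m 1 y₀ y₀ := fun n => by
    rw [← d_mul hS (Y.f ^ n) 1, mul_one]
  refine ⟨L, L.good_of_lox (c := 1) (C := (Y.m x₀ 1 1 + Y.m 1 y₀ y₀ + 2 : ℕ)) one_pos
    (fun n => ?_) (fun ε => ?_)⟩
  · have h1 := le_m hS (x := x₀) (y := Y.f ^ n * y₀) (z := Y.f ^ n * y₀)
      (ch_pow (Y := Y) 0 n (fun i hi => ⟨lo0 _, hi0 _ n (by omega), hi0 _ n (by omega)⟩))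
      (fun _ h => h)
    have h2 := d_tri (Y := Y) hS x₀ 1 (Y.f ^ n * y₀)
    have h3 := d_tri (Y := Y) hS 1 (Y.f ^ n) (Y.f ^ n * y₀)
    have h4 := t1 (Y.f ^ n)
    rw [dy] at h3
    have h5 : n ≤ τ (Y.f ^ n) + (Y.m x₀ 1 1 + Y.m 1 y₀ y₀ + 2) := by omega
    have h6 : (n : ℝ) ≤ τ (Y.f ^ n) + (Y.m x₀ 1 1 + Y.m 1 y₀ y₀ + 2 : ℕ) := by exact_mod_cast h5
    change 1 * (n : ℝ) - _ ≤ (τ (Y.f ^ n) : ℝ)
    linarith
  · obtain ⟨e, he⟩ := exists_nat_ge ε
    obtain ⟨j, hj⟩ : ∃ j, j = e + Y.m x₀ 1 1 + Y.m 1 y₀ y₀ + 2 := ⟨_, rfl⟩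
    refine ⟨j + j, Set.Finite.of_finite_image (f := fun g => (g * Y.f ^ j, false))
      ((fin_sep (Y := Y) hS 1 (Y.f ^ (j + j))).subset ?_) (fun a _ b _ h => by simpa using h)⟩
    rintro _ ⟨g, ⟨h1, h2⟩, rfl⟩
    have h1' : τ g ≤ e := by
      have : (τ g : ℝ) ≤ e := h1.trans he
      exact_mod_cast this
    have h2' : τ ((Y.f ^ (j + j))⁻¹ * g * Y.f ^ (j + j)) ≤ e := by
      have : (τ ((Y.f ^ (j + j))⁻¹ * g * Y.f ^ (j + j)) : ℝ) ≤ e := h2.trans he
      exact_mod_cast this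
    have a1 := t1 g
    have a2 := t1 ((Y.f ^ (j + j))⁻¹ * g * Y.f ^ (j + j))
    rw [mul_assoc, dm] at a2
    rw [mul_assoc] at h2'
    constructor
    · have h3 : Y.lo (Y.f ^ j, false) g⁻¹ := by
        by_contra hc
        have b1 := le_m hS (x := x₀) (y := g⁻¹) (z := g⁻¹)
          (ch_pow (Y := Y) 0 j (fun i hi => ⟨lo0 _,
            (lt_pow (by omega) _).resolve_right hc, (lt_pow (by omega) _).resolve_right hc⟩))
          (fun _ h => h)
        have b2 := d_tri (Y := Y) hS x₀ 1 g⁻¹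
        have b3 := dm g 1
        rw [mul_one, d_symm hS g] at b3
        omega
      simpa [lo] using h3
    · have h3 : Y.hi (Y.f ^ j, false) (g⁻¹ * Y.f ^ (j + j)) := by
        by_contra hc
        have b1 := le_m hS (x := g⁻¹ * Y.f ^ (j + j)) (y := Y.f ^ (j + j) * y₀)
          (z := Y.f ^ (j + j) * y₀)
          (ch_pow (Y := Y) (j + 1) j (fun i hi => ⟨(lt_pow (by omega) _).resolve_left hc,
            hi0 _ _ (by omega), hi0 _ _ (by omega)⟩)) (fun _ h => h)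
        have b2 := d_tri (Y := Y) hS (g⁻¹ * Y.f ^ (j + j)) (Y.f ^ (j + j)) (Y.f ^ (j + j) * y₀)
        have b3 := d_mul (Y := Y) hS g (g⁻¹ * Y.f ^ (j + j)) (Y.f ^ (j + j))
        rw [mul_inv_cancel_left] at b3
        rw [dy] at b2
        omega
      simpa [hi, mul_assoc] using h3

end Pool.Agent.MP_4a6971_al.H66

end

-- part MP_4a6971_al.H66.Curves
section

/-!
A curve system gives a gate.
-/

namespace Pool.Agent.MP_4a6971_al.H66

namespace CurveSys

variable {G C : Type*} [Group G] [MulAction G C] (Y : CurveSys G C) {M N : ℕ}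

/-- The markings obtained by applying the two multitwists alternately. -/
def nu (N : ℕ) (j : ℤ) : G :=
  (Y.T 0 N * Y.T 1 N) ^ (j / 2) * if j % 2 = 0 then 1 else Y.T 0 N

lemma nu_succ (N : ℕ) (j : ℤ) : Y.nu N (j + 1) = Y.nu N j * Y.T (j % 2) N := by
  unfold nu
  rcases Int.emod_two_eq_zero_or_one j with h | h
  · rw [show (j + 1) / 2 = j / 2 by omega, show (j + 1) % 2 = 1 by omega, h]
    simp
  · rw [show (j + 1) / 2 = j / 2 + 1 by omega, show (j + 1) % 2 = 0 by omega, h, zpow_add_one]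
    simp [mul_assoc]

lemma nu_shift (N : ℕ) (k : ℤ) : (Y.T 0 N * Y.T 1 N) ^ k * Y.nu N 0 = Y.nu N (2 * k) := by
  simp [nu]

variable {Y}

/-- The base sequence. -/
def base (H : Y.Cst M N) : Y.Sq M N where
  ν := Y.nu N
  p := 0
  fix j i hi := by
    rw [nu_succ, mul_smul, Y.T_fix _ _ _ (by rw [Int.even_iff] at hi ⊢; omega)]
  far j i hi := ⟨i + 1, i + 1, by
    rw [nu_succ, mul_smul, Y.D_smul]
    exact Y.T_far _ _ _ (by rw [Int.even_iff] at hi ⊢; omega)⟩
  near j β hβ a b := by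
    obtain ⟨β, rfl⟩ : ∃ β', β = Y.nu N j • β' := ⟨(Y.nu N j)⁻¹ • β, by simp⟩
    rw [nu_succ, mul_smul, Y.D_smul]
    have hθ := H.hθ
    by_cases h : ∃ i, Even (i - j % 2) ∧ Y.X β (Y.c i)
    · obtain ⟨i, hi, hX⟩ := h
      have h1 := Y.D_tri β (Y.c a) (Y.T (j % 2) N • Y.c b) _ hX
      have h2 := H.hM β 1 a i
      have h3 := H.hM β (Y.T (j % 2) N) i b
      rw [Y.T_fix _ _ _ hi] at h3
      simp only [one_smul] at h2
      omega
    · rcases Nat.eq_zero_or_pos (Y.D β (Y.c a) (Y.T (j % 2) N • Y.c b)) with h0 | h0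
      · omega
      · obtain ⟨h1, h2⟩ := Y.T_near (j % 2) N β (fun i hi => ⟨fun he => hβ i
          (by rw [Int.even_iff] at hi ⊢; omega) (by rw [he]), fun hX => h ⟨i, hi, hX⟩⟩) a
          (Y.D_cross _ _ _ h0)
        have h3 := Y.D_tri β (Y.c a) (Y.T (j % 2) N • Y.c b) _ h1
        have h4 := H.hM β (Y.T (j % 2) N) a b
        omega

end CurveSys

open CurveSys CurveSys.Sq in
theorem CurveSys.gate {G C : Type*} [Group G] [MulAction G C] (Y : CurveSys G C) (S : Finset G) :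
    Nonempty (Gate G (S : Set G)) := by
  obtain ⟨M, hθ, hM⟩ := Y.exists_bound S
  have H : Y.Cst M (21 * M + (2 * Y.n + 4) * (5 * M) + 1) :=
    ⟨hθ, fun a x i j => by simpa using hM 1 (Or.inl rfl) a x i j, Nat.lt_succ_self _⟩
  generalize 21 * M + (2 * Y.n + 4) * (5 * M) + 1 = N at H
  let P : Bool → Y.Sq M N := fun e => if e then (base H).rev else base H
  have h0 : (P false).IsRev (P true) := isRev_rev _
  have hrev : ∀ e, (P e).IsRev (P !e) := fun e => by
    cases e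
    · exact h0
    · exact h0.symm
  have hcrv : ∀ e, (P e).crv = (P false).crv := fun e => by
    cases e
    · rfl
    · exact h0.crv_eq
  have hν : ∀ e (j : ℤ), 0 ≤ j → j ≤ 2 * Y.n + 4 →
      ∃ l ∈ Set.Icc (0 : ℤ) (2 * Y.n + 4), (P e).ν j = (P false).ν l := fun e j h1 h2 => by
    cases e
    · exact ⟨j, ⟨h1, h2⟩, rfl⟩
    · exact ⟨_, ⟨by omega, by omega⟩, h0.1 j⟩
  have jump : ∀ x t, (t = 1 ∨ t ∈ S ∨ t⁻¹ ∈ S) → (P false).Left (1 + Y.n) (Y.mark x) →
      (P true).Left (1 + Y.n) (Y.mark (x * t)) → False := by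
    intro x t ht hx hy
    obtain ⟨i, k, -, -, h⟩ := h0.big H (j := 1 + Y.n)
      ⟨1 + Y.n + (P false).p, by simp, rfl⟩ hx (hy.mono H (H.diam_mark _) (by omega))
    have h1 := hM t ht ((P false).ν (1 + Y.n) • Y.c (1 + Y.n + (P false).p)) x i k
    have := H.hN
    omega
  let E : Set G := {g | ∀ i, g • Y.c i ∈ (P false).crv}
  have hE : E.Finite := Y.finite_into (P false).crv_finite
  let E' : Set G := ⋃ j ∈ Set.Icc (0 : ℤ) (2 * Y.n + 4), (fun g => g * (P false).ν j) ⁻¹' E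
  have hE' : E'.Finite := (Set.finite_Icc _ _).biUnion fun j _ =>
    hE.preimage (mul_left_injective _).injOn
  refine ⟨{ A := fun e => {x | (P e).Left 0 (Y.mark x)}
            B := fun e => {x | (P e).Left (1 + Y.n) (Y.mark x)}
            sub := fun e x hx => Left.mono H (H.diam_mark x) hx (by omega)
            disj := fun x h1 h2 => jump x 1 (Or.inl rfl) h1 (by rwa [mul_one])
            nojump := fun x t ht h1 h2 => jump x t (Or.inr ht) h1 h2
            F := E' ∪ E'⁻¹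
            finF := hE'.union hE'.inv
            nest := ?_
            f := (Y.T 0 N * Y.T 1 N) ^ (2 * Y.n + 3 : ℤ)
            step := ?_
            ne_false := ⟨_, left_self H _ 0⟩
            ne_true := ⟨_, left_self H _ 0⟩ }⟩
  · intro h e hF x y hx hy hx' hy'
    simp only [Set.mem_ofPred_eq, ← left_trans_iff] at hx' hy' ⊢
    refine nest H h0 ((hrev e).trans h) hx hy hx' hy' (fun j h1 h2 => ?_) (fun j h1 h2 => ?_)
    · by_contra hc
      push Not at hc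
      obtain ⟨l, hl, he⟩ := hν e j h1 h2
      refine hF (Or.inl (Set.mem_biUnion hl fun i => ?_))
      rw [← he]
      exact hc i
    · by_contra hc
      push Not at hc
      refine hF (Or.inr (Set.mem_biUnion (⟨h1, h2⟩ : j ∈ Set.Icc _ _) fun i => ?_))
      rw [mul_smul, ← hcrv e]
      exact mem_crv_trans (hc i)
  · intro z
    by_cases hz : (P true).Left 0 (Y.mark z)
    · exact Or.inl hz
    · right
      have h1 : (P false).Left (2 * (2 * Y.n + 3)) (Y.mark z) :=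
        h0.left_of_not H (j := 2 * Y.n + 3) (by rwa [sub_self]) (by omega)
      refine left_trans_iff.1 (h1.congr (Y.nu_shift N _) ?_)
      change Even (0 + 0 - 2 * (2 * (Y.n : ℤ) + 3) - 0)
      rw [Int.even_iff]
      omega

end Pool.Agent.MP_4a6971_al.H66

end

-- part MP_4a6971_al.H66.Final
section

namespace Pool.Agent.MP_4a6971_al.H66

open Filter Topology

theorem torelli_density {g : ℕ} (hg : 2 ≤ g) (S : Finset (ModGroup g))
    (hS : Subgroup.closure (S : Set (ModGroup g)) = ⊤) :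
    Tendsto (fun r : ℕ => ((wordBall (S : Set (ModGroup g)) r ∩ Torelli g).ncard : ℝ) /
      (wordBall (S : Set (ModGroup g)) r).ncard) atTop (𝓝 0) := by
  obtain ⟨e⟩ := surface_iso g
  obtain ⟨j, hj, hsq⟩ := exists_embed e
  obtain ⟨C, inst, Y, hT⟩ := exists_curveSys hg
  let _ := MulAction.compHom C j
  obtain ⟨Z⟩ := (Y.comap j hj fun p N => by
    obtain ⟨u, hu⟩ := hT p N
    exact hu ▸ hsq u).gate S
  obtain ⟨L, p, hL⟩ := Z.good hS
  obtain ⟨Q, π, J, _, hπ, hJ, hk⟩ := exists_quot (g := g) (by omega)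
  rw [← hk]
  exact density_of_good hL π hπ hJ hS

end Pool.Agent.MP_4a6971_al.H66

end
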