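import Pool.Agent.MP_4a6971_al.PingPong
import Mathlib

-- part MP_4a6971_al.Balls
section

/-!
Word length, factorisations of elements of a ball, and a double counting lemma.
-/

namespace Pool.Agent.MP_4a6971_al

open Finset

variable {G : Type*} [Group G]

theorem wordBall_mono (S : Set G) {r r' : ℕ} (h : r ≤ r') : wordBall S r ⊆ wordBall S r' := by
  rintro x ⟨l, h1, h2, h3⟩
  exact ⟨l, h1.trans h, h2, h3⟩

theorem wordBall_mul {S : Set G} {a b : ℕ} {x y : G} (hx : x ∈ wordBall S a)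
    (hy : y ∈ wordBall S b) : x * y ∈ wordBall S (a + b) := by
  obtain ⟨l, h1, h2, rfl⟩ := hx
  obtain ⟨l', h1', h2', rfl⟩ := hy
  refine ⟨l ++ l', by simpa using Nat.add_le_add h1 h1', fun y hy => ?_, by simp⟩
  rcases List.mem_append.1 hy with hy | hy
  · exact h2 y hy
  · exact h2' y hy

theorem wordBall_inv {S : Set G} {a : ℕ} {x : G} (hx : x ∈ wordBall S a) : x⁻¹ ∈ wordBall S a := by
  obtain ⟨l, h1, h2, rfl⟩ := hx
  refine ⟨(l.map fun y => y⁻¹).reverse, by simpa using h1, fun y hy => ?_,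
    (List.prod_inv_reverse l).symm⟩
  obtain ⟨z, hz, rfl⟩ := List.mem_map.1 (List.mem_reverse.1 hy)
  simpa [or_comm] using h2 z hz

theorem wordBall_split {S : Set G} {a b : ℕ} {x : G} (hx : x ∈ wordBall S (a + b)) :
    ∃ u ∈ wordBall S a, u⁻¹ * x ∈ wordBall S b := by
  obtain ⟨l, h1, h2, rfl⟩ := hx
  refine ⟨(l.take a).prod, ⟨_, by simp, fun y hy => h2 y (List.mem_of_mem_take hy), rfl⟩,
    l.drop a, by simp; omega, fun y hy => h2 y (List.mem_of_mem_drop hy), ?_⟩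
  rw [eq_inv_mul_iff_mul_eq, List.prod_take_mul_prod_drop]

theorem exists_mem_wordBall {S : Set G} (hS : Subgroup.closure S = ⊤) (x : G) :
    ∃ r, x ∈ wordBall S r := by
  have hx : x ∈ Subgroup.closure S := hS ▸ Subgroup.mem_top x
  induction hx using Subgroup.closure_induction with
  | mem x hx => exact ⟨1, [x], by simp, by simp [hx], by simp⟩
  | one => exact ⟨0, [], by simp, by simp, rfl⟩
  | mul x y _ _ hx hy =>
    obtain ⟨a, ha⟩ := hx
    obtain ⟨b, hb⟩ := hy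
    exact ⟨_, wordBall_mul ha hb⟩
  | inv x _ hx =>
    obtain ⟨a, ha⟩ := hx
    exact ⟨_, wordBall_inv ha⟩

/-- The word length. -/
noncomputable def len (S : Set G) (x : G) : ℕ := sInf {r | x ∈ wordBall S r}

theorem len_le_iff {S : Set G} (hS : Subgroup.closure S = ⊤) {x : G} {r : ℕ} :
    len S x ≤ r ↔ x ∈ wordBall S r :=
  ⟨fun h => wordBall_mono S h (Nat.sInf_mem (s := {r | x ∈ wordBall S r})
    (exists_mem_wordBall hS x)), fun h => Nat.sInf_le h⟩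

theorem len_mul_le {S : Set G} (hS : Subgroup.closure S = ⊤) (x y : G) :
    len S (x * y) ≤ len S x + len S y :=
  (len_le_iff hS).2 (wordBall_mul ((len_le_iff hS).1 le_rfl) ((len_le_iff hS).1 le_rfl))

theorem len_inv_le {S : Set G} (hS : Subgroup.closure S = ⊤) (x : G) : len S x⁻¹ ≤ len S x :=
  (len_le_iff hS).2 (wordBall_inv ((len_le_iff hS).1 le_rfl))

theorem exists_initial {S : Set G} (hS : Subgroup.closure S = ⊤) (x : G) {i : ℕ}
    (hi : i ≤ len S x) : ∃ u, len S u = i ∧ len S u + len S (u⁻¹ * x) = len S x := by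
  obtain ⟨u, h1, h2⟩ := wordBall_split (a := i) (b := len S x - i) (x := x)
    ((len_le_iff hS).1 (by omega))
  rw [← len_le_iff hS] at h1 h2
  have := len_mul_le hS u (u⁻¹ * x)
  rw [mul_inv_cancel_left] at this
  exact ⟨u, by omega, by omega⟩

theorem exists_factor [Infinite G] {S : Set G} (hf : S.Finite) (hS : Subgroup.closure S = ⊤)
    {x : G} {r i : ℕ} (hx : len S x ≤ r) (hi : 3 * i ≤ r) :
    ∃ u, len S u = i ∧ len S u + len S (u⁻¹ * x) ≤ r := by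
  by_cases h : i ≤ len S x
  · obtain ⟨u, h1, h2⟩ := exists_initial hS x h
    exact ⟨u, h1, by omega⟩
  · obtain ⟨z, hz⟩ := (wordBall_finite hf i).exists_notMem
    rw [← len_le_iff hS] at hz
    obtain ⟨u, h1, -⟩ := exists_initial hS z (i := i) (by omega)
    have := len_mul_le hS u⁻¹ x
    have := len_inv_le hS u
    exact ⟨u, h1, by omega⟩

/-- The ball as a finite set. -/
noncomputable def ball (S : Finset G) (r : ℕ) : Finset G := (wordBall_finite S.finite_toSet r).toFinset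

theorem mem_ball {S : Finset G} (hS : Subgroup.closure (S : Set G) = ⊤) {x : G} {r : ℕ} :
    x ∈ ball S r ↔ len (S : Set G) x ≤ r := by
  rw [ball, Set.Finite.mem_toFinset, len_le_iff hS]

theorem card_ball_add (S : Finset G) (a b : ℕ) :
    (ball S (a + b)).card ≤ (ball S a).card * (ball S b).card := by
  classical
  rw [← card_product]
  refine card_le_card_of_surjOn (fun p => p.1 * p.2) fun x hx => ?_
  obtain ⟨u, h1, h2⟩ := wordBall_split ((Set.Finite.mem_toFinset _).1 hx)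
  exact ⟨(u, u⁻¹ * x), by simpa [ball] using ⟨h1, h2⟩, by simp⟩

open Classical in
/-- Pairs of total length at most `r` whose product lies in `N`. -/
noncomputable def pairs (S : Finset G) (N : Set G) (r : ℕ) : Finset (G × G) :=
  (ball S r ×ˢ ball S r).filter fun p => len (S : Set G) p.1 + len (S : Set G) p.2 ≤ r ∧ p.1 * p.2 ∈ N

theorem mem_pairs {S : Finset G} {N : Set G} {r : ℕ} {p : G × G} (h : p ∈ pairs S N r) :
    len (S : Set G) p.1 + len (S : Set G) p.2 ≤ r ∧ p.1 * p.2 ∈ N := by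
  classical
  exact (mem_filter.1 h).2

theorem le_card_pairs [Infinite G] {S : Finset G} (hS : Subgroup.closure (S : Set G) = ⊤)
    (N : Set G) (r : ℕ) :
    (r / 3 + 1) * (wordBall (S : Set G) r ∩ N).ncard ≤ (pairs S N r).card := by
  classical
  have e : (wordBall (S : Set G) r ∩ N).ncard = ((ball S r).filter (· ∈ N)).card := by
    rw [← Set.ncard_coe_finset]
    congr 1
    ext x
    simp [ball]
  rw [e, ← card_range (r / 3 + 1), ← card_product]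
  refine card_le_card_of_surjOn (fun p => (len (S : Set G) p.1, p.1 * p.2)) ?_
  rintro ⟨i, x⟩ h
  simp only [coe_product, Set.mem_prod, mem_coe, mem_range, mem_filter, mem_ball hS] at h
  obtain ⟨u, h1, h2⟩ := exists_factor S.finite_toSet hS (i := i) h.2.1 (by omega)
  refine ⟨(u, u⁻¹ * x), ?_, by simp [h1]⟩
  simp only [pairs, mem_coe, mem_filter, mem_product, mem_ball hS, mul_inv_cancel_left]
  exact ⟨⟨by omega, by omega⟩, h2, h.2.2⟩

theorem card_le_insert (P : Finset (G × G)) (H B : Finset G) (C : G → Finset G)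
    (h : ∀ p ∈ P, ∃ t ∈ H, p.1 * t * p.2 ∈ B ∧ p.1 ∈ C (p.1 * t * p.2)) :
    P.card ≤ H.card * ∑ x ∈ B, (C x).card := by
  classical
  rw [← card_sigma, ← card_product]
  refine card_le_card_of_surjOn (fun q => (q.2.2, (q.2.2 * q.1)⁻¹ * q.2.1)) ?_
  rintro ⟨u, v⟩ hp
  obtain ⟨t, ht, h1, h2⟩ := h _ hp
  exact ⟨(t, ⟨u * t * v, u⟩), by simpa using ⟨ht, h1, h2⟩, by simp [mul_assoc]⟩

theorem exists_subset_ball (S H : Finset G) :
    ∃ C, ∀ t ∈ H, len (S : Set G) t ≤ C :=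
  ⟨H.sup (len (S : Set G)), fun _ ht => le_sup ht⟩

theorem le_mul_len {S : Finset G} (hS : Subgroup.closure (S : Set G) = ⊤) (τ : G → ℝ)
    (h0 : τ 1 = 0) (h1 : ∀ x, 0 ≤ τ x) (h2 : ∀ x y, τ (x * y) ≤ τ x + τ y) (h3 : ∀ x, τ x⁻¹ = τ x) :
    ∃ C : ℕ, ∀ x, τ x ≤ C * len (S : Set G) x := by
  obtain ⟨C, hC⟩ := exists_nat_ge (∑ s ∈ S, τ s)
  have hs : ∀ s ∈ S, τ s ≤ C := fun s hs => (single_le_sum (fun s _ => h1 s) hs).trans hC
  refine ⟨C, fun x => ?_⟩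
  obtain ⟨l, a1, a2, a3⟩ := (len_le_iff hS (x := x)).1 le_rfl
  have : ∀ l : List G, (∀ y ∈ l, y ∈ (S : Set G) ∨ y⁻¹ ∈ (S : Set G)) → τ l.prod ≤ C * l.length := by
    intro l hl
    induction l with
    | nil => simp [h0]
    | cons y l ih =>
      have b1 := ih fun z hz => hl z (by simp [hz])
      have b2 : τ y ≤ C := by
        rcases hl y (by simp) with h | h
        · exact hs y h
        · exact h3 y ▸ hs _ h
      rw [List.prod_cons, List.length_cons]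
      push_cast
      linarith [h2 y l.prod]
  refine (a3 ▸ this l a2).trans ?_
  gcongr

end Pool.Agent.MP_4a6971_al

end

-- part MP_4a6971_al.Windows
section

/-!
Counting lemmas for finite sets with an integer position function.
-/

namespace Pool.Agent.MP_4a6971_al

open Finset

variable {α : Type*}

/-- The number of elements of `A` whose position lies in the window `[p, p + l)`. -/
def win (A : Finset α) (pos : α → ℤ) (p : ℤ) (l : ℕ) : ℕ :=
  (A.filter fun y => p ≤ pos y ∧ pos y < p + l).card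

theorem card_le_of_fibre (A : Finset α) (pos : α → ℤ) (N : ℕ)
    (hN : ∀ p, (A.filter fun y => pos y = p).card ≤ N) (I : Finset ℤ) (hI : ∀ y ∈ A, pos y ∈ I) :
    A.card ≤ N * I.card :=
  Finset.card_le_mul_card_image_of_maps_to hI N fun p _ => hN p

theorem fibre_mono {A B : Finset α} (h : B ⊆ A) (pos : α → ℤ) {N : ℕ}
    (hN : ∀ p, (A.filter fun y => pos y = p).card ≤ N) (p : ℤ) :
    (B.filter fun y => pos y = p).card ≤ N :=
  (card_le_card (filter_subset_filter _ h)).trans (hN p)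

theorem win_le (A : Finset α) (pos : α → ℤ) (N : ℕ)
    (hN : ∀ p, (A.filter fun y => pos y = p).card ≤ N) (p : ℤ) (l : ℕ) : win A pos p l ≤ N * l := by
  have := card_le_of_fibre (A.filter fun y => p ≤ pos y ∧ pos y < p + l) pos N
    (fibre_mono (filter_subset _ _) pos hN) (Ico p (p + l)) fun y hy => by
      simpa using (mem_filter.1 hy).2
  simpa [win] using this

theorem win_add (A : Finset α) (pos : α → ℤ) (p : ℤ) (l l' : ℕ) :
    win A pos p (l + l') = win A pos p l + win A pos (p + l) l' := by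
  classical
  unfold win
  rw [← card_union_of_disjoint]
  · congr 1
    ext y
    simp only [mem_filter, mem_union]
    push_cast
    constructor
    · rintro ⟨h, h1, h2⟩
      by_cases h3 : pos y < p + l
      · exact Or.inl ⟨h, h1, h3⟩
      · exact Or.inr ⟨h, by omega, by omega⟩
    · rintro (⟨h, h1, h2⟩ | ⟨h, h1, h2⟩)
      · exact ⟨h, h1, by omega⟩
      · exact ⟨h, by omega, by omega⟩
  · rw [disjoint_left]
    intro y h1 h2
    have := (mem_filter.1 h1).2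
    have := (mem_filter.1 h2).2
    omega

/-- Elements preceded by few elements are sparse. -/
theorem sparse_count (A : Finset α) (pos : α → ℤ) (N n : ℕ)
    (hN : ∀ p, (A.filter fun y => pos y = p).card ≤ N) (hn : ∀ y ∈ A, 0 ≤ pos y ∧ pos y < n)
    (l : ℕ) (hl : 0 < l) (m : ℝ) (hm : 0 ≤ m) :
    ((A.filter fun y => (win A pos (pos y - l) l : ℝ) ≤ m).card : ℝ) ≤ (n / l + 1) * (m + N) := by
  classical
  set A' := A.filter fun y => (win A pos (pos y - l) l : ℝ) ≤ m with hA'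
  have hl' : (0 : ℤ) < l := by exact_mod_cast hl
  have h1 : ∀ y ∈ A', pos y / l ∈ Ico (0 : ℤ) ((n / l + 1 : ℕ) : ℤ) := by
    intro y hy
    obtain ⟨h1, h2⟩ := hn y (mem_filter.1 hy).1
    rw [mem_Ico]
    refine ⟨Int.ediv_nonneg h1 hl'.le, ?_⟩
    push_cast
    exact Int.lt_add_one_iff.2 (Int.ediv_le_ediv hl' h2.le)
  have h2 : ∀ b : ℤ, ((A'.filter fun y => pos y / l = b).card : ℝ) ≤ m + N := by
    intro b
    rcases (A'.filter fun y => pos y / l = b).eq_empty_or_nonempty with h | h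
    · rw [h]
      simp only [card_empty, Nat.cast_zero]
      positivity
    obtain ⟨z, hz, hmax⟩ := exists_max_image _ pos h
    have hz1 := mem_filter.1 hz
    have hz2 := (mem_filter.1 hz1.1).2
    have hsub : (A'.filter fun y => pos y / l = b) ⊆
        (A.filter fun y => pos z - l ≤ pos y ∧ pos y < pos z - l + l) ∪
          (A.filter fun y => pos y = pos z) := by
      intro y hy
      have hy1 := mem_filter.1 hy
      have hy2 := (mem_filter.1 hy1.1).1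
      have h3 := hmax y hy
      rw [mem_union, mem_filter, mem_filter]
      rcases h3.lt_or_eq with h3 | h3
      · refine Or.inl ⟨hy2, ?_, by omega⟩
        have e1 := Int.mul_ediv_add_emod (pos y) l
        have e2 := Int.mul_ediv_add_emod (pos z) l
        have e3 := Int.emod_nonneg (pos y) hl'.ne'
        have e4 := Int.emod_lt_of_pos (pos z) hl'
        rw [hy1.2] at e1
        rw [hz1.2] at e2
        omega
      · exact Or.inr ⟨hy2, h3⟩
    have h4 := (card_le_card hsub).trans (card_union_le _ _)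
    have h5 : ((A'.filter fun y => pos y / l = b).card : ℝ) ≤ win A pos (pos z - l) l + N := by
      exact_mod_cast h4.trans (Nat.add_le_add_left (hN _) _)
    linarith
  rw [card_eq_sum_card_fiberwise h1]
  push_cast
  refine (sum_le_card_nsmul _ _ _ fun b _ => h2 b).trans ?_
  rw [nsmul_eq_mul]
  refine mul_le_mul_of_nonneg_right ?_ (by positivity)
  have : (Ico (0 : ℤ) ((n : ℤ) / l + 1)).card = n / l + 1 := by
    rw [Int.card_Ico, sub_zero]
    exact_mod_cast Int.toNat_natCast (n / l + 1)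
  rw [this]
  push_cast
  linarith [Nat.cast_div_le (α := ℝ) (m := n) (n := l)]

/-- The energy at scale `l`. -/
noncomputable def energy (A : Finset α) (pos : α → ℤ) (l : ℕ) : ℝ :=
  ∑' p : ℤ, ((win A pos p l : ℝ) / l) ^ 2

theorem win_eq_zero {A : Finset α} {pos : α → ℤ} {n : ℕ} (hn : ∀ y ∈ A, 0 ≤ pos y ∧ pos y < n)
    {l : ℕ} {p : ℤ} (hp : p ∉ Ico (-(l : ℤ)) n) : win A pos p l = 0 := by
  unfold win
  rw [card_eq_zero, filter_eq_empty_iff]
  intro y hy h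
  have := hn y hy
  rw [mem_Ico] at hp
  omega

theorem energy_summable {A : Finset α} {pos : α → ℤ} {n : ℕ}
    (hn : ∀ y ∈ A, 0 ≤ pos y ∧ pos y < n) (l : ℕ) :
    Summable fun p : ℤ => ((win A pos p l : ℝ) / l) ^ 2 :=
  summable_of_ne_finset_zero (s := Ico (-(l : ℤ)) n) fun p hp => by simp [win_eq_zero hn hp]

theorem energy_le {A : Finset α} {pos : α → ℤ} {N n : ℕ}
    (hN : ∀ p, (A.filter fun y => pos y = p).card ≤ N) (hn : ∀ y ∈ A, 0 ≤ pos y ∧ pos y < n)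
    (l : ℕ) : energy A pos l ≤ N ^ 2 * (n + l) := by
  unfold energy
  rw [tsum_eq_sum (s := Ico (-(l : ℤ)) n) fun p hp => by simp [win_eq_zero hn hp]]
  refine (sum_le_card_nsmul _ _ ((N : ℝ) ^ 2) fun p _ => ?_).trans ?_
  · refine pow_le_pow_left₀ (by positivity) ?_ 2
    refine div_le_of_le_mul₀ (by positivity) (by positivity) ?_
    exact_mod_cast win_le A pos N hN p l
  · have : (Ico (-(l : ℤ)) n).card = n + l := by
      rw [Int.card_Ico, sub_neg_eq_add]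
      exact_mod_cast Int.toNat_natCast (n + l)
    rw [this, nsmul_eq_mul, mul_comm]
    push_cast
    rfl

theorem energy_step {A : Finset α} {pos : α → ℤ} {n : ℕ} (hn : ∀ y ∈ A, 0 ≤ pos y ∧ pos y < n)
    (l : ℕ) (hl : 0 < l) (κ : ℝ) (hκ : 0 ≤ κ) (I : Finset ℤ)
    (hI : ∀ p ∈ I, κ * l ≤ (win A pos (p - l) l : ℝ) - win A pos p l) :
    κ ^ 2 * I.card ≤ 4 * (energy A pos l - energy A pos (2 * l)) := by
  have hl' : (0 : ℝ) < l := by exact_mod_cast hl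
  obtain ⟨f, hf⟩ : ∃ f : ℤ → ℝ, f = fun p => ((win A pos p l : ℝ) / l) ^ 2 := ⟨_, rfl⟩
  obtain ⟨f₂, hf₂⟩ : ∃ f : ℤ → ℝ, f = fun p => ((win A pos p (2 * l) : ℝ) / (2 * l : ℕ)) ^ 2 :=
    ⟨_, rfl⟩
  have s1 : HasSum f (energy A pos l) := hf ▸ (energy_summable hn l).hasSum
  have s2 : HasSum f₂ (energy A pos (2 * l)) := hf₂ ▸ (energy_summable hn (2 * l)).hasSum
  have s3 : HasSum (fun p => f (p - l)) (energy A pos l) :=
    (Equiv.subRight (l : ℤ)).hasSum_iff.2 s1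
  have s4 : HasSum (fun p => f₂ (p - l)) (energy A pos (2 * l)) :=
    (Equiv.subRight (l : ℤ)).hasSum_iff.2 s2
  have s5 := ((s3.mul_left 2).add (s1.mul_left 2)).sub (s4.mul_left 4)
  have e : ∀ p, 2 * f (p - l) + 2 * f p - 4 * f₂ (p - l) =
      (((win A pos (p - l) l : ℝ) - win A pos p l) / l) ^ 2 := by
    intro p
    simp only [hf, hf₂]
    rw [two_mul l, win_add, sub_add_cancel]
    push_cast
    field_simp
    ring
  have s6 : ∑ p ∈ I, (2 * f (p - l) + 2 * f p - 4 * f₂ (p - l)) ≤ _ :=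
    sum_le_hasSum I (fun p _ => by rw [e]; exact sq_nonneg _) s5
  have s7 : κ ^ 2 * I.card ≤ ∑ p ∈ I, (2 * f (p - l) + 2 * f p - 4 * f₂ (p - l)) := by
    rw [mul_comm, ← nsmul_eq_mul]
    refine card_nsmul_le_sum _ _ _ fun p hp => ?_
    rw [e]
    exact pow_le_pow_left₀ hκ ((le_div_iff₀ hl').2 (hI p hp)) 2
  linarith

/-- Jumps of the local density happen at few positions for most dyadic scales. -/
theorem jump_count (A : Finset α) (pos : α → ℤ) (N n : ℕ)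
    (hN : ∀ p, (A.filter fun y => pos y = p).card ≤ N) (hn : ∀ y ∈ A, 0 ≤ pos y ∧ pos y < n)
    (l : ℕ) (hl : 0 < l) (κ : ℝ) (hκ : 0 < κ) (k : ℕ) :
    ∑ j ∈ range k, ((A.filter fun y => κ * (2 ^ j * l : ℕ) ≤
      (win A pos (pos y - (2 ^ j * l : ℕ)) (2 ^ j * l) : ℝ) - win A pos (pos y) (2 ^ j * l)).card : ℝ)
      ≤ 4 * N ^ 3 * (n + l) / κ ^ 2 := by
  classical
  have h1 : ∀ j, κ ^ 2 * ((A.filter fun y => κ * (2 ^ j * l : ℕ) ≤
      (win A pos (pos y - (2 ^ j * l : ℕ)) (2 ^ j * l) : ℝ) - win A pos (pos y) (2 ^ j * l)).card : ℝ)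
      ≤ 4 * N * (energy A pos (2 ^ j * l) - energy A pos (2 ^ (j + 1) * l)) := by
    intro j
    set B := A.filter fun y => κ * (2 ^ j * l : ℕ) ≤
      (win A pos (pos y - (2 ^ j * l : ℕ)) (2 ^ j * l) : ℝ) - win A pos (pos y) (2 ^ j * l)
    have a1 := energy_step hn (2 ^ j * l) (by positivity) κ hκ.le (B.image pos) fun p hp => by
      obtain ⟨y, hy, rfl⟩ := mem_image.1 hp
      exact (mem_filter.1 hy).2
    have a2 : (B.card : ℝ) ≤ N * (B.image pos).card := by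
      exact_mod_cast card_le_of_fibre B pos N (fibre_mono (filter_subset _ _) pos hN) _
        fun y hy => mem_image_of_mem _ hy
    rw [show 2 ^ (j + 1) * l = 2 * (2 ^ j * l) by ring]
    calc κ ^ 2 * B.card ≤ κ ^ 2 * (N * (B.image pos).card) := by gcongr
      _ = N * (κ ^ 2 * (B.image pos).card) := by ring
      _ ≤ N * (4 * (energy A pos (2 ^ j * l) - energy A pos (2 * (2 ^ j * l)))) := by gcongr
      _ = _ := by ring
  rw [le_div_iff₀ (by positivity), mul_comm, mul_sum]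
  refine (sum_le_sum fun j _ => h1 j).trans ?_
  rw [← mul_sum, sum_range_sub' (fun j => energy A pos (2 ^ j * l))]
  have a1 := energy_le hN hn l
  have a2 : 0 ≤ energy A pos (2 ^ k * l) := tsum_nonneg fun p => by positivity
  rw [pow_zero, one_mul]
  calc 4 * (N : ℝ) * (energy A pos l - energy A pos (2 ^ k * l)) ≤ 4 * N * (N ^ 2 * (n + l)) := by
        gcongr
        linarith
    _ = _ := by ring

end Pool.Agent.MP_4a6971_al

end

-- part MP_4a6971_al.Sys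
section

/-!
Pivot systems: an abstract length function with a finite family of linking elements in the kernel.
-/

namespace Pool.Agent.MP_4a6971_al

open Finset

variable {G Q : Type*} [Group G] [Group Q]

/-- A length function with linking elements in the kernel of `π`. -/
structure Sys (π : G →* Q) where
  τ : G → ℝ
  D : ℝ
  N : ℕ
  Φ : Finset G
  hD : 0 ≤ D
  one : τ 1 = 0
  nonneg : ∀ x, 0 ≤ τ x
  tri : ∀ x y, τ (x * y) ≤ τ x + τ y
  symm : ∀ x, τ x⁻¹ = τ x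
  between : ∀ E x y y', τ y + τ (y⁻¹ * x) ≤ τ x + E → τ y' + τ (y'⁻¹ * x) ≤ τ x + E → τ y ≤ τ y' →
    τ y + τ (y⁻¹ * y') ≤ τ y' + E + D
  ker : ∀ φ ∈ Φ, π φ = 1
  align : ∀ u v, ∃ φ ∈ Φ, τ u + τ φ + τ v ≤ τ (u * φ * v) + D
  loc : ∀ x (p : ℤ), {y | (∃ φ ∈ Φ, τ y + τ φ + τ ((y * φ)⁻¹ * x) ≤ τ x + 9 * D) ∧
    ⌊τ y⌋ = p}.encard ≤ N

namespace Sys

variable {π : G →* Q} (Y : Sys π)

/-- `y` is a pivot of `x` with tolerance `E`. -/
def IsPiv (E : ℝ) (x y : G) : Prop :=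
  ∃ φ ∈ Y.Φ, Y.τ y + Y.τ φ + Y.τ ((y * φ)⁻¹ * x) ≤ Y.τ x + E

/-- The position of an element. -/
noncomputable def pos (y : G) : ℤ := ⌊Y.τ y⌋

theorem IsPiv.mono {Y : Sys π} {E E' : ℝ} {x y : G} (h : Y.IsPiv E x y) (hE : E ≤ E') :
    Y.IsPiv E' x y := by
  obtain ⟨φ, h1, h2⟩ := h
  exact ⟨φ, h1, by linarith⟩

theorem IsPiv.near {Y : Sys π} {E : ℝ} {x y : G} (h : Y.IsPiv E x y) :
    Y.τ y + Y.τ (y⁻¹ * x) ≤ Y.τ x + E := by
  obtain ⟨φ, -, h2⟩ := h
  have := Y.tri φ ((y * φ)⁻¹ * x)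
  rw [show φ * ((y * φ)⁻¹ * x) = y⁻¹ * x by group] at this
  linarith

theorem piv_finite (x : G) : {y | Y.IsPiv (9 * Y.D) x y}.Finite := by
  refine ((Set.finite_Icc 0 ⌊Y.τ x + 9 * Y.D⌋).biUnion fun p _ =>
    Set.finite_of_encard_le_coe (Y.loc x p)).subset fun y hy => ?_
  refine Set.mem_biUnion (x := ⌊Y.τ y⌋) ⟨Int.floor_nonneg.2 (Y.nonneg y), Int.floor_le_floor ?_⟩
    ⟨hy, rfl⟩
  linarith [IsPiv.near hy, Y.nonneg (y⁻¹ * x)]

/-- All pivots of `x`. -/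
noncomputable def all (x : G) : Finset G := (Y.piv_finite x).toFinset

theorem mem_all {x y : G} : y ∈ Y.all x ↔ Y.IsPiv (9 * Y.D) x y := Set.Finite.mem_toFinset _

theorem all_fibre (x : G) (p : ℤ) : ((Y.all x).filter fun y => Y.pos y = p).card ≤ Y.N := by
  have h := Y.loc x p
  have e : {y | (∃ φ ∈ Y.Φ, Y.τ y + Y.τ φ + Y.τ ((y * φ)⁻¹ * x) ≤ Y.τ x + 9 * Y.D) ∧
      ⌊Y.τ y⌋ = p} = ((Y.all x).filter fun y => Y.pos y = p : Finset G) := by
    ext y
    rw [mem_coe, mem_filter, mem_all]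
    rfl
  rw [e, Set.encard_coe_eq_coe_finsetCard] at h
  exact_mod_cast h

open Classical in
/-- The pivots of `x` with tolerance `E` lying over `q`. -/
noncomputable def piv (E : ℝ) (q : Q) (x : G) : Finset G :=
  (Y.all x).filter fun y => Y.IsPiv E x y ∧ π y = q

theorem piv_subset (E : ℝ) (q : Q) (x : G) : Y.piv E q x ⊆ Y.all x := by
  classical
  exact filter_subset _ _

theorem mem_piv {E : ℝ} (hE : E ≤ 9 * Y.D) {q : Q} {x y : G} :
    y ∈ Y.piv E q x ↔ Y.IsPiv E x y ∧ π y = q := by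
  classical
  rw [piv, mem_filter, mem_all]
  exact ⟨fun h => h.2, fun h => ⟨h.1.mono hE, h⟩⟩

theorem exists_bound {S : Finset G} (hS : Subgroup.closure (S : Set G) = ⊤) (C : ℕ) :
    ∃ a b : ℕ, ∀ r, ∀ x ∈ ball S (C + r), ∀ y ∈ Y.all x,
      0 ≤ Y.pos y ∧ Y.pos y < (a * r + b : ℕ) := by
  obtain ⟨a, ha⟩ := le_mul_len hS Y.τ Y.one Y.nonneg Y.tri Y.symm
  obtain ⟨b, hb⟩ := exists_nat_gt (9 * Y.D)
  refine ⟨a, a * C + b, fun r x hx y hy => ⟨Int.floor_nonneg.2 (Y.nonneg y), ?_⟩⟩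
  rw [pos, Int.floor_lt]
  have h1 := (Y.mem_all.1 hy).near
  have h2 : (len (S : Set G) x : ℝ) ≤ C + r := by exact_mod_cast (mem_ball hS).1 hx
  have h3 := (ha x).trans (mul_le_mul_of_nonneg_left h2 (Nat.cast_nonneg a))
  push_cast
  linarith [Y.nonneg (y⁻¹ * x)]

theorem exists_insert (u v j : G) : ∃ φ ∈ Y.Φ, ∃ φ' ∈ Y.Φ,
    Y.IsPiv Y.D (u * (φ * j * φ') * v) u ∧
    Y.τ u + Y.τ φ + Y.τ j + Y.τ φ' + Y.τ v ≤ Y.τ (u * (φ * j * φ') * v) + 2 * Y.D := by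
  obtain ⟨φ', h1, h2⟩ := Y.align j v
  obtain ⟨φ, h3, h4⟩ := Y.align u (j * φ' * v)
  rw [show u * φ * (j * φ' * v) = u * (φ * j * φ') * v by group] at h4
  refine ⟨φ, h3, φ', h1, ⟨φ, h3, ?_⟩, by linarith⟩
  rwa [show (u * φ)⁻¹ * (u * (φ * j * φ') * v) = j * φ' * v by group]

theorem left_down {x u y : G} {M : ℝ} (hM : ∀ φ ∈ Y.Φ, Y.τ φ ≤ M) (hu : Y.IsPiv Y.D x u)
    (hy : Y.IsPiv Y.D x y) (h : Y.τ y + M ≤ Y.τ u) : Y.IsPiv (3 * Y.D) u y := by
  obtain ⟨φ, h1, h2⟩ := hy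
  have h3 := Y.tri y φ
  have h4 := Y.between Y.D x (y * φ) u (by linarith) hu.near (by linarith [hM φ h1])
  have h5 := Y.tri (y * φ) ((y * φ)⁻¹ * x)
  rw [mul_inv_cancel_left] at h5
  exact ⟨φ, h1, by linarith⟩

theorem left_up {x u y : G} (hu : Y.IsPiv Y.D x u) (hy : Y.IsPiv (3 * Y.D) u y) :
    Y.IsPiv (4 * Y.D) x y := by
  obtain ⟨φ, h1, h2⟩ := hy
  have h3 := Y.tri ((y * φ)⁻¹ * u) (u⁻¹ * x)
  rw [show (y * φ)⁻¹ * u * (u⁻¹ * x) = (y * φ)⁻¹ * x by group] at h3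
  exact ⟨φ, h1, by linarith [hu.near]⟩

theorem right_down {w v y : G} (hw : Y.τ w + Y.τ v ≤ Y.τ (w * v) + 2 * Y.D)
    (hy : Y.IsPiv (4 * Y.D) (w * v) y) (h : Y.τ w ≤ Y.τ y) :
    Y.IsPiv (9 * Y.D) v (w⁻¹ * y) ∧ Y.τ w + Y.τ (w⁻¹ * y) ≤ Y.τ y + 5 * Y.D := by
  have h3 := Y.between (4 * Y.D) (w * v) w y (by rw [inv_mul_cancel_left]; linarith [Y.hD])
    hy.near h
  obtain ⟨φ, h1, h2⟩ := hy
  refine ⟨⟨φ, h1, ?_⟩, by linarith⟩
  rw [show (w⁻¹ * y * φ)⁻¹ * v = (y * φ)⁻¹ * (w * v) by group]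
  linarith [Y.tri w v]

/-- The number of recent returns of the pivots of `u` to the fibre of `u`. -/
noncomputable def ret (u : G) (l : ℕ) : ℕ := win (Y.piv (3 * Y.D) (π u) u) Y.pos (Y.pos u - l) l

theorem win_le_ret {x u : G} {g : ℕ} (hg : ∀ φ ∈ Y.Φ, Y.τ φ ≤ g) (hu : Y.IsPiv Y.D x u) (l : ℕ) :
    win (Y.piv Y.D (π u) x) Y.pos (Y.pos u - l) l ≤ Y.ret u l + Y.N * g := by
  classical
  have hD := Y.hD
  refine le_trans ?_ (Nat.add_le_add_left (win_le (Y.all x) Y.pos Y.N (Y.all_fibre x)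
    (Y.pos u - g) g) _)
  refine (card_le_card fun y hy => ?_).trans (card_union_le _ _)
  rw [mem_filter] at hy
  obtain ⟨h1, h2, h3⟩ := hy
  rw [mem_union, mem_filter, mem_filter]
  by_cases h4 : Y.pos u - g ≤ Y.pos y
  · exact Or.inr ⟨Y.piv_subset _ _ _ h1, h4, by omega⟩
  · rw [Y.mem_piv (by linarith)] at h1
    refine Or.inl ⟨(Y.mem_piv (by linarith)).2 ⟨Y.left_down hg hu h1.1 ?_, h1.2⟩, h2, h3⟩
    have h5 : ((Y.pos y + 1 + g : ℤ) : ℝ) ≤ Y.pos u := Int.cast_le.2 (by omega)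
    push_cast at h5
    linarith [Int.lt_floor_add_one (Y.τ y), Int.floor_le (Y.τ u), show Y.pos y = ⌊Y.τ y⌋ from rfl,
      show (Y.pos y : ℝ) = ⌊Y.τ y⌋ from rfl, show (Y.pos u : ℝ) = ⌊Y.τ u⌋ from rfl]

theorem ret_le_win {x u : G} (hu : Y.IsPiv Y.D x u) (l : ℕ) :
    Y.ret u l ≤ win (Y.piv (4 * Y.D) (π u) x) Y.pos (Y.pos u - l) l := by
  have hD := Y.hD
  refine card_le_card (filter_subset_filter _ fun y hy => ?_)
  rw [Y.mem_piv (by linarith)] at hy ⊢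
  exact ⟨Y.left_up hu hy.1, hy.2⟩

open Classical in
theorem win_right_le {u t v : G} {g c : ℕ} (hg : Y.τ t + 1 ≤ g) (hc : 7 * Y.D ≤ c)
    (hu : Y.τ u + Y.τ t + Y.τ v ≤ Y.τ (u * t * v) + 2 * Y.D) (l : ℕ) :
    win (Y.piv (4 * Y.D) (π u) (u * t * v)) Y.pos (Y.pos u) l ≤ Y.N * g +
      (((Y.all v).filter fun y => Y.pos y < l + c).filter fun y => π y = (π t)⁻¹).card := by
  have hD := Y.hD
  refine le_trans ?_ (Nat.add_le_add (win_le (Y.all (u * t * v)) Y.pos Y.N (Y.all_fibre _)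
    (Y.pos u) g) (card_image_le (f := fun y => u * t * y)))
  refine (card_le_card fun y hy => ?_).trans (card_union_le _ _)
  rw [mem_filter] at hy
  obtain ⟨h1, h2, h3⟩ := hy
  rw [mem_union, mem_filter, mem_image]
  by_cases h4 : Y.pos y < Y.pos u + g
  · exact Or.inl ⟨Y.piv_subset _ _ _ h1, h2, h4⟩
  · rw [Y.mem_piv (by linarith)] at h1
    have h5 : ((Y.pos u + g : ℤ) : ℝ) ≤ Y.pos y := Int.cast_le.2 (by omega)
    have h6 : ((Y.pos y + 1 : ℤ) : ℝ) ≤ (Y.pos u + l : ℤ) := Int.cast_le.2 (by omega)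
    push_cast at h5 h6
    have e1 : (Y.pos y : ℝ) = ⌊Y.τ y⌋ := rfl
    have e2 : (Y.pos u : ℝ) = ⌊Y.τ u⌋ := rfl
    have a1 := Int.lt_floor_add_one (Y.τ y)
    have a2 := Int.floor_le (Y.τ y)
    have a3 := Int.lt_floor_add_one (Y.τ u)
    have a4 := Int.floor_le (Y.τ u)
    have a5 := Y.tri u t
    have a6 := Y.tri (u * t) v
    obtain ⟨b1, b2⟩ := Y.right_down (w := u * t) (v := v) (by linarith) h1.1 (by linarith)
    refine Or.inr ⟨(u * t)⁻¹ * y, ?_, by group⟩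
    rw [mem_filter, mem_filter, mem_all]
    refine ⟨⟨b1, ?_⟩, by simp [h1.2]⟩
    rw [pos, Int.floor_lt]
    push_cast
    linarith [Y.nonneg t]

end Sys

end Pool.Agent.MP_4a6971_al

end

-- part MP_4a6971_al.Count
section

/-!
The two counting estimates and the vanishing of the density for pivot systems.
-/

namespace Pool.Agent.MP_4a6971_al

open Finset

variable {G Q : Type*} [Group G] [Group Q]

theorem exists_conj_finset (π : G →* Q) (J : Finset G)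
    (hJ : ∀ j ∈ J, (Subgroup.centralizer {π j} : Set Q).Finite) :
    ∃ c : ℕ, ∀ z : Q, ∃ T : Finset Q, T.card ≤ c ∧ ∀ q, ∀ j ∈ J, q * π j * q⁻¹ = z → q ∈ T := by
  classical
  refine ⟨∑ j ∈ J, (Subgroup.centralizer {π j} : Set Q).ncard, fun z => ?_⟩
  have : ∀ j ∈ J, ∃ T : Finset Q, T.card ≤ (Subgroup.centralizer {π j} : Set Q).ncard ∧
      ∀ q, q * π j * q⁻¹ = z → q ∈ T := by
    intro j hj
    by_cases h : ∃ q₀, q₀ * π j * q₀⁻¹ = z
    · obtain ⟨q₀, h₀⟩ := h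
      refine ⟨(hJ j hj).toFinset.image (q₀ * ·), card_image_le.trans
        (Set.ncard_eq_toFinset_card _ (hJ j hj)).ge, fun q hq => ?_⟩
      refine mem_image.2 ⟨q₀⁻¹ * q, ?_, by simp⟩
      rw [Set.Finite.mem_toFinset, SetLike.mem_coe, Subgroup.mem_centralizer_singleton_iff]
      have : π j = q₀⁻¹ * (q * π j * q⁻¹) * q₀ := by rw [hq, ← h₀]; group
      calc q₀⁻¹ * q * π j = q₀⁻¹ * (q * π j * q⁻¹) * q₀ * (q₀⁻¹ * q) := by group
        _ = _ := by rw [← this]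
    · exact ⟨∅, by simp, fun q hq => (h ⟨q, hq⟩).elim⟩
  choose! T h1 h2 using this
  exact ⟨J.biUnion T, card_biUnion_le.trans (sum_le_sum h1), fun q j hj hq =>
    mem_biUnion.2 ⟨j, hj, h2 j hj q hq⟩⟩

namespace Sys

variable {π : G →* Q} (Y : Sys π)

open Classical in
/-- The inserted elements. -/
noncomputable def ins (J : Finset G) : Finset G :=
  (Y.Φ ×ˢ J ×ˢ Y.Φ).image fun p => p.1 * p.2.1 * p.2.2

theorem mem_ins {J : Finset G} {φ j φ' : G} (h1 : φ ∈ Y.Φ) (h2 : j ∈ J) (h3 : φ' ∈ Y.Φ) :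
    φ * j * φ' ∈ Y.ins J := by
  classical
  exact mem_image.2 ⟨(φ, j, φ'), by simp [h1, h2, h3], rfl⟩

theorem conj_eq {u v φ j φ' : G} (h1 : φ ∈ Y.Φ) (h3 : φ' ∈ Y.Φ) (h : u * v ∈ (π.ker : Set G)) :
    π u * π j * (π u)⁻¹ = π (u * (φ * j * φ') * v) := by
  have : π v = (π u)⁻¹ := by
    rw [eq_inv_iff_mul_eq_one, mul_eq_one_comm, ← map_mul]
    exact h
  simp [Y.ker _ h1, Y.ker _ h3, this]

include Y in
theorem count_returning_rarely {S : Finset G} (hS : Subgroup.closure (S : Set G) = ⊤) (j : G)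
    (hj : (Subgroup.centralizer {π j} : Set Q).Finite) :
    ∃ K M a b : ℕ, ∀ (κ : ℝ), 0 ≤ κ → ∀ l : ℕ, 0 < l → ∀ r : ℕ,
      (((pairs S π.ker r).filter fun p => (Y.ret p.1 l : ℝ) ≤ κ * l).card : ℝ) ≤
        K * (((a * r + b) / l + 1) * (κ * l + M)) * (ball S r).card := by
  classical
  obtain ⟨c, hc⟩ := exists_conj_finset π {j} (by simpa using hj)
  choose T hT1 hT2 using hc
  obtain ⟨C, hC⟩ := exists_subset_ball S (Y.ins {j})
  obtain ⟨a, b, hab⟩ := Y.exists_bound hS C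
  obtain ⟨g, hg⟩ := exists_nat_ge (∑ φ ∈ Y.Φ, Y.τ φ)
  have hg' : ∀ φ ∈ Y.Φ, Y.τ φ ≤ g := fun φ h => (single_le_sum (fun s _ => Y.nonneg s) h).trans hg
  have hD := Y.hD
  refine ⟨(Y.ins {j}).card * (ball S C).card * c, Y.N * g + Y.N, a, b, fun κ hκ l hl r => ?_⟩
  let Cand : G → Finset G := fun x => (T (π x)).biUnion fun q => (Y.piv Y.D q x).filter fun y =>
    (win (Y.piv Y.D q x) Y.pos (Y.pos y - l) l : ℝ) ≤ κ * l + Y.N * g
  have h1 := card_le_insert ((pairs S π.ker r).filter fun p => (Y.ret p.1 l : ℝ) ≤ κ * l)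
    (Y.ins {j}) (ball S (C + r)) Cand (by
      rintro ⟨u, v⟩ hp
      obtain ⟨hp1, hp2⟩ := mem_filter.1 hp
      obtain ⟨hp3, hp4⟩ := mem_pairs hp1
      obtain ⟨φ, a1, φ', a2, a3, -⟩ := Y.exists_insert u v j
      have a4 := Y.mem_ins a1 (mem_singleton_self j) a2
      refine ⟨_, a4, ?_, mem_biUnion.2 ⟨π u, hT2 _ _ j (mem_singleton_self j)
        (Y.conj_eq a1 a2 hp4), mem_filter.2 ⟨(Y.mem_piv (by linarith)).2 ⟨a3, rfl⟩, ?_⟩⟩⟩
      · rw [mem_ball hS]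
        have := len_mul_le hS (u * (φ * j * φ')) v
        have := len_mul_le hS u (φ * j * φ')
        have := hC _ a4
        dsimp only at *
        omega
      · have : (win (Y.piv Y.D (π u) (u * (φ * j * φ') * v)) Y.pos (Y.pos u - l) l : ℝ) ≤
            Y.ret u l + Y.N * g := by exact_mod_cast Y.win_le_ret hg' a3 l
        dsimp only at *
        linarith)
  have h2 : ∀ x ∈ ball S (C + r), ((Cand x).card : ℝ) ≤
      c * (((a * r + b) / l + 1) * (κ * l + (Y.N * g + Y.N : ℕ))) := by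
    intro x hx
    refine (Nat.cast_le.2 card_biUnion_le).trans ?_
    rw [Nat.cast_sum]
    refine (sum_le_card_nsmul _ _ _ fun q _ => sparse_count (Y.piv Y.D q x) Y.pos Y.N (a * r + b)
      (fibre_mono (Y.piv_subset _ _ _) _ (Y.all_fibre x))
      (fun y hy => hab r x hx y (Y.piv_subset _ _ _ hy)) l hl _ (by positivity)).trans ?_
    rw [nsmul_eq_mul]
    push_cast
    rw [add_assoc]
    gcongr
    exact hT1 _
  have h3 : ((ball S (C + r)).card : ℝ) ≤ (ball S C).card * (ball S r).card := by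
    exact_mod_cast card_ball_add S C r
  refine (Nat.cast_le.2 h1).trans ?_
  rw [Nat.cast_mul, Nat.cast_sum]
  calc _ ≤ ((Y.ins {j}).card : ℝ) * ((ball S (C + r)).card •
        (c * (((a * r + b) / l + 1) * (κ * l + (Y.N * g + Y.N : ℕ))))) := by
        gcongr
        exact sum_le_card_nsmul _ _ _ h2
    _ ≤ ((Y.ins {j}).card : ℝ) * (((ball S C).card * (ball S r).card) *
        (c * (((a * r + b) / l + 1) * (κ * l + (Y.N * g + Y.N : ℕ))))) := by
        rw [nsmul_eq_mul]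
        gcongr
    _ = _ := by push_cast; ring

open Classical in
theorem exists_few_returns (J : Finset G) (hJ : Set.InjOn π J) (hne : J.Nonempty) (A : Finset G) :
    ∃ j ∈ J, J.card * (A.filter fun y => π y = (π j)⁻¹).card ≤ A.card := by
  obtain ⟨j, hj, hmin⟩ := exists_min_image J (fun j => (A.filter fun y => π y = (π j)⁻¹).card) hne
  refine ⟨j, hj, (card_nsmul_le_sum J _ _ hmin).trans ?_⟩
  rw [← card_biUnion]
  · exact card_le_card (biUnion_subset.2 fun _ _ => filter_subset _ _)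
  · intro a ha b hb hab
    rw [Function.onFun, disjoint_left]
    intro y h1 h2
    exact hab (hJ ha hb (inv_injective ((mem_filter.1 h1).2.symm.trans (mem_filter.1 h2).2)))

include Y in
theorem count_returning_often {S : Finset G} (hS : Subgroup.closure (S : Set G) = ⊤)
    (hJ : ∀ f : ℕ, ∃ J : Finset G, J.card = f ∧ Set.InjOn π J ∧
      ∀ j ∈ J, (Subgroup.centralizer {π j} : Set Q).Finite) (κ : ℝ) (hκ : 0 < κ) :
    ∃ (K : ℝ) (l₁ a b : ℕ), 0 ≤ K ∧ ∀ l₀ : ℕ, l₁ < l₀ → ∀ k r : ℕ,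
      ∑ i ∈ range k, (((pairs S π.ker r).filter fun p =>
        ¬ (Y.ret p.1 (2 ^ i * l₀) : ℝ) ≤ κ * (2 ^ i * l₀ : ℕ)).card : ℝ) ≤
        K * (a * r + b + l₀) * (ball S r).card := by
  classical
  obtain ⟨f, hf⟩ := exists_nat_gt (8 * Y.N / κ)
  have hf0 : (0 : ℝ) < f := lt_of_le_of_lt (by positivity) hf
  rw [div_lt_iff₀ hκ] at hf
  obtain ⟨J, hJ1, hJ2, hJ3⟩ := hJ f
  have hne : J.Nonempty := card_pos.1 (by rw [hJ1]; exact_mod_cast hf0)
  obtain ⟨c, hc⟩ := exists_conj_finset π J hJ3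
  choose T hT1 hT2 using hc
  obtain ⟨C, hC⟩ := exists_subset_ball S (Y.ins J)
  obtain ⟨a, b, hab⟩ := Y.exists_bound hS C
  obtain ⟨g, hg⟩ := exists_nat_ge (∑ φ ∈ Y.ins J, Y.τ φ + 1)
  have hg' : ∀ φ ∈ Y.ins J, Y.τ φ + 1 ≤ g := fun φ h => by
    linarith [single_le_sum (fun s _ => Y.nonneg s) h]
  obtain ⟨d, hd⟩ := exists_nat_ge (7 * Y.D)
  obtain ⟨l₁, hl₁⟩ := exists_nat_ge (4 * (Y.N * g) / κ)
  rw [div_le_iff₀ hκ] at hl₁
  have hD := Y.hD
  refine ⟨(Y.ins J).card * (ball S C).card * c * (4 * Y.N ^ 3 / (κ / 2) ^ 2), d + l₁, a, b,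
    by positivity, fun l₀ hl₀ k r => ?_⟩
  let Cq : ℕ → G → Q → Finset G := fun i x q => (Y.piv (4 * Y.D) q x).filter fun y =>
    κ / 2 * (2 ^ i * l₀ : ℕ) ≤ (win (Y.piv (4 * Y.D) q x) Y.pos (Y.pos y - (2 ^ i * l₀ : ℕ))
      (2 ^ i * l₀) : ℝ) - win (Y.piv (4 * Y.D) q x) Y.pos (Y.pos y) (2 ^ i * l₀)
  have h1 := fun i => card_le_insert ((pairs S π.ker r).filter fun p =>
      ¬ (Y.ret p.1 (2 ^ i * l₀) : ℝ) ≤ κ * (2 ^ i * l₀ : ℕ))
    (Y.ins J) (ball S (C + r)) (fun x => (T (π x)).biUnion (Cq i x)) (by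
      rintro ⟨u, v⟩ hp
      obtain ⟨hp1, hp2⟩ := mem_filter.1 hp
      obtain ⟨hp3, hp4⟩ := mem_pairs hp1
      have hl : l₀ ≤ 2 ^ i * l₀ := Nat.le_mul_of_pos_left _ (by positivity)
      generalize hl' : 2 ^ i * l₀ = l at hp2 hl
      obtain ⟨j, hj, hj'⟩ := exists_few_returns J hJ2 hne
        ((Y.all v).filter fun y => Y.pos y < l + d)
      obtain ⟨φ, a1, φ', a2, a3, a5⟩ := Y.exists_insert u v j
      have a4 := Y.mem_ins a1 hj a2
      refine ⟨_, a4, ?_, mem_biUnion.2 ⟨π u, hT2 _ _ j hj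
        (Y.conj_eq a1 a2 hp4), mem_filter.2 ⟨(Y.mem_piv (by linarith)).2
          ⟨a3.mono (by linarith), rfl⟩, ?_⟩⟩⟩
      · rw [mem_ball hS]
        have := len_mul_le hS (u * (φ * j * φ')) v
        have := len_mul_le hS u (φ * j * φ')
        have := hC _ a4
        dsimp only at *
        omega
      · rw [hl']
        have b1 : (Y.ret u l : ℝ) ≤ win (Y.piv (4 * Y.D) (π u) (u * (φ * j * φ') * v)) Y.pos
            (Y.pos u - l) l := by exact_mod_cast Y.ret_le_win a3 l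
        have b2 := Y.win_right_le (u := u) (t := φ * j * φ') (v := v) (hg' _ a4) hd
          (by linarith [Y.tri (φ * j) φ', Y.tri φ j]) l
        have b3 : π (φ * j * φ') = π j := by simp [Y.ker _ a1, Y.ker _ a2]
        have b4 := card_le_of_fibre ((Y.all v).filter fun y => Y.pos y < l + d) Y.pos Y.N
          (fibre_mono (filter_subset _ _) _ (Y.all_fibre v)) (Ico 0 (l + d)) fun y hy =>
            mem_Ico.2 ⟨Int.floor_nonneg.2 (Y.nonneg y), (mem_filter.1 hy).2⟩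
        have b5 : (Ico (0 : ℤ) (l + d)).card = l + d := by
          rw [Int.card_Ico, sub_zero]
          exact_mod_cast Int.toNat_natCast (l + d)
        rw [b3] at b2
        rw [b5] at b4
        rw [hJ1] at hj'
        generalize (((Y.all v).filter fun y => Y.pos y < l + d).filter
          fun y => π y = (π j)⁻¹).card = m at b2 hj'
        have b6 : (f : ℝ) * m ≤ Y.N * (l + d) := by exact_mod_cast hj'.trans b4
        have b7 : (win (Y.piv (4 * Y.D) (π u) (u * (φ * j * φ') * v)) Y.pos (Y.pos u) l : ℝ) ≤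
            Y.N * g + m := by exact_mod_cast b2
        have b8 : (d : ℝ) ≤ l := by exact_mod_cast (by omega : d ≤ l)
        have b9 : (l₁ : ℝ) ≤ l := by exact_mod_cast (by omega : l₁ ≤ l)
        have b10 : (m : ℝ) ≤ κ / 4 * l := by
          refine le_of_mul_le_mul_left (b6.trans ?_) hf0
          calc (Y.N : ℝ) * (l + d) ≤ (f * κ / 8) * (l + l) := by gcongr; linarith
            _ = _ := by ring
        have b11 : (l₁ : ℝ) * κ ≤ l * κ := by gcongr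
        dsimp only at *
        linarith)
  have h2 : ∀ x ∈ ball S (C + r), ∑ i ∈ range k, (((T (π x)).biUnion (Cq i x)).card : ℝ) ≤
      c * (4 * Y.N ^ 3 * (a * r + b + l₀) / (κ / 2) ^ 2) := by
    intro x hx
    refine (sum_le_sum fun i _ => (Nat.cast_le.2 card_biUnion_le)).trans ?_
    simp only [Nat.cast_sum]
    rw [sum_comm]
    refine (sum_le_card_nsmul _ _ _ fun q _ => jump_count (Y.piv (4 * Y.D) q x) Y.pos Y.N (a * r + b)
      (fibre_mono (Y.piv_subset _ _ _) _ (Y.all_fibre x))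
      (fun y hy => hab r x hx y (Y.piv_subset _ _ _ hy)) l₀ (by omega) _ (half_pos hκ) k).trans ?_
    rw [nsmul_eq_mul]
    push_cast
    gcongr
    exact hT1 _
  have h3 : ((ball S (C + r)).card : ℝ) ≤ (ball S C).card * (ball S r).card := by
    exact_mod_cast card_ball_add S C r
  refine (sum_le_sum fun i _ => (Nat.cast_le.2 (h1 i))).trans ?_
  simp only [Nat.cast_mul, Nat.cast_sum]
  rw [← mul_sum, sum_comm]
  calc _ ≤ ((Y.ins J).card : ℝ) * ((ball S (C + r)).card •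
        (c * (4 * Y.N ^ 3 * (a * r + b + l₀) / (κ / 2) ^ 2))) := by
        gcongr
        exact sum_le_card_nsmul _ _ _ h2
    _ ≤ ((Y.ins J).card : ℝ) * (((ball S C).card * (ball S r).card) *
        (c * (4 * Y.N ^ 3 * (a * r + b + l₀) / (κ / 2) ^ 2))) := by
        rw [nsmul_eq_mul]
        gcongr
    _ = _ := by ring

include Y in
theorem card_pairs_le {S : Finset G} (hS : Subgroup.closure (S : Set G) = ⊤)
    (hJ : ∀ f : ℕ, ∃ J : Finset G, J.card = f ∧ Set.InjOn π J ∧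
      ∀ j ∈ J, (Subgroup.centralizer {π j} : Set Q).Finite) (η : ℝ) (hη : 0 < η) :
    ∃ C : ℝ, ∀ r : ℕ, ((pairs S π.ker r).card : ℝ) ≤ (η * r + C) * (ball S r).card := by
  classical
  obtain ⟨J, h1, -, h2⟩ := hJ 1
  obtain ⟨j, rfl⟩ := card_eq_one.1 h1
  obtain ⟨K, M, a, b, hA⟩ := Y.count_returning_rarely hS j (h2 j (mem_singleton_self j))
  obtain ⟨κ, hκ, hκ'⟩ : ∃ κ : ℝ, 0 < κ ∧ 4 * K * a * κ ≤ η :=
    ⟨η / (4 * K * a + 1), by positivity, by
      rw [← mul_div_assoc, div_le_iff₀ (by positivity)]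
      linarith⟩
  obtain ⟨K', l₁, a', b', hK', hB⟩ := Y.count_returning_often hS hJ κ hκ
  obtain ⟨l₂, hl₂⟩ := exists_nat_ge (M / κ)
  rw [div_le_iff₀ hκ] at hl₂
  obtain ⟨k, hk⟩ := exists_nat_gt (2 * K' * a' / η)
  have hk0 : (0 : ℝ) < k := lt_of_le_of_lt (by positivity) hk
  rw [div_lt_iff₀ hη] at hk
  obtain ⟨l₀, e1, e2⟩ : ∃ l₀ : ℕ, l₁ < l₀ ∧ l₂ ≤ l₀ := ⟨l₁ + l₂ + 1, by omega, by omega⟩
  refine ⟨2 * K * κ * (b + 2 ^ k * l₀) + K' * (b' + l₀) / k, fun r => ?_⟩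
  have h3 : ∀ i ∈ range k, (((pairs S π.ker r).filter fun p =>
      (Y.ret p.1 (2 ^ i * l₀) : ℝ) ≤ κ * (2 ^ i * l₀ : ℕ)).card : ℝ) ≤
      (η / 2 * r + 2 * K * κ * (b + 2 ^ k * l₀)) * (ball S r).card := by
    intro i hi
    have b0 : 0 < 2 ^ i * l₀ := Nat.mul_pos (by positivity) (by omega)
    refine (hA κ hκ.le _ b0 r).trans (mul_le_mul_of_nonneg_right ?_ (by positivity))
    have b1 : l₂ ≤ 2 ^ i * l₀ := e2.trans (Nat.le_mul_of_pos_left _ (by positivity))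
    have b2 : 2 ^ i * l₀ ≤ 2 ^ k * l₀ :=
      Nat.mul_le_mul_right _ (Nat.pow_le_pow_right two_pos (mem_range.1 hi).le)
    generalize 2 ^ i * l₀ = l at b0 b1 b2
    have c0 : (0 : ℝ) < l := by exact_mod_cast b0
    have c1 : (l₂ : ℝ) * κ ≤ l * κ := by gcongr
    have c2 : (l : ℝ) ≤ 2 ^ k * l₀ := by exact_mod_cast b2
    calc (K : ℝ) * (((a * r + b) / l + 1) * (κ * l + M))
        ≤ K * (((a * r + b) / l + 1) * (2 * κ * l)) := by gcongr; linarith
      _ = 4 * K * a * κ / 2 * r + 2 * K * κ * (b + l) := by field_simp; ring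
      _ ≤ _ := by gcongr
  have h4 := hB l₀ e1 k r
  have h5 : (k : ℝ) * (pairs S π.ker r).card = ∑ i ∈ range k, ((((pairs S π.ker r).filter fun p =>
      (Y.ret p.1 (2 ^ i * l₀) : ℝ) ≤ κ * (2 ^ i * l₀ : ℕ)).card : ℝ) + (((pairs S π.ker r).filter
        fun p => ¬ (Y.ret p.1 (2 ^ i * l₀) : ℝ) ≤ κ * (2 ^ i * l₀ : ℕ)).card : ℝ)) := by
    simp only [← Nat.cast_add, card_filter_add_card_filter_not]
    simp
  rw [sum_add_distrib] at h5
  have h6 := sum_le_card_nsmul _ _ _ h3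
  rw [card_range, nsmul_eq_mul] at h6
  refine le_of_mul_le_mul_left ?_ hk0
  have h7 : K' * (a' * r + b' + l₀) * (ball S r).card ≤
      k * ((η / 2 * r + K' * (b' + l₀) / k) * (ball S r).card) := by
    rw [← mul_assoc (k : ℝ)]
    refine mul_le_mul_of_nonneg_right ?_ (by positivity)
    have : K' * a' * r ≤ k * η / 2 * r := by gcongr; linarith
    calc K' * (a' * r + b' + l₀) = K' * a' * r + K' * (b' + l₀) := by ring
      _ ≤ k * η / 2 * r + K' * (b' + l₀) := by linarith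
      _ = _ := by field_simp
  calc _ ≤ _ := h5.le.trans (add_le_add h6 (h4.trans h7))
    _ = _ := by ring

include Y in
open Filter Topology in
theorem density_zero [Infinite G] {S : Finset G} (hS : Subgroup.closure (S : Set G) = ⊤)
    (hJ : ∀ f : ℕ, ∃ J : Finset G, J.card = f ∧ Set.InjOn π J ∧
      ∀ j ∈ J, (Subgroup.centralizer {π j} : Set Q).Finite) :
    Tendsto (fun r : ℕ => ((wordBall (S : Set G) r ∩ π.ker).ncard : ℝ) /
      (wordBall (S : Set G) r).ncard) atTop (𝓝 0) := by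
  rw [Metric.tendsto_atTop]
  intro ε hε
  obtain ⟨C, hC⟩ := Y.card_pairs_le hS hJ (ε / 6) (by positivity)
  obtain ⟨R, hR⟩ := exists_nat_ge (6 * C / ε)
  rw [div_le_iff₀ hε] at hR
  refine ⟨R, fun r hr => ?_⟩
  have e : (wordBall (S : Set G) r).ncard = (ball S r).card := Set.ncard_eq_toFinset_card _ _
  have h0 : (0 : ℝ) < (ball S r).card := by
    exact_mod_cast card_pos.2 ⟨1, (mem_ball hS).2 ((len_le_iff hS).2 ⟨[], by simp, by simp, rfl⟩)⟩
  rw [Real.dist_eq, sub_zero, abs_of_nonneg (by positivity), e, div_lt_iff₀ h0]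
  have h1 : ((r / 3 + 1 : ℕ) : ℝ) * (wordBall (S : Set G) r ∩ π.ker).ncard ≤
      (pairs S π.ker r).card := by exact_mod_cast le_card_pairs hS π.ker r
  have h2 : (r : ℝ) < 3 * (r / 3 + 1 : ℕ) := by exact_mod_cast (by omega : r < 3 * (r / 3 + 1))
  have h3 : (R : ℝ) * ε ≤ r * ε := by gcongr
  refine lt_of_mul_lt_mul_left (a := ((r / 3 + 1 : ℕ) : ℝ)) ?_ (by positivity)
  refine (h1.trans (hC r)).trans_lt ?_
  rw [← mul_assoc]
  gcongr
  nlinarith

end Sys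

end Pool.Agent.MP_4a6971_al

end

-- part MP_4a6971_al.Hyp
section

/-!
Construction of a pivot system from a hyperbolic length function and a WPD element of the kernel.
-/

namespace Pool.Agent.MP_4a6971_al

variable {G Q : Type*} [Group G] [Group Q]

/-- A length function satisfying the four point condition. -/
structure Len (G : Type*) [Group G] where
  τ : G → ℝ
  δ : ℝ
  hδ : 0 ≤ δ
  one : τ 1 = 0
  nonneg : ∀ x, 0 ≤ τ x
  tri : ∀ x y, τ (x * y) ≤ τ x + τ y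
  symm : ∀ x, τ x⁻¹ = τ x
  four : ∀ x y z, τ (x⁻¹ * z) + τ y ≤ τ (x⁻¹ * y) + τ z + δ ∨
    τ (x⁻¹ * z) + τ y ≤ τ (y⁻¹ * z) + τ x + δ

namespace Len

variable (L : Len G)

theorem comm (x y : G) : L.τ (x⁻¹ * y) = L.τ (y⁻¹ * x) := by
  rw [← L.symm, mul_inv_rev, inv_inv]

theorem tri' (x y : G) : L.τ y ≤ L.τ x + L.τ (x⁻¹ * y) := by
  simpa using L.tri x (x⁻¹ * y)

theorem between {E : ℝ} {x y y' : G} (h1 : L.τ y + L.τ (y⁻¹ * x) ≤ L.τ x + E)
    (h2 : L.τ y' + L.τ (y'⁻¹ * x) ≤ L.τ x + E) (h3 : L.τ y ≤ L.τ y') :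
    L.τ y + L.τ (y⁻¹ * y') ≤ L.τ y' + E + L.δ := by
  rcases L.four y x y' with h | h <;> linarith [L.comm x y']

theorem close {E c : ℝ} {x y y' : G} (h1 : L.τ y + L.τ (y⁻¹ * x) ≤ L.τ x + E)
    (h2 : L.τ y' + L.τ (y'⁻¹ * x) ≤ L.τ x + E) (h3 : L.τ y ≤ L.τ y' + c) (h4 : L.τ y' ≤ L.τ y + c) :
    L.τ (y⁻¹ * y') ≤ c + E + L.δ := by
  rcases L.four y x y' with h | h <;> linarith [L.comm x y']

theorem extend {E : ℝ} {x y x' : G} (h1 : L.τ x + L.τ y ≤ L.τ (x⁻¹ * y) + E)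
    (h2 : L.τ (x⁻¹ * x') + E + L.δ < L.τ x + L.τ x') :
    L.τ x' + L.τ y ≤ L.τ (x'⁻¹ * y) + E + L.δ := by
  rcases L.four x x' y with h | h <;> linarith

theorem pow_le (a : G) (n : ℕ) : L.τ (a ^ n) ≤ n * L.τ a := by
  induction n with
  | zero => simp [L.one]
  | succ n ih =>
    rw [pow_succ]
    push_cast
    linarith [L.tri (a ^ n) a]

theorem chain_of_long {γ : G} (h : L.τ γ + 2 * L.δ < L.τ (γ ^ 2)) :
    ∃ p, ∀ i j : ℕ, L.τ (γ ^ i) + L.τ (γ ^ j) ≤ L.τ (γ ^ (i + j)) + p := by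
  have hδ := L.hδ
  obtain ⟨P, hP⟩ : ∃ P, P = 2 * L.τ γ - L.τ (γ ^ 2) := ⟨_, rfl⟩
  have hP0 : 0 ≤ P := by
    have := L.pow_le γ 2
    push_cast at this
    linarith
  have A : ∀ n : ℕ, L.τ γ + L.τ (γ ^ n) ≤ L.τ (γ ^ (n + 1)) + P + L.δ := by
    intro n
    induction n with
    | zero => simp [L.one]; linarith
    | succ n ih =>
      have := L.extend (E := P) (x := γ) (y := γ⁻¹) (x' := γ ^ (n + 1))
        (by rw [show γ⁻¹ * γ⁻¹ = (γ ^ 2)⁻¹ by group, L.symm, L.symm]; linarith)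
        (by rw [show γ⁻¹ * γ ^ (n + 1) = γ ^ n by group]; linarith)
      rw [show (γ ^ (n + 1))⁻¹ * γ⁻¹ = (γ ^ (n + 1 + 1))⁻¹ by group, L.symm, L.symm] at this
      linarith
  refine ⟨P + 2 * L.δ, fun i j => ?_⟩
  rcases i with _ | i
  · simp [L.one]; linarith
  · have := L.extend (E := P + L.δ) (x := γ) (y := (γ ^ j)⁻¹) (x' := γ ^ (i + 1))
      (by rw [show γ⁻¹ * (γ ^ j)⁻¹ = (γ ^ (j + 1))⁻¹ by group, L.symm, L.symm]; linarith [A j])
      (by rw [show γ⁻¹ * γ ^ (i + 1) = γ ^ i by group]; linarith [A i])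
    rw [show (γ ^ (i + 1))⁻¹ * (γ ^ j)⁻¹ = (γ ^ (i + 1 + j))⁻¹ by group, L.symm, L.symm] at this
    linarith

theorem exists_long {a : G} {c C : ℝ} (hc : 0 < c) (h : ∀ n : ℕ, c * n - C ≤ L.τ (a ^ n)) :
    ∃ m : ℕ, L.τ (a ^ m) + 2 * L.δ < L.τ ((a ^ m) ^ 2) := by
  by_contra! hcon
  have hδ := L.hδ
  have h1 : ∀ k : ℕ, L.τ (a ^ 2 ^ k) ≤ L.τ a + k * (2 * L.δ) := by
    intro k
    induction k with
    | zero => simp
    | succ k ih =>
      rw [pow_succ, pow_mul]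
      push_cast
      linarith [hcon (2 ^ k)]
  have hC : 0 ≤ C := by simpa [L.one] using h 0
  have ha := L.nonneg a
  obtain ⟨s, hs⟩ := exists_nat_gt ((C + L.τ a + 4 * L.δ) / c)
  have hs0 : (0 : ℝ) < s := lt_of_le_of_lt (by positivity) hs
  have hs1 : (1 : ℝ) ≤ s := by exact_mod_cast Nat.cast_pos.1 hs0
  rw [div_lt_iff₀ hc] at hs
  have h2 : (s : ℝ) ≤ 2 ^ s := by exact_mod_cast (Nat.lt_two_pow_self (n := s)).le
  have h3 := (h (2 ^ (2 * s))).trans (h1 (2 * s))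
  push_cast at h3
  have h4 : (s : ℝ) * s ≤ 2 ^ (2 * s) := by
    rw [two_mul, pow_add]
    gcongr
  nlinarith

theorem chain_of_lox {a : G} {c C : ℝ} (hc : 0 < c) (h : ∀ n : ℕ, c * n - C ≤ L.τ (a ^ n)) :
    ∃ p, ∀ i j : ℕ, L.τ (a ^ i) + L.τ (a ^ j) ≤ L.τ (a ^ (i + j)) + p := by
  obtain ⟨m, hm⟩ := L.exists_long hc h
  obtain ⟨p, hp⟩ := L.chain_of_long hm
  have hm0 : 0 < m := Nat.pos_of_ne_zero (by
    rintro rfl
    simp at hm
    linarith [L.hδ])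
  have h1 : ∀ i, L.τ (a ^ (i % m)) ≤ m * L.τ a := fun i => (L.pow_le a _).trans (by
    gcongr
    · exact L.nonneg a
    · exact (Nat.mod_lt i hm0).le)
  have h2 : ∀ i, a ^ i = (a ^ m) ^ (i / m) * a ^ (i % m) := fun i => by
    rw [← pow_mul, ← pow_add, Nat.div_add_mod]
  refine ⟨p + 4 * (m * L.τ a), fun i j => ?_⟩
  have e : (a ^ m) ^ (i / m + j / m) = a ^ (i + j) * (a ^ (i % m))⁻¹ * (a ^ (j % m))⁻¹ := by
    conv_rhs => rw [← Nat.div_add_mod i m, ← Nat.div_add_mod j m]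
    simp only [Nat.mul_add_mod, Nat.mod_mod]
    group
  have h3 := hp (i / m) (j / m)
  have h4 := L.tri (a ^ (i + j) * (a ^ (i % m))⁻¹) (a ^ (j % m))⁻¹
  have h5 := L.tri (a ^ (i + j)) (a ^ (i % m))⁻¹
  rw [L.symm] at h4 h5
  rw [← e] at h4
  have h6 := L.tri ((a ^ m) ^ (i / m)) (a ^ (i % m))
  have h7 := L.tri ((a ^ m) ^ (j / m)) (a ^ (j % m))
  rw [← h2] at h6 h7
  linarith [h1 i, h1 j]

/-- The elements moving the base point and its translate by `φ` by at most `ε`. -/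
def fix (ε : ℝ) (φ : G) : Set G := {g | L.τ g ≤ ε ∧ L.τ (φ⁻¹ * g * φ) ≤ ε}

/-- Quantitative form of being loxodromic and WPD. -/
structure Good (a : G) (p : ℝ) : Prop where
  chain : ∀ i j : ℕ, L.τ (a ^ i) + L.τ (a ^ j) ≤ L.τ (a ^ (i + j)) + p
  big : ∀ R, ∃ n₀ : ℕ, ∀ n, n₀ ≤ n → R ≤ L.τ (a ^ n)
  wpd : ∀ ε, ∃ n₀ : ℕ, ∀ n, n₀ ≤ n → (L.fix ε (a ^ n)).Finite

theorem good_of_lox {a : G} {c C : ℝ} (hc : 0 < c) (h : ∀ n : ℕ, c * n - C ≤ L.τ (a ^ n))
    (hw : ∀ ε, ∃ n : ℕ, (L.fix ε (a ^ n)).Finite) : ∃ p, L.Good a p := by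
  obtain ⟨p, hp⟩ := L.chain_of_lox hc h
  refine ⟨p, hp, fun R => ?_, fun ε => ?_⟩
  · obtain ⟨n₀, hn₀⟩ := exists_nat_ge ((R + C) / c)
    rw [div_le_iff₀ hc] at hn₀
    refine ⟨n₀, fun n hn => ?_⟩
    have : (n₀ : ℝ) * c ≤ n * c := by gcongr
    linarith [h n]
  · obtain ⟨k, hk⟩ := hw (ε + (p + 2 * ε) + L.δ)
    refine ⟨k, fun n hn => hk.subset ?_⟩
    obtain ⟨d, rfl⟩ := Nat.exists_eq_add_of_le hn
    rintro g ⟨h1, h2⟩
    have h0 := (L.nonneg g).trans h1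
    have hp0 : 0 ≤ p := by simpa [L.one] using hp 0 0
    refine ⟨by linarith [L.hδ], ?_⟩
    have a1 := hp k d
    have a2 := L.tri g (a ^ k)
    have a3 := L.tri' g⁻¹ (a ^ k)
    have a4 := L.tri (a ^ d) ((a ^ (k + d))⁻¹ * g * a ^ (k + d))⁻¹
    have a5 := L.tri' g (g * a ^ k)
    rw [L.symm] at a4
    rw [mul_assoc]
    refine L.close (x := a ^ (k + d)) ?_ ?_ ?_ (by linarith)
    · rw [show (a ^ k)⁻¹ * a ^ (k + d) = a ^ d by group]
      linarith
    · rw [show (g * a ^ k)⁻¹ * a ^ (k + d) = a ^ d * ((a ^ (k + d))⁻¹ * g * a ^ (k + d))⁻¹ by group]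
      linarith
    · have := L.tri' (g⁻¹) (a ^ k)
      rw [inv_inv, L.symm] at this
      linarith

theorem Good.inv {L : Len G} {a : G} {p : ℝ} (h : L.Good a p) : L.Good a⁻¹ p := by
  refine ⟨fun i j => ?_, fun R => ?_, fun ε => ?_⟩
  · simpa only [inv_pow, L.symm] using h.chain i j
  · simpa only [inv_pow, L.symm] using h.big R
  · obtain ⟨n₀, hn₀⟩ := h.wpd ε
    refine ⟨n₀, fun n hn => ((hn₀ n hn).image fun g => (a ^ n)⁻¹ * g * a ^ n).subset ?_⟩
    rintro g ⟨h1, h2⟩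
    rw [inv_pow, inv_inv] at h2
    refine ⟨a ^ n * g * (a ^ n)⁻¹, ⟨h2, ?_⟩, by group⟩
    rwa [show (a ^ n)⁻¹ * (a ^ n * g * (a ^ n)⁻¹) * a ^ n = g by group]

theorem Good.ivt {L : Len G} {a : G} {p : ℝ} (h : L.Good a p) {s : ℝ} (hs : 0 ≤ s) :
    ∃ i : ℕ, s ≤ L.τ (a ^ i) ∧ L.τ (a ^ i) ≤ s + L.τ a := by
  classical
  have ex : ∃ i : ℕ, s ≤ L.τ (a ^ i) := (h.big s).imp fun n hn => hn n le_rfl
  refine ⟨Nat.find ex, Nat.find_spec ex, ?_⟩
  rcases e : Nat.find ex with _ | i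
  · simp only [pow_zero, L.one]
    linarith [L.nonneg a]
  · have := Nat.find_min ex (m := i) (by omega)
    rw [pow_succ]
    linarith [L.tri (a ^ i) a]

theorem Good.transverse {L : Len G} {a : G} {p : ℝ} (h : L.Good a p) (π : G →* Q) (ha : π a = 1) :
    ∃ F : Set Q, F.Finite ∧ ∀ b, π b ∉ F → ∃ D, ∀ n : ℕ,
      L.τ (a ^ n) + L.τ (b * a ^ n) ≤ L.τ ((a ^ n)⁻¹ * b * a ^ n) + D := by
  obtain ⟨k, hk⟩ := h.wpd (L.τ a + p + L.δ + (p + L.δ) + L.δ)
  refine ⟨π '' _, (hk k le_rfl).image _, fun b hb => ?_⟩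
  by_contra! hcon
  have hδ := L.hδ
  have ha0 := L.nonneg a
  have hp0 : 0 ≤ p := by simpa [L.one] using h.chain 0 0
  obtain ⟨j, hj⟩ := h.big (L.τ b + p + L.δ + 1)
  obtain ⟨i, hi1, hi2⟩ := h.ivt (L.nonneg (b * a ^ j))
  obtain ⟨n, hn⟩ := hcon (2 * ((i + j + k : ℕ) * L.τ a) + p + L.δ)
  have hM : ∀ s : ℕ, s ≤ i + j + k → L.τ (a ^ s) ≤ (i + j + k : ℕ) * L.τ a := fun s hs =>
    (L.pow_le a s).trans (by gcongr)
  have hn' : i + j + k ≤ n := by
    by_contra! hlt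
    have := L.tri' (a ^ n) (b * a ^ n)
    rw [← mul_assoc] at this
    linarith [hM n hlt.le]
  have c1 : ∀ s t : ℕ, j ≤ s → L.τ (b * a ^ s) + L.τ (a ^ t) ≤ L.τ (b * a ^ (s + t)) + (p + L.δ) := by
    intro s t hs
    have := L.extend (E := p) (x := (a ^ s)⁻¹) (y := a ^ t) (x' := (b * a ^ s)⁻¹)
      (by rw [inv_inv, L.symm, ← pow_add]; exact h.chain s t)
      (by
        have := L.tri' b⁻¹ (a ^ s)
        rw [inv_inv, L.symm] at this
        rw [show (a ^ s)⁻¹⁻¹ * (b * a ^ s)⁻¹ = b⁻¹ by group, L.symm, L.symm, L.symm]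
        linarith [hj s hs])
    rw [L.symm, inv_inv, mul_assoc, ← pow_add] at this
    linarith
  have c2 : ∀ s : ℕ, j ≤ s → s ≤ n →
      L.τ (b * a ^ s) + L.τ ((b * a ^ s)⁻¹ * (b * a ^ n)) ≤ L.τ (b * a ^ n) + (p + L.δ) := by
    intro s hs hs'
    obtain ⟨t, rfl⟩ := Nat.exists_eq_add_of_le hs'
    rw [show (b * a ^ s)⁻¹ * (b * a ^ (s + t)) = a ^ t by group]
    exact c1 s t hs
  have c3 : ∀ s : ℕ, s ≤ i + j + k →
      L.τ (a ^ s) + L.τ ((a ^ s)⁻¹ * (b * a ^ n)) ≤ L.τ (b * a ^ n) + (p + L.δ) := by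
    intro s hs
    obtain ⟨t, rfl⟩ := Nat.exists_eq_add_of_le (hs.trans hn')
    have := L.extend (E := p) (x := a ^ t) (y := (a ^ s)⁻¹) (x' := (a ^ s)⁻¹ * (b * a ^ (s + t)))
      (by
        rw [show (a ^ t)⁻¹ * (a ^ s)⁻¹ = (a ^ (s + t))⁻¹ by group, L.symm, L.symm]
        linarith [h.chain s t])
      (by
        have d1 := L.tri' (a ^ s) (b * a ^ (s + t))
        have d2 := L.tri (a ^ s) (a ^ t)
        rw [← pow_add] at d2
        rw [show (a ^ t)⁻¹ * ((a ^ s)⁻¹ * (b * a ^ (s + t))) = (a ^ (s + t))⁻¹ * b * a ^ (s + t) by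
          group]
        linarith [hM s hs])
    rw [show ((a ^ s)⁻¹ * (b * a ^ (s + t)))⁻¹ * (a ^ s)⁻¹ = (b * a ^ (s + t))⁻¹ by group,
      L.symm, L.symm] at this
    linarith
  refine hb ⟨(a ^ i)⁻¹ * (b * a ^ j), ⟨?_, ?_⟩, by simp [ha]⟩
  · exact L.close (c3 i (by omega)) (c2 j le_rfl (by omega)) (by linarith) (by linarith)
  · rw [show (a ^ k)⁻¹ * ((a ^ i)⁻¹ * (b * a ^ j)) * a ^ k = (a ^ (i + k))⁻¹ * (b * a ^ (j + k)) by
      group]
    have d1 := c1 j k le_rfl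
    have d2 := h.chain i k
    have d3 := L.tri (a ^ i) (a ^ k)
    have d4 := L.tri (b * a ^ j) (a ^ k)
    rw [← pow_add] at d3
    rw [mul_assoc, ← pow_add] at d4
    exact L.close (c3 (i + k) (by omega)) (c2 (j + k) (by omega) (by omega)) (by linarith)
      (by linarith)

theorem sys_of_family (π : G →* Q) (φ : Fin 3 → G) (hk : ∀ i, π (φ i) = 1) {D : ℝ} (hD : 0 ≤ D)
    (h1 : ∀ i j, i ≠ j → L.τ (φ i) + L.τ (φ j) ≤ L.τ ((φ i)⁻¹ * φ j) + D)
    (h2 : ∀ i j, i ≠ j → L.τ (φ i) + L.τ (φ j) ≤ L.τ (φ i * (φ j)⁻¹) + D)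
    (h3 : ∀ i, D + 2 * L.δ < L.τ (φ i))
    (h4 : ∀ i, (L.fix (1 + 18 * (2 * D + 3 * L.δ) + L.δ) (φ i)).Finite) : Nonempty (Sys π) := by
  classical
  have hδ := L.hδ
  refine ⟨⟨L.τ, 2 * D + 3 * L.δ, ∑ i, (L.fix (1 + 18 * (2 * D + 3 * L.δ) + L.δ) (φ i)).ncard,
    Finset.univ.image φ, by linarith, L.one, L.nonneg, L.tri, L.symm,
    fun E x y y' a1 a2 a3 => by linarith [L.between a1 a2 a3], by simpa using hk, fun u v => ?_,
    fun x p => ?_⟩⟩
  · have a1 : ∀ i j, i ≠ j → L.τ u + L.τ (φ i) ≤ L.τ (u * φ i) + (D + L.δ) ∨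
        L.τ u + L.τ (φ j) ≤ L.τ (u * φ j) + (D + L.δ) := by
      intro i j hij
      rw [or_iff_not_imp_left, not_le]
      intro h
      have := L.extend (x' := u⁻¹) (h1 i j hij) (by rw [L.comm, inv_inv, L.symm]; linarith)
      rw [inv_inv, L.symm] at this
      linarith
    have a2 : ∀ i j, i ≠ j → L.τ (φ i) + L.τ v ≤ L.τ (φ i * v) + (D + L.δ) ∨
        L.τ (φ j) + L.τ v ≤ L.τ (φ j * v) + (D + L.δ) := by
      intro i j hij
      rw [or_iff_not_imp_left, not_le]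
      intro h
      have := L.extend (E := D) (x := (φ i)⁻¹) (y := (φ j)⁻¹) (x' := v)
        (by rw [inv_inv, L.symm, L.symm]; exact h2 i j hij) (by rw [inv_inv, L.symm]; linarith)
      rw [L.comm, inv_inv, L.symm] at this
      linarith
    obtain ⟨i, b1, b2⟩ : ∃ i, L.τ u + L.τ (φ i) ≤ L.τ (u * φ i) + (D + L.δ) ∧
        L.τ (φ i) + L.τ v ≤ L.τ (φ i * v) + (D + L.δ) := by
      by_contra! hcon
      have c0 := hcon 0
      have c1 := hcon 1
      have c2 := hcon 2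
      rcases a1 0 1 (by decide) with d1 | d1 <;> rcases a1 0 2 (by decide) with d2 | d2 <;>
        rcases a1 1 2 (by decide) with d3 | d3
      all_goals first
        | exact (a2 0 1 (by decide)).elim (c0 ‹_›).not_ge (c1 ‹_›).not_ge
        | exact (a2 0 2 (by decide)).elim (c0 ‹_›).not_ge (c2 ‹_›).not_ge
        | exact (a2 1 2 (by decide)).elim (c1 ‹_›).not_ge (c2 ‹_›).not_ge
    refine ⟨φ i, by simp, ?_⟩
    have := L.extend (E := D + L.δ) (x := φ i) (y := u⁻¹) (x' := φ i * v)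
      (by rw [L.comm, inv_inv, L.symm]; linarith)
      (by rw [inv_mul_cancel_left]; linarith [h3 i])
    rw [L.comm, inv_inv, L.symm, ← mul_assoc] at this
    linarith
  · have a1 : ∀ i, {y | L.τ y + L.τ (φ i) + L.τ ((y * φ i)⁻¹ * x) ≤ L.τ x + 9 * (2 * D + 3 * L.δ) ∧
        ⌊L.τ y⌋ = p}.encard ≤ (L.fix (1 + 18 * (2 * D + 3 * L.δ) + L.δ) (φ i)).ncard := by
      intro i
      rw [(h4 i).cast_ncard_eq]
      rcases Set.eq_empty_or_nonempty {y | L.τ y + L.τ (φ i) + L.τ ((y * φ i)⁻¹ * x) ≤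
        L.τ x + 9 * (2 * D + 3 * L.δ) ∧ ⌊L.τ y⌋ = p} with h | ⟨y, hy1, hy2⟩
      · rw [h, Set.encard_empty]
        exact zero_le
      refine Set.encard_le_encard_of_injOn (f := fun z => y⁻¹ * z) ?_ fun _ _ _ _ h =>
        mul_left_cancel h
      rintro z ⟨hz1, hz2⟩
      have b1 := Int.floor_le (L.τ y)
      have b2 := Int.lt_floor_add_one (L.τ y)
      have b3 := Int.floor_le (L.τ z)
      have b4 := Int.lt_floor_add_one (L.τ z)
      rw [hy2] at b1 b2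
      rw [hz2] at b3 b4
      have b5 := L.tri y (φ i)
      have b6 := L.tri z (φ i)
      have b7 := L.tri' (y * φ i) x
      have b8 := L.tri' (z * φ i) x
      have b9 := L.tri (φ i) ((y * φ i)⁻¹ * x)
      have b10 := L.tri (φ i) ((z * φ i)⁻¹ * x)
      rw [show φ i * ((y * φ i)⁻¹ * x) = y⁻¹ * x by group] at b9
      rw [show φ i * ((z * φ i)⁻¹ * x) = z⁻¹ * x by group] at b10
      constructor
      · linarith [L.close (x := x) (y := y) (y' := z) (c := 1) (E := 9 * (2 * D + 3 * L.δ))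
          (by linarith) (by linarith) (by linarith) (by linarith)]
      · rw [show (φ i)⁻¹ * (y⁻¹ * z) * φ i = (y * φ i)⁻¹ * (z * φ i) by group]
        linarith [L.close (x := x) (y := y * φ i) (y' := z * φ i) (c := 1 + 9 * (2 * D + 3 * L.δ))
          (E := 9 * (2 * D + 3 * L.δ)) (by linarith) (by linarith) (by linarith) (by linarith)]
    rw [Fin.sum_univ_three]
    push_cast
    refine le_trans (Set.encard_le_encard ?_) ((Set.encard_union_le _ _).trans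
      (add_le_add ((Set.encard_union_le _ _).trans (add_le_add (a1 0) (a1 1))) (a1 2)))
    rintro y ⟨⟨_, hψ, h⟩, h'⟩
    obtain ⟨i, -, rfl⟩ := Finset.mem_image.1 hψ
    fin_cases i
    · exact Or.inl (Or.inl ⟨h, h'⟩)
    · exact Or.inl (Or.inr ⟨h, h'⟩)
    · exact Or.inr ⟨h, h'⟩

theorem Good.sys {L : Len G} {a : G} {p : ℝ} (h : L.Good a p) [Infinite Q] (π : G →* Q)
    (hπ : Function.Surjective π) (ha : π a = 1) : Nonempty (Sys π) := by
  obtain ⟨F₁, hF₁, t₁⟩ := h.transverse π ha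
  obtain ⟨F₂, hF₂, t₂⟩ := h.inv.transverse π (by simp [ha])
  obtain ⟨F, hF, hF', hF''⟩ : ∃ F : Set Q, F.Finite ∧ (∀ q, q ∉ F → q⁻¹ ∉ F) ∧
      ∀ q, q ∉ F → q ∉ F₁ ∧ q ∉ F₂ :=
    ⟨(F₁ ∪ F₂) ∪ (F₁ ∪ F₂)⁻¹, (hF₁.union hF₂).union (hF₁.union hF₂).inv, fun q hq => by
      simpa [and_comm] using hq, fun q hq => by
      simp only [Set.mem_union, not_or] at hq
      exact hq.1⟩
  obtain ⟨q₁, hq₁⟩ := hF.exists_notMem
  obtain ⟨q₂, hq₂⟩ := (hF.union (hF.image (q₁ * ·))).exists_notMem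
  obtain ⟨b₁, rfl⟩ := hπ q₁
  obtain ⟨b₂, rfl⟩ := hπ q₂
  have hq₃ : π b₂ ∉ F := fun hc => hq₂ (Or.inl hc)
  have hq₄ : (π b₁)⁻¹ * π b₂ ∉ F := fun hc => hq₂ (Or.inr ⟨_, hc, by simp⟩)
  let b : Fin 3 → G := ![1, b₁, b₂]
  have hb : ∀ i j, i ≠ j → π ((b i)⁻¹ * b j) ∉ F := by
    intro i j hij
    fin_cases i <;> fin_cases j
    all_goals first
      | exact (hij rfl).elim
      | simpa [b] using hq₁
      | simpa [b] using hq₃
      | simpa [b] using hq₄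
      | simpa [b] using hF' _ hq₁
      | simpa [b] using hF' _ hq₃
      | simpa [b] using hF' _ hq₄
  have key : ∀ c : G, (∀ b, π b ∉ F → ∃ D, ∀ n : ℕ,
      L.τ (c ^ n) + L.τ (b * c ^ n) ≤ L.τ ((c ^ n)⁻¹ * b * c ^ n) + D) →
      ∃ D, 0 ≤ D ∧ ∀ i j, i ≠ j → ∀ n : ℕ, L.τ (b i * c ^ n * (b i)⁻¹) + L.τ (b j * c ^ n * (b j)⁻¹) ≤
        L.τ ((b i * c ^ n * (b i)⁻¹)⁻¹ * (b j * c ^ n * (b j)⁻¹)) + D := by
    intro c hc
    have : ∀ ij : Fin 3 × Fin 3, ∃ D, ij.1 ≠ ij.2 → ∀ n : ℕ,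
        L.τ (b ij.1 * c ^ n * (b ij.1)⁻¹) + L.τ (b ij.2 * c ^ n * (b ij.2)⁻¹) ≤
        L.τ ((b ij.1 * c ^ n * (b ij.1)⁻¹)⁻¹ * (b ij.2 * c ^ n * (b ij.2)⁻¹)) + D := by
      rintro ⟨i, j⟩
      by_cases hij : i = j
      · exact ⟨0, fun h => (h hij).elim⟩
      obtain ⟨D, hD⟩ := hc _ (hb i j hij)
      refine ⟨D + 4 * L.τ (b i) + 2 * L.τ (b j), fun _ n => ?_⟩
      have a1 := L.tri (b i * c ^ n) (b i)⁻¹
      have a2 := L.tri (b i) (c ^ n)
      have a3 := L.tri (b j * c ^ n) (b j)⁻¹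
      have a4 := L.tri' (b i) (b j * c ^ n)
      have a5 := L.tri ((b i)⁻¹ * ((b i * c ^ n * (b i)⁻¹)⁻¹ * (b j * c ^ n * (b j)⁻¹))) (b j)
      have a6 := L.tri (b i)⁻¹ ((b i * c ^ n * (b i)⁻¹)⁻¹ * (b j * c ^ n * (b j)⁻¹))
      rw [L.symm] at a1 a3 a6
      rw [← mul_assoc] at a4
      rw [show (b i)⁻¹ * ((b i * c ^ n * (b i)⁻¹)⁻¹ * (b j * c ^ n * (b j)⁻¹)) * b j =
        (c ^ n)⁻¹ * ((b i)⁻¹ * b j) * c ^ n by group] at a5
      dsimp only
      linarith [hD n]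
    choose D hD using this
    refine ⟨∑ ij, |D ij|, Finset.sum_nonneg fun _ _ => abs_nonneg _, fun i j hij n => ?_⟩
    have := Finset.single_le_sum (f := fun ij => |D ij|) (fun _ _ => abs_nonneg _)
      (Finset.mem_univ (i, j))
    linarith [hD (i, j) hij n, le_abs_self (D (i, j))]
  obtain ⟨D₁, hD₁, k₁⟩ := key a fun b hb => t₁ b (hF'' _ hb).1
  obtain ⟨D₂, hD₂, k₂⟩ := key a⁻¹ fun b hb => t₂ b (hF'' _ hb).2
  have hB : ∀ i, L.τ (b i) ≤ ∑ i, L.τ (b i) := fun i =>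
    Finset.single_le_sum (f := fun i => L.τ (b i)) (fun _ _ => L.nonneg _) (Finset.mem_univ i)
  obtain ⟨n₁, hn₁⟩ := h.big (D₁ + D₂ + 2 * L.δ + 2 * ∑ i, L.τ (b i) + 1)
  obtain ⟨n₂, hn₂⟩ := h.wpd (1 + 18 * (2 * (D₁ + D₂) + 3 * L.δ) + L.δ + 2 * ∑ i, L.τ (b i))
  refine L.sys_of_family π (fun i => b i * a ^ (n₁ + n₂) * (b i)⁻¹) (fun i => by simp [ha])
    (D := D₁ + D₂) (by linarith) (fun i j hij => by linarith [k₁ i j hij (n₁ + n₂)])
    (fun i j hij => ?_) (fun i => ?_) fun i => ?_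
  · have := k₂ i j hij (n₁ + n₂)
    have e : ∀ i, b i * a⁻¹ ^ (n₁ + n₂) * (b i)⁻¹ = (b i * a ^ (n₁ + n₂) * (b i)⁻¹)⁻¹ := fun i => by
      group
    rw [e, e, L.symm, L.symm, inv_inv] at this
    linarith
  · have a1 := L.tri ((b i)⁻¹ * (b i * a ^ (n₁ + n₂) * (b i)⁻¹)) (b i)
    have a2 := L.tri (b i)⁻¹ (b i * a ^ (n₁ + n₂) * (b i)⁻¹)
    rw [show (b i)⁻¹ * (b i * a ^ (n₁ + n₂) * (b i)⁻¹) * b i = a ^ (n₁ + n₂) by group] at a1
    rw [L.symm] at a2
    linarith [hn₁ (n₁ + n₂) (by omega), hB i]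
  · refine ((hn₂ (n₁ + n₂) (by omega)).image fun g => b i * g * (b i)⁻¹).subset ?_
    rintro g ⟨a1, a2⟩
    have c : ∀ x, L.τ ((b i)⁻¹ * x * b i) ≤ L.τ x + 2 * ∑ i, L.τ (b i) := fun x => by
      linarith [L.tri ((b i)⁻¹ * x) (b i), L.tri (b i)⁻¹ x, L.symm (b i), hB i]
    refine ⟨(b i)⁻¹ * g * b i, ⟨by linarith [c g], ?_⟩, by group⟩
    rw [show (a ^ (n₁ + n₂))⁻¹ * ((b i)⁻¹ * g * b i) * a ^ (n₁ + n₂) = (b i)⁻¹ *
      ((b i * a ^ (n₁ + n₂) * (b i)⁻¹)⁻¹ * g * (b i * a ^ (n₁ + n₂) * (b i)⁻¹)) * b i by group]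
    linarith [c ((b i * a ^ (n₁ + n₂) * (b i)⁻¹)⁻¹ * g * (b i * a ^ (n₁ + n₂) * (b i)⁻¹))]

end Len

end Pool.Agent.MP_4a6971_al

end
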