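import Pool.Agent.MP_4a6971_al.Mg.H66_Ker

/-!
The density theorem when the WPD element is not assumed to lie in the kernel.
-/

namespace Pool.Agent.MP_4a6971_al

variable {G Q : Type*} [Group G] [Group Q]

theorem good_of_wpd {X : Type*} [MetricSpace X] [MulAction G X] [IsIsometricSMul G X]
    (hX : IsHyperbolic X) {a : G} (h1 : IsLoxodromic X a) (h2 : IsWPD X a) :
    ∃ (L : Len G) (p : ℝ), L.Good a p := by
  obtain ⟨o, c, hc, C, h1⟩ := h1
  obtain ⟨δ, hδ⟩ := hX
  have e : ∀ x y : G, dist o ((x⁻¹ * y) • o) = dist (x • o) (y • o) := fun x y => by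
    rw [← dist_smul x, smul_smul, mul_inv_cancel_left]
  let L : Len G :=
    { τ := fun g => dist o (g • o)
      δ := 2 * δ
      hδ := by
        have := hδ o o o o
        simp only [min_self] at this
        linarith
      one := by simp
      nonneg := fun _ => dist_nonneg
      tri := fun x y => by
        have := dist_triangle o (x • o) ((x * y) • o)
        rwa [← e x (x * y), inv_mul_cancel_left] at this
      symm := fun x => by simpa [dist_comm] using e x 1
      four := fun x y z => by
        have := hδ o (x • o) (y • o) (z • o)
        simp only [gromovProduct, sub_le_iff_le_add, min_le_iff] at this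
        simp only [e, dist_comm o]
        rcases this with h | h
        · left
          linarith
        · right
          linarith }
  refine ⟨L, L.good_of_lox hc h1 fun ε => ?_⟩
  obtain ⟨n, -, hn⟩ := h2 o (max ε 1) (lt_max_of_lt_right one_pos)
  refine ⟨n, hn.subset ?_⟩
  rintro g ⟨b1, b2⟩
  refine ⟨le_max_of_le_left b1, le_max_of_le_left ?_⟩
  rw [smul_smul, ← e, ← mul_assoc]
  exact b2

end Pool.Agent.MP_4a6971_al
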